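import Pool.Agent.T6.H16.MR.F2

set_option autoImplicit false

/-! The family `f = γ p ^ m + h`, `p`, `h` generic weighted homogeneous forms: the conclusion. -/

namespace Pool.Agent.T6.H16.MR.SS.Fm

open MvPolynomial
open Pool.Agent.T6.H16.MR.Fm

variable {n r₁ r₂ : ℕ} {ω : Fin n → ℕ} {d e m : ℕ} {u : Fin r₁ → Fin n → ℕ}
  {w : Fin r₂ → Fin n → ℕ} {k : Type} [Field k]

lemma sb_mono (G : Fin 1 → MvPolynomial (Fin n) k) (b : k) (a : Fin n → ℕ) (t : ℕ) :
    sb G (C b * ∏ p, X p ^ (Fin.append a (fun _ => t) : Fin (n + 1) → ℕ) p) =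
      C b * (∏ i, X i ^ a i) * G 0 ^ t := by
  unfold sb
  rw [map_mul, map_prod, Fin.prod_univ_add, Fin.prod_univ_one, algHom_C]
  simp only [map_pow, aeval_X, Fin.append_left, Fin.append_right]
  rw [mul_assoc]
  rfl

/-- the forms -/
noncomputable abbrev fm {r : ℕ} (u : Fin r → Fin n → ℕ) (α : Fin r → k) :
    MvPolynomial (Fin n) k := form u α

lemma sb_some (G : Fin 1 → MvPolynomial (Fin n) k) (c : Fin (1 + (r₁ + r₂)) → k) :
    sb G (part (fπ r₁ r₂) (fW m u w) c (some 0)) = fm u (fun j => c (jp r₂ j)) := by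
  unfold part fm form
  rw [map_sum, Fin.sum_univ_add, Fin.sum_univ_add, Fin.sum_univ_one]
  have h0 : fπ r₁ r₂ (Fin.castAdd (r₁ + r₂) 0) = none := fπ_0
  have hp : ∀ j, fπ r₁ r₂ (Fin.natAdd 1 (Fin.castAdd r₂ j)) = some 0 := fπ_p
  have hh : ∀ j, fπ r₁ r₂ (Fin.natAdd 1 (Fin.natAdd r₁ j)) = none := fπ_h
  rw [h0, if_neg (by simp), map_zero, zero_add]
  rw [Finset.sum_eq_zero (s := Finset.univ) (f := fun j : Fin r₂ => _) (fun j _ => by
    rw [hh, if_neg (by simp), map_zero]), add_zero]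
  refine Finset.sum_congr rfl fun j _ => ?_
  rw [hp, if_pos rfl]
  have h1 : fW m u w (Fin.natAdd 1 (Fin.castAdd r₂ j)) = Fin.append (u j) (fun _ => 0) :=
    fW_p m u w j
  rw [h1, sb_mono, pow_zero, mul_one]
  rfl

lemma sb_none (G : Fin 1 → MvPolynomial (Fin n) k) (c : Fin (1 + (r₁ + r₂)) → k) :
    sb G (part (fπ r₁ r₂) (fW m u w) c none) =
      C (c (j0 r₁ r₂)) * G 0 ^ m + fm w (fun j => c (jh r₁ j)) := by
  unfold part fm form
  rw [map_sum, Fin.sum_univ_add, Fin.sum_univ_add, Fin.sum_univ_one]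
  have h0 : fπ r₁ r₂ (Fin.castAdd (r₁ + r₂) 0) = none := fπ_0
  have hp : ∀ j, fπ r₁ r₂ (Fin.natAdd 1 (Fin.castAdd r₂ j)) = some 0 := fπ_p
  have hh : ∀ j, fπ r₁ r₂ (Fin.natAdd 1 (Fin.natAdd r₁ j)) = none := fπ_h
  rw [h0, if_pos rfl]
  rw [Finset.sum_eq_zero (s := Finset.univ) (f := fun j : Fin r₁ => _) (fun j _ => by
    rw [hp, if_neg (by simp), map_zero]), zero_add]
  have hW0 : fW m u w (Fin.castAdd (r₁ + r₂) 0) = Fin.append (fun _ => 0) (fun _ => m) :=
    fW_0 m u w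
  rw [hW0, sb_mono]
  congr 1
  · simp only [pow_zero, Finset.prod_const_one, mul_one]
    rfl
  · refine Finset.sum_congr rfl fun j _ => ?_
    rw [hh, if_pos rfl]
    have h1 : fW m u w (Fin.natAdd 1 (Fin.natAdd r₁ j)) = Fin.append (w j) (fun _ => 0) :=
      fW_h m u w j
    rw [h1, sb_mono, pow_zero, mul_one]
    rfl

lemma mono_eq (u : Fin n → ℕ) (a : k) :
    C a * ∏ i, X i ^ u i = monomial (Finsupp.equivFunOnFinite.symm u) a := by
  rw [monomial_eq, Finsupp.prod_fintype _ _ (fun i => pow_zero _)]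
  rfl

lemma fm_hom {r : ℕ} {v : Fin r → Fin n → ℕ} (hv : ∀ j, ∑ i, ω i * v j i = d) (α : Fin r → k) :
    IsWeightedHomogeneous ω (fm v α) d := by
  unfold fm form
  refine IsWeightedHomogeneous.sum _ _ _ fun j _ => ?_
  rw [mono_eq]
  refine isWeightedHomogeneous_monomial _ _ _ ?_
  rw [Finsupp.weight_apply, Finsupp.sum_fintype _ _ (fun i => by simp), ← hv j]
  exact Finset.sum_congr rfl fun i _ => by
    simp only [smul_eq_mul, Finsupp.coe_equivFunOnFinite_symm]
    exact Nat.mul_comm _ _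

lemma fm_coeff {r : ℕ} {v : Fin r → Fin n → ℕ} (hv : Function.Injective v) (α : Fin r → k)
    (j : Fin r) : coeff (Finsupp.equivFunOnFinite.symm (v j)) (fm v α) = α j := by
  unfold fm form
  rw [coeff_sum, Finset.sum_eq_single j]
  · rw [mono_eq, coeff_monomial, if_pos rfl]
  · intro l _ hl
    rw [mono_eq, coeff_monomial, if_neg]
    intro h
    exact hl (hv (Finsupp.equivFunOnFinite.symm.injective h))
  · intro h
    exact absurd (Finset.mem_univ _) h

lemma nonconst (H : Hy ω d e m u w) (γ : k) (α : Fin r₁ → k) (β : Fin r₂ → k) (j : Fin r₂)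
    (hj : β j ≠ 0) : (C γ * fm u α ^ m + fm w β).totalDegree ≠ 0 := by
  intro h0
  have hde := H.hde
  rw [totalDegree_eq_zero_iff_eq_C] at h0
  have hs : Finsupp.weight ω (Finsupp.equivFunOnFinite.symm (w j)) = e := by
    rw [Finsupp.weight_apply, Finsupp.sum_fintype _ _ (fun i => by simp), ← H.hw.2.1 j]
    exact Finset.sum_congr rfl fun i _ => by
      simp only [smul_eq_mul, Finsupp.coe_equivFunOnFinite_symm]
      exact Nat.mul_comm _ _
  have h1 := congrArg (coeff (Finsupp.equivFunOnFinite.symm (w j))) h0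
  rw [coeff_C, if_neg, coeff_add, coeff_C_mul, fm_coeff H.hw.1] at h1
  · have h2 : coeff (Finsupp.equivFunOnFinite.symm (w j)) (fm u α ^ m) = 0 := by
      by_contra hne
      have h3 := ((fm_hom H.hu.2.1 α).pow m) hne
      rw [hs] at h3
      simp only [smul_eq_mul] at h3
      omega
    rw [h2, mul_zero, zero_add] at h1
    exact hj h1
  · intro h
    rw [← h, map_zero] at hs
    omega

lemma const0 (H : Hy ω d e m u w) (γ : k) (α : Fin r₁ → k) (β : Fin r₂ → k) :
    constantCoeff (C γ * fm u α ^ m + fm w β) = 0 := by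
  have hde := H.hde
  have hm := H.hm
  have hd : 0 < d := by
    have h1 := H.hn
    exact lt_of_le_of_lt (Nat.zero_le _) (H.hωd ⟨0, by omega⟩)
  have key : ∀ {q : MvPolynomial (Fin n) k} {l : ℕ}, IsWeightedHomogeneous ω q l → 0 < l →
      constantCoeff q = 0 := by
    intro q l hq hl
    by_contra hne
    rw [constantCoeff_eq] at hne
    have h1 := hq hne
    rw [map_zero] at h1
    omega
  rw [map_add, map_mul, map_pow, key (fm_hom H.hu.2.1 α) hd, zero_pow (by omega), mul_zero,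
    key (fm_hom H.hw.2.1 β) (by omega), add_zero]

/-- **The family.** -/
theorem gC {F : Type} [Field F] [Algebra F ℂ] (H : Hy ω d e m u w) :
    Generic F (1 + (r₁ + r₂)) fun k _ _ _ c => ∀ f : MvPolynomial (Fin n) k,
      IsSum m u w c f → Conj f ∧ ConjL f := by
  obtain ⟨g, hg, hz⟩ := gB (F := F) (fπ r₁ r₂) (fW m u w) 0 (tower H (facets H False))
  obtain ⟨g0, hg0, hz0⟩ := gB0 (F := F) (fπ r₁ r₂) (fW m u w) 0 (tower0 H (facets H True))
  have hn := H.hn
  obtain ⟨jw, E, hjw⟩ := H.hw.2.2 ⟨0, by omega⟩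
  refine ⟨g * g0 * X (jh r₁ jw), mul_ne_zero (mul_ne_zero hg hg0) (X_ne_zero _),
    fun k _ _ _ _ c hc f hS => ?_⟩
  obtain ⟨γ, α, β, hcc, hff⟩ := hS
  rw [map_mul, map_mul, aeval_X] at hc
  have hc2 := right_ne_zero_of_mul hc
  have hc1 := left_ne_zero_of_mul (left_ne_zero_of_mul hc)
  have hc0 := right_ne_zero_of_mul (left_ne_zero_of_mul hc)
  have e0 : c (j0 r₁ r₂) = γ := by
    rw [hcc]
    exact Fin.append_left _ _ _
  have ep : (fun j => c (jp r₂ j)) = α := by
    funext j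
    rw [hcc]
    exact (Fin.append_right _ _ _).trans (Fin.append_left _ _ _)
  have eh : (fun j => c (jh r₁ j)) = β := by
    funext j
    rw [hcc]
    exact (Fin.append_right _ _ _).trans (Fin.append_right _ _ _)
  have hG : ∀ i : Fin 1, (fun _ => fm u α : Fin 1 → MvPolynomial (Fin n) k) i =
      sb (fun _ => fm u α) (part (fπ r₁ r₂) (fW m u w) c (some i)) := by
    intro i
    have : i = 0 := Subsingleton.elim _ _
    rw [this, sb_some, ep]
  have hf : sb (fun _ => fm u α) (phi (fπ r₁ r₂) (fW m u w) c (0 : MvPolynomial (Fin (n + 1)) F)) =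
      C γ * fm u α ^ m + fm w β := by
    unfold phi
    rw [map_zero, add_zero, sb_none, e0, eh]
  have hT : IsTower (fπ r₁ r₂) (fW m u w) (0 : MvPolynomial (Fin (n + 1)) F) c f :=
    ⟨fun _ => fm u α, hG, by rw [hf, hff]⟩
  have hnc : (C γ * fm u α ^ m + fm w β).totalDegree ≠ 0 :=
    nonconst H γ α β jw (by rw [← eh]; exact hc2)
  refine ⟨hz k c hc1 f (by rw [hff]; exact hnc) hT, hz0 k c hc0 f ⟨?_, ?_⟩ hT⟩
  · rw [hff]
    intro h
    exact hnc (by rw [h, totalDegree_zero])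
  · rw [hff]
    exact const0 H γ α β

end Pool.Agent.T6.H16.MR.SS.Fm
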