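import Pool.Agent.T6.H16.MR.Loc

set_option autoImplicit false

/-! Stably sparse polynomials: final form and an explicit family. -/

namespace Pool.Agent.T6.H16.MR

open MvPolynomial
open Pool.Agent.H628R4.TP
open Pool.Agent.W428.MOT
open Pool.Agent.W425.ND (spa)
open Pool.Agent.W425.SM (Ind)
open Pool.Agent.W426.SM (gord IsRay)
open Pool.Agent.W803.SM (gord_le exists_gord)
open Pool.Agent.T6.H16.ME (hyp)
open Pool.Agent.Y231.N4 (zetaE0)
open Pool.Agent.Y229.RE (emb yv zv xv emb_l emb_r)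

section A

variable {k : Type} [Field k] {m : ℕ}

/-- The exponents of the monomials of `G` are affinely independent. -/
def AffInd (G : MvPolynomial (Fin m) k) : Prop :=
  AffineIndependent ℚ (fun (w : {w // w ∈ G.support}) (i : Fin m) => ((w : Fin m →₀ ℕ) i : ℚ))

/-- polynomials with affinely independent exponents are sparse -/
theorem of_supp (G : MvPolynomial (Fin m) k) (h : AffInd G) :
    ∃ (v : Fin G.support.card → Fin m → ℕ) (c : Fin G.support.card → k), Ind v ∧
      (∀ j, c j ≠ 0) ∧ G = spa v c ∧ ∀ w ∈ G.support, ∃ j, ∀ i, v j i = w i := by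
  classical
  have e := G.support.equivFin
  refine ⟨fun j i => (e.symm j : Fin m →₀ ℕ) i, fun j => coeff (e.symm j : Fin m →₀ ℕ) G,
    ?_, fun j => ?_, ?_, fun w hw => ⟨e ⟨w, hw⟩, fun i => ?_⟩⟩
  · unfold Ind
    exact (affineIndependent_equiv e.symm).2 h
  · exact mem_support_iff.1 (e.symm j).2
  · unfold spa
    rw [Equiv.sum_comp e.symm (fun w : {w // w ∈ G.support} => C (coeff (w : Fin m →₀ ℕ) G) *
      ∏ i, (X i : MvPolynomial (Fin m) k) ^ (w : Fin m →₀ ℕ) i),
      Finset.sum_coe_sort G.support (fun w => C (coeff w G) *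
      ∏ i, (X i : MvPolynomial (Fin m) k) ^ w i)]
    conv_lhs => rw [G.as_sum]
    refine Finset.sum_congr rfl fun w _ => ?_
    rw [monomial_eq, Finsupp.prod_fintype _ _ (fun i => pow_zero _)]
  · show ((e.symm (e ⟨w, hw⟩) : {w // w ∈ G.support}) : Fin m →₀ ℕ) i = w i
    rw [Equiv.symm_apply_apply]

end A

section B

variable {k : Type} [Field k] [Algebra k ℂ] {n κ r : ℕ}

/-- The statement of Q1 for `f ∈ k[x_1, …, x_n]`. -/
def Conj (f : MvPolynomial (Fin n) k) : Prop :=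
  ∃ S : Finset (ℤ × ℤ),
    (∀ p ∈ S, p.1 < 0 ∧ 0 < p.2 ∧ ∀ b : Polynomial ℂ,
      IsBFunction (MvPolynomial.map (algebraMap k ℂ) f) b → b.eval ((p.1 : ℂ) / p.2) = 0) ∧
    InRat (LuMu f) S (zetaE f)

/-- The statement at the origin, with the local `b`-function. -/
def Conj0 (f : MvPolynomial (Fin n) k) : Prop :=
  ∃ S : Finset (ℤ × ℤ),
    (∀ p ∈ S, p.1 < 0 ∧ 0 < p.2 ∧ ∀ b : Polynomial ℂ,
      IsLocalBFunction (MvPolynomial.map (algebraMap k ℂ) f) b → b.eval ((p.1 : ℂ) / p.2) = 0) ∧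
    InRat (LuMu (0 : MvPolynomial (Fin 0) k)) S (zetaE0 f)

/-- `κ N < |a|` for all weights `a` for which `G` has order at least `N > 0` -/
def WtBd (κ : ℕ) {m : ℕ} (G : MvPolynomial (Fin m) k) : Prop :=
  ∀ (a : Fin m → ℕ) (N : ℕ), 0 < N → (∀ w ∈ G.support, N ≤ ∑ i, a i * w i) → κ * N < ∑ i, a i

omit [Algebra k ℂ] in
theorem stsp_of (f : MvPolynomial (Fin n) k) (θ : PAut k (n + (κ + κ)))
    (h1 : AffInd (θ (hyp f κ))) (h2 : WtBd κ (θ (hyp f κ))) :
    ∃ (v : Fin (θ (hyp f κ)).support.card → Fin (n + (κ + κ)) → ℕ)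
      (c : Fin (θ (hyp f κ)).support.card → k), StSp f κ v c θ := by
  obtain ⟨v, c, hv, hc, hG, hs⟩ := of_supp _ h1
  refine ⟨v, c, hv, hc, hG, fun a ha => h2 a _ ha fun w hw => ?_⟩
  obtain ⟨j, hj⟩ := hs w hw
  refine (gord_le v a j).trans (le_of_eq ?_)
  exact Finset.sum_congr rfl fun i _ => by rw [hj]

theorem resA (f : MvPolynomial (Fin n) k) (hf : f.totalDegree ≠ 0) (θ : PAut k (n + (κ + κ)))
    (h1 : AffInd (θ (hyp f κ))) (h2 : WtBd κ (θ (hyp f κ))) : Conj f := by
  obtain ⟨v, c, h⟩ := stsp_of f θ h1 h2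
  exact global_zeta f hf h

theorem resA0 (f : MvPolynomial (Fin n) k) (hf0 : f ≠ 0) (hf : constantCoeff f = 0)
    (θ : PAut k (n + (κ + κ))) (h0 : Fix θ)
    (h1 : AffInd (θ (hyp f κ))) (h2 : WtBd κ (θ (hyp f κ))) : Conj0 f := by
  obtain ⟨v, c, h⟩ := stsp_of f θ h1 h2
  exact local_zeta f hf0 hf h h0

theorem resB (Φ : MvPolynomial (Fin (n + κ)) k) (q : Fin κ → MvPolynomial (Fin (n + κ)) k)
    (hq : Tri q) (g : Fin κ → MvPolynomial (Fin n) k) (hg : ∀ i, g i = sb g (q i))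
    (hf : (sb g Φ).totalDegree ≠ 0) (h : AffInd (cay Φ q)) : Conj (sb g Φ) := by
  obtain ⟨v, c, hv, hc, hG, -⟩ := of_supp _ h
  obtain ⟨θ, hθ⟩ := tow_stsp hq hg (fun h0 => hf (by rw [h0]; exact totalDegree_zero)) hv hc hG
  exact global_zeta _ hf hθ

theorem resB0 (Φ : MvPolynomial (Fin (n + κ)) k) (q : Fin κ → MvPolynomial (Fin (n + κ)) k)
    (hq : Tri q) (hq0 : ∀ i, constantCoeff (q i) = 0)
    (hlin : ∀ j : Fin κ, coeff (Finsupp.single (Fin.natAdd n j) 1) Φ = 0)
    (g : Fin κ → MvPolynomial (Fin n) k) (hg : ∀ i, g i = sb g (q i))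
    (hf0 : sb g Φ ≠ 0) (hf : constantCoeff (sb g Φ) = 0) (h : AffInd (cay Φ q)) :
    Conj0 (sb g Φ) := by
  obtain ⟨v, c, hv, hc, hG, -⟩ := of_supp _ h
  obtain ⟨θ, hθ, h0⟩ := tow_loc hq hq0 hlin hg hf0 hv hc hG
  exact local_zeta _ hf0 hf hθ h0

end B

/-! ### An explicit family -/

section C

variable {k : Type} [Field k] {n : ℕ}

/-- `f = γ (∑ α_i x_i ^ A_i) ^ c + δ ∏ x_i ^ D_i` -/
noncomputable def fC (A D : Fin n → ℕ) (c : ℕ) (α : Fin n → k) (γ δ : k) :
    MvPolynomial (Fin n) k :=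
  C γ * (∑ i, C (α i) * X i ^ A i) ^ c + C δ * ∏ i, X i ^ D i

/-- `γ z ^ c + δ ∏ x_i ^ D_i` -/
noncomputable def pC (D : Fin n → ℕ) (c : ℕ) (γ δ : k) : MvPolynomial (Fin (n + 1)) k :=
  C γ * X (Fin.natAdd n 0) ^ c + C δ * ∏ i, X (Fin.castAdd 1 i) ^ D i

/-- `∑ α_i x_i ^ A_i` -/
noncomputable def qC (A : Fin n → ℕ) (α : Fin n → k) : Fin 1 → MvPolynomial (Fin (n + 1)) k :=
  fun _ => ∑ i, C (α i) * X (Fin.castAdd 1 i) ^ A i

/-- `∑ α_i x_i ^ A_i` -/
noncomputable def gC (A : Fin n → ℕ) (α : Fin n → k) : Fin 1 → MvPolynomial (Fin n) k :=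
  fun _ => ∑ i, C (α i) * X i ^ A i

/-- the exponents -/
def vC (A D : Fin n → ℕ) (c : ℕ) : Fin (n + 3) → Fin (n + (1 + 1)) → ℕ :=
  Fin.append (fun i => Pi.single (xv 1 i) (A i) + Pi.single (yv n 0) 1)
    ![Pi.single (yv n 0) 1 + Pi.single (zv n 0) 1, Pi.single (zv n 0) c,
      Fin.append D (fun _ => 0)]

/-- the coefficients -/
def cC (α : Fin n → k) (γ δ : k) : Fin (n + 3) → k :=
  Fin.append (fun i => - α i) ![1, γ, δ]

lemma prodS {M : ℕ} (p : Fin M) (s : ℕ) :
    (∏ i, (X i : MvPolynomial (Fin M) k) ^ (Pi.single p s : Fin M → ℕ) i) = X p ^ s := by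
  rw [Finset.prod_eq_single p]
  · rw [Pi.single_eq_same]
  · intro i _ hi
    rw [Pi.single_eq_of_ne hi, pow_zero]
  · intro h
    exact absurd (Finset.mem_univ p) h

lemma prodS2 {M : ℕ} (p q : Fin M) (s t : ℕ) :
    (∏ i, (X i : MvPolynomial (Fin M) k) ^
      (Pi.single p s + Pi.single q t : Fin M → ℕ) i) = X p ^ s * X q ^ t := by
  rw [← prodS p s, ← prodS q t, ← Finset.prod_mul_distrib]
  refine Finset.prod_congr rfl fun i _ => ?_
  rw [Pi.add_apply, pow_add]

lemma prodD (D : Fin n → ℕ) :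
    (∏ i, (X i : MvPolynomial (Fin (n + (1 + 1))) k) ^
      (Fin.append D (fun _ => 0) : Fin (n + (1 + 1)) → ℕ) i) = ∏ i, X (xv 1 i) ^ D i := by
  rw [Fin.prod_univ_add]
  simp only [Fin.append_left, Fin.append_right, pow_zero, Finset.prod_const_one, mul_one]
  rfl

lemma eqC (A D : Fin n → ℕ) (c : ℕ) (α : Fin n → k) (γ δ : k) :
    cay (pC D c γ δ) (qC A α) = spa (vC A D c) (cC α γ δ) := by
  unfold cay spa
  rw [Fin.sum_univ_one, Fin.sum_univ_add, Fin.sum_univ_three]
  unfold vC cC pC qC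
  simp only [Fin.append_left, Fin.append_right, prodS, prodS2, Matrix.cons_val_zero,
    Matrix.cons_val_one, Matrix.cons_val_two, Matrix.head_cons, Matrix.tail_cons, map_add, map_mul,
    map_pow, map_sum, map_prod, rename_X, rename_C, emb_r, emb_l, map_one, map_neg, one_mul,
    pow_one, Matrix.cons_val, prodD]
  simp only [mul_sub, Finset.mul_sum, neg_mul, Finset.sum_neg_distrib]
  have h2 : ∑ i, X (yv n 0) * (C (α i) * X (xv 1 i) ^ A i) =
      ∑ i, C (α i) * (X (xv 1 i) ^ A i * X (yv n 0)) :=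
    Finset.sum_congr rfl fun i _ => by ring
  rw [h2]
  ring

lemma xyC (i : Fin n) : xv 1 i ≠ yv n 0 := by
  intro h
  have := congrArg Fin.val h
  simp [xv, yv] at this
  omega

lemma xzC (i : Fin n) : xv 1 i ≠ zv n 0 := by
  intro h
  have := congrArg Fin.val h
  simp [xv, zv] at this
  omega

lemma yzC : yv n (0 : Fin 1) ≠ zv n 0 := by
  intro h
  have := congrArg Fin.val h
  simp [yv, zv] at this

lemma xinjC {N κ : ℕ} : Function.Injective (xv κ : Fin N → Fin (N + (κ + κ))) :=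
  Fin.castAdd_injective _ _

lemma indC (A D : Fin n → ℕ) (c : ℕ) (hA : ∀ i, A i ≠ 0) (hc : c ≠ 0)
    (hD : ∑ i, (D i : ℚ) / A i ≠ c) : Ind (vC A D c) := by
  unfold Ind
  rw [affineIndependent_iff]
  intro s w hw hs j hj
  set w' : Fin (n + 3) → ℚ := fun j => if j ∈ s then w j else 0 with hw'
  have h1 : ∑ j, w' j = 0 := by
    rw [← hw, hw']
    simp [Finset.sum_ite_mem]
  have h2 : ∀ p : Fin (n + (1 + 1)), ∑ j, w' j * (vC A D c j p : ℚ) = 0 := by
    intro p
    have h3 := congrFun hs p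
    rw [Finset.sum_apply] at h3
    simp only [Pi.smul_apply, smul_eq_mul, Pi.zero_apply] at h3
    rw [← h3, hw']
    simp [ite_mul, Finset.sum_ite_mem]
  set μ : Fin n → ℚ := fun i => w' (Fin.castAdd 3 i) with hμ
  set l2 : ℚ := w' (Fin.natAdd n 0) with hl2
  set l0 : ℚ := w' (Fin.natAdd n 1) with hl0
  set l1 : ℚ := w' (Fin.natAdd n 2) with hl1
  have e1 : ∑ i, μ i + (l2 + l0 + l1) = 0 := by
    rw [Fin.sum_univ_add, Fin.sum_univ_three] at h1
    exact h1
  have eD : ∀ i : Fin n, (Fin.append D (fun _ => 0) : Fin (n + (1 + 1)) → ℕ) (xv 1 i) = D i :=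
    fun i => Fin.append_left _ _ i
  have eDy : (Fin.append D (fun _ => 0) : Fin (n + (1 + 1)) → ℕ) (yv n 0) = 0 :=
    Fin.append_right _ _ _
  have eDz : (Fin.append D (fun _ => 0) : Fin (n + (1 + 1)) → ℕ) (zv n 0) = 0 :=
    Fin.append_right _ _ _
  have ez : l2 + l0 * c = 0 := by
    have h3 := h2 (zv n 0)
    rw [Fin.sum_univ_add, Fin.sum_univ_three] at h3
    unfold vC at h3
    simp only [Fin.append_left, Fin.append_right, Pi.add_apply, Matrix.cons_val_zero,
      Matrix.cons_val_one, Matrix.cons_val, eDz, Pi.single_eq_same, Pi.single_eq_of_ne yzC.symm,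
      Pi.single_eq_of_ne (xzC _).symm, Nat.cast_zero, mul_zero, add_zero,
      Finset.sum_const_zero, zero_add, Nat.cast_one, mul_one] at h3
    exact h3
  have ey : ∑ i, μ i + l2 = 0 := by
    have h3 := h2 (yv n 0)
    rw [Fin.sum_univ_add, Fin.sum_univ_three] at h3
    unfold vC at h3
    simp only [Fin.append_left, Fin.append_right, Pi.add_apply, Matrix.cons_val_zero,
      Matrix.cons_val_one, Matrix.cons_val, eDy, Pi.single_eq_same, Pi.single_eq_of_ne yzC,
      Pi.single_eq_of_ne (xyC _).symm, Nat.cast_zero, mul_zero, add_zero,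
      zero_add, Nat.cast_one, mul_one] at h3
    exact h3
  have ex : ∀ i, μ i * A i + l1 * D i = 0 := by
    intro i
    have h3 := h2 (xv 1 i)
    rw [Fin.sum_univ_add, Fin.sum_univ_three] at h3
    unfold vC at h3
    simp only [Fin.append_left, Fin.append_right, Pi.add_apply, Matrix.cons_val_zero,
      Matrix.cons_val_one, Matrix.cons_val, eD, Pi.single_eq_of_ne (xyC i),
      Pi.single_eq_of_ne (xzC i), Nat.cast_zero, mul_zero, add_zero, zero_add] at h3
    rw [Finset.sum_eq_single i] at h3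
    · rw [Pi.single_eq_same] at h3
      exact h3
    · intro j _ hj
      rw [Pi.single_eq_of_ne, Nat.cast_zero, mul_zero]
      intro h
      exact hj (xinjC h).symm
    · intro h
      exact absurd (Finset.mem_univ i) h
  have hμi : ∀ i, μ i = - l1 * ((D i : ℚ) / A i) := by
    intro i
    have hAi : (A i : ℚ) ≠ 0 := by exact_mod_cast hA i
    field_simp
    linear_combination ex i
  have hsum : ∑ i, μ i = - l1 * ∑ i, (D i : ℚ) / A i := by
    rw [Finset.mul_sum]
    exact Finset.sum_congr rfl fun i _ => hμi i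
  have hc' : (c : ℚ) ≠ 0 := by exact_mod_cast hc
  have hl1' : l1 = 0 := by
    have h3 : l1 * ((c : ℚ) - ∑ i, (D i : ℚ) / A i) = 0 := by
      have h4 : l2 = l1 * ∑ i, (D i : ℚ) / A i := by linear_combination ey - hsum
      linear_combination c * e1 - c * ey - ez + h4
    rcases mul_eq_zero.1 h3 with h4 | h4
    · exact h4
    · exact absurd (sub_eq_zero.1 h4).symm hD
  have hμ0 : ∀ i, μ i = 0 := fun i => by rw [hμi, hl1', neg_zero, zero_mul]
  have hl2' : l2 = 0 := by
    rw [Finset.sum_eq_zero fun i _ => hμ0 i, zero_add] at ey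
    exact ey
  have hl0' : l0 = 0 := by
    rw [hl2', zero_add] at ez
    exact (mul_eq_zero.1 ez).resolve_right hc'
  have h5 : ∀ j, w' j = 0 := by
    intro j
    refine Fin.addCases (fun i => hμ0 i) (fun i => ?_) j
    fin_cases i
    · exact hl2'
    · exact hl0'
    · exact hl1'
  have h6 := h5 j
  rw [hw'] at h6
  simpa only [hj, if_true] using h6

lemma degC (A D : Fin n → ℕ) (c : ℕ) (α : Fin n → k) (γ δ : k) (hn : 0 < n)
    (hA : ∀ i, A i ≠ 0) (hc : c ≠ 0) (hD : ∑ i, (D i : ℚ) / A i ≠ c) (hα : ∀ i, α i ≠ 0)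
    (hγ : γ ≠ 0) : (fC A D c α γ δ).totalDegree ≠ 0 := by
  intro h
  rw [totalDegree_eq_zero_iff_eq_C] at h
  set i0 : Fin n := ⟨0, hn⟩ with hi0
  have h1 := congrArg (aeval (fun i => if i = i0 then (Polynomial.X : Polynomial k) else 0)) h
  have h2 : ∑ i, (aeval (fun i => if i = i0 then (Polynomial.X : Polynomial k) else 0))
      (C (α i) * X i ^ A i) = Polynomial.C (α i0) * Polynomial.X ^ A i0 := by
    rw [Finset.sum_eq_single i0]
    · rw [map_mul, map_pow, aeval_X, if_pos rfl, aeval_C]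
      rfl
    · intro i _ hi
      rw [map_mul, map_pow, aeval_X, if_neg hi, zero_pow (hA i), mul_zero]
    · intro h
      exact absurd (Finset.mem_univ _) h
  unfold fC at h1
  rw [map_add, map_mul, map_pow, map_sum, h2, map_mul, map_prod, aeval_C, aeval_C,
    aeval_C, mul_pow] at h1
  have h3 := congrArg (fun p : Polynomial k => p.coeff (c * A i0)) h1
  simp only [Polynomial.coeff_add] at h3
  have h4 : (∏ i, (aeval (fun i => if i = i0 then (Polynomial.X : Polynomial k) else 0))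
      (X i ^ D i : MvPolynomial (Fin n) k)).coeff (c * A i0) = 0 := by
    by_cases h5 : ∀ i, i ≠ i0 → D i = 0
    · rw [Finset.prod_eq_single i0]
      · rw [map_pow, aeval_X, if_pos rfl, Polynomial.coeff_X_pow, if_neg]
        intro h6
        apply hD
        rw [Finset.sum_eq_single i0]
        · rw [← h6]
          have hAi : (A i0 : ℚ) ≠ 0 := by exact_mod_cast hA i0
          push_cast
          field_simp
        · intro i _ hi
          rw [h5 i hi, Nat.cast_zero, zero_div]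
        · intro h
          exact absurd (Finset.mem_univ _) h
      · intro i _ hi
        rw [h5 i hi, pow_zero, map_one]
      · intro h
        exact absurd (Finset.mem_univ _) h
    · push Not at h5
      obtain ⟨i, hi, hDi⟩ := h5
      rw [Finset.prod_eq_zero (Finset.mem_univ i), Polynomial.coeff_zero]
      rw [map_pow, aeval_X, if_neg hi, zero_pow hDi]
  have h7 : ∀ (a : k) (p : Polynomial k) (j : ℕ), (algebraMap k (Polynomial k) a * p).coeff j =
      a * p.coeff j := fun a p j => Polynomial.coeff_C_mul _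
  rw [h7, h7, h4, mul_zero, add_zero, ← pow_mul, mul_comm (A i0) c, ← map_pow,
    Polynomial.coeff_C_mul, Polynomial.coeff_X_pow, if_pos rfl, mul_one] at h3
  have h8 : (algebraMap k (Polynomial k) (coeff 0 (fC A D c α γ δ))).coeff (c * A i0) = 0 := by
    show (Polynomial.C _).coeff _ = 0
    rw [Polynomial.coeff_C, if_neg]
    exact Nat.mul_ne_zero hc (hA i0)
  unfold fC at h8
  rw [h8] at h3
  exact mul_ne_zero hγ (pow_ne_zero _ (hα i0)) h3

lemma sbC (A D : Fin n → ℕ) (c : ℕ) (α : Fin n → k) (γ δ : k) :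
    sb (gC A α) (pC D c γ δ) = fC A D c α γ δ := by
  unfold sb pC fC gC
  rw [map_add, map_mul, map_pow, aeval_X, Fin.append_right, map_mul, map_prod, aeval_C, aeval_C,
    MvPolynomial.algebraMap_eq]
  congr 2
  refine Finset.prod_congr rfl fun i _ => ?_
  rw [map_pow, aeval_X, Fin.append_left]

lemma sbq (A : Fin n → ℕ) (α : Fin n → k) (i : Fin 1) :
    gC A α i = sb (gC A α) (qC A α i) := by
  unfold sb qC
  rw [map_sum]
  refine Finset.sum_congr rfl fun j _ => ?_
  rw [map_mul, map_pow, aeval_X, Fin.append_left, aeval_C, MvPolynomial.algebraMap_eq]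

lemma triC (A : Fin n → ℕ) (α : Fin n → k) : Tri (qC A α) := by
  intro i j hj
  exfalso
  unfold qC at hj
  have h1 := MvPolynomial.vars_sum_subset _ _ hj
  rw [Finset.mem_biUnion] at h1
  obtain ⟨i', -, h2⟩ := h1
  have h3 := MvPolynomial.vars_mul _ _ h2
  rw [vars_C, Finset.empty_union] at h3
  have h4 := MvPolynomial.vars_pow _ _ h3
  rw [vars_X, Finset.mem_singleton] at h4
  have h5 := congrArg Fin.val h4
  simp at h5
  omega

lemma neC (α : Fin n → k) (γ δ : k) (hα : ∀ i, α i ≠ 0) (hγ : γ ≠ 0) (hδ : δ ≠ 0) (j) :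
    cC α γ δ j ≠ 0 := by
  unfold cC
  refine Fin.addCases (fun j => ?_) (fun j => ?_) j
  · rw [Fin.append_left]
    exact neg_ne_zero.2 (hα j)
  · rw [Fin.append_right]
    fin_cases j
    · exact one_ne_zero
    · exact hγ
    · exact hδ

/-- **The explicit family.** -/
theorem resC [Algebra k ℂ] (hn : 0 < n) (A D : Fin n → ℕ) (c : ℕ) (α : Fin n → k) (γ δ : k)
    (hA : ∀ i, A i ≠ 0) (hc : c ≠ 0) (hD : ∑ i, (D i : ℚ) / A i ≠ c) (hα : ∀ i, α i ≠ 0)
    (hγ : γ ≠ 0) (hδ : δ ≠ 0) :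
    Conj (C γ * (∑ i, C (α i) * X i ^ A i) ^ c + C δ * ∏ i, X i ^ D i) := by
  have hdeg := degC A D c α γ δ hn hA hc hD hα hγ
  have h1 := sbC A D c α γ δ
  obtain ⟨θ, hθ⟩ := tow_stsp (triC A α) (sbq A α) (Φ := pC D c γ δ) (by
    rw [h1]
    intro h0
    rw [h0] at hdeg
    exact hdeg totalDegree_zero) (indC A D c hA hc hD) (neC α γ δ hα hγ hδ) (eqC A D c α γ δ)
  rw [h1] at hθ
  exact global_zeta _ hdeg hθ

end C

end Pool.Agent.T6.H16.MR
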