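import Pool.Agent.T6.H16.MR.Defs
import Pool.Agent.T6.H16.MR.Res

set_option autoImplicit false

/-! The final statements. -/

namespace Pool.Agent.T6.H16.MR.SS

open MvPolynomial

variable {k : Type} [Field k] {n κ : ℕ}

theorem emb_eq : (Fin.append (vx κ) (vz n) : Fin (n + κ) → Fin (n + (κ + κ))) =
    Pool.Agent.Y229.RE.emb := by
  funext i
  refine Fin.addCases (fun i => ?_) (fun i => ?_) i
  · rw [Fin.append_left, Pool.Agent.Y229.RE.emb_l]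
    rfl
  · rw [Fin.append_right, Pool.Agent.Y229.RE.emb_r]
    rfl

theorem cay_eq (Φ : MvPolynomial (Fin (n + κ)) k)
    (q : Fin κ → MvPolynomial (Fin (n + κ)) k) : cay Φ q = MR.cay Φ q := by
  unfold cay MR.cay
  rw [emb_eq]
  rfl

variable [Algebra k ℂ]

theorem rA (f : MvPolynomial (Fin n) k) (hf : f.totalDegree ≠ 0) (θ : PAut k (n + (κ + κ)))
    (h1 : AffInd (θ (hypr f κ))) (h2 : WtBd κ (θ (hypr f κ))) : Conj f :=
  resA (κ := κ) f hf θ h1 h2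

theorem rA0 (f : MvPolynomial (Fin n) k) (hf0 : f ≠ 0) (hf : constantCoeff f = 0)
    (θ : PAut k (n + (κ + κ))) (h0 : Fix θ)
    (h1 : AffInd (θ (hypr f κ))) (h2 : WtBd κ (θ (hypr f κ))) : Conj0 f :=
  resA0 (κ := κ) f hf0 hf θ h0 h1 h2

theorem rB (Φ : MvPolynomial (Fin (n + κ)) k) (q : Fin κ → MvPolynomial (Fin (n + κ)) k)
    (hq : Tri q) (g : Fin κ → MvPolynomial (Fin n) k) (hg : ∀ i, g i = sb g (q i))
    (hf : (sb g Φ).totalDegree ≠ 0) (h : AffInd (cay Φ q)) : Conj (sb g Φ) := by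
  rw [cay_eq] at h
  exact resB Φ q hq g hg hf h

theorem rB0 (Φ : MvPolynomial (Fin (n + κ)) k) (q : Fin κ → MvPolynomial (Fin (n + κ)) k)
    (hq : Tri q) (hq0 : ∀ i, constantCoeff (q i) = 0)
    (hlin : ∀ j : Fin κ, coeff (Finsupp.single (Fin.natAdd n j) 1) Φ = 0)
    (g : Fin κ → MvPolynomial (Fin n) k) (hg : ∀ i, g i = sb g (q i))
    (hf0 : sb g Φ ≠ 0) (hf : constantCoeff (sb g Φ) = 0) (h : AffInd (cay Φ q)) :
    Conj0 (sb g Φ) := by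
  rw [cay_eq] at h
  exact resB0 Φ q hq hq0 hlin g hg hf0 hf h

theorem rC (hn : 0 < n) (A D : Fin n → ℕ) (c : ℕ) (α : Fin n → k) (γ δ : k)
    (hA : ∀ i, A i ≠ 0) (hc : c ≠ 0) (hD : ∑ i, (D i : ℚ) / A i ≠ c) (hα : ∀ i, α i ≠ 0)
    (hγ : γ ≠ 0) (hδ : δ ≠ 0) :
    Conj (C γ * (∑ i, C (α i) * X i ^ A i) ^ c + C δ * ∏ i, X i ^ D i) :=
  resC hn A D c α γ δ hA hc hD hα hγ hδ

end Pool.Agent.T6.H16.MR.SS
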