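import Pool.Agent.Y229.RE.Main
import Pool.Agent.T6.H16.ME.Q2

set_option autoImplicit false

/-! Functional equations of `f + ∑ y_i z_i` in other polynomial coordinates. -/

namespace Pool.Agent.T6.H16.MR

open MvPolynomial Pool.Agent.H628R4.TP Pool.Agent.W425.SG
open Pool.Agent.T6.H16.ME (hyp)

variable {M : ℕ}

/-- conjugation of operators -/
noncomputable def cj (θ : MvPolynomial (Fin M) ℂ ≃ₐ[ℂ] MvPolynomial (Fin M) ℂ)
    (Q : Module.End ℂ (MvPolynomial (Fin M) ℂ)) : Module.End ℂ (MvPolynomial (Fin M) ℂ) :=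
  θ.toLinearMap ∘ₗ Q ∘ₗ θ.symm.toLinearMap

lemma cj_apply (θ : MvPolynomial (Fin M) ℂ ≃ₐ[ℂ] MvPolynomial (Fin M) ℂ)
    (Q : Module.End ℂ (MvPolynomial (Fin M) ℂ)) (p : MvPolynomial (Fin M) ℂ) :
    cj θ Q p = θ (Q (θ.symm p)) := rfl

lemma cj_pd (θ : MvPolynomial (Fin M) ℂ ≃ₐ[ℂ] MvPolynomial (Fin M) ℂ) (i : Fin M)
    (p : MvPolynomial (Fin M) ℂ) :
    θ (pderiv i (θ.symm p)) = ∑ l, θ (pderiv i (θ.symm (X l))) * pderiv l p := by
  induction p using MvPolynomial.induction_on with
  | C a =>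
    have h1 : θ.symm (C a) = C a := by
      rw [← MvPolynomial.algebraMap_eq, AlgEquiv.commutes]
    rw [h1, pderiv_C, map_zero]
    symm
    exact Finset.sum_eq_zero fun l _ => by rw [pderiv_C, mul_zero]
  | add p q hp hq =>
    rw [map_add, map_add, map_add, hp, hq, ← Finset.sum_add_distrib]
    exact Finset.sum_congr rfl fun l _ => by rw [map_add, mul_add]
  | mul_X p j hp =>
    rw [map_mul, Derivation.leibniz, map_add, smul_eq_mul, smul_eq_mul, map_mul, map_mul,
      θ.apply_symm_apply, θ.apply_symm_apply, hp, Finset.mul_sum]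
    have h1 : ∀ l, θ (pderiv i (θ.symm (X l))) * pderiv l (p * X j) =
        θ (pderiv i (θ.symm (X l))) * (p * pderiv l (X j)) +
          X j * (θ (pderiv i (θ.symm (X l))) * pderiv l p) := by
      intro l
      rw [Derivation.leibniz, smul_eq_mul, smul_eq_mul]
      ring
    simp only [h1]
    rw [Finset.sum_add_distrib]
    congr 1
    rw [Finset.sum_eq_single j]
    · rw [pderiv_X_self, mul_one, mul_comm]
    · intro l _ hl
      rw [pderiv_X_of_ne (Ne.symm hl), mul_zero, mul_zero]
    · intro h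
      exact absurd (Finset.mem_univ _) h

lemma cj_mem (θ : MvPolynomial (Fin M) ℂ ≃ₐ[ℂ] MvPolynomial (Fin M) ℂ)
    (Q : Module.End ℂ (MvPolynomial (Fin M) ℂ)) (hQ : Q ∈ weylS (Fin M)) :
    cj θ Q ∈ weylS (Fin M) := by
  unfold weylS at hQ
  induction hQ using Algebra.adjoin_induction with
  | mem P hP =>
    rcases hP with ⟨i, rfl⟩ | ⟨i, rfl⟩
    · have e : cj θ (LinearMap.mulLeft ℂ (X i)) = LinearMap.mulLeft ℂ (θ (X i)) := by
        refine LinearMap.ext fun p => ?_
        rw [cj_apply, LinearMap.mulLeft_apply, LinearMap.mulLeft_apply, map_mul,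
          θ.apply_symm_apply]
      rw [e]
      exact Pool.Agent.Y229.RE.mul_mem _
    · have e : cj θ ((pderiv i : Derivation ℂ (MvPolynomial (Fin M) ℂ)
          (MvPolynomial (Fin M) ℂ)) : MvPolynomial (Fin M) ℂ →ₗ[ℂ] MvPolynomial (Fin M) ℂ) =
          ∑ l, LinearMap.mulLeft ℂ (θ (pderiv i (θ.symm (X l)))) *
            ((pderiv l : Derivation ℂ (MvPolynomial (Fin M) ℂ)
              (MvPolynomial (Fin M) ℂ)) : MvPolynomial (Fin M) ℂ →ₗ[ℂ] MvPolynomial (Fin M) ℂ) := by
        refine LinearMap.ext fun p => ?_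
        rw [cj_apply, LinearMap.sum_apply]
        exact cj_pd θ i p
      rw [e]
      exact Subalgebra.sum_mem _ fun l _ =>
        Subalgebra.mul_mem _ (Pool.Agent.Y229.RE.mul_mem _) (Pool.Agent.Y229.RE.pd_mem l)
  | algebraMap c =>
    have e : cj θ (algebraMap ℂ _ c) = algebraMap ℂ _ c := by
      refine LinearMap.ext fun p => ?_
      rw [cj_apply, Module.algebraMap_end_apply, Module.algebraMap_end_apply, map_smul,
        θ.apply_symm_apply]
    rw [e]
    exact Subalgebra.algebraMap_mem _ c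
  | add P Q _ _ hP hQ =>
    have e : cj θ (P + Q) = cj θ P + cj θ Q := by
      refine LinearMap.ext fun p => ?_
      rw [cj_apply, LinearMap.add_apply, map_add, LinearMap.add_apply]
      rfl
    rw [e]
    exact Subalgebra.add_mem _ hP hQ
  | mul P Q _ _ hP hQ =>
    have e : cj θ (P * Q) = cj θ P * cj θ Q := by
      refine LinearMap.ext fun p => ?_
      rw [cj_apply, Module.End.mul_apply, Module.End.mul_apply, cj_apply, cj_apply,
        θ.symm_apply_apply]
    rw [e]
    exact Subalgebra.mul_mem _ hP hQ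

/-- **Functional equations in other polynomial coordinates.** -/
theorem unitEq_auto (θ : MvPolynomial (Fin M) ℂ ≃ₐ[ℂ] MvPolynomial (Fin M) ℂ) (loc : Prop)
    (h0 : loc → ∀ i, constantCoeff (θ (X i)) = 0) {F : MvPolynomial (Fin M) ℂ}
    {b : Polynomial ℂ} (h : UnitEq loc F b) : UnitEq loc (θ F) b := by
  classical
  obtain ⟨a, P, h1, h2, hP⟩ := h
  by_cases hl : loc
  · have hc : ∀ p, constantCoeff (θ p) = constantCoeff p := by
      intro p
      have h3 : ((constantCoeff : MvPolynomial (Fin M) ℂ →+* ℂ).comp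
          (θ : MvPolynomial (Fin M) ℂ →+* MvPolynomial (Fin M) ℂ)) = constantCoeff := by
        refine MvPolynomial.ringHom_ext (fun c => ?_) fun i => ?_
        · have h4 : θ (C c) = C c := by
            rw [← MvPolynomial.algebraMap_eq, AlgEquiv.commutes]
          rw [RingHom.comp_apply]
          show constantCoeff (θ (C c)) = _
          rw [h4]
        · rw [RingHom.comp_apply, constantCoeff_X]
          exact h0 hl i
      exact congrFun (congrArg DFunLike.coe h3) p
    refine ⟨θ a, P.mapRange (fun Q => ⟨cj θ Q.1, cj_mem θ _ Q.2⟩) ?_, ?_, fun h => absurd hl h,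
      fun s => ?_⟩
    · refine Subtype.ext (LinearMap.ext fun p => ?_)
      show θ ((0 : Module.End ℂ (MvPolynomial (Fin M) ℂ)) _) = 0
      rw [LinearMap.zero_apply, map_zero]
    · rw [hc, h1]
    · rw [Finsupp.sum_mapRange_index (fun m => by simp)]
      have h5 := congrArg θ (hP s)
      rw [map_mul, map_mul, map_pow] at h5
      have h6 : θ (C (b.eval (s : ℂ))) = C (b.eval (s : ℂ)) := by
        rw [← MvPolynomial.algebraMap_eq, AlgEquiv.commutes]
      rw [h6] at h5
      rw [h5, Finsupp.sum, map_sum, Finsupp.sum]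
      refine Finset.sum_congr rfl fun m _ => ?_
      rw [map_smul]
      congr 1
      rw [cj_apply, map_pow θ.symm, θ.symm_apply_apply]
  · have ha : a = 1 := h2 hl
    refine ⟨1, P.mapRange (fun Q => ⟨cj θ Q.1, cj_mem θ _ Q.2⟩) ?_, map_one _, fun _ => rfl,
      fun s => ?_⟩
    · refine Subtype.ext (LinearMap.ext fun p => ?_)
      show θ ((0 : Module.End ℂ (MvPolynomial (Fin M) ℂ)) _) = 0
      rw [LinearMap.zero_apply, map_zero]
    · rw [Finsupp.sum_mapRange_index (fun m => by simp)]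
      have h5 := congrArg θ (hP s)
      rw [ha, map_mul, map_mul, map_pow, map_one] at h5
      have h6 : θ (C (b.eval (s : ℂ))) = C (b.eval (s : ℂ)) := by
        rw [← MvPolynomial.algebraMap_eq, AlgEquiv.commutes]
      rw [h6] at h5
      rw [h5, Finsupp.sum, map_sum, Finsupp.sum]
      refine Finset.sum_congr rfl fun m _ => ?_
      rw [map_smul]
      congr 1
      rw [cj_apply, map_pow θ.symm, θ.symm_apply_apply]

theorem unitEq_iff {F : MvPolynomial (Fin M) ℂ} {b : Polynomial ℂ} :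
    UnitEq False F b ↔ IsBFunction F b := by
  constructor
  · rintro ⟨a, P, h1, h2, hP⟩
    refine ⟨P, fun s => ?_⟩
    rw [← hP s, h2 not_false, mul_one]
  · rintro ⟨P, hP⟩
    refine ⟨1, P, map_one _, fun _ => rfl, fun s => ?_⟩
    rw [mul_one]
    exact hP s

/-- **The functional equation of `G`.** -/
theorem bf_global {n κ : ℕ} {f : MvPolynomial (Fin n) ℂ} {b : Polynomial ℂ}
    (hb : IsBFunction f b)
    (θ : MvPolynomial (Fin (n + (κ + κ))) ℂ ≃ₐ[ℂ] MvPolynomial (Fin (n + (κ + κ))) ℂ) :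
    IsBFunction (θ (hyp f κ))
      ((Polynomial.X + 1) * b.comp (Polynomial.X + Polynomial.C (κ : ℂ))) := by
  rw [← unitEq_iff]
  refine unitEq_auto θ False (fun h => h.elim) ?_
  exact Pool.Agent.Y229.RE.unitEq_stab' False f b (unitEq_iff.2 hb) κ

end Pool.Agent.T6.H16.MR
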