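import Pool.Agent.Y231.N4.E1
import Pool.Agent.H628R4.TP.LocDefs

set_option autoImplicit false

/-! The definitions of the statement about stably sparse polynomials. -/

namespace Pool.Agent.T6.H16.MR.SS

open MvPolynomial
open Pool.Agent.H628R4.TP (IsBFunction IsLocalBFunction)
open Pool.Agent.W428.MOT (LuMu InRat zetaE)
open Pool.Agent.Y231.N4 (zetaE0)

/-! The variables of the affine space of dimension `n + 2 κ`: `x_i`, `i < n`, then `y_i`, `i < κ`, and
`z_i`, `i < κ`. -/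

/-- `x_i` -/
def vx {n : ℕ} (κ : ℕ) (i : Fin n) : Fin (n + (κ + κ)) := Fin.castAdd (κ + κ) i
/-- `y_i` -/
def vy (n : ℕ) {κ : ℕ} (i : Fin κ) : Fin (n + (κ + κ)) := Fin.natAdd n (Fin.castAdd κ i)
/-- `z_i` -/
def vz (n : ℕ) {κ : ℕ} (i : Fin κ) : Fin (n + (κ + κ)) := Fin.natAdd n (Fin.natAdd κ i)

section

variable {k : Type} [Field k] {n κ m : ℕ}

/-- The polynomial automorphisms of the affine space of dimension `m`. -/
abbrev PAut (k : Type) [Field k] (m : ℕ) : Type :=
  MvPolynomial (Fin m) k ≃ₐ[k] MvPolynomial (Fin m) k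

/-- `f(x) + ∑_{i < κ} y_i z_i` -/
noncomputable def hypr (f : MvPolynomial (Fin n) k) (κ : ℕ) : MvPolynomial (Fin (n + (κ + κ))) k :=
  rename (vx κ) f + ∑ i : Fin κ, X (vy n i) * X (vz n i)

/-- The exponents of the monomials of `G` are affinely independent. -/
def AffInd (G : MvPolynomial (Fin m) k) : Prop :=
  AffineIndependent ℚ (fun (w : {w // w ∈ G.support}) (i : Fin m) => ((w : Fin m →₀ ℕ) i : ℚ))

/-- `κ N < |a|` for all weights `a` such that all the monomials of `G` have degree at least `N > 0` for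
the weights `a`. -/
def WtBd (κ : ℕ) (G : MvPolynomial (Fin m) k) : Prop :=
  ∀ (a : Fin m → ℕ) (N : ℕ), 0 < N → (∀ w ∈ G.support, N ≤ ∑ i, a i * w i) → κ * N < ∑ i, a i

/-- The images of the variables have no constant term. -/
def Fix (θ : PAut k m) : Prop := ∀ i, constantCoeff (θ (X i)) = 0

/-- For `q_i ∈ k[x, z]`: `q_i` involves only the variables `x` and `z_j` with `j < i`. -/
def Tri (q : Fin κ → MvPolynomial (Fin (n + κ)) k) : Prop :=
  ∀ i j : Fin κ, Fin.natAdd n j ∈ (q i).vars → j < i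

/-- The substitution of `g_i(x)` for `z_i` in the polynomials in `x, z`. -/
noncomputable def sb (g : Fin κ → MvPolynomial (Fin n) k) :
    MvPolynomial (Fin (n + κ)) k →ₐ[k] MvPolynomial (Fin n) k :=
  aeval (Fin.append X g)

/-- `Φ(x, z) + ∑ y_i (z_i - q_i(x, z))` -/
noncomputable def cay (Φ : MvPolynomial (Fin (n + κ)) k)
    (q : Fin κ → MvPolynomial (Fin (n + κ)) k) : MvPolynomial (Fin (n + (κ + κ))) k :=
  rename (Fin.append (vx κ) (vz n)) Φ +
    ∑ i : Fin κ, X (vy n i) * (X (vz n i) - rename (Fin.append (vx κ) (vz n)) (q i))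

variable [Algebra k ℂ]

/-- The statement of Q1 for `f ∈ k[x_1, …, x_n]`. -/
def Conj (f : MvPolynomial (Fin n) k) : Prop :=
  ∃ S : Finset (ℤ × ℤ),
    (∀ p ∈ S, p.1 < 0 ∧ 0 < p.2 ∧ ∀ b : Polynomial ℂ,
      IsBFunction (MvPolynomial.map (algebraMap k ℂ) f) b → b.eval ((p.1 : ℂ) / p.2) = 0) ∧
    InRat (LuMu f) S (zetaE f)

/-- The statement at the origin, with the local functional equations. -/
def Conj0 (f : MvPolynomial (Fin n) k) : Prop :=
  ∃ S : Finset (ℤ × ℤ),
    (∀ p ∈ S, p.1 < 0 ∧ 0 < p.2 ∧ ∀ b : Polynomial ℂ,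
      IsLocalBFunction (MvPolynomial.map (algebraMap k ℂ) f) b → b.eval ((p.1 : ℂ) / p.2) = 0) ∧
    InRat (LuMu (0 : MvPolynomial (Fin 0) k)) S (zetaE0 f)

end

end Pool.Agent.T6.H16.MR.SS
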