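import Pool.Agent.T6.H16.MR.Defs
import Pool.Agent.TH216.HD

set_option autoImplicit false

/-! The definitions of the statement about stably generic polynomials. -/

namespace Pool.Agent.T6.H16.MR.SS

open MvPolynomial
open Pool.Agent.H628R4.TP (IsBFunction IsLocalBFunction)
open Pool.Agent.W428.MOT (LuMu InRat zetaE)
open Pool.Agent.Y231.N4 (zetaE0)
open Pool.Agent.TH216.HD (ordA IsRay lev NonB1 LocS InPoly)

section

variable {R : Type} [CommRing R] {k : Type} [Field k] {n κ r m : ℕ}

/-- `κ N_a < |a|` for all weights `a ∈ ℕ ^ m` with `N_a = min_j ⟨a, v j⟩ > 0`. -/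
def Above (κ : ℕ) (v : Fin r → Fin m → ℕ) : Prop :=
  ∀ a : Fin m → ℕ, 0 < ordA v a → κ * ordA v a < ∑ i, a i

/-- The condition on the facets of the Newton polyhedron of `∑_j c_j X ^ (v j) + h`. The facet of `a`
gives the candidate pole `κ - |a| / N_a` of `f`. It is assumed that it is `-1`, or that some facet with
this candidate pole contains a simplex which is not B1 (`NonB1`), or that at every `v j` the facets
with this candidate pole through `v j` are simplices or B1 in a common direction (`LocS`). -/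
def Facets (loc : Prop) (κ : ℕ) (v : Fin r → Fin m → ℕ) (h : MvPolynomial (Fin m) R) : Prop :=
  ∀ a : Fin m → ℕ, IsRay v a → 0 < ordA v a → ∑ i, a i = (κ + 1) * ordA v a ∨
    (∃ a' : Fin m → ℕ, 0 < ordA v a' ∧ NonB1 v loc a' ∧ lev v a = lev v a') ∨ LocS v h (lev v a)

/-- The exponents of `h` are in the Newton polyhedron of the `v j`, and none is one of the `v j`. -/
def Extra (v : Fin r → Fin m → ℕ) (h : MvPolynomial (Fin m) R) : Prop :=
  ∀ w ∈ h.support, InPoly v w ∧ ∀ j, ¬ ∀ i, w i = v j i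

/-- The conditions on the exponents `v j` and on `h`. -/
structure Admiss (loc : Prop) (κ : ℕ) (v : Fin r → Fin m → ℕ) (h : MvPolynomial (Fin m) R) :
    Prop where
  pos : 0 < r
  inj : Function.Injective v
  ne : ∀ j, v j ≠ 0
  extra : Extra v h
  above : Above κ v
  facets : Facets loc κ v h

/-- `P k c` for generic coefficients `c`: for a nonzero polynomial `g` over `F`, `P k c` holds for all
fields `F ⊆ k ⊆ ℂ` and all `c ∈ k ^ r` with `g(c) ≠ 0`. -/
def Generic (F : Type) [Field F] [Algebra F ℂ] (r : ℕ)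
    (P : ∀ (k : Type) [Field k] [Algebra F k] [Algebra k ℂ], (Fin r → k) → Prop) : Prop :=
  ∃ g : MvPolynomial (Fin r) F, g ≠ 0 ∧ ∀ (k : Type) [Field k] [Algebra F k] [Algebra k ℂ]
    [IsScalarTower F k ℂ] (c : Fin r → k), aeval c g ≠ 0 → P k c

/-- For monomials `X ^ (W j)` in `x, z` with labels `π j ∈ {none} ∪ {some 1, …, some κ}`: the sum of the
`c_j X ^ (W j)` with the label `o`. -/
noncomputable def part (π : Fin r → Option (Fin κ)) (W : Fin r → Fin (n + κ) → ℕ) (c : Fin r → k)
    (o : Option (Fin κ)) : MvPolynomial (Fin (n + κ)) k :=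
  ∑ j, if π j = o then C (c j) * ∏ p, X p ^ W j p else 0

/-- `Φ(x, z)`: the sum of the `c_j X ^ (W j)` with the label `none`, and of `h`. -/
noncomputable def phi {F : Type} [Field F] [Algebra F k] (π : Fin r → Option (Fin κ))
    (W : Fin r → Fin (n + κ) → ℕ) (c : Fin r → k) (h : MvPolynomial (Fin (n + κ)) F) :
    MvPolynomial (Fin (n + κ)) k :=
  part π W c none + MvPolynomial.map (algebraMap F k) h

/-- The exponents (in the variables `x, y, z`) of the monomials of `Φ(x, z) + ∑ y_i (z_i - q_i(x, z))`,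
`q_i = part π W c (some i)` (without those of `h`): the exponent `W j`, with `y_i` added if
`π j = some i`, for the index `j`, and the one of `y_i z_i`. -/
def cayE (π : Fin r → Option (Fin κ)) (W : Fin r → Fin (n + κ) → ℕ) :
    Fin (r + κ) → Fin (n + (κ + κ)) → ℕ :=
  Fin.append
    (fun j => Fin.append (fun i => W j (Fin.castAdd κ i))
      (Fin.append (fun i => if π j = some i then 1 else 0) (fun i => W j (Fin.natAdd n i))))
    (fun i => Fin.append (fun _ => 0) (Fin.append (Pi.single i 1) (Pi.single i 1)))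

/-- `h` in the variables `x, y, z` -/
noncomputable def hxz {F : Type} [Field F] (h : MvPolynomial (Fin (n + κ)) F) :
    MvPolynomial (Fin (n + (κ + κ))) F := rename (Fin.append (vx κ) (vz n)) h

/-- The monomials `x ^ (u j)` of a weighted homogeneous polynomial of degree `d` with the weights `ω`;
they are distinct, and a power of each `x_i` is among them. -/
def Forms (ω : Fin n → ℕ) (d : ℕ) (u : Fin r → Fin n → ℕ) : Prop :=
  Function.Injective u ∧ (∀ j, ∑ i, ω i * u j i = d) ∧ ∀ i, ∃ j D, u j = Pi.single i D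

/-- The conditions on the monomials of a tower and on `h`: the `W j` are distinct for the same label;
`q_i` involves only `x` and the `z_l`, `l < i`; `Φ` has no constant term, and neither has `h`; `Extra`
and the condition on the facets for `Φ(x, z) + ∑ y_i (z_i - q_i(x, z))`. -/
structure Tower {F : Type} [Field F] (loc : Prop) (π : Fin r → Option (Fin κ))
    (W : Fin r → Fin (n + κ) → ℕ) (h : MvPolynomial (Fin (n + κ)) F) : Prop where
  inj : ∀ j j', π j = π j' → W j = W j' → j = j'
  tri : ∀ j i l, π j = some i → i ≤ l → W j (Fin.natAdd n l) = 0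
  ne : ∀ j, π j = none → W j ≠ 0
  extra : Extra (cayE π W) (hxz h)
  facets : Facets loc κ (cayE π W) (hxz h)

/-- Towers through the origin: the `q_i` have no constant terms, and `Φ` has no terms which are linear
in the `z_i` (with constant coefficient). -/
structure Tower0 {F : Type} [Field F] (π : Fin r → Option (Fin κ)) (W : Fin r → Fin (n + κ) → ℕ)
    (h : MvPolynomial (Fin (n + κ)) F) : Prop extends Tower True π W h where
  ne0 : ∀ j, W j ≠ 0
  lin : ∀ j l, π j = none → W j ≠ Pi.single (Fin.natAdd n l) 1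
  linh : ∀ l : Fin κ, coeff (Finsupp.single (Fin.natAdd n l) 1) h = 0

variable [Algebra k ℂ]

/-- The statement of Q1 for `f`, and for its zeta function at the origin, with the roots of the
local Bernstein-Sato polynomial at the origin. -/
def ConjL (f : MvPolynomial (Fin n) k) : Prop :=
  ∃ S : Finset (ℤ × ℤ),
    (∀ p ∈ S, p.1 < 0 ∧ 0 < p.2 ∧ ∀ b : Polynomial ℂ,
      IsLocalBFunction (MvPolynomial.map (algebraMap k ℂ) f) b → b.eval ((p.1 : ℂ) / p.2) = 0) ∧
    InRat (LuMu f) S (zetaE f) ∧ InRat (LuMu (0 : MvPolynomial (Fin 0) k)) S (zetaE0 f)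

end

section

variable {F k : Type} [Field F] [Field k] [Algebra F k] {n κ r : ℕ}

/-- `f(x) + ∑_{i < κ} y_i z_i` is `∑_j c_j X ^ (v j) + h` in some polynomial coordinates. -/
def Becomes (κ : ℕ) (v : Fin r → Fin (n + (κ + κ)) → ℕ) (h : MvPolynomial (Fin (n + (κ + κ))) F)
    (c : Fin r → k) (f : MvPolynomial (Fin n) k) : Prop :=
  ∃ θ : PAut k (n + (κ + κ)), θ (hypr f κ) = Pool.Agent.TH216.HD.poly v c h

/-- The same with an automorphism which fixes the origin. -/
def Becomes0 (κ : ℕ) (v : Fin r → Fin (n + (κ + κ)) → ℕ) (h : MvPolynomial (Fin (n + (κ + κ))) F)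
    (c : Fin r → k) (f : MvPolynomial (Fin n) k) : Prop :=
  ∃ θ : PAut k (n + (κ + κ)), Fix θ ∧ θ (hypr f κ) = Pool.Agent.TH216.HD.poly v c h

/-- `f = Φ(x, g_1, …, g_κ)` with `g_i = q_i(x, g_1, …, g_κ)`, for `Φ = phi π W c h` and
`q_i = part π W c (some i)`. -/
def IsTower (π : Fin r → Option (Fin κ)) (W : Fin r → Fin (n + κ) → ℕ)
    (h : MvPolynomial (Fin (n + κ)) F) (c : Fin r → k) (f : MvPolynomial (Fin n) k) : Prop :=
  ∃ g : Fin κ → MvPolynomial (Fin n) k, (∀ i, g i = sb g (part π W c (some i))) ∧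
    f = sb g (phi π W c h)

/-- `f` is not constant -/
def NonConst (f : MvPolynomial (Fin n) k) : Prop := f.totalDegree ≠ 0

/-- `f ≠ 0` and `f(0) = 0` -/
def Germ (f : MvPolynomial (Fin n) k) : Prop := f ≠ 0 ∧ constantCoeff f = 0

/-- `∑_j α_j x ^ (u j)` -/
noncomputable def form (u : Fin r → Fin n → ℕ) (α : Fin r → k) : MvPolynomial (Fin n) k :=
  ∑ j, C (α j) * ∏ i, X i ^ u j i

/-- `f = γ p ^ m + q`, `p = ∑_j α_j x ^ (u j)`, `q = ∑_j β_j x ^ (w j)`, with the vector of coefficients
`c = (γ, α, β)`. -/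
def IsSum {r₁ r₂ : ℕ} (m : ℕ) (u : Fin r₁ → Fin n → ℕ) (w : Fin r₂ → Fin n → ℕ)
    (c : Fin (1 + (r₁ + r₂)) → k) (f : MvPolynomial (Fin n) k) : Prop :=
  ∃ (γ : k) (α : Fin r₁ → k) (β : Fin r₂ → k), c = Fin.append (fun _ => γ) (Fin.append α β) ∧
    f = C γ * form u α ^ m + form w β

end

end Pool.Agent.T6.H16.MR.SS
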