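import Pool.Agent.W375.MT.EJsc
import Pool.Agent.W230.ME.Free
import Pool.Agent.W578.ME.Etw

set_option autoImplicit false

/-! Additive invariants of varieties with diagonal action over a base: elimination of
coordinates, independence of the group. -/

namespace Pool.Agent.T6.H16.MR

open MvPolynomial
open Pool.Agent.W428.MOT
open Pool.Agent.W375.MT (echi_empty echi_biUnion)

variable {k : Type} [Field k] {R : Type} [CommRing R] {ι κ : Type} {m : ℕ}
  {B : MvPolynomial (Fin m) k}

theorem sub_mk {S T : Set (Pt k ι)} {ρ : ι → ℤ} {d : ℕ} {β : Fin m → Option ι}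
    (h : Valid B T ρ d β) (h1 : Constr S) (h0 : S ⊆ T)
    (h3 : ∀ l : AlgebraicClosure k, l ^ d = 1 → ∀ z ∈ S, dact ρ l z ∈ S) :
    Valid B S ρ d β :=
  ⟨h1, h.pos, h3, fun z hz => h.base z (h0 hz), h.inv⟩

theorem cbase_update [DecidableEq ι] {β : Fin m → Option ι} {p : ι} (hp : ∀ i, β i ≠ some p)
    (z : Pt k ι) (w : AlgebraicClosure k) : cbase β (Function.update z p w) = cbase β z := by
  funext i
  unfold cbase
  cases hb : β i with
  | none => rfl
  | some j =>
    have h1 : j ≠ p := fun h => hp i (by rw [hb, h])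
    simp only [Option.elim]
    rw [Function.update_of_ne h1]

/-- the isomorphism axiom, same group -/
theorem isoR [Fintype ι] [Fintype κ] (M : EMeas B R) {S : Set (Pt k ι)} {T : Set (Pt k κ)}
    {ρ : ι → ℤ} {ρ' : κ → ℤ} {d : ℕ} {β : Fin m → Option ι} {β' : Fin m → Option κ}
    (hS : Valid B S ρ d β) (hT : Valid B T ρ' d β') (φ : Pt k ι → Pt k κ) (ψ : Pt k κ → Pt k ι)
    (h1 : RegularOn S φ) (h2 : RegularOn T ψ) (h3 : Set.MapsTo φ S T) (h4 : Set.MapsTo ψ T S)
    (h5 : ∀ z ∈ S, ψ (φ z) = z) (h6 : ∀ w ∈ T, φ (ψ w) = w)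
    (h8 : ∀ z ∈ S, cbase β' (φ z) = cbase β z)
    (h7 : ∀ l : AlgebraicClosure k, l ^ d = 1 → ∀ z ∈ S, φ (dact ρ l z) = dact ρ' l (φ z)) :
    M.χ ι S ρ d β = M.χ κ T ρ' d β' := by
  refine M.iso S T ρ ρ' d d β β' hS hT φ ψ h1 h2 h3 h4 h5 h6
    h8 fun l hl z hz => h7 _ ?_ z hz
  rw [← pow_mul]
  exact hl

theorem dact_update [DecidableEq ι] (ρ : ι → ℤ) (l : AlgebraicClosure k) (z : Pt k ι) (p : ι)
    (w : AlgebraicClosure k) :
    dact ρ l (Function.update z p w) = Function.update (dact ρ l z) p (l ^ ρ p * w) := by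
  funext i
  unfold dact
  by_cases h : i = p
  · subst h
    rw [Function.update_self, Function.update_self]
  · rw [Function.update_of_ne h, Function.update_of_ne h]

theorem isPF_update [DecidableEq ι] (p : ι) {F : Pt k ι → AlgebraicClosure k} (hF : IsPF F) (i : ι) :
    IsPF (fun z => Function.update z p (F z) i) := by
  by_cases h : i = p
  · subst h
    simpa only [Function.update_self] using hF
  · simpa only [Function.update_of_ne h] using IsPF.coord i

/-- **Elimination of coordinates by triangular equations.** -/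
theorem elim [Fintype ι] [DecidableEq ι] (M : EMeas B R) (ρ : ι → ℤ) (d : ℕ)
    (β : Fin m → Option ι) (p : ℕ → ι)
    (u : ℕ → Pt k ι → AlgebraicClosure k) (a : Pt k ι → AlgebraicClosure k) (e : ℕ → ℤ)
    (hu : ∀ l, IsPF (u l)) (ha : IsPF a) (c : ℕ) (hβ : ∀ l < c, ∀ i, β i ≠ some (p l)) :
    ∀ V : Set (Pt k ι), Valid B V ρ d β →
    (∀ l < c, ∀ l' < c, p l = p l' → l = l') →
    (∀ z ∈ V, ∀ l < c, ∀ w, Function.update z (p l) w ∈ V) → (∀ z ∈ V, a z ≠ 0) →
    (∀ z ∈ V, ∀ l < c, ∀ w, a (Function.update z (p l) w) = a z) →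
    (∀ z ∈ V, ∀ l < c, ∀ w, u l (Function.update z (p l) w) = u l z + a z * (w - z (p l))) →
    (∀ z ∈ V, ∀ l l', l < l' → l' < c → ∀ w, u l (Function.update z (p l') w) = u l z) →
    (∀ z ∈ V, ∀ x : AlgebraicClosure k, x ^ d = 1 → ∀ l < c,
      u l (dact ρ x z) = x ^ (e l) * u l z) →
    M.χ ι (V ∩ {z | ∀ l < c, u l z = 0}) ρ d β =
      M.χ ι (V ∩ {z | ∀ l < c, z (p l) = 0}) ρ d β := by
  induction c with
  | zero =>
    intro V _ _ _ _ _ _ _ _
    simp
  | succ c ih =>
    intro V hV hp hcl ha0 hau huu huu' hw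
    have hV' : Valid B (V ∩ {z | z (p c) = 0}) ρ d β := by
      refine sub_mk hV (hV.constr.inter (Constr.eqz (IsPF.coord _))) Set.inter_subset_left ?_
      rintro l hl z ⟨h1, h2⟩
      refine ⟨hV.stable l hl z h1, ?_⟩
      show l ^ ρ (p c) * z (p c) = 0
      rw [show z (p c) = 0 from h2, mul_zero]
    have hS : Valid B (V ∩ {z | ∀ l < c + 1, u l z = 0}) ρ d β := by
      refine sub_mk hV (hV.constr.inter (Constr.allLt _ fun l _ => Constr.eqz (hu l)))
        Set.inter_subset_left ?_
      rintro l hl z ⟨h1, h2⟩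
      refine ⟨hV.stable l hl z h1, fun i hi => ?_⟩
      rw [hw z h1 l hl i hi, h2 i hi, mul_zero]
    have hT : Valid B ((V ∩ {z | z (p c) = 0}) ∩ {z | ∀ l < c, u l z = 0}) ρ d β := by
      refine sub_mk hV' (hV'.constr.inter (Constr.allLt _ fun l _ => Constr.eqz (hu l)))
        Set.inter_subset_left ?_
      rintro l hl z ⟨h1, h2⟩
      refine ⟨hV'.stable l hl z h1, fun i hi => ?_⟩
      rw [hw z h1.1 l hl i (by omega), h2 i hi, mul_zero]
    have step : M.χ ι (V ∩ {z | ∀ l < c + 1, u l z = 0}) ρ d β =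
        M.χ ι ((V ∩ {z | z (p c) = 0}) ∩ {z | ∀ l < c, u l z = 0}) ρ d β := by
      refine isoR M hS hT (fun z => Function.update z (p c) 0)
        (fun z => Function.update z (p c) (-u c z / a z))
        (regularOn_poly (fun i => isPF_update _ IsPF.zero i) _) (fun i => ?_) ?_ ?_ ?_ ?_
        (fun z _ => cbase_update (hβ c (by omega)) z 0) ?_
      · show IsRF _ (fun z => Function.update z (p c) (-u c z / a z) i)
        by_cases h : i = p c
        · subst h
          simp only [Function.update_self]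
          exact IsRF.div (((hu c).neg).isRF _) (ha.isRF _) fun z hz => ha0 z hz.1.1
        · simp only [Function.update_of_ne h]
          exact (IsPF.coord i).isRF _
      · rintro z ⟨h1, h2⟩
        refine ⟨⟨hcl z h1 c (by omega) 0, ?_⟩, fun l hl => ?_⟩
        · show Function.update z (p c) 0 (p c) = 0
          rw [Function.update_self]
        · show u l (Function.update z (p c) 0) = 0
          rw [huu' z h1 l c hl (by omega), h2 l (by omega)]
      · rintro z ⟨⟨h1, h2⟩, h3⟩
        refine ⟨hcl z h1 c (by omega) _, fun l hl => ?_⟩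
        rcases Nat.lt_or_ge l c with h | h
        · show u l (Function.update z (p c) _) = 0
          rw [huu' z h1 l c h (by omega), h3 l h]
        · have hlm : l = c := by omega
          subst hlm
          show u l (Function.update z (p l) _) = 0
          rw [huu z h1 l (by omega), show z (p l) = 0 from h2, sub_zero,
            mul_div_cancel₀ _ (ha0 z h1), add_neg_cancel]
      · rintro z ⟨h1, h2⟩
        show Function.update (Function.update z (p c) 0) (p c)
          (-u c (Function.update z (p c) 0) / a (Function.update z (p c) 0)) = z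
        rw [huu z h1 c (by omega), hau z h1 c (by omega), h2 c (by omega), Function.update_idem]
        have h3 : -(0 + a z * (0 - z (p c))) / a z = z (p c) := by
          have := ha0 z h1
          field_simp
          ring
        rw [h3, Function.update_eq_self]
      · rintro z ⟨⟨h1, h2⟩, h3⟩
        show Function.update (Function.update z (p c) _) (p c) 0 = z
        rw [Function.update_idem, ← show z (p c) = 0 from h2, Function.update_eq_self]
      · rintro l _ z _
        show Function.update (dact ρ l z) (p c) 0 = dact ρ l (Function.update z (p c) 0)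
        rw [dact_update, mul_zero]
    rw [step, ih (fun l hl => hβ l (by omega)) (V ∩ {z | z (p c) = 0}) hV' (fun l hl l' hl' h => hp l (by omega) l' (by omega) h)
      ?_ (fun z hz => ha0 z hz.1) (fun z hz l hl w => hau z hz.1 l (by omega) w)
      (fun z hz l hl w => huu z hz.1 l (by omega) w)
      (fun z hz l l' h1 h2 w => huu' z hz.1 l l' h1 (by omega) w)
      (fun z hz x hx l hl => hw z hz.1 x hx l (by omega))]
    · congr 1
      ext z
      simp only [Set.mem_inter_iff, Set.mem_ofPred_eq]
      constructor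
      · rintro ⟨⟨h1, h2⟩, h3⟩
        refine ⟨h1, fun l hl => ?_⟩
        rcases Nat.lt_or_ge l c with h | h
        · exact h3 l h
        · have hlm : l = c := by omega
          rw [hlm]
          exact h2
      · rintro ⟨h1, h2⟩
        exact ⟨⟨h1, h2 c (by omega)⟩, fun l hl => h2 l (by omega)⟩
    · rintro z ⟨h1, h2⟩ l hl w
      refine ⟨hcl z h1 l (by omega) w, ?_⟩
      show Function.update z (p l) w (p c) = 0
      rw [Function.update_of_ne]
      · exact h2
      · intro h
        have := hp c (by omega) l (by omega) h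
        omega

/-- **The class of a variety with action of the multiplicative group does not depend on the finite
subgroup.** -/
theorem gm [Fintype ι] [DecidableEq ι] (M : EMeas B R) (S : Set (Pt k ι)) (ρ : ι → ℤ)
    (β : Fin m → Option ι) (hS : Constr S)
    (hG : ∀ s : AlgebraicClosure k, s ≠ 0 → ∀ z ∈ S, dact ρ s z ∈ S)
    (hb : ∀ z ∈ S, aeval (cbase β z) B = 0) (hi : ∀ i j, β i = some j → ρ j = 0) (d d' : ℕ)
    (hd : 0 < d) (hd' : 0 < d') : M.χ ι S ρ d β = M.χ ι S ρ d' β := by
  classical
  have hne : ∀ {l : AlgebraicClosure k} {d : ℕ}, 0 < d → l ^ d = 1 → l ≠ 0 := by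
    rintro l d hd hl rfl
    rw [zero_pow hd.ne'] at hl
    exact zero_ne_one hl
  have hVS : ∀ d, 0 < d → Valid B S ρ d β := fun d hd =>
    ⟨hS, hd, fun l hl z hz => hG l (hne hd hl) z hz, hb, hi⟩
  set T : Finset ι → Set (Pt k ι) := fun I => S ∩ {z | ∀ i, z i ≠ 0 ↔ i ∈ I} with hT
  have hTc : ∀ I, Constr (T I) := by
    intro I
    refine hS.inter (Constr.all fun i => ?_)
    by_cases hi : i ∈ I
    · simp only [hi, iff_true]
      exact (Constr.eqz (IsPF.coord i)).not
    · simp only [hi, iff_false, not_not]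
      exact Constr.eqz (IsPF.coord i)
  have hTG : ∀ I, ∀ s : AlgebraicClosure k, s ≠ 0 → ∀ z ∈ T I, dact ρ s z ∈ T I := by
    rintro I s hs z ⟨h1, h2⟩
    refine ⟨hG s hs z h1, fun i => ?_⟩
    rw [← h2 i]
    show s ^ ρ i * z i ≠ 0 ↔ _
    rw [Ne, mul_eq_zero, not_or]
    exact ⟨fun h => h.2, fun h => ⟨zpow_ne_zero _ hs, h⟩⟩
  have hTV : ∀ I d, 0 < d → Valid B (T I) ρ d β := fun I d hd =>
    ⟨hTc I, hd, fun l hl z hz => hTG I l (hne hd hl) z hz, fun z hz => hb z hz.1, hi⟩
  have hun : (⋃ I ∈ (Finset.univ : Finset (Finset ι)), T I) = S := by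
    ext z
    simp only [Set.mem_iUnion, Finset.mem_univ, exists_prop, true_and]
    constructor
    · rintro ⟨I, h1, -⟩
      exact h1
    · intro h
      exact ⟨Finset.univ.filter fun i => z i ≠ 0, h, fun i => by simp⟩
  have hdis : ∀ I ∈ (Finset.univ : Finset (Finset ι)), ∀ J ∈ (Finset.univ : Finset (Finset ι)),
      I ≠ J → Disjoint (T I) (T J) := by
    intro I _ J _ hIJ
    rw [Set.disjoint_left]
    rintro z ⟨-, h1⟩ ⟨-, h2⟩
    apply hIJ
    ext i
    rw [← h1 i, h2 i]
  have hsum : ∀ d, 0 < d → M.χ ι S ρ d β = ∑ I : Finset ι, M.χ ι (T I) ρ d β := by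
    intro d hd
    have h1 := (echi_biUnion M (hVS d hd) Finset.univ T (fun I _ => hTV I d hd) hdis).1
    rw [hun] at h1
    exact h1
  rw [hsum d hd, hsum d' hd']
  refine Finset.sum_congr rfl fun I _ => ?_
  -- the weights supported on `I`
  set ρI : ι → ℤ := fun i => if i ∈ I then ρ i else 0 with hρI
  have hact : ∀ (s : AlgebraicClosure k), ∀ z ∈ T I, dact ρI s z = dact ρ s z := by
    rintro s z ⟨-, h2⟩
    funext i
    unfold dact
    by_cases hi : i ∈ I
    · simp only [hρI, hi, if_true]
    · have h3 : z i = 0 := by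
        by_contra h
        exact hi ((h2 i).1 h)
      rw [h3, mul_zero, mul_zero]
  have hIV : ∀ d, 0 < d → Valid B (T I) ρI d β := fun d hd =>
    ⟨hTc I, hd, fun l hl z hz => by
      rw [hact l z hz]
      exact hTG I l (hne hd hl) z hz, fun z hz => hb z hz.1, fun i j hij => by
      simp only [hρI]
      rw [hi i j hij, ite_self]⟩
  have hch : ∀ d, 0 < d → M.χ ι (T I) ρ d β = M.χ ι (T I) ρI d β := by
    intro d hd
    exact isoR M (hTV I d hd) (hIV d hd) (fun z => z) (fun z => z)
      (regularOn_poly (fun i => IsPF.coord i) _) (regularOn_poly (fun i => IsPF.coord i) _)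
      (fun z hz => hz) (fun z hz => hz) (fun _ _ => rfl) (fun _ _ => rfl) (fun _ _ => rfl)
      (fun l _ z hz => (hact l z hz).symm)
  rw [hch d hd, hch d' hd']
  have hTw : S_ETw := Pool.Agent.W578.ME.etw
  refine hTw M (T I) ρI ρI d d' β (hIV d hd) (hIV d' hd') ?_ ?_
  · rintro z ⟨-, h2⟩ i hi
    rw [h2 i]
    by_contra h
    apply hi
    simp only [hρI, h, if_false, mul_zero]
  · intro s hs z hz
    have h1 : dact (fun i => (d' : ℤ) * ρI i - d * ρI i) s z =
        dact ρI (s ^ ((d' : ℤ) - d)) z := by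
      funext i
      unfold dact
      rw [← zpow_mul]
      congr 2
      ring
    rw [h1, hact _ z hz]
    exact hTG I _ (zpow_ne_zero _ hs) z hz

end Pool.Agent.T6.H16.MR
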