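import Mathlib
import Pool.Agent.TH216.HD

set_option autoImplicit false

/-! The facets of the Newton polyhedron for `f = γ p ^ c + h`, `p`, `h` weighted homogeneous. -/

namespace Pool.Agent.T6.H16.MR.Fm

open Pool.Agent.TH216.HD (ordA OnFace IsRay lev NonB1 Simp B1Dir LocS)

variable {n r : ℕ}

/-- the exponent of `x ^ u y ^ b z ^ t` -/
def vec {A : Type} (u : Fin n → A) (b t : A) : Fin (n + (1 + 1)) → A :=
  Fin.append u (Fin.append (fun _ : Fin 1 => b) (fun _ : Fin 1 => t))

def ix (i : Fin n) : Fin (n + (1 + 1)) := Fin.castAdd (1 + 1) i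
def iy (n : ℕ) : Fin (n + (1 + 1)) := Fin.natAdd n (Fin.castAdd 1 0)
def iz (n : ℕ) : Fin (n + (1 + 1)) := Fin.natAdd n (Fin.natAdd 1 0)

lemma vec_x {A : Type} (u : Fin n → A) (b t : A) (i : Fin n) : vec u b t (ix i) = u i :=
  Fin.append_left _ _ i
lemma vec_y {A : Type} (u : Fin n → A) (b t : A) : vec u b t (iy n) = b :=
  (Fin.append_right _ _ (Fin.castAdd 1 0)).trans (Fin.append_left _ _ 0)
lemma vec_z {A : Type} (u : Fin n → A) (b t : A) : vec u b t (iz n) = t :=
  (Fin.append_right _ _ (Fin.natAdd 1 0)).trans (Fin.append_right _ _ 0)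

lemma cases_i {P : Fin (n + (1 + 1)) → Prop} (h1 : ∀ i, P (ix i)) (h2 : P (iy n)) (h3 : P (iz n))
    (i) : P i := by
  refine Fin.addCases h1 (fun i => ?_) i
  refine Fin.addCases (fun i => ?_) (fun i => ?_) i
  · have : i = 0 := Subsingleton.elim _ _
    rw [this]
    exact h2
  · have : i = 0 := Subsingleton.elim _ _
    rw [this]
    exact h3

lemma sum_vec {A : Type} [CommSemiring A] (G : Fin (n + (1 + 1)) → A) :
    ∑ i, G i = ∑ i, G (ix i) + (G (iy n) + G (iz n)) := by
  rw [Fin.sum_univ_add, Fin.sum_univ_add, Fin.sum_univ_one, Fin.sum_univ_one]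
  rfl

/-- the exponents -/
structure Fam (v : Fin r → Fin (n + (1 + 1)) → ℕ) (ω D E : Fin n → ℕ) (d e c : ℕ) : Prop where
  cls : ∀ j, v j = vec (fun _ => 0) 0 c ∨ v j = vec (fun _ => 0) 1 1 ∨
    (∃ u : Fin n → ℕ, ∑ i, ω i * u i = d ∧ v j = vec u 1 0) ∨
    ∃ w : Fin n → ℕ, ∑ i, ω i * w i = e ∧ v j = vec w 0 0
  ez : ∃ j, v j = vec (fun _ => 0) 0 c
  ey : ∃ j, v j = vec (fun _ => 0) 1 1
  eu : ∀ i, ∃ j, v j = vec (Pi.single i (D i)) 1 0
  ev : ∀ i, ∃ j, v j = vec (Pi.single i (E i)) 0 0
  hc : 2 ≤ c
  hce : c * d < e
  hn : 2 ≤ n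
  hD : ∀ i, ω i * D i = d
  hE : ∀ i, ω i * E i = e
  hD2 : ∀ i, 2 ≤ D i
  hω : ∀ i, 0 < ω i

lemma ordA_le (v : Fin r → Fin (n + (1 + 1)) → ℕ) (a : Fin (n + (1 + 1)) → ℕ) (j : Fin r) :
    ordA v a ≤ ∑ i, a i * v j i := ciInf_le ⟨0, fun _ _ => Nat.zero_le _⟩ j

/-- a simplex which is not B1 -/
theorem nonB_of {m : ℕ} {v : Fin r → Fin m → ℕ} {a : Fin m → ℕ} {ι : Type} [Fintype ι]
    [DecidableEq ι] (φ : ι → Fin r)
    (hcard : Fintype.card ι = (Finset.univ.filter fun i => a i ≠ 0).card)
    (hf : ∀ x, OnFace v a (φ x))
    (hl : ∀ w : ι → ℚ, (∀ i, a i ≠ 0 → ∑ x, w x * (v (φ x) i : ℚ) = 0) → ∀ x, w x = 0)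
    (hb : ∀ i, a i ≠ 0 → ∀ x0, v (φ x0) i = 1 → ∃ x, x ≠ x0 ∧ v (φ x) i ≠ 0)
    (ha0 : ∀ i, a i ≠ 0) (loc : Prop) : NonB1 v loc a := by
  classical
  have hinj : Function.Injective φ := by
    intro x y hxy
    by_contra hne
    have h1 := hl (fun z => (if z = x then 1 else 0) - if z = y then 1 else 0) (fun i _ => by
      simp only [sub_mul, ite_mul, one_mul, zero_mul, Finset.sum_sub_distrib,
        Finset.sum_ite_eq', Finset.mem_univ, if_true]
      rw [hxy, sub_self]) x
    rw [if_pos rfl, if_neg hne, sub_zero] at h1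
    exact one_ne_zero h1
  have hmem : ∀ x, φ x ∈ Finset.univ.image φ := fun x =>
    Finset.mem_image.2 ⟨x, Finset.mem_univ _, rfl⟩
  refine ⟨Finset.univ.image φ, ?_, ?_, ?_, ?_, fun _ l _ c _ _ => by
    simp only [ha0, if_false, Finset.sum_const_zero, mul_zero, le_refl]⟩
  · rw [Finset.card_image_of_injective _ hinj, Finset.card_univ, hcard]
  · intro j hj
    obtain ⟨x, -, rfl⟩ := Finset.mem_image.1 hj
    exact hf x
  · rw [Fintype.linearIndependent_iff]
    intro g hg j
    obtain ⟨j, hj⟩ := j
    obtain ⟨x, -, rfl⟩ := Finset.mem_image.1 hj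
    have e : ι ≃ {j // j ∈ Finset.univ.image φ} := Equiv.ofBijective (fun x => ⟨φ x, hmem x⟩)
      ⟨fun x y h => hinj (congrArg Subtype.val h), fun j => by
        obtain ⟨j, hj⟩ := j
        obtain ⟨x, -, rfl⟩ := Finset.mem_image.1 hj
        exact ⟨x, rfl⟩⟩
    refine hl (fun x => g ⟨φ x, hmem x⟩) (fun i hi => ?_) x
    have h1 := congrFun hg ⟨i, hi⟩
    rw [Finset.sum_apply] at h1
    simp only [Pi.smul_apply, smul_eq_mul, Pi.zero_apply] at h1
    rw [← h1]
    exact (Fintype.sum_bijective (fun x => (⟨φ x, hmem x⟩ : {j // j ∈ Finset.univ.image φ}))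
      ⟨fun x y h => hinj (congrArg Subtype.val h), fun j => by
        obtain ⟨j, hj⟩ := j
        obtain ⟨x, -, rfl⟩ := Finset.mem_image.1 hj
        exact ⟨x, rfl⟩⟩ _ _ fun x => rfl)
  · rintro i hi ⟨j0, hj0, h1, h2⟩
    obtain ⟨x0, -, rfl⟩ := Finset.mem_image.1 hj0
    obtain ⟨x, hx, hx'⟩ := hb i hi x0 h1
    exact hx' (h2 (φ x) (hmem x) fun h => hx (hinj h))

/-- **The facets.** -/
theorem facet {R : Type} [CommRing R] {v : Fin r → Fin (n + (1 + 1)) → ℕ} {ω D E : Fin n → ℕ}
    {d e c : ℕ} (hv : Fam v ω D E d e c) (hinj : Function.Injective v)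
    (a : Fin (n + (1 + 1)) → ℕ) (ha : IsRay v a) (hg : 0 < ordA v a) (loc : Prop) :
    NonB1 v loc a ∨ B1Dir v (0 : MvPolynomial (Fin (n + (1 + 1))) R) (iz n) a := by
  classical
  set N := ordA v a with hN
  set s : Fin n → ℕ := fun i => a (ix i) with hs
  set b : ℕ := a (iy n) with hb
  set t : ℕ := a (iz n) with ht
  obtain ⟨jz, hjz⟩ := hv.ez
  obtain ⟨jy, hjy⟩ := hv.ey
  choose ju hju using hv.eu
  choose jv hjv using hv.ev
  have i0 : Fin n := ⟨0, by have := hv.hn; omega⟩
  -- the pairing
  have pair : ∀ (u : Fin n → ℕ) (b' t' : ℕ), ∑ i, a i * vec u b' t' i =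
      ∑ i, s i * u i + (b * b' + t * t') := by
    intro u b' t'
    rw [sum_vec]
    simp only [vec_x, vec_y, vec_z]
    rfl
  have psingle : ∀ (i : Fin n) (q : ℕ), ∑ l, s l * (Pi.single i q : Fin n → ℕ) l = s i * q := by
    intro i q
    rw [Finset.sum_eq_single i]
    · rw [Pi.single_eq_same]
    · intro l _ hl
      rw [Pi.single_eq_of_ne hl, mul_zero]
    · intro h
      exact absurd (Finset.mem_univ _) h
  have hZ : N ≤ t * c := by
    have h1 := ordA_le v a jz
    rw [hjz, pair] at h1
    simpa using h1
  have hY : N ≤ b + t := by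
    have h1 := ordA_le v a jy
    rw [hjy, pair] at h1
    simpa using h1
  have hU : ∀ i, N ≤ s i * D i + b := by
    intro i
    have h1 := ordA_le v a (ju i)
    rw [hju, pair, psingle] at h1
    simpa using h1
  have hV : ∀ i, N ≤ s i * E i := by
    intro i
    have h1 := ordA_le v a (jv i)
    rw [hjv, pair, psingle] at h1
    simpa using h1
  have ht0 : 0 < t := by
    rcases Nat.eq_zero_or_pos t with h | h
    · rw [h, zero_mul] at hZ
      omega
    · exact h
  have hs0 : ∀ i, 0 < s i := by
    intro i
    rcases Nat.eq_zero_or_pos (s i) with h | h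
    · have h1 := hV i
      rw [h, zero_mul] at h1
      omega
    · exact h
  have hωq : ∀ i, (0 : ℚ) < ω i := fun i => by exact_mod_cast hv.hω i
  -- the minimum
  have : Nonempty (Fin n) := ⟨i0⟩
  obtain ⟨j, hj⟩ := Finite.exists_min (fun i : Fin n => (s i : ℚ) / ω i)
  set μ : ℚ := (s j : ℚ) / ω j with hμ
  have hμ0 : 0 < μ := div_pos (by exact_mod_cast hs0 j) (hωq j)
  have hle : ∀ i, μ * ω i ≤ s i := by
    intro i
    have h1 := hj i
    rw [le_div_iff₀ (hωq i)] at h1
    exact h1
  have hjs : (s j : ℚ) = μ * ω j := by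
    rw [hμ, div_mul_cancel₀ _ (hωq j).ne']
  have hND : (N : ℚ) ≤ μ * d + b := by
    have h1 : (N : ℚ) ≤ s j * D j + b := by exact_mod_cast hU j
    rw [hjs, mul_assoc] at h1
    have h2 : (ω j : ℚ) * D j = d := by exact_mod_cast hv.hD j
    rwa [h2] at h1
  have hNE : (N : ℚ) ≤ μ * e := by
    have h1 : (N : ℚ) ≤ s j * E j := by exact_mod_cast hV j
    rw [hjs, mul_assoc] at h1
    have h2 : (ω j : ℚ) * E j = e := by exact_mod_cast hv.hE j
    rwa [h2] at h1
  -- lower bound for the pairing
  have hlow : ∀ (u : Fin n → ℕ) (i : Fin n), (μ * (∑ i, ω i * u i : ℕ) : ℚ) +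
      ((s i : ℚ) - μ * ω i) * u i ≤ (∑ i, s i * u i : ℕ) := by
    intro u i
    push_cast
    rw [Finset.mul_sum]
    have h1 : ∀ l, μ * ((ω l : ℚ) * u l) ≤ s l * u l := fun l => by
      rw [← mul_assoc]
      exact mul_le_mul_of_nonneg_right (hle l) (by positivity)
    rw [← Finset.add_sum_erase _ _ (Finset.mem_univ i),
      ← Finset.add_sum_erase (a := i) _ (fun l => (s l : ℚ) * u l) (Finset.mem_univ i)]
    have h2 : ∑ l ∈ Finset.univ.erase i, μ * ((ω l : ℚ) * u l) ≤
        ∑ l ∈ Finset.univ.erase i, (s l : ℚ) * u l := Finset.sum_le_sum fun l _ => h1 l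
    nlinarith
  -- all the ratios are equal
  have hse : ∀ i, (s i : ℚ) = μ * ω i := by
    intro i
    by_contra hne
    have hlt : μ * ω i < s i := lt_of_le_of_ne (hle i) (Ne.symm hne)
    have hface : ∀ l, OnFace v a l → v l (ix i) = 0 := by
      intro l hl
      unfold OnFace at hl
      by_contra h0
      rcases hv.cls l with h1 | h1 | ⟨u, hu, h1⟩ | ⟨u, hu, h1⟩
      · rw [h1, vec_x] at h0
        exact h0 rfl
      · rw [h1, vec_x] at h0
        exact h0 rfl
      · rw [h1, vec_x] at h0
        rw [h1, pair, mul_one, mul_zero, add_zero] at hl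
        have h2 := hlow u i
        rw [hu] at h2
        have h3 : (0 : ℚ) < u i := by exact_mod_cast Nat.pos_of_ne_zero h0
        have h4 : ((∑ i, s i * u i : ℕ) : ℚ) + b = N := by exact_mod_cast hl
        nlinarith
      · rw [h1, vec_x] at h0
        rw [h1, pair, mul_zero, mul_zero, add_zero] at hl
        have h2 := hlow u i
        rw [hu] at h2
        have h3 : (0 : ℚ) < u i := by exact_mod_cast Nat.pos_of_ne_zero h0
        have h4 : ((∑ i, s i * u i : ℕ) : ℚ) = N := by
          rw [add_zero] at hl
          exact_mod_cast hl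
        nlinarith
    obtain ⟨τ, hτ⟩ := ha.2 (fun l => if l = ix i then 1 else 0) (fun l hl => by
      show (if l = ix i then (1 : ℚ) else 0) = 0
      rw [if_neg]
      rintro rfl
      exact (hs0 i).ne' hl) (fun l l' hl hl' => by
      have h1 : ∀ l, OnFace v a l →
          ∑ x, (if x = ix i then (1 : ℚ) else 0) * (v l x : ℚ) = 0 := by
        intro l hl
        simp only [ite_mul, one_mul, zero_mul, Finset.sum_ite_eq', Finset.mem_univ, if_true]
        rw [hface l hl, Nat.cast_zero]
      rw [h1 l hl, h1 l' hl'])
    have h1 := hτ (iz n)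
    have h2 := hτ (ix i)
    simp only at h1 h2
    have h3 : iz n ≠ ix i := by
      intro h
      have := congrArg Fin.val h
      simp [iz, ix] at this
      omega
    rw [if_neg h3] at h1
    rw [if_true] at h2
    have h4 : τ = 0 := (mul_eq_zero.1 h1.symm).resolve_right (by
      have : (0 : ℚ) < a (iz n) := by exact_mod_cast ht0
      exact this.ne')
    rw [h4, zero_mul] at h2
    exact one_ne_zero h2
  -- the pairing with the exponents
  have hpu : ∀ u : Fin n → ℕ, ((∑ i, s i * u i : ℕ) : ℚ) = μ * (∑ i, ω i * u i : ℕ) := by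
    intro u
    push_cast
    rw [Finset.mul_sum]
    exact Finset.sum_congr rfl fun i _ => by rw [hse i, mul_assoc]
  -- the face
  have fZ : ∀ l, v l = vec (fun _ => 0) 0 c → (OnFace v a l ↔ (t : ℚ) * c = N) := by
    intro l hl
    unfold OnFace
    rw [hl, pair]
    simp only [mul_zero, Finset.sum_const_zero, zero_add]
    exact ⟨fun h => by exact_mod_cast h, fun h => by exact_mod_cast h⟩
  have fY : ∀ l, v l = vec (fun _ => 0) 1 1 → (OnFace v a l ↔ (b : ℚ) + t = N) := by
    intro l hl
    unfold OnFace
    rw [hl, pair]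
    simp only [mul_zero, mul_one, Finset.sum_const_zero, zero_add]
    exact ⟨fun h => by exact_mod_cast h, fun h => by exact_mod_cast h⟩
  have fU : ∀ l (u : Fin n → ℕ), ∑ i, ω i * u i = d → v l = vec u 1 0 →
      (OnFace v a l ↔ μ * d + b = N) := by
    intro l u hu hl
    unfold OnFace
    rw [hl, pair]
    have h1 := hpu u
    rw [hu] at h1
    rw [← h1, mul_one, mul_zero, add_zero]
    exact ⟨fun h => by exact_mod_cast h, fun h => by exact_mod_cast h⟩
  have fV : ∀ l (u : Fin n → ℕ), ∑ i, ω i * u i = e → v l = vec u 0 0 →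
      (OnFace v a l ↔ μ * e = N) := by
    intro l u hu hl
    unfold OnFace
    rw [hl, pair]
    have h1 := hpu u
    rw [hu] at h1
    rw [← h1, mul_zero, mul_zero, add_zero, add_zero]
    exact ⟨fun h => by exact_mod_cast h, fun h => by exact_mod_cast h⟩
  have wsingle : ∀ (i : Fin n) (q : ℕ), ∑ l, ω l * (Pi.single i q : Fin n → ℕ) l = ω i * q := by
    intro i q
    rw [Finset.sum_eq_single i]
    · rw [Pi.single_eq_same]
    · intro l _ hl
      rw [Pi.single_eq_of_ne hl, mul_zero]
    · intro h
      exact absurd (Finset.mem_univ _) h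
  have fju : ∀ i, OnFace v a (ju i) ↔ μ * d + b = N := fun i =>
    fU _ _ (by rw [wsingle, hv.hD]) (hju i)
  have fjv : ∀ i, OnFace v a (jv i) ↔ μ * e = N := fun i =>
    fV _ _ (by rw [wsingle, hv.hE]) (hjv i)
  -- directions
  have dir : ∀ α β γ C : ℚ, (b = 0 → β = 0) → ((t : ℚ) * c = N → γ * c = C) →
      ((b : ℚ) + t = N → β + γ = C) → (μ * d + b = N → α * d + β = C) → (μ * e = N → α * e = C) →
      ∃ τ : ℚ, α = τ * μ ∧ β = τ * b ∧ γ = τ * t := by
    intro α β γ C h0 hz hy hu hvv
    have hpair : ∀ (u : Fin n → ℕ) (b' t' : ℕ),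
        ∑ i, vec (fun i => α * (ω i : ℚ)) β γ i * ((vec u b' t' i : ℕ) : ℚ) =
          α * (∑ i, ω i * u i : ℕ) + (β * b' + γ * t') := by
      intro u b' t'
      rw [sum_vec]
      simp only [vec_x, vec_y, vec_z]
      push_cast
      rw [Finset.mul_sum]
      congr 1
      exact Finset.sum_congr rfl fun i _ => by ring
    have key : ∀ l, OnFace v a l →
        ∑ i, vec (fun i => α * (ω i : ℚ)) β γ i * (v l i : ℚ) = C := by
      intro l hl
      rcases hv.cls l with h1 | h1 | ⟨u, hu', h1⟩ | ⟨u, hu', h1⟩
      · rw [h1, hpair]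
        have h2 := hz ((fZ l h1).1 hl)
        simpa using h2
      · rw [h1, hpair]
        have h2 := hy ((fY l h1).1 hl)
        simpa using h2
      · rw [h1, hpair, hu']
        have h2 := hu ((fU l u hu' h1).1 hl)
        simpa using h2
      · rw [h1, hpair, hu']
        have h2 := hvv ((fV l u hu' h1).1 hl)
        simpa using h2
    obtain ⟨τ, hτ⟩ := ha.2 (vec (fun i => α * (ω i : ℚ)) β γ) (by
      refine cases_i (fun i hi => ?_) (fun hi => ?_) (fun hi => ?_)
      · exact absurd hi (hs0 i).ne'
      · rw [vec_y]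
        exact h0 hi
      · exact absurd hi ht0.ne') (fun l l' hl hl' => by rw [key l hl, key l' hl'])
    refine ⟨τ, ?_, ?_, ?_⟩
    · have h1 := hτ (ix j)
      rw [vec_x] at h1
      have h2 : ((a (ix j) : ℕ) : ℚ) = μ * ω j := hse j
      rw [h2, ← mul_assoc] at h1
      exact mul_right_cancel₀ (hωq j).ne' h1
    · have h1 := hτ (iy n)
      rwa [vec_y] at h1
    · have h1 := hτ (iz n)
      rwa [vec_z] at h1
  have htq : (0 : ℚ) < t := by exact_mod_cast ht0
  have hNq : (0 : ℚ) < N := by exact_mod_cast hg
  have hcq : (2 : ℚ) ≤ c := by exact_mod_cast hv.hc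
  have hceq : (c : ℚ) * d < e := by exact_mod_cast hv.hce
  have hbq : (0 : ℚ) ≤ b := by positivity
  have hdq : (0 : ℚ) < d := by
    have h1 := hv.hD i0
    have h2 := hv.hD2 i0
    have h3 := hv.hω i0
    have h4 : 0 < d := by
      rw [← h1]
      exact Nat.mul_pos h3 (by omega)
    exact_mod_cast h4
  have hYq : (N : ℚ) ≤ b + t := by exact_mod_cast hY
  have hZq : (N : ℚ) ≤ t * c := by exact_mod_cast hZ
  by_cases hb0 : b = 0
  · -- `b = 0`
    right
    have hb0q : (b : ℚ) = 0 := by exact_mod_cast hb0
    rw [hb0q] at hYq hND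
    have hnZ : (t : ℚ) * c ≠ N := by nlinarith
    have hnV : μ * e ≠ N := by nlinarith
    have hy : (b : ℚ) + t = N := by
      by_contra hne
      obtain ⟨τ, h1, -, h3⟩ := dir 0 0 1 0 (fun _ => rfl) (fun h => absurd h hnZ)
        (fun h => absurd h hne) (fun _ => by ring) (fun _ => by ring)
      rcases mul_eq_zero.1 h1.symm with h4 | h4
      · rw [h4, zero_mul] at h3
        exact one_ne_zero h3
      · exact hμ0.ne' h4
    refine ⟨ht0.ne', jy, (fY jy hjy).2 hy, by rw [hjy, vec_z], fun l hl hne => ?_, fun w hw => ?_⟩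
    · rcases hv.cls l with h1 | h1 | ⟨u, hu', h1⟩ | ⟨u, hu', h1⟩
      · exact absurd ((fZ l h1).1 hl) hnZ
      · exact absurd (hinj (h1.trans hjy.symm)) hne
      · rw [h1, vec_z]
      · rw [h1, vec_z]
    · rw [MvPolynomial.support_zero] at hw
      exact absurd hw (Finset.notMem_empty _)
  · left
    have hb1 : (0 : ℚ) < b := by exact_mod_cast Nat.pos_of_ne_zero hb0
    have hμτ : ∀ τ : ℚ, 0 = τ * μ → τ = 0 := fun τ h =>
      (mul_eq_zero.1 h.symm).resolve_right hμ0.ne'
    have hz : (t : ℚ) * c = N := by
      by_contra hz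
      have hy : (b : ℚ) + t = N := by
        by_contra hy
        obtain ⟨τ, h1, -, h3⟩ := dir 0 0 1 0 (fun _ => rfl) (fun h => absurd h hz)
          (fun h => absurd h hy) (fun _ => by ring) (fun _ => by ring)
        rw [hμτ τ h1, zero_mul] at h3
        exact one_ne_zero h3
      have hp : μ * d + b = N := by
        by_contra hp
        obtain ⟨τ, h1, h2, -⟩ := dir 0 1 (-1) 0 (fun h => absurd h hb0) (fun h => absurd h hz)
          (fun _ => by ring) (fun h => absurd h hp) (fun _ => by ring)
        rw [hμτ τ h1, zero_mul] at h2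
        exact one_ne_zero h2
      have hh : μ * e = N := by
        by_contra hh
        obtain ⟨τ, h1, h2, -⟩ := dir 1 0 d d (fun h => absurd h hb0) (fun h => absurd h hz)
          (fun _ => by ring) (fun _ => by ring) (fun h => absurd h hh)
        have h4 : τ = 0 := (mul_eq_zero.1 h2.symm).resolve_right hb1.ne'
        rw [h4, zero_mul] at h1
        exact one_ne_zero h1
      have h1 : (t : ℚ) = μ * d := by linarith
      rw [h1] at hZq
      nlinarith
    have hp : μ * d + b = N := by
      by_contra hp
      have hy : (b : ℚ) + t = N := by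
        by_contra hy
        obtain ⟨τ, h1, h2, -⟩ := dir 0 1 0 0 (fun h => absurd h hb0) (fun _ => by ring)
          (fun h => absurd h hy) (fun h => absurd h hp) (fun _ => by ring)
        rw [hμτ τ h1, zero_mul] at h2
        exact one_ne_zero h2
      have hh : μ * e = N := by
        by_contra hh
        obtain ⟨τ, h1, h2, -⟩ := dir 1 0 0 0 (fun h => absurd h hb0) (fun _ => by ring)
          (fun _ => by ring) (fun h => absurd h hp) (fun h => absurd h hh)
        have h4 : τ = 0 := (mul_eq_zero.1 h2.symm).resolve_right hb1.ne'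
        rw [h4, zero_mul] at h1
        exact one_ne_zero h1
      have h1 : (t : ℚ) ≤ μ * d := by linarith
      nlinarith
    have ha0 : ∀ i, a i ≠ 0 := cases_i (fun i => (hs0 i).ne') hb0 ht0.ne'
    have hcard : Fintype.card (Option (Option (Fin n))) =
        (Finset.univ.filter fun i => a i ≠ 0).card := by
      rw [Finset.filter_true_of_mem fun i _ => ha0 i, Finset.card_univ, Fintype.card_option,
        Fintype.card_option, Fintype.card_fin, Fintype.card_fin]
    have psum : ∀ (w : Fin n → ℚ) (q : Fin n → ℕ) (i : Fin n),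
        ∑ l, w l * ((Pi.single l (q l) : Fin n → ℕ) i : ℚ) = w i * q i := by
      intro w q i
      rw [Finset.sum_eq_single i]
      · rw [Pi.single_eq_same]
      · intro l _ hl
        rw [Pi.single_eq_of_ne (Ne.symm hl), Nat.cast_zero, mul_zero]
      · intro h
        exact absurd (Finset.mem_univ _) h
    have hcn : (c : ℚ) ≠ 0 := by linarith
    by_cases hy : (b : ℚ) + t = N
    · refine nonB_of (fun x : Option (Option (Fin n)) => x.elim jz fun x => x.elim jy ju) hcard
        (fun x => ?_) (fun w hw => ?_) (fun i _ x0 h1 => ?_) ha0 loc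
      · rcases x with _ | _ | i
        · exact (fZ jz hjz).2 hz
        · exact (fY jy hjy).2 hy
        · exact (fju i).2 hp
      · simp only [Fintype.sum_option, Option.elim_none, Option.elim_some, hjz, hjy, hju] at hw
        have hx : ∀ i, w (some (some i)) = 0 := by
          intro i
          have h1 := hw (ix i) (ha0 _)
          simp only [vec_x, Nat.cast_zero, mul_zero, zero_add] at h1
          rw [psum (fun i => w (some (some i)))] at h1
          refine (mul_eq_zero.1 h1).resolve_right ?_
          have := hv.hD2 i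
          exact_mod_cast (show D i ≠ 0 by omega)
        have h2 := hw (iy n) (ha0 _)
        simp only [vec_y, Nat.cast_zero, mul_zero, zero_add, Nat.cast_one, mul_one, hx,
          Finset.sum_const_zero, add_zero] at h2
        have h3 := hw (iz n) (ha0 _)
        simp only [vec_z, h2, zero_mul, add_zero, Nat.cast_zero, mul_zero,
          Finset.sum_const_zero, hx] at h3
        have h4 := (mul_eq_zero.1 h3).resolve_right hcn
        rintro (_ | _ | i)
        · exact h4
        · exact h2
        · exact hx i
      · revert h1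
        refine cases_i (P := fun i => v ((x0 : Option (Option (Fin n))).elim jz
          fun x => x.elim jy ju) i = 1 → ∃ x : Option (Option (Fin n)), x ≠ x0 ∧
            v (x.elim jz fun x => x.elim jy ju) i ≠ 0) (fun l h1 => ?_) (fun h1 => ?_)
          (fun h1 => ?_) i
        · exfalso
          rcases x0 with _ | _ | i
          · simp only [Option.elim_none, Option.elim_some, hjz, vec_x] at h1
            exact absurd h1 (by norm_num)
          · simp only [Option.elim_none, Option.elim_some, hjy, vec_x] at h1
            exact absurd h1 (by norm_num)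
          · simp only [Option.elim_none, Option.elim_some, hju, vec_x] at h1
            have h2 := hv.hD2 i
            by_cases hli : l = i
            · rw [hli, Pi.single_eq_same] at h1
              omega
            · rw [Pi.single_eq_of_ne hli] at h1
              omega
        · by_cases hx : x0 = some none
          · refine ⟨some (some i0), by rw [hx]; simp, ?_⟩
            simp only [Option.elim_none, Option.elim_some, hju, vec_y]
            exact one_ne_zero
          · refine ⟨some none, Ne.symm hx, ?_⟩
            simp only [Option.elim_none, Option.elim_some, hjy, vec_y]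
            exact one_ne_zero
        · by_cases hx : x0 = none
          · refine ⟨some none, by rw [hx]; simp, ?_⟩
            simp only [Option.elim_none, Option.elim_some, hjy, vec_z]
            exact one_ne_zero
          · refine ⟨none, Ne.symm hx, ?_⟩
            simp only [Option.elim_none, Option.elim_some, hjz, vec_z]
            have := hv.hc
            omega
    · have hh : μ * e = N := by
        by_contra hh
        obtain ⟨τ, h1, -, h3⟩ := dir 1 (-d) 0 0 (fun h => absurd h hb0) (fun _ => by ring)
          (fun h => absurd h hy) (fun _ => by ring) (fun h => absurd h hh)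
        have h4 : τ = 0 := (mul_eq_zero.1 h3.symm).resolve_right htq.ne'
        rw [h4, zero_mul] at h1
        exact one_ne_zero h1
      have hn1 : 1 < n := by
        have := hv.hn
        omega
      set i1 : Fin n := ⟨1, hn1⟩ with hi1
      set i2 : Fin n := ⟨0, by omega⟩ with hi2
      have hi12 : i1 ≠ i2 := by
        intro h
        have := congrArg Fin.val h
        simp [hi1, hi2] at this
      set ψ : Fin n → Fin r := fun i => if i = i2 then ju i else jv i with hψ
      have hE2 : ∀ i, 2 ≤ E i := by
        intro i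
        by_contra hlt
        have h1 := hv.hE i
        have h2 := hv.hD i
        have h3 := hv.hD2 i
        have h4 := hv.hce
        have h5 := hv.hc
        have h6 := hv.hω i
        rw [← h1, ← h2] at h4
        have h7 : ω i * E i ≤ ω i * 1 := Nat.mul_le_mul_left _ (by omega)
        have h8 : 2 * (ω i * 2) ≤ c * (ω i * D i) :=
          Nat.mul_le_mul h5 (Nat.mul_le_mul_left _ h3)
        omega
      set q : Fin n → ℕ := fun i => if i = i2 then D i else E i with hq
      have hq2 : ∀ i, 2 ≤ q i := by
        intro i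
        simp only [hq]
        split_ifs
        · exact hv.hD2 i
        · exact hE2 i
      set β' : Fin n → ℕ := fun i => if i = i2 then 1 else 0 with hβ'
      have hψv : ∀ i, v (ψ i) = vec (Pi.single i (q i)) (β' i) 0 := by
        intro i
        simp only [hψ, hq, hβ']
        split_ifs with h
        · exact hju i
        · exact hjv i
      refine nonB_of (fun x : Option (Option (Fin n)) => x.elim jz fun x => x.elim (ju i1) ψ)
        hcard (fun x => ?_) (fun w hw => ?_) (fun i _ x0 h1 => ?_) ha0 loc
      · rcases x with _ | _ | i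
        · exact (fZ jz hjz).2 hz
        · exact (fju i1).2 hp
        · show OnFace v a (ψ i)
          simp only [hψ]
          split_ifs with h
          · exact (fju i).2 hp
          · exact (fjv i).2 hh
      · simp only [Fintype.sum_option, Option.elim_none, Option.elim_some, hjz, hju, hψv] at hw
        have hx2 : w (some (some i2)) = 0 := by
          have h1 := hw (ix i2) (ha0 _)
          simp only [vec_x, Nat.cast_zero, mul_zero, zero_add] at h1
          rw [psum (fun i => w (some (some i))), Pi.single_eq_of_ne (Ne.symm hi12),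
            Nat.cast_zero, mul_zero, zero_add] at h1
          refine (mul_eq_zero.1 h1).resolve_right ?_
          have := hq2 i2
          exact_mod_cast (show q i2 ≠ 0 by omega)
        have h2 := hw (iy n) (ha0 _)
        have hsy : ∑ i, w (some (some i)) * (β' i : ℚ) = w (some (some i2)) := by
          rw [Finset.sum_eq_single i2]
          · simp only [hβ', if_true, Nat.cast_one, mul_one]
          · intro l _ hl
            simp only [hβ', if_neg hl, Nat.cast_zero, mul_zero]
          · intro h
            exact absurd (Finset.mem_univ _) h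
        simp only [vec_y, Nat.cast_zero, mul_zero, zero_add, Nat.cast_one, mul_one] at h2
        rw [hsy, hx2, add_zero] at h2
        have hx : ∀ i, w (some (some i)) = 0 := by
          intro i
          have h1 := hw (ix i) (ha0 _)
          simp only [vec_x, Nat.cast_zero, mul_zero, zero_add, h2, zero_mul] at h1
          rw [psum (fun i => w (some (some i)))] at h1
          refine (mul_eq_zero.1 h1).resolve_right ?_
          have := hq2 i
          exact_mod_cast (show q i ≠ 0 by omega)
        have h3 := hw (iz n) (ha0 _)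
        simp only [vec_z, h2, zero_mul, add_zero, Nat.cast_zero, mul_zero,
          Finset.sum_const_zero, hx] at h3
        have h4 := (mul_eq_zero.1 h3).resolve_right hcn
        rintro (_ | _ | i)
        · exact h4
        · exact h2
        · exact hx i
      · revert h1
        refine cases_i (P := fun i => v ((x0 : Option (Option (Fin n))).elim jz
          fun x => x.elim (ju i1) ψ) i = 1 → ∃ x : Option (Option (Fin n)), x ≠ x0 ∧
            v (x.elim jz fun x => x.elim (ju i1) ψ) i ≠ 0) (fun l h1 => ?_) (fun h1 => ?_)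
          (fun h1 => ?_) i
        · exfalso
          rcases x0 with _ | _ | i
          · simp only [Option.elim_none, Option.elim_some, hjz, vec_x] at h1
            exact absurd h1 (by norm_num)
          · simp only [Option.elim_none, Option.elim_some, hju, vec_x] at h1
            have h2 := hv.hD2 i1
            by_cases hli : l = i1
            · rw [hli, Pi.single_eq_same] at h1
              omega
            · rw [Pi.single_eq_of_ne hli] at h1
              omega
          · simp only [Option.elim_none, Option.elim_some, hψv, vec_x] at h1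
            have h2 := hq2 i
            by_cases hli : l = i
            · rw [hli, Pi.single_eq_same] at h1
              omega
            · rw [Pi.single_eq_of_ne hli] at h1
              omega
        · by_cases hx : x0 = some none
          · refine ⟨some (some i2), by rw [hx]; simp, ?_⟩
            simp only [Option.elim_none, Option.elim_some, hψv, vec_y, hβ', if_true]
            exact one_ne_zero
          · refine ⟨some none, Ne.symm hx, ?_⟩
            simp only [Option.elim_none, Option.elim_some, hju, vec_y]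
            exact one_ne_zero
        · exfalso
          rcases x0 with _ | _ | i
          · simp only [Option.elim_none, Option.elim_some, hjz, vec_z] at h1
            have := hv.hc
            omega
          · simp only [Option.elim_none, Option.elim_some, hju, vec_z] at h1
            exact absurd h1 (by norm_num)
          · simp only [Option.elim_none, Option.elim_some, hψv, vec_z] at h1
            exact absurd h1 (by norm_num)

end Pool.Agent.T6.H16.MR.Fm
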