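import Pool.Agent.T6.H16.MR.Fin2
import Pool.Agent.T6.H16.MR.F1

set_option autoImplicit false

/-! The family `f = γ p ^ m + h`, `p`, `h` generic weighted homogeneous forms. -/

namespace Pool.Agent.T6.H16.MR.SS.Fm

open MvPolynomial
open Pool.Agent.T6.H16.MR.Fm
open Pool.Agent.TH216.HD (ordA OnFace IsRay lev NonB1 Simp B1Dir LocS)

variable {n r₁ r₂ : ℕ}

/-- the labels -/
def fπ (r₁ r₂ : ℕ) : Fin (1 + (r₁ + r₂)) → Option (Fin 1) :=
  Fin.append (fun _ => none) (Fin.append (fun _ => some 0) (fun _ => none))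

/-- the monomials -/
def fW (m : ℕ) (u : Fin r₁ → Fin n → ℕ) (w : Fin r₂ → Fin n → ℕ) :
    Fin (1 + (r₁ + r₂)) → Fin (n + 1) → ℕ :=
  Fin.append (fun _ => Fin.append (fun _ => 0) (fun _ => m))
    (Fin.append (fun j => Fin.append (u j) (fun _ => 0)) (fun j => Fin.append (w j) (fun _ => 0)))

def j0 (r₁ r₂ : ℕ) : Fin (1 + (r₁ + r₂)) := Fin.castAdd (r₁ + r₂) 0
def jp {r₁ : ℕ} (r₂ : ℕ) (j : Fin r₁) : Fin (1 + (r₁ + r₂)) := Fin.natAdd 1 (Fin.castAdd r₂ j)
def jh (r₁ : ℕ) {r₂ : ℕ} (j : Fin r₂) : Fin (1 + (r₁ + r₂)) := Fin.natAdd 1 (Fin.natAdd r₁ j)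

lemma j_cases {P : Fin (1 + (r₁ + r₂)) → Prop} (h0 : P (j0 r₁ r₂)) (h1 : ∀ j, P (jp r₂ j))
    (h2 : ∀ j, P (jh r₁ j)) (j) : P j := by
  refine Fin.addCases (fun i => ?_) (fun i => ?_) j
  · have : i = 0 := Subsingleton.elim _ _
    rw [this]
    exact h0
  · exact Fin.addCases h1 h2 i

lemma fπ_0 : fπ r₁ r₂ (j0 r₁ r₂) = none := Fin.append_left _ _ _
lemma fπ_p (j : Fin r₁) : fπ r₁ r₂ (jp r₂ j) = some 0 :=
  (Fin.append_right _ _ _).trans (Fin.append_left _ _ _)
lemma fπ_h (j : Fin r₂) : fπ r₁ r₂ (jh r₁ j) = none :=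
  (Fin.append_right _ _ _).trans (Fin.append_right _ _ _)

lemma fW_0 (m : ℕ) (u : Fin r₁ → Fin n → ℕ) (w : Fin r₂ → Fin n → ℕ) :
    fW m u w (j0 r₁ r₂) = Fin.append (fun _ => 0) (fun _ => m) := Fin.append_left _ _ _
lemma fW_p (m : ℕ) (u : Fin r₁ → Fin n → ℕ) (w : Fin r₂ → Fin n → ℕ) (j : Fin r₁) :
    fW m u w (jp r₂ j) = Fin.append (u j) (fun _ => 0) :=
  (Fin.append_right _ _ _).trans (Fin.append_left _ _ _)
lemma fW_h (m : ℕ) (u : Fin r₁ → Fin n → ℕ) (w : Fin r₂ → Fin n → ℕ) (j : Fin r₂) :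
    fW m u w (jh r₁ j) = Fin.append (w j) (fun _ => 0) :=
  (Fin.append_right _ _ _).trans (Fin.append_right _ _ _)

lemma app_inj {A : Type} {p q : ℕ} {a a' : Fin p → A} {b b' : Fin q → A}
    (h : Fin.append a b = Fin.append a' b') : a = a' ∧ b = b' := by
  constructor
  · funext i
    have := congrFun h (Fin.castAdd q i)
    rwa [Fin.append_left, Fin.append_left] at this
  · funext i
    have := congrFun h (Fin.natAdd p i)
    rwa [Fin.append_right, Fin.append_right] at this

section cay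

variable (m : ℕ) (u : Fin r₁ → Fin n → ℕ) (w : Fin r₂ → Fin n → ℕ)

/-- the exponents in `x, y, z` -/
abbrev fv : Fin (1 + (r₁ + r₂) + 1) → Fin (n + (1 + 1)) → ℕ := cayE (fπ r₁ r₂) (fW m u w)

lemma app_eq (j : Fin (1 + (r₁ + r₂))) (a : Fin n → ℕ) (b t : ℕ)
    (h : fW m u w j = Fin.append a (fun _ => t))
    (hb : (if fπ r₁ r₂ j = some 0 then 1 else 0) = b) :
    fv m u w (Fin.castAdd 1 j) = vec a b t := by
  unfold fv cayE vec
  rw [Fin.append_left]
  congr 1
  · funext i
    rw [h, Fin.append_left]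
  · congr 1
    · funext i
      have : i = 0 := Subsingleton.elim _ _
      rw [this]
      exact hb
    · funext i
      rw [h, Fin.append_right]

lemma fv_0 : fv m u w (Fin.castAdd 1 (j0 r₁ r₂)) = vec (fun _ => 0) 0 m :=
  app_eq m u w _ _ _ _ (fW_0 m u w) (by rw [fπ_0]; rfl)
lemma fv_p (j : Fin r₁) : fv m u w (Fin.castAdd 1 (jp r₂ j)) = vec (u j) 1 0 :=
  app_eq m u w _ _ _ _ (fW_p m u w j) (by rw [fπ_p]; rfl)
lemma fv_h (j : Fin r₂) : fv m u w (Fin.castAdd 1 (jh r₁ j)) = vec (w j) 0 0 :=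
  app_eq m u w _ _ _ _ (fW_h m u w j) (by rw [fπ_h]; rfl)
lemma fv_y : fv m u w (Fin.natAdd (1 + (r₁ + r₂)) 0) = vec (fun _ => 0) 1 1 := by
  unfold fv cayE vec
  rw [Fin.append_right]
  congr 1
  congr 1
  · funext i
    have : i = 0 := Subsingleton.elim _ _
    rw [this, Pi.single_eq_same]
  · funext i
    have : i = 0 := Subsingleton.elim _ _
    rw [this, Pi.single_eq_same]

end cay

/-- the hypotheses -/
structure Hy (ω : Fin n → ℕ) (d e m : ℕ) (u : Fin r₁ → Fin n → ℕ) (w : Fin r₂ → Fin n → ℕ) :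
    Prop where
  hn : 2 ≤ n
  hm : 2 ≤ m
  hde : m * d < e
  hω : ∀ i, 0 < ω i
  hωd : ∀ i, ω i < d
  hu : Forms ω d u
  hw : Forms ω e w

variable {ω : Fin n → ℕ} {d e m : ℕ} {u : Fin r₁ → Fin n → ℕ} {w : Fin r₂ → Fin n → ℕ}

lemma psingle (ω : Fin n → ℕ) (i : Fin n) (q : ℕ) :
    ∑ l, ω l * (Pi.single i q : Fin n → ℕ) l = ω i * q := by
  rw [Finset.sum_eq_single i]
  · rw [Pi.single_eq_same]
  · intro l _ hl
    rw [Pi.single_eq_of_ne hl, mul_zero]
  · intro h
    exact absurd (Finset.mem_univ _) h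

lemma tower (H : Hy ω d e m u w) {F : Type} [Field F] {loc : Prop}
    (hf : Facets loc 1 (fv m u w) (hxz (0 : MvPolynomial (Fin (n + 1)) F))) :
    Tower loc (fπ r₁ r₂) (fW m u w) (0 : MvPolynomial (Fin (n + 1)) F) := by
  have hm := H.hm
  refine ⟨?_, ?_, ?_, ?_, hf⟩
  · have h0p : ∀ (a : Fin n → ℕ), (Fin.append (fun _ => 0) (fun _ => m) : Fin (n + 1) → ℕ) ≠
        Fin.append a (fun _ => 0) := fun a h => by
      have := congrFun (app_inj h).2 0
      omega
    refine j_cases (j_cases (fun _ _ => rfl) (fun j h _ => ?_) (fun j _ h => ?_))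
      (fun i => j_cases (fun h _ => ?_) (fun j _ h => ?_) (fun j h _ => ?_))
      (fun i => j_cases (fun _ h => ?_) (fun j h _ => ?_) (fun j _ h => ?_))
    · rw [fπ_0, fπ_p] at h
      exact absurd h (by simp)
    · rw [fW_0, fW_h] at h
      exact absurd h (h0p _)
    · rw [fπ_0, fπ_p] at h
      exact absurd h (by simp)
    · rw [fW_p, fW_p] at h
      rw [H.hu.1 (app_inj h).1]
    · rw [fπ_h, fπ_p] at h
      exact absurd h (by simp)
    · rw [fW_0, fW_h] at h
      exact absurd h.symm (h0p _)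
    · rw [fπ_h, fπ_p] at h
      exact absurd h (by simp)
    · rw [fW_h, fW_h] at h
      rw [H.hw.1 (app_inj h).1]
  · refine j_cases (fun i l h => ?_) (fun j i l _ _ => ?_) (fun j i l h => ?_)
    · rw [fπ_0] at h
      exact absurd h (by simp)
    · rw [fW_p, Fin.append_right]
    · rw [fπ_h] at h
      exact absurd h (by simp)
  · refine j_cases (fun _ h => ?_) (fun j h => ?_) (fun j _ h => ?_)
    · rw [fW_0] at h
      have := congrFun h (Fin.natAdd n 0)
      rw [Fin.append_right] at this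
      simp at this
      omega
    · rw [fπ_p] at h
      exact absurd h (by simp)
    · rw [fW_h] at h
      have h1 := H.hw.2.1 j
      have h2 : ∀ i, w j i = 0 := fun i => by
        have := congrFun h (Fin.castAdd 1 i)
        rwa [Fin.append_left] at this
      simp only [h2, mul_zero, Finset.sum_const_zero] at h1
      have := H.hde
      omega
  · intro w hw
    unfold hxz at hw
    rw [map_zero, support_zero] at hw
    exact absurd hw (Finset.notMem_empty _)

lemma tower0 (H : Hy ω d e m u w) {F : Type} [Field F]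
    (hf : Facets True 1 (fv m u w) (hxz (0 : MvPolynomial (Fin (n + 1)) F))) :
    Tower0 (fπ r₁ r₂) (fW m u w) (0 : MvPolynomial (Fin (n + 1)) F) := by
  have hm := H.hm
  refine ⟨tower H hf, ?_, ?_, fun l => coeff_zero _⟩
  · have hn : 0 < d := by
      have h1 := H.hn
      exact lt_of_le_of_lt (Nat.zero_le _) (H.hωd ⟨0, by omega⟩)
    refine j_cases (fun h => ?_) (fun j h => ?_) (fun j h => ?_)
    · rw [fW_0] at h
      have := congrFun h (Fin.natAdd n 0)
      rw [Fin.append_right] at this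
      simp at this
      omega
    · rw [fW_p] at h
      have h1 := H.hu.2.1 j
      have h2 : ∀ i, u j i = 0 := fun i => by
        have := congrFun h (Fin.castAdd 1 i)
        rwa [Fin.append_left] at this
      simp only [h2, mul_zero, Finset.sum_const_zero] at h1
      omega
    · rw [fW_h] at h
      have h1 := H.hw.2.1 j
      have h2 : ∀ i, w j i = 0 := fun i => by
        have := congrFun h (Fin.castAdd 1 i)
        rwa [Fin.append_left] at this
      simp only [h2, mul_zero, Finset.sum_const_zero] at h1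
      have := H.hde
      omega
  · refine j_cases (fun l _ h => ?_) (fun j l _ h => ?_) (fun j l _ h => ?_)
    · rw [fW_0] at h
      have := congrFun h (Fin.natAdd n l)
      rw [Fin.append_right, Pi.single_eq_same] at this
      omega
    · rw [fW_p] at h
      have := congrFun h (Fin.natAdd n l)
      rw [Fin.append_right, Pi.single_eq_same] at this
      omega
    · rw [fW_h] at h
      have := congrFun h (Fin.natAdd n l)
      rw [Fin.append_right, Pi.single_eq_same] at this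
      omega

lemma fam (H : Hy ω d e m u w) : ∃ D E : Fin n → ℕ, Fam (fv m u w) ω D E d e m := by
  choose ju D hD using H.hu.2.2
  choose jw E hE using H.hw.2.2
  have h1 : ∀ i, ω i * D i = d := fun i => by
    rw [← psingle, ← hD i, H.hu.2.1]
  have h2 : ∀ i, ω i * E i = e := fun i => by
    rw [← psingle, ← hE i, H.hw.2.1]
  refine ⟨D, E, ?_, ⟨_, fv_0 m u w⟩, ⟨_, fv_y m u w⟩, fun i => ⟨_, by rw [fv_p m u w (ju i), hD]⟩,
    fun i => ⟨_, by rw [fv_h m u w (jw i), hE]⟩, H.hm, H.hde, H.hn, h1, h2, fun i => ?_, H.hω⟩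
  · refine Fin.addCases (j_cases (Or.inl (fv_0 m u w))
      (fun j => Or.inr (Or.inr (Or.inl ⟨_, H.hu.2.1 j, fv_p m u w j⟩)))
      (fun j => Or.inr (Or.inr (Or.inr ⟨_, H.hw.2.1 j, fv_h m u w j⟩)))) (fun i => ?_)
    have : i = 0 := Subsingleton.elim _ _
    rw [this]
    exact Or.inr (Or.inl (fv_y m u w))
  · by_contra hlt
    have h3 := h1 i
    have h4 := H.hωd i
    have h5 : ω i * D i ≤ ω i * 1 := Nat.mul_le_mul_left _ (by omega)
    omega

lemma vec_inj {A : Type} {a a' : Fin n → A} {b b' t t' : A} (h : vec a b t = vec a' b' t') :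
    a = a' ∧ b = b' ∧ t = t' := by
  refine ⟨?_, ?_, ?_⟩
  · funext i
    rw [← vec_x a b t, h, vec_x]
  · rw [← vec_y a b t, h, vec_y]
  · rw [← vec_z a b t, h, vec_z]

lemma fv_inj (H : Hy ω d e m u w) : Function.Injective (fv m u w) := by
  have hm := H.hm
  have key : ∀ j j', fv m u w (Fin.castAdd 1 j) = fv m u w (Fin.castAdd 1 j') → j = j' := by
    refine j_cases (j_cases (fun _ => rfl) (fun j h => ?_) (fun j h => ?_))
      (fun i => j_cases (fun h => ?_) (fun j h => ?_) (fun j h => ?_))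
      (fun i => j_cases (fun h => ?_) (fun j h => ?_) (fun j h => ?_))
    · rw [fv_0, fv_p] at h
      exact absurd (vec_inj h).2.1 (by norm_num)
    · rw [fv_0, fv_h] at h
      have := (vec_inj h).2.2
      omega
    · rw [fv_0, fv_p] at h
      exact absurd (vec_inj h).2.1 (by norm_num)
    · rw [fv_p, fv_p] at h
      rw [H.hu.1 (vec_inj h).1]
    · rw [fv_h, fv_p] at h
      exact absurd (vec_inj h).2.1 (by norm_num)
    · rw [fv_0, fv_h] at h
      have := (vec_inj h).2.2
      omega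
    · rw [fv_h, fv_p] at h
      exact absurd (vec_inj h).2.1 (by norm_num)
    · rw [fv_h, fv_h] at h
      rw [H.hw.1 (vec_inj h).1]
  have key2 : ∀ j, fv m u w (Fin.castAdd 1 j) ≠ fv m u w (Fin.natAdd (1 + (r₁ + r₂)) 0) := by
    refine j_cases (fun h => ?_) (fun j h => ?_) (fun j h => ?_)
    · rw [fv_0, fv_y] at h
      exact absurd (vec_inj h).2.1 (by norm_num)
    · rw [fv_p, fv_y] at h
      exact absurd (vec_inj h).2.2 (by norm_num)
    · rw [fv_h, fv_y] at h
      exact absurd (vec_inj h).2.1 (by norm_num)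
  intro j j'
  refine Fin.addCases (fun i => ?_) (fun i => ?_) j
  · refine Fin.addCases (fun i' h => ?_) (fun i' h => ?_) j'
    · rw [key i i' h]
    · have : i' = 0 := Subsingleton.elim _ _
      rw [this] at h
      exact absurd h (key2 i)
  · have hi : i = 0 := Subsingleton.elim _ _
    rw [hi]
    refine Fin.addCases (fun i' h => ?_) (fun i' h => ?_) j'
    · exact absurd h.symm (key2 i')
    · have : i' = 0 := Subsingleton.elim _ _
      rw [this]

lemma facets (H : Hy ω d e m u w) {F : Type} [Field F] (loc : Prop) :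
    Facets loc 1 (fv m u w) (hxz (0 : MvPolynomial (Fin (n + 1)) F)) := by
  obtain ⟨D, E, hv⟩ := fam H
  intro a ha hg
  right
  by_cases hN : ∃ a' : Fin (n + (1 + 1)) → ℕ, 0 < ordA (fv m u w) a' ∧
      NonB1 (fv m u w) loc a' ∧ lev (fv m u w) a = lev (fv m u w) a'
  · exact Or.inl hN
  · right
    intro j1
    refine ⟨iz n, fun a' ha' hg' _ hl => Or.inr ?_⟩
    have hx : hxz (0 : MvPolynomial (Fin (n + 1)) F) = 0 := by
      unfold hxz
      rw [map_zero]
    rw [hx]
    rcases facet (R := F) hv (fv_inj H) a' ha' hg' loc with h1 | h1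
    · exact absurd ⟨a', hg', h1, hl.symm⟩ hN
    · exact h1

end Pool.Agent.T6.H16.MR.SS.Fm
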