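import Pool.Agent.T6.H16.MR.G7

set_option autoImplicit false

/-! Towers with generic coefficients: the theorem. -/

namespace Pool.Agent.T6.H16.MR

open MvPolynomial
open Pool.Agent.H628R4.TP
open Pool.Agent.W425.ND (spa)
open Pool.Agent.W425.MM (NonB sp_eq we wc we_np)
open Pool.Agent.W425.GN (pRAY)
open Pool.Agent.W425.SV (NP)
open Pool.Agent.W426.SM (gord IsRay face)
open Pool.Agent.W428.MOT (EMeas LuMu InRat zetaE MKMu sp)
open Pool.Agent.T6.H16.ME (hyp shiftS)
open Pool.Agent.TH216.MF (ratR LocS)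
open Pool.Agent.Y231.N4 (serM OrigM zetaE0)
open Pool.Agent.Y229.RE (emb yv zv xv emb_l emb_r)

section

variable {n κ r : ℕ}

theorem sp_spa {k : Type} [Field k] {m l : ℕ} (v : Fin l → Fin m → ℕ) (c : Fin l → k) :
    sp 0 v c 1 = spa v c := by
  unfold sp spa
  simp

theorem neg_tow {F k : Type} [Field F] [Field k] [Algebra F k] (hr : 0 < r)
    {Φ : MvPolynomial (Fin (n + κ)) k} {q : Fin κ → MvPolynomial (Fin (n + κ)) k} (hq : Tri q)
    {g : Fin κ → MvPolynomial (Fin n) k} (hg : ∀ i, g i = sb g (q i)) (hf : sb g Φ ≠ 0)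
    {v : Fin r → Fin (n + (κ + κ)) → ℕ} {c : Fin r → k} {h : MvPolynomial (Fin (n + (κ + κ))) F}
    (hh : ∀ w ∈ h.support, NP v w)
    (he : cay Φ q = spa v c + MvPolynomial.map (algebraMap F k) h)
    (a : Fin (n + (κ + κ)) → ℕ) (ha : 0 < gord v a) : κ * gord v a < ∑ i, a i := by
  have h1 : cay Φ q = spa (Fin.append v (we h))
      (Fin.append c (fun l => algebraMap F k (wc h l))) := by
    rw [he, sp_eq, sp_spa]
  have h2 := (pRAY v (we h) hr (we_np v h hh) a).1
  rw [← h2] at ha ⊢
  exact tow_neg hq hg hf h1 a ha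

theorem cay_one {k : Type} [Field k] (π : Fin r → Option (Fin κ)) (W : Fin r → Fin (n + κ) → ℕ)
    (c : Fin r → k) (h0 : MvPolynomial (Fin (n + κ)) k) :
    cay (part π W c none + h0) (fun i => part π W c (some i)) =
      spa (cayE π W) (Fin.append (fun j => c j * Tc (fun _ => (1 : k)) (π j)) fun _ => 1) +
        rename emb h0 := by
  have h1 := scl_cay π W c (fun _ => (1 : k)) (fun _ => one_ne_zero) h0
  rw [← h1]
  have h2 : ∀ p : MvPolynomial (Fin (n + (κ + κ))) k,
      scl (su n fun _ => (1 : k)) (su_ne fun _ => one_ne_zero) p = p := by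
    intro p
    have h3 : (scl (su n fun _ : Fin κ => (1 : k)) (su_ne fun _ => one_ne_zero) :
        MvPolynomial (Fin (n + (κ + κ))) k →ₐ[k] MvPolynomial (Fin (n + (κ + κ))) k) =
        AlgHom.id k _ := by
      refine MvPolynomial.algHom_ext fun i => ?_
      show scl _ _ (X i) = X i
      have h4 : su n (fun _ : Fin κ => (1 : k)) i = 1 := by
        unfold su
        refine Fin.addCases (fun i => ?_) (fun i => ?_) i
        · rw [Fin.append_left]
        · rw [Fin.append_right]
          refine Fin.addCases (fun i => ?_) (fun i => ?_) i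
          · rw [Fin.append_left]
          · rw [Fin.append_right]
      rw [scl_X, h4, map_one, one_mul]
    exact congrFun (congrArg DFunLike.coe h3) p
  rw [h2]

variable {F : Type} [Field F]

/-- The condition on the facets. -/
def HypR (loc : Prop) (κ : ℕ) {m l : ℕ} (v : Fin l → Fin m → ℕ) (h : MvPolynomial (Fin m) F) :
    Prop :=
  ∀ a : Fin m → ℕ, IsRay v a → 0 < gord v a → ∑ i, a i = (κ + 1) * gord v a ∨
    (∃ a' : Fin m → ℕ, 0 < gord v a' ∧ NonB v loc a' ∧ lv v a = lv v a') ∨ LocS v h (lv v a)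

/-- the conclusion of the theorem of the general form, for towers -/
theorem tow_main [Algebra F ℂ] (Con : ∀ (k : Type) [Field k] [Algebra k ℂ],
      MvPolynomial (Fin n) k → Prop) (OKf : ∀ (k : Type) [Field k], MvPolynomial (Fin n) k → Prop)
    (OKθ : ∀ (k : Type) [Field k], PAut k (n + (κ + κ)) → Prop) (loc : Prop)
    (hne : ∀ (k : Type) [Field k] (f : MvPolynomial (Fin n) k), OKf k f → f ≠ 0)
    (π : Fin r → Option (Fin κ)) (W : Fin r → Fin (n + κ) → ℕ)
    (hinj : ∀ j j', π j = π j' → W j = W j' → j = j')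
    (htri : ∀ j i l, π j = some i → i ≤ l → W j (Fin.natAdd n l) = 0)
    (h0 : ∀ j, π j = none → W j ≠ 0)
    (h : MvPolynomial (Fin (n + κ)) F)
    (hh : ∀ w ∈ (rename emb h : MvPolynomial (Fin (n + (κ + κ))) F).support, NP (cayE π W) w)
    (hvh : ∀ w ∈ (rename emb h : MvPolynomial (Fin (n + (κ + κ))) F).support,
      ∀ j, ¬ ∀ x, w x = cayE π W j x)
    (hT : HypR loc κ (cayE π W) (rename emb h : MvPolynomial (Fin (n + (κ + κ))) F))
    (hOKθ : ∀ (k : Type) [Field k] [Algebra F k] (c : Fin r → k) (t : Fin κ → k)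
      (ht : ∀ i, t i ≠ 0)
      (g : Fin κ → MvPolynomial (Fin n) k), (∀ i, g i = sb g (part π W c (some i))) →
      ∀ e : Fin κ → MvPolynomial (Fin (n + κ)) k,
        (part π W c none + MvPolynomial.map (algebraMap F k) h) =
          rename (Fin.castAdd κ) (sb g (part π W c none + MvPolynomial.map (algebraMap F k) h)) +
          ∑ i, e i * (X (Fin.natAdd n i) - part π W c (some i)) →
        OKθ k ((thA (c := e) (tri_part htri c)).trans (scl (su n t) (su_ne ht))))
    (main : 0 < r + κ → HypT loc κ (cayE π W) (rename emb h : MvPolynomial (Fin (n + (κ + κ))) F) →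
      ∃ g : MvPolynomial (Fin (r + κ)) F, g ≠ 0 ∧ ∀ (k : Type) [Field k] [Algebra F k]
        [Algebra k ℂ] [IsScalarTower F k ℂ] (c : Fin (r + κ) → k), aeval c g ≠ 0 →
        ∀ f : MvPolynomial (Fin n) k, OKf k f →
        ∀ θ : PAut k (n + (κ + κ)), OKθ k θ → θ (hyp f κ) = spa (cayE π W) c +
          MvPolynomial.map (algebraMap F k) (rename emb h) → Con k f) :
    ∃ g : MvPolynomial (Fin r) F, g ≠ 0 ∧ ∀ (k : Type) [Field k] [Algebra F k] [Algebra k ℂ]
      [IsScalarTower F k ℂ] (c : Fin r → k), aeval c g ≠ 0 →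
      ∀ G : Fin κ → MvPolynomial (Fin n) k, (∀ i, G i = sb G (part π W c (some i))) →
      OKf k (sb G (part π W c none + MvPolynomial.map (algebraMap F k) h)) →
      Con k (sb G (part π W c none + MvPolynomial.map (algebraMap F k) h)) := by
  classical
  have hFc : CharZero F := RingHom.charZero (algebraMap F ℂ)
  have hFi : Infinite F := Infinite.of_injective _ (Nat.cast_injective (R := F))
  by_cases hr : 0 < r + κ
  swap
  · -- no monomials
    refine ⟨1, one_ne_zero, fun k _ _ _ _ c _ G _ hOK => ?_⟩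
    exfalso
    have hr0 : r = 0 := by omega
    have hk0 : κ = 0 := by omega
    subst hr0
    subst hk0
    apply hne k _ hOK
    have h1 : h = 0 := by
      by_contra hne
      obtain ⟨w, hw⟩ := Finset.nonempty_iff_ne_empty.2 (fun h1 => hne (support_eq_empty.1 h1))
      have h2 : rename emb h ≠ (0 : MvPolynomial (Fin (n + (0 + 0))) F) := by
        intro h3
        apply hne
        have hinj' : Function.Injective (emb : Fin (n + 0) → Fin (n + (0 + 0))) := by
          intro i j hij
          apply Fin.ext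
          have h4 := congrArg Fin.val hij
          revert h4
          refine Fin.addCases (fun i => ?_) (fun i => i.elim0) i
          refine Fin.addCases (fun j => ?_) (fun j => j.elim0) j
          rw [emb_l, emb_l]
          exact fun h => h
        exact rename_injective _ hinj' (by rw [h3, map_zero])
      obtain ⟨w, hw⟩ := Finset.nonempty_iff_ne_empty.2 (fun h1 => h2 (support_eq_empty.1 h1))
      obtain ⟨l, -, hl1, -⟩ := hh w hw
      rw [Finset.sum_eq_zero (fun j _ => (Fin.elim0 j : l j = 0))] at hl1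
      exact zero_ne_one hl1
    have h2 : part π W c none = 0 := by
      unfold part
      exact Finset.sum_eq_zero fun j _ => Fin.elim0 j
    rw [h1, h2, map_zero]
    exact (congrArg (sb G) (zero_add 0)).trans (map_zero _)
  by_cases hneg : ∀ a : Fin (n + (κ + κ)) → ℕ, 0 < gord (cayE π W) a →
      κ * gord (cayE π W) a < ∑ i, a i
  swap
  · -- no polynomials
    refine ⟨1, one_ne_zero, fun k _ _ _ _ c _ G hG hOK => ?_⟩
    exfalso
    apply hneg
    intro a ha
    refine neg_tow (F := F) hr (tri_part htri c) hG (hne k _ hOK)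
      (c := Fin.append (fun j => c j * Tc (fun _ => (1 : k)) (π j)) fun _ => 1) hh ?_ a ha
    rw [cay_one, map_rename]
  obtain ⟨g, hg, hz⟩ := main hr ⟨hneg, hT⟩
  obtain ⟨g', hg', ht⟩ := fibt π g hg
  refine ⟨g', hg', fun k _ _ _ _ c hc G hG hOK => ?_⟩
  have hkc : CharZero k := RingHom.charZero (algebraMap k ℂ)
  have hki : Infinite k := Infinite.of_injective _ (Nat.cast_injective (R := k))
  obtain ⟨t, ht0, h1⟩ := ht k c hc
  obtain ⟨e, he⟩ := tow_cof (tri_part htri c) hG
    (part π W c none + MvPolynomial.map (algebraMap F k) h)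
  refine hz k _ h1 _ hOK _ (hOKθ k c t ht0 G hG e he) ?_
  rw [AlgEquiv.trans_apply, thA_hyp (tri_part htri c) he, scl_cay π W c t ht0, map_rename]

/-- **Towers with generic coefficients, global Bernstein-Sato polynomials.** -/
theorem tow_glo [Algebra F ℂ] (π : Fin r → Option (Fin κ)) (W : Fin r → Fin (n + κ) → ℕ)
    (hinj : ∀ j j', π j = π j' → W j = W j' → j = j')
    (htri : ∀ j i l, π j = some i → i ≤ l → W j (Fin.natAdd n l) = 0)
    (h0 : ∀ j, π j = none → W j ≠ 0)
    (h : MvPolynomial (Fin (n + κ)) F)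
    (hh : ∀ w ∈ (rename emb h : MvPolynomial (Fin (n + (κ + κ))) F).support, NP (cayE π W) w)
    (hvh : ∀ w ∈ (rename emb h : MvPolynomial (Fin (n + (κ + κ))) F).support,
      ∀ j, ¬ ∀ x, w x = cayE π W j x)
    (hT : HypR False κ (cayE π W) (rename emb h : MvPolynomial (Fin (n + (κ + κ))) F)) :
    ∃ g : MvPolynomial (Fin r) F, g ≠ 0 ∧ ∀ (k : Type) [Field k] [Algebra F k] [Algebra k ℂ]
      [IsScalarTower F k ℂ] (c : Fin r → k), aeval c g ≠ 0 →
      ∀ G : Fin κ → MvPolynomial (Fin n) k, (∀ i, G i = sb G (part π W c (some i))) →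
      (sb G (part π W c none + MvPolynomial.map (algebraMap F k) h)).totalDegree ≠ 0 →
      ∃ S : Finset (ℤ × ℤ),
        (∀ p ∈ S, p.1 < 0 ∧ 0 < p.2 ∧ ∀ b : Polynomial ℂ,
          IsBFunction (MvPolynomial.map (algebraMap k ℂ)
            (sb G (part π W c none + MvPolynomial.map (algebraMap F k) h))) b →
              b.eval ((p.1 : ℂ) / p.2) = 0) ∧
        InRat (LuMu (sb G (part π W c none + MvPolynomial.map (algebraMap F k) h))) S
          (zetaE (sb G (part π W c none + MvPolynomial.map (algebraMap F k) h))) := by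
  refine tow_main (F := F) (fun k _ _ f => ∃ S : Finset (ℤ × ℤ),
        (∀ p ∈ S, p.1 < 0 ∧ 0 < p.2 ∧ ∀ b : Polynomial ℂ,
          IsBFunction (MvPolynomial.map (algebraMap k ℂ) f) b → b.eval ((p.1 : ℂ) / p.2) = 0) ∧
        InRat (LuMu f) S (zetaE f)) (fun k _ f => f.totalDegree ≠ 0) (fun _ _ _ => True) False
    (fun k _ f hf h0 => hf (by rw [h0]; exact totalDegree_zero)) π W hinj htri h0 h hh hvh hT
    (fun _ _ _ _ _ _ _ _ _ _ => trivial) (fun hr hT' => ?_)
  obtain ⟨g, hg, hz⟩ := gen_glo hr (cayE π W) (cayE_inj hinj htri) (cayE_ne h0) _ hh hvh hT'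
  exact ⟨g, hg, fun k _ _ _ _ c hc f hf θ _ hθ => hz k c hc f hf θ hθ⟩

/-- **Towers with generic coefficients, local Bernstein-Sato polynomials.** -/
theorem tow_loc' [Algebra F ℂ] (π : Fin r → Option (Fin κ)) (W : Fin r → Fin (n + κ) → ℕ)
    (hinj : ∀ j j', π j = π j' → W j = W j' → j = j')
    (htri : ∀ j i l, π j = some i → i ≤ l → W j (Fin.natAdd n l) = 0)
    (h0 : ∀ j, W j ≠ 0) (hl : ∀ j l, π j = none → W j ≠ Pi.single (Fin.natAdd n l) 1)
    (h : MvPolynomial (Fin (n + κ)) F)
    (hhl : ∀ l : Fin κ, coeff (Finsupp.single (Fin.natAdd n l) 1) h = 0)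
    (hh : ∀ w ∈ (rename emb h : MvPolynomial (Fin (n + (κ + κ))) F).support, NP (cayE π W) w)
    (hvh : ∀ w ∈ (rename emb h : MvPolynomial (Fin (n + (κ + κ))) F).support,
      ∀ j, ¬ ∀ x, w x = cayE π W j x)
    (hT : HypR True κ (cayE π W) (rename emb h : MvPolynomial (Fin (n + (κ + κ))) F)) :
    ∃ g : MvPolynomial (Fin r) F, g ≠ 0 ∧ ∀ (k : Type) [Field k] [Algebra F k] [Algebra k ℂ]
      [IsScalarTower F k ℂ] (c : Fin r → k), aeval c g ≠ 0 →
      ∀ G : Fin κ → MvPolynomial (Fin n) k, (∀ i, G i = sb G (part π W c (some i))) →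
      (sb G (part π W c none + MvPolynomial.map (algebraMap F k) h) ≠ 0 ∧
        constantCoeff (sb G (part π W c none + MvPolynomial.map (algebraMap F k) h)) = 0) →
      ∃ S : Finset (ℤ × ℤ),
        (∀ p ∈ S, p.1 < 0 ∧ 0 < p.2 ∧ ∀ b : Polynomial ℂ,
          IsLocalBFunction (MvPolynomial.map (algebraMap k ℂ)
            (sb G (part π W c none + MvPolynomial.map (algebraMap F k) h))) b →
              b.eval ((p.1 : ℂ) / p.2) = 0) ∧
        InRat (LuMu (sb G (part π W c none + MvPolynomial.map (algebraMap F k) h))) S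
          (zetaE (sb G (part π W c none + MvPolynomial.map (algebraMap F k) h))) ∧
        InRat (LuMu (0 : MvPolynomial (Fin 0) k)) S
          (zetaE0 (sb G (part π W c none + MvPolynomial.map (algebraMap F k) h))) := by
  classical
  have hpi : ∀ {M : ℕ} {k : Type} [Field k] (w : Fin M → ℕ) (u : Fin M →₀ ℕ) (c : k),
      coeff u (C c * ∏ p, (X p : MvPolynomial (Fin M) k) ^ w p) =
        if (∀ p, w p = u p) then c else 0 := by
    intro M k _ w u c
    have h1 : (∏ p, (X p : MvPolynomial (Fin M) k) ^ w p) =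
        monomial (Finsupp.equivFunOnFinite.symm w) 1 := by
      rw [monomial_eq, map_one, one_mul, Finsupp.prod_fintype _ _ (fun _ => pow_zero _)]
      rfl
    rw [h1, coeff_C_mul, coeff_monomial]
    by_cases h2 : Finsupp.equivFunOnFinite.symm w = u
    · rw [if_pos h2, if_pos, mul_one]
      intro p
      rw [← h2]
      rfl
    · rw [if_neg h2, if_neg, mul_zero]
      intro h3
      exact h2 (Finsupp.ext h3)
  refine tow_main (F := F) (fun k _ _ f => ∃ S : Finset (ℤ × ℤ),
        (∀ p ∈ S, p.1 < 0 ∧ 0 < p.2 ∧ ∀ b : Polynomial ℂ,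
          IsLocalBFunction (MvPolynomial.map (algebraMap k ℂ) f) b →
            b.eval ((p.1 : ℂ) / p.2) = 0) ∧
        InRat (LuMu f) S (zetaE f) ∧ InRat (LuMu (0 : MvPolynomial (Fin 0) k)) S (zetaE0 f))
    (fun k _ f => f ≠ 0 ∧ constantCoeff f = 0) (fun _ _ θ => Fix θ) True
    (fun k _ f hf => hf.1) π W hinj htri (fun j _ => h0 j) h hh hvh hT ?_ (fun hr hT' => ?_)
  · intro k _ _ c t ht g hg e he
    have hq0 : ∀ i, constantCoeff (part π W c (some i)) = 0 := by
      intro i
      unfold part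
      rw [map_sum]
      refine Finset.sum_eq_zero fun j _ => ?_
      split_ifs
      · rw [constantCoeff_eq, hpi, if_neg]
        intro h1
        exact h0 j (funext h1)
      · exact map_zero _
    have hlin : ∀ l : Fin κ, coeff (Finsupp.single (Fin.natAdd n l) 1)
        (part π W c none + MvPolynomial.map (algebraMap F k) h) = 0 := by
      intro l
      rw [coeff_add, coeff_map, hhl, map_zero, add_zero]
      unfold part
      rw [coeff_sum]
      refine Finset.sum_eq_zero fun j _ => ?_
      split_ifs with h1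
      · rw [hpi, if_neg]
        intro h2
        apply hl j l h1
        funext p
        rw [h2 p, Finsupp.single_apply, Pi.single_apply]
        by_cases h3 : Fin.natAdd n l = p
        · rw [if_pos h3, if_pos h3.symm]
        · rw [if_neg h3, if_neg fun h4 => h3 h4.symm]
      · exact coeff_zero _
    have h1 : Fix (thA (c := e) (tri_part htri c)) :=
      fix_thA _ hq0 (cof_zero (tri_part htri c) hq0 hlin he)
    have h2 : Fix (scl (su n t) (su_ne ht)) := by
      intro i
      rw [scl_X, map_mul, constantCoeff_X, mul_zero]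
    intro i
    rw [AlgEquiv.trans_apply, h2.const]
    exact h1 i
  · obtain ⟨g, hg, hz⟩ := gen_loc hr (cayE π W) (cayE_inj hinj htri)
      (cayE_ne fun j _ => h0 j) _ hh hvh hT'
    exact ⟨g, hg, fun k _ _ _ _ c hc f hf θ h0 hθ => hz k c hc f hf.1 hf.2 θ h0 hθ⟩

end

end Pool.Agent.T6.H16.MR
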