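import Pool.Agent.T6.H16.MR.Defs2
import Pool.Agent.T6.H16.MR.Fin
import Pool.Agent.T6.H16.MR.G8

set_option autoImplicit false

/-! The final statements: generic coefficients. -/

namespace Pool.Agent.T6.H16.MR.SS

open MvPolynomial
open Pool.Agent.TH216.HD (poly)

variable {F : Type} [Field F] {n κ r m : ℕ}

theorem facets_iff (loc : Prop) (κ : ℕ) (v : Fin r → Fin m → ℕ) (h : MvPolynomial (Fin m) F)
    (hT : Facets loc κ v h) : HypR loc κ v h := by
  intro a ha hg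
  rcases hT a ha hg with h1 | h1 | h1
  · exact Or.inl h1
  · exact Or.inr (Or.inl h1)
  · exact Or.inr (Or.inr ((Pool.Agent.TH216.HD.locS_iff v h _).2 h1))

theorem gA [Algebra F ℂ] (v : Fin r → Fin (n + (κ + κ)) → ℕ)
    (h : MvPolynomial (Fin (n + (κ + κ))) F) (H : Admiss False κ v h) :
    Generic F r fun k _ _ _ c => ∀ f : MvPolynomial (Fin n) k, NonConst f →
      Becomes κ v h c f → Conj f := by
  have hE := H.extra
  obtain ⟨g, hg, hz⟩ := gen_glo H.pos v H.inj H.ne h (fun w hw => (hE w hw).1)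
    (fun w hw => (hE w hw).2) ⟨H.above, facets_iff _ _ _ _ H.facets⟩
  exact ⟨g, hg, fun k _ _ _ _ c hc f hf ⟨θ, hθ⟩ => hz k c hc f hf θ hθ⟩

theorem gA0 [Algebra F ℂ] (v : Fin r → Fin (n + (κ + κ)) → ℕ)
    (h : MvPolynomial (Fin (n + (κ + κ))) F) (H : Admiss True κ v h) :
    Generic F r fun k _ _ _ c => ∀ f : MvPolynomial (Fin n) k, Germ f →
      Becomes0 κ v h c f → ConjL f := by
  have hE := H.extra
  obtain ⟨g, hg, hz⟩ := gen_loc H.pos v H.inj H.ne h (fun w hw => (hE w hw).1)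
    (fun w hw => (hE w hw).2) ⟨H.above, facets_iff _ _ _ _ H.facets⟩
  exact ⟨g, hg, fun k _ _ _ _ c hc f hf ⟨θ, h0, hθ⟩ => hz k c hc f hf.1 hf.2 θ h0 hθ⟩

theorem hxz_eq (h : MvPolynomial (Fin (n + κ)) F) :
    hxz h = rename Pool.Agent.Y229.RE.emb h := by
  unfold hxz
  rw [emb_eq]

theorem gB [Algebra F ℂ] (π : Fin r → Option (Fin κ)) (W : Fin r → Fin (n + κ) → ℕ)
    (h : MvPolynomial (Fin (n + κ)) F) (hW : Tower False π W h) :
    Generic F r fun k _ _ _ c => ∀ f : MvPolynomial (Fin n) k, NonConst f →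
      IsTower π W h c f → Conj f := by
  have hE := hW.extra
  have hT := hW.facets
  rw [hxz_eq] at hE hT
  obtain ⟨g, hg, hz⟩ := tow_glo π W hW.inj hW.tri hW.ne h (fun w hw => (hE w hw).1)
    (fun w hw => (hE w hw).2) (facets_iff _ _ _ _ hT)
  refine ⟨g, hg, fun k _ _ _ _ c hc f hf hG => ?_⟩
  obtain ⟨G, hG, rfl⟩ := hG
  exact hz k c hc G hG hf

theorem gB0 [Algebra F ℂ] (π : Fin r → Option (Fin κ)) (W : Fin r → Fin (n + κ) → ℕ)
    (h : MvPolynomial (Fin (n + κ)) F) (hW : Tower0 π W h) :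
    Generic F r fun k _ _ _ c => ∀ f : MvPolynomial (Fin n) k, Germ f →
      IsTower π W h c f → ConjL f := by
  have hE := hW.extra
  have hT := hW.facets
  rw [hxz_eq] at hE hT
  obtain ⟨g, hg, hz⟩ := tow_loc' π W hW.inj hW.tri hW.ne0 hW.lin h hW.linh
    (fun w hw => (hE w hw).1) (fun w hw => (hE w hw).2) (facets_iff _ _ _ _ hT)
  refine ⟨g, hg, fun k _ _ _ _ c hc f hf hG => ?_⟩
  obtain ⟨G, hG, rfl⟩ := hG
  exact hz k c hc G hG hf

end Pool.Agent.T6.H16.MR.SS
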