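import Pool.Agent.TH216.MF.MotM

set_option autoImplicit false

/-! The conditions on the facets of a level, only for some of the monomials. -/

namespace Pool.Agent.T6.H16.MR

open MvPolynomial Pool.Agent.W425.MM Pool.Agent.W425.GN
open Pool.Agent.W426.SM (gord IsRay face)
open Pool.Agent.W803.SM (gord_le exists_gord)
open Pool.Agent.W425.BF (B1 BD)
open Pool.Agent.W425.SV (NP Kil1)
open Pool.Agent.TH216.MF (RelG KilU KRelJ RecJ SimH SimR InC kept ke ke_mem Pt Forced HypS
  ray_of_vertex inC_self krelJ_phi recJ_gen aJ_phi inC_append mem_kept)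
open Pool.Agent.TH216.MC (HB)

variable {r N : ℕ}

/-- **The condition, in terms of rays.** -/
theorem hypS_ofQ (hr : 0 < r) (v : Fin r → Fin N → ℕ) (σ : ℝ) (Q : Fin r → Prop)
    (hQ : ∀ a : Fin N → ℚ, (∀ i, 0 ≤ a i) → (∀ j, 1 ≤ ∑ i, a i * (v j i : ℚ)) →
      ∃ i, a i ≠ 0 ∧ ∀ j, 0 < v j i → Q j)
    (h : ∀ j1 : Fin r, Q j1 → ∃ i, ∀ a : Fin N → ℕ, IsRay v a → 0 < gord v a → face v a j1 →
      ((∑ i, a i : ℕ) : ℝ) / gord v a = σ → SimR v a ∨ B1 v i a) : HypS v σ := by
  classical
  intro A Z hne hconst hprem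
  -- rays of the faces
  have hray : ∀ (A' : Finset (Fin N)) (Z' : Finset (Fin r)), A' ⊆ A → Z' ⊆ Z →
      (Pt v A' Z').Nonempty → ∃ (a : Fin N → ℚ) (b : Fin N → ℕ), a ∈ Pt v A' Z' ∧
        (∀ i, b i = 0 ↔ a i = 0) ∧ IsRay v b ∧ 0 < gord v b ∧
        (∀ j, face v b j ↔ ∑ i, a i * (v j i : ℚ) = 1) ∧
        ((∑ i, b i : ℕ) : ℝ) / gord v b = σ := by
    intro A' Z' hA' hZ' hne'
    obtain ⟨a, b, h1, h2, h3, h4, h5, h6⟩ := ray_of_vertex hr v A' Z' hne'
    refine ⟨a, b, h1, h2, h3, h4, h5, ?_⟩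
    rw [← hconst a (Pt.mono hA' hZ' h1), ← h6]
    push_cast
    rfl
  obtain ⟨a0, b0, ha0, hb0, hr0, hg0, hf0, hs0⟩ := hray A Z (Finset.Subset.refl _)
    (Finset.Subset.refl _) hne
  -- a vertex outside `Z`
  obtain ⟨i1, hi1', hi1Q⟩ := hQ a0 ha0.1 ha0.2.2.1
  have hi1 : i1 ∈ A := by
    by_contra hcon
    exact hi1' (ha0.2.1 i1 hcon)
  obtain ⟨j1, hj1, hj1v⟩ := hprem i1 hi1
  obtain ⟨i, hi⟩ := h j1 (hi1Q j1 hj1v)
  have hforced : ∀ (a : Fin N → ℚ) (b : Fin N → ℕ), a ∈ Pt v A Z → (∀ i, b i = 0 ↔ a i = 0) →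
      (∀ j, face v b j ↔ ∑ i, a i * (v j i : ℚ) = 1) → SimR v b → Forced v A Z := by
    intro a b ha hb hf hsim w hw1 hw2
    refine hsim w (fun j hj => ?_) (fun i hi => ?_)
    · apply hw2
      by_contra hjZ
      exact hj ((hf j).2 (ha.2.2.2 j hjZ))
    · apply hw1
      by_contra hiA
      exact hi ((hb i).2 (ha.2.1 i hiA))
  by_cases hsim : Forced v A Z
  · exact Or.inl hsim
  right
  have hB : ∀ (A' : Finset (Fin N)) (Z' : Finset (Fin r)), A' ⊆ A → Z' ⊆ Z →
      (Pt v A' Z').Nonempty → ∃ (a : Fin N → ℚ) (b : Fin N → ℕ), a ∈ Pt v A' Z' ∧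
        (∀ i, b i = 0 ↔ a i = 0) ∧ (∀ j, face v b j ↔ ∑ i, a i * (v j i : ℚ) = 1) ∧
        B1 v i b := by
    intro A' Z' hA' hZ' hne'
    obtain ⟨a, b, h1, h2, h3, h4, h5, h6⟩ := hray A' Z' hA' hZ' hne'
    refine ⟨a, b, h1, h2, h5, ?_⟩
    have hm := Pt.mono hA' hZ' h1
    rcases hi b h3 h4 ((h5 j1).2 (hm.2.2.2 j1 hj1)) h6 with h7 | h7
    · exact absurd (hforced a b hm h2 h5 h7) hsim
    · exact h7
  obtain ⟨a1, b1, ha1, hb1, hf1, hB1⟩ := hB A Z (Finset.Subset.refl _)
    (Finset.Subset.refl _) hne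
  obtain ⟨hb1i, j0, hj0f, hj0, hj0u⟩ := hB1
  have hiA : i ∈ A := by
    by_contra hiA
    exact hb1i ((hb1 i).2 (ha1.2.1 i hiA))
  refine ⟨i, hiA, j0, hj0, fun a ha hai => ?_, fun j hj hji a ha haj => ?_⟩
  · obtain ⟨a2, b2, ha2, hb2, hf2, hB2⟩ := hB (A.erase i) Z (Finset.erase_subset _ _)
      (Finset.Subset.refl _) ⟨a, ha.1, fun i' hi' => by
        by_cases h1 : i' = i
        · rw [h1]; exact hai
        · exact ha.2.1 i' fun h2 => hi' (Finset.mem_erase.2 ⟨h1, h2⟩), ha.2.2.1, ha.2.2.2⟩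
    exact hB2.1 ((hb2 i).2 (ha2.2.1 i (Finset.notMem_erase i A)))
  · obtain ⟨a2, b2, ha2, hb2, hf2, hB2⟩ := hB A (Z.erase j) (Finset.Subset.refl _)
      (Finset.erase_subset _ _) ⟨a, ha.1, ha.2.1, ha.2.2.1, fun j' hj' => by
        by_cases h1 : j' = j
        · rw [h1]; exact haj
        · exact ha.2.2.2 j' fun h2 => hj' (Finset.mem_erase.2 ⟨h1, h2⟩)⟩
    obtain ⟨hb2i, j0', hj0f', hj0', hj0u'⟩ := hB2
    obtain ⟨j2, hj2Z, hj2⟩ := hprem i hiA
    have h3 : j2 = j0 := by
      by_contra h4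
      have := hj0u j2 ((hf1 j2).2 (ha1.2.2.2 j2 hj2Z)) h4
      omega
    have h4 : j2 = j0' := by
      by_contra h4
      have := hj0u' j2 ((hf2 j2).2 (ha2.2.2.2 j2 fun h5 => hj2Z (Finset.mem_of_mem_erase h5))) h4
      omega
    have h5 : j = j0' := by
      by_contra h6
      have := hj0u' j ((hf2 j).2 (ha2.2.2.2 j (Finset.notMem_erase j Z))) h6
      omega
    exact hj (h5.trans (h4.symm.trans h3))

/-- At every `v j1` with `Q j1` the facets at the level `σ` which contain `v j1` are simplices or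
B1-facets in a common direction. -/
def LocQ {R : Type} [CommRing R] (Q : Fin r → Prop) (v : Fin r → Fin N → ℕ)
    (h : MvPolynomial (Fin N) R) (σ : ℚ) : Prop :=
  ∀ j1 : Fin r, Q j1 → ∃ i, ∀ a : Fin N → ℕ, IsRay v a → 0 < gord v a → face v a j1 →
    ((∑ x, a x : ℕ) : ℚ) / gord v a = σ → SimH v h a ∨ BD v h i a

/-- enough monomials with `Q` -/
structure AdmQ {R : Type} [CommRing R] (Q : Fin r → Prop) (v : Fin r → Fin N → ℕ)
    (h : MvPolynomial (Fin N) R) : Prop where
  q1 : ∀ a : Fin N → ℚ, (∀ i, 0 ≤ a i) → (∀ j, 1 ≤ ∑ i, a i * (v j i : ℚ)) →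
    ∃ i, a i ≠ 0 ∧ ∀ j, 0 < v j i → Q j
  q2 : ∀ w ∈ h.support, ∀ l : Fin r → ℝ, (∀ j, 0 ≤ l j) →
    (∀ i, ∑ j, l j * (v j i : ℝ) ≤ (w i : ℝ)) → ∀ j, 0 < l j → Q j

/-- from the condition on the facets to the criterion -/
theorem hypS_of_locQ {R : Type} [CommRing R] (hr : 0 < r) (Q : Fin r → Prop)
    (v : Fin r → Fin N → ℕ)
    (h : MvPolynomial (Fin N) R) (hh : ∀ w ∈ h.support, NP v w) (hQ : AdmQ Q v h)
    (σ : ℚ) (hL : LocQ Q v h σ) :
    HypS (Fin.append v (ke v h)) (σ : ℝ) := by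
  classical
  have hknp : ∀ l, NP v (Finsupp.equivFunOnFinite.symm (ke v h l)) := by
    intro l
    obtain ⟨w, hw, hwe, -⟩ := ke_mem v h l
    have : Finsupp.equivFunOnFinite.symm (ke v h l) = w := by
      ext i
      exact hwe i
    rw [this]
    exact hh w hw
  have hray := pRAY v (ke v h) hr hknp
  refine hypS_ofQ (by omega) _ _ (fun j => Fin.addCases (motive := fun _ => Prop) Q
    (fun _ => True) j) (fun a ha1 ha2 => ?_) ?_
  · obtain ⟨i, hi1, hi2⟩ := hQ.q1 a ha1 fun j => by
      have h1 := ha2 (Fin.castAdd _ j)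
      simpa only [Fin.append_left] using h1
    refine ⟨i, hi1, fun j => ?_⟩
    refine Fin.addCases (fun j => ?_) (fun l => ?_) j
    · intro h1
      rw [Fin.append_left] at h1
      rw [Fin.addCases_left]
      exact hi2 j h1
    · intro _
      rw [Fin.addCases_right]
      trivial
  -- the main case
  have main : ∀ j1 : Fin r, Q j1 → ∃ i, ∀ a : Fin N → ℕ, IsRay (Fin.append v (ke v h)) a →
      0 < gord (Fin.append v (ke v h)) a → face v a j1 →
      ((∑ i, a i : ℕ) : ℝ) / gord (Fin.append v (ke v h)) a = (σ : ℝ) →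
      SimR (Fin.append v (ke v h)) a ∨ B1 (Fin.append v (ke v h)) i a := by
    intro j1 hj1Q
    obtain ⟨i, hi⟩ := hL j1 hj1Q
    refine ⟨i, fun a ha hg hf hs => ?_⟩
    obtain ⟨hga, hra⟩ := hray a
    rw [hga] at hg hs
    have hs' : ((∑ x, a x : ℕ) : ℚ) / gord v a = σ := by
      apply Rat.cast_injective (α := ℝ)
      push_cast
      push_cast at hs
      exact hs
    have hface : ∀ j, face (Fin.append v (ke v h)) a (Fin.castAdd _ j) ↔ face v a j := by
      intro j
      unfold face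
      rw [hga]
      simp only [Fin.append_left]
    rcases hi a (hra ha) hg hf hs' with ⟨h1, h2⟩ | h1
    · left
      have hk : ∀ l, ¬ face (Fin.append v (ke v h)) a (Fin.natAdd r l) := by
        intro l hl
        obtain ⟨w, hw, hwe, hwn⟩ := ke_mem v h l
        apply hwn
        have h3 : ke v h l = fun i => w i := funext hwe
        rw [h3]
        apply h2 w hw
        unfold face at hl
        rw [hga] at hl
        simp only [Fin.append_right] at hl
        rw [← hl]
        exact Finset.sum_congr rfl fun x _ => by rw [hwe]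
      intro w hw1 hw2
      have h4 := h1 (fun j => w (Fin.castAdd _ j)) (fun j hj => hw1 _ fun h5 => hj ((hface j).1 h5))
        (fun i hi => by
          have h5 := hw2 i hi
          rw [Fin.sum_univ_add] at h5
          simp only [Fin.append_left, Fin.append_right] at h5
          rw [Finset.sum_eq_zero (s := Finset.univ) (f := fun x => w (Fin.natAdd r x) *
            (ke v h x i : ℚ)) (fun x _ => by rw [hw1 _ (hk x), zero_mul]), add_zero] at h5
          exact h5)
      intro j
      refine Fin.addCases (fun j => h4 j) (fun l => hw1 _ (hk l)) j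
    · right
      obtain ⟨hai, j0, hf0, hv1, hu, hw⟩ := h1
      refine ⟨hai, Fin.castAdd _ j0, (hface j0).2 hf0, by rw [Fin.append_left]; exact hv1,
        fun j => ?_⟩
      refine Fin.addCases (fun j => ?_) (fun l => ?_) j
      · intro h7 h8
        rw [Fin.append_left]
        exact hu j ((hface j).1 h7) fun h9 => h8 (by rw [h9])
      · intro h7 _
        rw [Fin.append_right]
        obtain ⟨w, hws, hwe, hwn⟩ := ke_mem v h l
        unfold face at h7
        rw [hga] at h7
        simp only [Fin.append_right] at h7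
        rcases hw w hws (by
          rw [← h7]
          exact Finset.sum_congr rfl fun x _ => by rw [hwe]) with h9 | h9
        · rw [hwe]; exact h9
        · exfalso
          apply hwn
          have h10 : ke v h l = v j0 := funext fun i => by rw [hwe, h9]
          rw [h10]
          exact inC_self v _ j0 (Finset.mem_univ _)
  intro j1'
  refine Fin.addCases (fun j1 => ?_) (fun l => ?_) j1'
  · intro hj1Q
    rw [Fin.addCases_left] at hj1Q
    obtain ⟨i, hi⟩ := main j1 hj1Q
    refine ⟨i, fun a ha hg hf hs => hi a ha hg ?_ hs⟩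
    unfold face at hf ⊢
    rw [(hray a).1] at hf
    simpa only [Fin.append_left] using hf
  · intro _
    obtain ⟨lm, hl, hl1, hlw⟩ := hknp l
    obtain ⟨j1, hj1⟩ : ∃ j, 0 < lm j := by
      by_contra hcon
      push Not at hcon
      have : ∑ j, lm j = 0 := Finset.sum_eq_zero fun j _ => le_antisymm (hcon j) (hl j)
      rw [this] at hl1
      exact zero_ne_one hl1
    have hj1Q : Q j1 := by
      obtain ⟨w, hw, hwe, -⟩ := ke_mem v h l
      refine hQ.q2 w hw lm hl (fun i => ?_) j1 hj1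
      rw [← hwe]
      exact hlw i
    obtain ⟨i, hi⟩ := main j1 hj1Q
    refine ⟨i, fun a ha hg hf hs => hi a ha hg ?_ hs⟩
    unfold face at hf ⊢
    rw [(hray a).1] at hf
    simp only [Fin.append_right] at hf
    by_contra hne
    have h1 : (gord v a : ℝ) < ∑ j, lm j * ((∑ i, a i * v j i : ℕ) : ℝ) := by
      calc (gord v a : ℝ) = ∑ j, lm j * (gord v a : ℝ) := by rw [← Finset.sum_mul, hl1, one_mul]
        _ < _ := by
          refine Finset.sum_lt_sum (fun j _ =>
            mul_le_mul_of_nonneg_left (by exact_mod_cast gord_le v a j) (hl j))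
            ⟨j1, Finset.mem_univ j1, ?_⟩
          refine mul_lt_mul_of_pos_left ?_ hj1
          exact_mod_cast lt_of_le_of_ne (gord_le v a j1) (Ne.symm hne)
    have h2 : ∑ j, lm j * ((∑ i, a i * v j i : ℕ) : ℝ) ≤ ((∑ i, a i * ke v h l i : ℕ) : ℝ) := by
      push_cast
      simp only [Finset.mul_sum]
      rw [Finset.sum_comm]
      refine Finset.sum_le_sum fun i _ => ?_
      have h3 : ∑ j, lm j * ((a i : ℝ) * (v j i : ℝ)) = (a i : ℝ) * ∑ j, lm j * (v j i : ℝ) := by
        rw [Finset.mul_sum]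
        exact Finset.sum_congr rfl fun j _ => by ring
      rw [h3]
      exact mul_le_mul_of_nonneg_left (hlw i) (by positivity)
    rw [hf] at h2
    linarith

/-- the bad levels, for exponents with those of `h` -/
theorem hb_genQ (hr : 0 < r) {F : Type} [Field F] (Q : Fin r → Prop) (v : Fin r → Fin N → ℕ)
    (hv : Function.Injective v) (h : MvPolynomial (Fin N) F) (hh : ∀ w ∈ h.support, NP v w)
    (hQ : AdmQ Q v h)
    (hvh : ∀ w ∈ h.support, ∀ j, ¬ ∀ x, w x = v j x) (P : ℚ → Prop)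
    (hP : ∀ α, ¬ P α → ∃ (θ : Fin (r + (kept v h).card) → ℤ) (p : Polynomial ℂ),
      RelG (Fin.append v (ke v h)) (Kil1 (Fin.append v (ke v h)))
        (KilU (Fin.append v (ke v h)) θ) p ∧ p.eval (α : ℂ) ≠ 0) :
    HB (Fin.append v (we h)) fun σ => LocQ Q v h σ ∧ ¬ P (-σ) := by
  classical
  have hminj : Function.Injective (Fin.append v (we h)) := by
    intro j j'
    refine Fin.addCases (fun j => ?_) (fun l => ?_) j <;>
      refine Fin.addCases (fun j' => ?_) (fun l' => ?_) j'
    · rw [Fin.append_left, Fin.append_left]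
      intro h3
      rw [hv h3]
    · rw [Fin.append_left, Fin.append_right]
      intro h3
      exact absurd (fun x => (congrFun h3 x).symm)
        (hvh _ (h.support.equivFin.symm l').2 j)
    · rw [Fin.append_left, Fin.append_right]
      intro h3
      exact absurd (fun x => congrFun h3 x) (hvh _ (h.support.equivFin.symm l).2 j')
    · rw [Fin.append_right, Fin.append_right]
      intro h3
      have h4 : (h.support.equivFin.symm l) = (h.support.equivFin.symm l') :=
        Subtype.ext (Finsupp.ext fun x => congrFun h3 x)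
      rw [h.support.equivFin.symm.injective h4]
  have hma : ∀ j', ∃ j, Fin.append v (we h) j = Fin.append v (ke v h) j' := by
    intro j'
    refine Fin.addCases (fun j => ?_) (fun l => ?_) j'
    · exact ⟨Fin.castAdd _ j, by rw [Fin.append_left, Fin.append_left]⟩
    · obtain ⟨w, hw, hwe, -⟩ := ke_mem v h l
      refine ⟨Fin.natAdd r (h.support.equivFin ⟨w, hw⟩), ?_⟩
      rw [Fin.append_right, Fin.append_right]
      funext i
      rw [hwe]
      unfold we
      rw [Equiv.symm_apply_apply]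
  have hmb : ∀ j, InC (Fin.append v (ke v h)) Finset.univ (Fin.append v (we h) j) := by
    intro j
    refine Fin.addCases (fun j => ?_) (fun l => ?_) j
    · rw [Fin.append_left]
      exact inC_append v _ _ (inC_self v _ j (Finset.mem_univ _))
    · rw [Fin.append_right]
      by_cases hC : InC v Finset.univ (we h l)
      · exact inC_append v _ _ hC
      · have hmem : (h.support.equivFin.symm l).1 ∈ kept v h :=
          (mem_kept v h _).2 ⟨(h.support.equivFin.symm l).2, hC⟩
        have h3 : Fin.append v (ke v h) (Fin.natAdd r ((kept v h).equivFin ⟨_, hmem⟩)) =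
            we h l := by
          rw [Fin.append_right]
          funext i
          unfold ke
          rw [Equiv.symm_apply_apply]
          rfl
        rw [← h3]
        exact inC_self _ _ _ (Finset.mem_univ _)
  rintro J q hq e he T0 hT0 σ ⟨hL, hPσ⟩ hlog
  obtain ⟨θ, p, hrel, hp⟩ := hP _ hPσ
  have he' := krelJ_phi (Fin.append v (we h)) (Fin.append v (ke v h)) hminj hma q J e he
  have h1 : ((-Real.log ‖T0‖ / Real.log q : ℝ) : ℂ) = ((-σ : ℚ) : ℂ) := by
    rw [neg_div, hlog]
    push_cast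
    rfl
  obtain ⟨Q', hQ', hrec⟩ := recJ_gen q hq (Fin.append v (ke v h)) p θ hrel J _ he' T0 hT0
    (by rw [h1]; exact hp) (by rw [hlog]; exact hypS_of_locQ hr Q v h hh hQ σ hL)
  refine ⟨Q', hQ', ?_⟩
  filter_upwards [hrec] with t ht
  rw [← ht]
  refine Finset.sum_congr rfl fun m _ => ?_
  rw [aJ_phi (Fin.append v (we h)) (Fin.append v (ke v h)) (by omega) (by omega) hma hmb]

end Pool.Agent.T6.H16.MR
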