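import Pool.Agent.T6.H16.MR.Loc
import Pool.Agent.T6.H16.MR.G0

set_option autoImplicit false

/-! Generic coefficients: the series, with the denominator `1 - 𝕃⁻¹ T` separated. -/

namespace Pool.Agent.T6.H16.MR

section A

open MvPolynomial Pool.Agent.H628R4.TP Pool.Agent.W425.MM Pool.Agent.W425.GN
open Pool.Agent.W425.ND (spa)
open Pool.Agent.W426.SM (gord ford IsRay face)
open Pool.Agent.W425.SV (NP Kil1)
open Pool.Agent.TH216.MF (RelG KilU KRelJ RecJ ratR LocS kept ke)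
open Pool.Agent.TH216.MC (HB hb_gen)
open Pool.Agent.W428.MOT (Pt Constr ratRing sp LuMu InRat zetaE EMeas)
open Pool.Agent.Y231.N4

variable {r N : ℕ}

/-- the series, for all the coefficients -/
theorem gen_S1 (hr : 0 < r) {F : Type} [Field F] (Q : Fin r → Prop) (v : Fin r → Fin N → ℕ)
    (hv : Function.Injective v) (h : MvPolynomial (Fin N) F) (hh : ∀ w ∈ h.support, NP v w)
    (hQ : AdmQ Q v h)
    (hvh : ∀ w ∈ h.support, ∀ j, ¬ ∀ x, w x = v j x) (P : ℚ → Prop)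
    (hP : ∀ α, ¬ P α → ∃ (θ : Fin (r + (kept v h).card) → ℤ) (p : Polynomial ℂ),
      RelG (Fin.append v (ke v h)) (Kil1 (Fin.append v (ke v h)))
        (KilU (Fin.append v (ke v h)) θ) p ∧ p.eval (α : ℂ) ≠ 0) :
    ∃ S : Finset (ℤ × ℤ),
      (∀ p ∈ S, ∃ a : Fin N → ℕ, IsRay v a ∧ 0 < gord v a ∧
        (LocQ Q v h (((∑ i, a i : ℕ) : ℚ) / gord v a) → P (-(((∑ i, a i : ℕ) : ℚ) / gord v a))) ∧
        p = (-((∑ i, a i : ℕ) : ℤ), (gord v a : ℤ))) ∧
      ∀ (k : Type) [Field k] [Algebra F k] [Algebra k ℂ] (c : Fin r → k), (∀ j, c j ≠ 0) →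
        NonD (Fin.append v (we h)) (fun j => algebraMap k ℂ
          (Fin.append c (fun l => algebraMap F k (wc h l)) j)) →
        ∀ (R : Type) [CommRing R] (y : Rˣ)
          (M : EMeas (spa v c + MvPolynomial.map (algebraMap F k) h) R), M.L = (y : R) →
          (1 - PowerSeries.C ((y⁻¹ : Rˣ) : R) * PowerSeries.X) * serM M y ∈
            ratR y (S : Set (ℤ × ℤ)) := by
  classical
  have hray := pRAY v (we h) hr (we_np v h hh)
  obtain ⟨S, hS, hz⟩ := efin' (Fin.append v (we h)) (by omega) _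
    (hb_genQ hr Q v hv h hh hQ hvh P hP)
  refine ⟨S, fun p hp => ?_, fun k _ _ _ c hc hnk => ?_⟩
  · obtain ⟨a, ha, hg, hn, h1⟩ := hS p hp
    obtain ⟨hga, hra⟩ := hray a
    rw [hga] at hg hn h1
    refine ⟨a, hra ha, hg, fun hL => ?_, h1⟩
    by_contra hcon
    exact hn ⟨hL, hcon⟩
  · have hkc : CharZero k := RingHom.charZero (algebraMap k ℂ)
    rw [sp_eq]
    intro R _ y M hM
    refine hz k _ (nonG_of_nonD _ _
      (nonD_ext (k := k) (L := AlgebraicClosure k) _ _ hnk)) (fun j => ?_) R y M hM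
    refine Fin.addCases (fun j => ?_) (fun l => ?_) j
    · rw [Fin.append_left]
      exact hc j
    · rw [Fin.append_right]
      exact (map_ne_zero _).2 (mem_support_iff.1 (h.support.equivFin.symm l).2)

end A

section B

open MvPolynomial Pool.Agent.H628R4.TP Pool.Agent.W425.MM Pool.Agent.W425.GN
open Pool.Agent.W425.ND (spa)
open Pool.Agent.W426.SM (gord ford IsRay face)
open Pool.Agent.W425.BF (hp_nonB)
open Pool.Agent.W425.SV (NP Kil1)
open Pool.Agent.TH216.MF (RelG KilU KRelJ RecJ ratR LocS kept ke)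
open Pool.Agent.TH216.MC (HB hb_gen relF relL rootsF rootsL hpl_nonB)
open Pool.Agent.W428.MOT (Pt Constr ratRing sp LuMu InRat zetaE EMeas)
open Pool.Agent.Y231.N4

variable {r N : ℕ}

/-- `|a| / N_a` -/
noncomputable def lv (v : Fin r → Fin N → ℕ) (a : Fin N → ℕ) : ℚ :=
  ((∑ i, a i : ℕ) : ℚ) / gord v a

/-- what is known for the coefficients with `g(c) ≠ 0` -/
def Core {F : Type} [Field F] [Algebra F ℂ] (BF : MvPolynomial (Fin N) ℂ → Polynomial ℂ → Prop)
    (loc : Prop) (Q : Fin r → Prop) (v : Fin r → Fin N → ℕ) (h : MvPolynomial (Fin N) F)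
    (g : MvPolynomial (Fin r) F) : Prop :=
  ∀ (k : Type) [Field k] [Algebra F k] [Algebra k ℂ] [IsScalarTower F k ℂ] (c : Fin r → k),
    aeval c g ≠ 0 →
    (∀ b : Polynomial ℂ, BF (MvPolynomial.map (algebraMap k ℂ)
        (spa v c + MvPolynomial.map (algebraMap F k) h)) b →
      ∀ u : Fin N → ℕ, 0 < gord v u → NonB v loc u → b.eval (((-(lv v u) : ℚ)) : ℂ) = 0) ∧
    ∃ S : Finset (ℤ × ℤ),
      (∀ p ∈ S, ∃ a : Fin N → ℕ, IsRay v a ∧ 0 < gord v a ∧
        p = (-((∑ i, a i : ℕ) : ℤ), (gord v a : ℤ)) ∧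
        (LocQ Q v h (lv v a) → ∀ b : Polynomial ℂ, BF (MvPolynomial.map (algebraMap k ℂ)
          (spa v c + MvPolynomial.map (algebraMap F k) h)) b →
            b.eval (((-(lv v a) : ℚ)) : ℂ) = 0)) ∧
      ∀ (R : Type) [CommRing R] (y : Rˣ)
        (M : EMeas (spa v c + MvPolynomial.map (algebraMap F k) h) R), M.L = (y : R) →
        (1 - PowerSeries.C ((y⁻¹ : Rˣ) : R) * PowerSeries.X) * serM M y ∈
          ratR y (S : Set (ℤ × ℤ))

lemma map_tot {F k K : Type} [Field F] [Field k] [Field K] [Algebra F k] [Algebra k K]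
    [Algebra F K] [IsScalarTower F k K]
    (v : Fin r → Fin N → ℕ) (c : Fin r → k) (h : MvPolynomial (Fin N) F) :
    MvPolynomial.map (algebraMap k K) (spa v c + MvPolynomial.map (algebraMap F k) h) =
      spa v (fun j => algebraMap k K (c j)) + MvPolynomial.map (algebraMap F K) h := by
  rw [map_add, MvPolynomial.map_map, ← IsScalarTower.algebraMap_eq F k K]
  congr 1
  unfold spa
  rw [map_sum]
  refine Finset.sum_congr rfl fun j _ => ?_
  rw [map_mul, map_C, map_prod]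
  congr 1
  exact Finset.prod_congr rfl fun i _ => by rw [map_pow, map_X]

theorem core_of {F : Type} [Field F] [Algebra F ℂ] (hr : 0 < r)
    (BF : MvPolynomial (Fin N) ℂ → Polynomial ℂ → Prop) (P : ℚ → Prop) (loc : Prop)
    (Q : Fin r → Prop) (v : Fin r → Fin N → ℕ) (hv : Function.Injective v)
    (h : MvPolynomial (Fin N) F) (hh : ∀ w ∈ h.support, NP v w) (hQ : AdmQ Q v h)
    (hvh : ∀ w ∈ h.support, ∀ j, ¬ ∀ x, w x = v j x)
    (hP : ∀ α, ¬ P α → ∃ (θ : Fin (r + (kept v h).card) → ℤ) (p : Polynomial ℂ),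
      RelG (Fin.append v (ke v h)) (Kil1 (Fin.append v (ke v h)))
        (KilU (Fin.append v (ke v h)) θ) p ∧ p.eval (α : ℂ) ≠ 0)
    (hroot : ∃ g : MvPolynomial (Fin r) F, g ≠ 0 ∧ ∀ c : Fin r → ℂ, aeval c g ≠ 0 →
      ∀ b : Polynomial ℂ, BF (spa v c + MvPolynomial.map (algebraMap F ℂ) h) b →
        b.eval (-1) = 0 ∧ ∀ α : ℚ, P α → b.eval (α : ℂ) = 0)
    (hNB : ∀ u : Fin N → ℕ, 0 < gord v u → NonB v loc u →
      P (-(((∑ i, u i : ℕ) : ℚ) / gord v u))) :
    ∃ g : MvPolynomial (Fin r) F, g ≠ 0 ∧ Core BF loc Q v h g := by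
  classical
  obtain ⟨g1, hg1, h1⟩ := hroot
  obtain ⟨g2, hg2, h2⟩ := gen_nonDF pF4 hr v (we h) (we_np v h hh) (wc h)
  have hg3 : (∏ j : Fin r, (X j : MvPolynomial (Fin r) F)) ≠ 0 :=
    Finset.prod_ne_zero_iff.2 fun j _ => X_ne_zero j
  refine ⟨g1 * g2 * ∏ j : Fin r, (X j : MvPolynomial (Fin r) F),
    mul_ne_zero (mul_ne_zero hg1 hg2) hg3, fun k _ _ _ _ c hc' => ?_⟩
  have hc : aeval (fun j => algebraMap k ℂ (c j))
      (g1 * g2 * ∏ j : Fin r, (X j : MvPolynomial (Fin r) F)) ≠ 0 := by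
    intro h0
    apply hc'
    have h1 : algebraMap k ℂ (aeval c (g1 * g2 * ∏ j : Fin r, (X j : MvPolynomial (Fin r) F))) =
        0 := by
      rw [← h0, ← aeval_algebraMap_apply]
      rfl
    exact (map_eq_zero _).1 h1
  rw [map_mul, map_mul, map_prod] at hc
  have hcne : ∀ j, c j ≠ 0 := by
    intro j hj
    have h5 := Finset.prod_ne_zero_iff.1 (right_ne_zero_of_mul hc) j (Finset.mem_univ j)
    rw [aeval_X, hj, map_zero] at h5
    exact h5 rfl
  have hb := h1 _ (left_ne_zero_of_mul (left_ne_zero_of_mul hc))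
  have hnd := h2 _ (right_ne_zero_of_mul (left_ne_zero_of_mul hc))
  have hnk : NonD (Fin.append v (we h)) (fun j => algebraMap k ℂ
      (Fin.append c (fun l => algebraMap F k (wc h l)) j)) := by
    rw [append_map]
    simp only [← IsScalarTower.algebraMap_apply F k ℂ]
    exact hnd
  have key : ∀ b : Polynomial ℂ, BF (MvPolynomial.map (algebraMap k ℂ)
      (spa v c + MvPolynomial.map (algebraMap F k) h)) b → ∀ α : ℚ, P α →
        b.eval (α : ℂ) = 0 := by
    intro b hbf α hα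
    rw [map_tot] at hbf
    exact (hb b hbf).2 α hα
  obtain ⟨S, hS, hz⟩ := gen_S1 hr Q v hv h hh hQ hvh P hP
  refine ⟨fun b hbf u hu hn => key b hbf _ (hNB u hu hn), S, fun p hp => ?_, hz k c hcne hnk⟩
  obtain ⟨a, ha, hg, hLP, rfl⟩ := hS p hp
  exact ⟨a, ha, hg, rfl, fun hL b hbf => key b hbf _ (hLP hL)⟩

/-- global `b`-functions -/
theorem core_glo {F : Type} [Field F] [Algebra F ℂ] (hr : 0 < r)
    (Q : Fin r → Prop) (v : Fin r → Fin N → ℕ) (hv : Function.Injective v) (hv0 : ∀ j, v j ≠ 0)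
    (h : MvPolynomial (Fin N) F) (hh : ∀ w ∈ h.support, NP v w) (hQ : AdmQ Q v h)
    (hvh : ∀ w ∈ h.support, ∀ j, ¬ ∀ x, w x = v j x) :
    ∃ g : MvPolynomial (Fin r) F, g ≠ 0 ∧ Core IsBFunction False Q v h g := by
  have hne : NeZero r := ⟨by omega⟩
  exact core_of hr IsBFunction (fun α => HP v h α 0) False Q v hv h hh hQ hvh
    (fun α hα => relF v hv hv0 h hh α hα) (rootsF hr v hv hv0 h hh)
    (fun u hu hn => hp_nonB v hv hv0 h hh u hu hn)

/-- local `b`-functions -/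
theorem core_loc {F : Type} [Field F] [Algebra F ℂ] (hr : 0 < r)
    (Q : Fin r → Prop) (v : Fin r → Fin N → ℕ) (hv : Function.Injective v) (hv0 : ∀ j, v j ≠ 0)
    (h : MvPolynomial (Fin N) F) (hh : ∀ w ∈ h.support, NP v w) (hQ : AdmQ Q v h)
    (hvh : ∀ w ∈ h.support, ∀ j, ¬ ∀ x, w x = v j x) :
    ∃ g : MvPolynomial (Fin r) F, g ≠ 0 ∧ Core IsLocalBFunction True Q v h g := by
  have hne : NeZero r := ⟨by omega⟩
  exact core_of hr IsLocalBFunction (fun α => HPL v h α 0) True Q v hv h hh hQ hvh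
    (fun α hα => relL v hv hv0 h hh α hα) (rootsL hr v hv hv0 h hh)
    (fun u hu hn => hpl_nonB v hv hv0 h hh u hu hn)

end B

end Pool.Agent.T6.H16.MR
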