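import Pool.Agent.T6.H16.MR.G1

set_option autoImplicit false

/-! Generic coefficients: one more pair of variables. -/

namespace Pool.Agent.T6.H16.MR

open MvPolynomial
open Pool.Agent.W425.ND (spa)
open Pool.Agent.W425.SV (NP)
open Pool.Agent.W425.BF (BD)
open Pool.Agent.W426.SM (gord IsRay face)
open Pool.Agent.W803.SM (gord_le exists_gord)
open Pool.Agent.TH216.MF (LocS SimH SimR InC)

section

variable {F : Type} [Field F] {n κ r : ℕ}

/-- the polynomial `h` in the larger set of variables -/
noncomputable def hpad (h : MvPolynomial (Fin (n + (κ + κ))) F) :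
    MvPolynomial (Fin (n + ((κ + 1) + (κ + 1)))) F := rename (em n κ) h

theorem em_inj : Function.Injective (em n κ) := by
  intro i j h
  have h1 : ee n κ (Sum.inl i) = ee n κ (Sum.inl j) := h
  have h2 := (ee n κ).injective h1
  exact Sum.inl_injective h2

theorem hpad_supp {h : MvPolynomial (Fin (n + (κ + κ))) F}
    {w : Fin (n + ((κ + 1) + (κ + 1))) →₀ ℕ} (hw : w ∈ (hpad h).support) :
    ∃ w0 ∈ h.support, (∀ i, w (ee n κ (Sum.inl i)) = w0 i) ∧ ∀ j, w (ee n κ (Sum.inr j)) = 0 := by
  classical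
  unfold hpad at hw
  rw [support_rename_of_injective em_inj, Finset.mem_image] at hw
  obtain ⟨w0, h0, rfl⟩ := hw
  refine ⟨w0, h0, fun i => ?_, fun j => ?_⟩
  · rw [ee_l, Finsupp.mapDomain_apply em_inj]
  · refine Finsupp.mapDomain_of_notMem_range _ _ ?_
    rintro ⟨i, hi⟩
    have h1 : ee n κ (Sum.inl i) = ee n κ (Sum.inr j) := hi
    have h2 := (ee n κ).injective h1
    exact absurd h2 Sum.inl_ne_inr

theorem inj_pad {v : Fin r → Fin (n + (κ + κ)) → ℕ} (hv : Function.Injective v) :
    Function.Injective (padV v) := by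
  intro i j
  refine Fin.lastCases ?_ (fun i => ?_) i <;> refine Fin.lastCases ?_ (fun j => ?_) j
  · exact fun _ => rfl
  · intro h
    have h1 := congrFun h (ee n κ (Sum.inr 0))
    rw [padV_last, padV_l] at h1
    exact absurd h1 one_ne_zero
  · intro h
    have h1 := congrFun h (ee n κ (Sum.inr 0))
    rw [padV_last, padV_l] at h1
    exact absurd h1.symm one_ne_zero
  · intro h
    have h1 : v i = v j := by
      funext p
      have h2 := congrFun h (ee n κ (Sum.inl p))
      rwa [padV_l, padV_l] at h2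
    rw [hv h1]

theorem ne_pad {v : Fin r → Fin (n + (κ + κ)) → ℕ} (hv : ∀ j, v j ≠ 0) (j) : padV v j ≠ 0 := by
  refine Fin.lastCases ?_ (fun j => ?_) j
  · intro h
    have h1 := congrFun h (ee n κ (Sum.inr 0))
    rw [padV_last] at h1
    exact absurd h1 one_ne_zero
  · intro h
    apply hv j
    funext p
    have h2 := congrFun h (ee n κ (Sum.inl p))
    rwa [padV_l] at h2

theorem np_pad {v : Fin r → Fin (n + (κ + κ)) → ℕ} {h : MvPolynomial (Fin (n + (κ + κ))) F}
    (hh : ∀ w ∈ h.support, NP v w) : ∀ w ∈ (hpad h).support, NP (padV v) w := by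
  intro w hw
  obtain ⟨w0, h0, h1, h2⟩ := hpad_supp hw
  obtain ⟨l, hl0, hl1, hl2⟩ := hh w0 h0
  refine ⟨Fin.snoc (α := fun _ => ℝ) l 0, fun j => ?_, ?_, fun i => ?_⟩
  · refine Fin.lastCases ?_ (fun j => ?_) j
    · rw [Fin.snoc_last]
    · rw [Fin.snoc_castSucc]
      exact hl0 j
  · rw [Fin.sum_univ_castSucc]
    simp only [Fin.snoc_castSucc, Fin.snoc_last, add_zero]
    exact hl1
  · rw [Fin.sum_univ_castSucc]
    simp only [Fin.snoc_castSucc, Fin.snoc_last, zero_mul, add_zero]
    obtain ⟨p, rfl⟩ := (ee n κ).surjective i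
    rcases p with p | p
    · simp only [padV_l, Sum.elim_inl]
      rw [h1 p]
      exact hl2 p
    · simp only [padV_l, Sum.elim_inr]
      rw [h2 p]
      simp

theorem nvh_pad {v : Fin r → Fin (n + (κ + κ)) → ℕ} {h : MvPolynomial (Fin (n + (κ + κ))) F}
    (hh : ∀ w ∈ h.support, ∀ j, ¬ ∀ x, w x = v j x) :
    ∀ w ∈ (hpad h).support, ∀ j, ¬ ∀ x, w x = padV v j x := by
  intro w hw j hj
  obtain ⟨w0, h0, h1, h2⟩ := hpad_supp hw
  revert hj
  refine Fin.lastCases ?_ (fun j => ?_) j
  · intro hj
    have h3 := hj (ee n κ (Sum.inr 0))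
    rw [h2, padV_last] at h3
    exact absurd h3.symm one_ne_zero
  · intro hj
    refine hh w0 h0 j fun x => ?_
    have h3 := hj (ee n κ (Sum.inl x))
    rwa [h1, padV_l] at h3

/-- the sum over the old and the new variables -/
theorem sum_ee {M : Type} [AddCommMonoid M] (g : Fin (n + ((κ + 1) + (κ + 1))) → M) :
    ∑ i, g i = ∑ i, g (ee n κ (Sum.inl i)) + (g (ee n κ (Sum.inr 0)) + g (ee n κ (Sum.inr 1))) := by
  rw [← Equiv.sum_comp (ee n κ), Fintype.sum_sum_type, Fin.sum_univ_two]

/-- pairing with the old exponents -/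
theorem pair_l {K : Type} [Semiring K] (v : Fin r → Fin (n + (κ + κ)) → ℕ) (j : Fin r)
    (u : Fin (n + ((κ + 1) + (κ + 1))) → K) :
    ∑ i, u i * (padV v j.castSucc i : K) = ∑ i, u (ee n κ (Sum.inl i)) * (v j i : K) := by
  rw [sum_ee]
  simp only [padV_l, Sum.elim_inl, Sum.elim_inr, Nat.cast_zero, mul_zero, add_zero]

theorem pair_last {K : Type} [Semiring K] (v : Fin r → Fin (n + (κ + κ)) → ℕ)
    (u : Fin (n + ((κ + 1) + (κ + 1))) → K) :
    ∑ i, u i * (padV v (Fin.last r) i : K) =
      u (ee n κ (Sum.inr 0)) + u (ee n κ (Sum.inr 1)) := by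
  rw [sum_ee]
  simp only [padV_last, Sum.elim_inl, Sum.elim_inr, Nat.cast_zero, mul_zero,
    Finset.sum_const_zero, zero_add, Nat.cast_one, mul_one]

theorem gord_pad_le (hr : 0 < r) (v : Fin r → Fin (n + (κ + κ)) → ℕ)
    (a : Fin (n + ((κ + 1) + (κ + 1))) → ℕ) :
    gord (padV v) a ≤ gord v (fun i => a (ee n κ (Sum.inl i))) := by
  obtain ⟨j, hj⟩ := exists_gord hr v (fun i => a (ee n κ (Sum.inl i)))
  rw [← hj]
  refine (gord_le (padV v) a j.castSucc).trans (le_of_eq ?_)
  simpa using pair_l (K := ℕ) v j a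

theorem gord_pad_le' (v : Fin r → Fin (n + (κ + κ)) → ℕ)
    (a : Fin (n + ((κ + 1) + (κ + 1))) → ℕ) :
    gord (padV v) a ≤ a (ee n κ (Sum.inr 0)) + a (ee n κ (Sum.inr 1)) := by
  refine (gord_le (padV v) a (Fin.last r)).trans (le_of_eq ?_)
  simpa using pair_last (K := ℕ) v a

/-- **The rays with one more pair of variables.** -/
theorem ray_pad (hr : 0 < r) (v : Fin r → Fin (n + (κ + κ)) → ℕ)
    (a : Fin (n + ((κ + 1) + (κ + 1))) → ℕ) (ha : IsRay (padV v) a) (hg : 0 < gord (padV v) a) :
    IsRay v (fun i => a (ee n κ (Sum.inl i))) ∧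
      gord v (fun i => a (ee n κ (Sum.inl i))) = gord (padV v) a ∧
      a (ee n κ (Sum.inr 0)) + a (ee n κ (Sum.inr 1)) = gord (padV v) a ∧
      (a (ee n κ (Sum.inr 0)) = 0 ∨ a (ee n κ (Sum.inr 1)) = 0) := by
  classical
  set a0 : Fin (n + (κ + κ)) → ℕ := fun i => a (ee n κ (Sum.inl i)) with ha0
  have hle : gord (padV v) a ≤ gord v a0 := gord_pad_le hr v a
  have hle' := gord_pad_le' v a
  have hfl : ∀ j, face (padV v) a j.castSucc ↔ ∑ i, a0 i * v j i = gord (padV v) a := by
    intro j
    unfold face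
    have h1 := pair_l (K := ℕ) v j a
    simp only [Nat.cast_id] at h1
    rw [h1]
  have hfr : face (padV v) a (Fin.last r) ↔
      a (ee n κ (Sum.inr 0)) + a (ee n κ (Sum.inr 1)) = gord (padV v) a := by
    unfold face
    have h1 := pair_last (K := ℕ) v a
    simp only [Nat.cast_id] at h1
    rw [h1]
  -- functions
  have mk : ∀ (u : Fin (n + (κ + κ)) → ℚ) (b c : ℚ), ∃ U : Fin (n + ((κ + 1) + (κ + 1))) → ℚ,
      (∀ i, U (ee n κ (Sum.inl i)) = u i) ∧ U (ee n κ (Sum.inr 0)) = b ∧
      U (ee n κ (Sum.inr 1)) = c := by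
    intro u b c
    refine ⟨fun i => Sum.elim u ![b, c] ((ee n κ).symm i), fun i => ?_, ?_, ?_⟩
    · simp
    · simp
    · simp
  -- not both coordinates
  have h3 : a (ee n κ (Sum.inr 0)) = 0 ∨ a (ee n κ (Sum.inr 1)) = 0 := by
    by_contra hcon
    push Not at hcon
    obtain ⟨U, hU1, hU2, hU3⟩ := mk (fun _ => 0) 1 (-1)
    obtain ⟨t, ht⟩ := ha.2 U (fun i hi => by
      obtain ⟨p, rfl⟩ := (ee n κ).surjective i
      rcases p with p | p
      · exact hU1 p
      · fin_cases p
        · exact absurd hi hcon.1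
        · exact absurd hi hcon.2) (fun j j' hj hj' => by
      have : ∀ j, ∑ i, U i * (padV v j i : ℚ) = 0 := by
        intro j
        refine Fin.lastCases ?_ (fun j => ?_) j
        · rw [pair_last, hU2, hU3]
          ring
        · rw [pair_l]
          simp only [hU1, zero_mul, Finset.sum_const_zero]
      rw [this, this])
    have h4 := ht (ee n κ (Sum.inr 0))
    have h5 := ht (ee n κ (Sum.inr 1))
    rw [hU2] at h4
    rw [hU3] at h5
    have h6 : (0 : ℚ) < a (ee n κ (Sum.inr 0)) := by exact_mod_cast Nat.pos_of_ne_zero hcon.1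
    have h7 : (0 : ℚ) < a (ee n κ (Sum.inr 1)) := by exact_mod_cast Nat.pos_of_ne_zero hcon.2
    have h8 : 0 < t := by
      by_contra hneg
      push Not at hneg
      nlinarith
    nlinarith
  -- the new monomial is in the face
  have hsum : a (ee n κ (Sum.inr 0)) + a (ee n κ (Sum.inr 1)) = gord (padV v) a := by
    by_contra hne
    -- the nonzero coordinate
    obtain ⟨b, hb⟩ : ∃ b : Fin 2, a (ee n κ (Sum.inr b)) ≠ 0 := by
      by_contra hcon
      push Not at hcon
      have h4 := hcon 0
      have h5 := hcon 1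
      omega
    obtain ⟨U, hU1, hU2, hU3⟩ := mk (fun _ => 0) (if b = 0 then 1 else 0) (if b = 1 then 1 else 0)
    have hUb : U (ee n κ (Sum.inr b)) = 1 := by
      fin_cases b
      · exact hU2
      · exact hU3
    have hU0 : ∀ p : Fin 2, p ≠ b → U (ee n κ (Sum.inr p)) = 0 := by
      intro p hp
      fin_cases b <;> fin_cases p <;> simp_all
    obtain ⟨t, ht⟩ := ha.2 U (fun i hi => by
      obtain ⟨p, rfl⟩ := (ee n κ).surjective i
      rcases p with p | p
      · exact hU1 p
      · refine hU0 p ?_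
        rintro rfl
        exact hb hi) (fun j j' hj hj' => by
      have : ∀ j, face (padV v) a j → ∑ i, U i * (padV v j i : ℚ) = 0 := by
        intro j
        refine Fin.lastCases ?_ (fun j => ?_) j
        · intro hf
          exact absurd (hfr.1 hf) hne
        · intro _
          rw [pair_l]
          simp only [hU1, zero_mul, Finset.sum_const_zero]
      rw [this j hj, this j' hj'])
    have ht0 : t ≠ 0 := by
      rintro rfl
      have h4 := ht (ee n κ (Sum.inr b))
      rw [hUb, zero_mul] at h4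
      exact one_ne_zero h4
    have h4 : ∀ i, a0 i = 0 := by
      intro i
      have h5 := ht (ee n κ (Sum.inl i))
      rw [hU1] at h5
      have h6 := (mul_eq_zero.1 h5.symm).resolve_left ht0
      exact_mod_cast h6
    have h5 : gord v a0 = 0 := by
      obtain ⟨j, hj⟩ := exists_gord hr v a0
      rw [← hj]
      exact Finset.sum_eq_zero fun i _ => by rw [h4, zero_mul]
    omega
  -- the order
  have hgo : gord v a0 = gord (padV v) a := by
    by_contra hne
    have hlt : gord (padV v) a < gord v a0 := lt_of_le_of_ne hle (Ne.symm hne)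
    have honly : ∀ j, face (padV v) a j → j = Fin.last r := by
      intro j
      refine Fin.lastCases (fun _ => rfl) (fun j hf => ?_) j
      exfalso
      have h4 := (hfl j).1 hf
      have h5 := gord_le v a0 j
      omega
    obtain ⟨b, hb⟩ : ∃ b : Fin 2, a (ee n κ (Sum.inr b)) ≠ 0 := by
      by_contra hcon
      push Not at hcon
      have h4 := hcon 0
      have h5 := hcon 1
      omega
    obtain ⟨U, hU1, hU2, hU3⟩ := mk (fun _ => 0) (if b = 0 then 1 else 0) (if b = 1 then 1 else 0)
    have hUb : U (ee n κ (Sum.inr b)) = 1 := by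
      fin_cases b
      · exact hU2
      · exact hU3
    have hU0 : ∀ p : Fin 2, p ≠ b → U (ee n κ (Sum.inr p)) = 0 := by
      intro p hp
      fin_cases b <;> fin_cases p <;> simp_all
    obtain ⟨t, ht⟩ := ha.2 U (fun i hi => by
      obtain ⟨p, rfl⟩ := (ee n κ).surjective i
      rcases p with p | p
      · exact hU1 p
      · refine hU0 p ?_
        rintro rfl
        exact hb hi) (fun j j' hj hj' => by rw [honly j hj, honly j' hj'])
    have ht0 : t ≠ 0 := by
      rintro rfl
      have h4 := ht (ee n κ (Sum.inr b))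
      rw [hUb, zero_mul] at h4
      exact one_ne_zero h4
    have h4 : ∀ i, a0 i = 0 := by
      intro i
      have h5 := ht (ee n κ (Sum.inl i))
      rw [hU1] at h5
      have h6 := (mul_eq_zero.1 h5.symm).resolve_left ht0
      exact_mod_cast h6
    have h5 : gord v a0 = 0 := by
      obtain ⟨j, hj⟩ := exists_gord hr v a0
      rw [← hj]
      exact Finset.sum_eq_zero fun i _ => by rw [h4, zero_mul]
    omega
  refine ⟨⟨fun h0 => ?_, fun u hu hconst => ?_⟩, hgo, hsum, h3⟩
  · have h5 : gord v a0 = 0 := by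
      obtain ⟨j, hj⟩ := exists_gord hr v a0
      rw [← hj]
      exact Finset.sum_eq_zero fun i _ => by rw [h0]; exact zero_mul _
    omega
  · -- extend `u`
    obtain ⟨j0, hj0⟩ := exists_gord hr v a0
    set μ : ℚ := ∑ i, u i * (v j0 i : ℚ) with hμ
    obtain ⟨b, hb⟩ : ∃ b : Fin 2, a (ee n κ (Sum.inr b)) ≠ 0 := by
      by_contra hcon
      push Not at hcon
      have h4 := hcon 0
      have h5 := hcon 1
      omega
    obtain ⟨U, hU1, hU2, hU3⟩ := mk u (if b = 0 then μ else 0) (if b = 1 then μ else 0)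
    have hU0 : ∀ p : Fin 2, p ≠ b → U (ee n κ (Sum.inr p)) = 0 := by
      intro p hp
      fin_cases b <;> fin_cases p <;> simp_all
    have hUs : U (ee n κ (Sum.inr 0)) + U (ee n κ (Sum.inr 1)) = μ := by
      rw [hU2, hU3]
      fin_cases b <;> simp
    obtain ⟨t, ht⟩ := ha.2 U (fun i hi => by
      obtain ⟨p, rfl⟩ := (ee n κ).surjective i
      rcases p with p | p
      · rw [hU1]
        exact hu p hi
      · refine hU0 p ?_
        rintro rfl
        exact hb hi) (fun j j' hj hj' => by
      have : ∀ j, face (padV v) a j → ∑ i, U i * (padV v j i : ℚ) = μ := by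
        intro j
        refine Fin.lastCases ?_ (fun j => ?_) j
        · intro _
          rw [pair_last, hUs]
        · intro hf
          rw [pair_l]
          simp only [hU1]
          refine hconst j j0 ?_ hj0
          unfold face
          rw [(hfl j).1 hf, hgo]
      rw [this j hj, this j' hj'])
    exact ⟨t, fun i => by rw [← hU1 i]; exact ht _⟩

theorem lv_pad (hr : 0 < r) (v : Fin r → Fin (n + (κ + κ)) → ℕ)
    (a : Fin (n + ((κ + 1) + (κ + 1))) → ℕ) (ha : IsRay (padV v) a) (hg : 0 < gord (padV v) a) :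
    lv (padV v) a = lv v (fun i => a (ee n κ (Sum.inl i))) + 1 := by
  obtain ⟨-, h1, h2, -⟩ := ray_pad hr v a ha hg
  unfold lv
  rw [h1, sum_ee, h2]
  have h3 : (gord (padV v) a : ℚ) ≠ 0 := by exact_mod_cast hg.ne'
  push_cast
  field_simp

/-- the condition `Q` with one more pair of variables -/
def QP (Q : Fin r → Prop) (j : Fin (r + 1)) : Prop :=
  Fin.lastCases (motive := fun _ => Prop) False Q j

theorem admT {m : ℕ} (hr : 0 < r) (v : Fin r → Fin m → ℕ) (h : MvPolynomial (Fin m) F) :
    AdmQ (fun _ => True) v h := by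
  refine ⟨fun a _ ha => ?_, fun _ _ _ _ _ _ _ => trivial⟩
  by_contra hcon
  push Not at hcon
  have h1 := ha ⟨0, hr⟩
  rw [Finset.sum_eq_zero] at h1
  · exact absurd h1 (by norm_num)
  · intro i _
    by_cases h2 : a i = 0
    · rw [h2, zero_mul]
    · obtain ⟨_, _, h3⟩ := hcon i h2
      exact h3.elim

theorem AdmQ.pad {Q : Fin r → Prop} {v : Fin r → Fin (n + (κ + κ)) → ℕ}
    {h : MvPolynomial (Fin (n + (κ + κ))) F} (hQ : AdmQ Q v h) :
    AdmQ (QP Q) (padV v) (hpad h) := by
  refine ⟨fun a ha1 ha2 => ?_, fun w hw l hl1 hl2 j hj => ?_⟩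
  · obtain ⟨i, hi1, hi2⟩ := hQ.q1 (fun i => a (ee n κ (Sum.inl i))) (fun i => ha1 _) fun j => by
      have h1 := ha2 j.castSucc
      rwa [pair_l] at h1
    refine ⟨ee n κ (Sum.inl i), hi1, fun j => ?_⟩
    unfold QP
    refine Fin.lastCases ?_ (fun j => ?_) j
    · intro h1
      rw [padV_last] at h1
      exact absurd h1 (lt_irrefl _)
    · intro h1
      rw [padV_l] at h1
      rw [Fin.lastCases_castSucc]
      exact hi2 j h1
  · obtain ⟨w0, h0, hw1, hw2⟩ := hpad_supp hw
    have hlast : l (Fin.last r) ≤ 0 := by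
      have h1 := hl2 (ee n κ (Sum.inr 0))
      rw [Fin.sum_univ_castSucc, hw2] at h1
      simpa only [padV_l, padV_last, Sum.elim_inr, Nat.cast_zero, mul_zero,
        Finset.sum_const_zero, zero_add, Nat.cast_one, mul_one] using h1
    have hl0 : l (Fin.last r) = 0 := le_antisymm hlast (hl1 _)
    unfold QP
    revert hj
    refine Fin.lastCases ?_ (fun j => ?_) j
    · intro hj
      rw [hl0] at hj
      exact absurd hj (lt_irrefl _)
    · intro hj
      rw [Fin.lastCases_castSucc]
      refine hQ.q2 w0 h0 (fun j => l j.castSucc) (fun j => hl1 _) (fun i => ?_) j hj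
      have h1 := hl2 (ee n κ (Sum.inl i))
      rw [Fin.sum_univ_castSucc, hl0, zero_mul, add_zero, hw1] at h1
      simpa only [padV_l, Sum.elim_inl] using h1

/-- **The condition with one more pair of variables.** -/
theorem LocQ.pad (hr : 0 < r) {Q : Fin r → Prop} {v : Fin r → Fin (n + (κ + κ)) → ℕ}
    {h : MvPolynomial (Fin (n + (κ + κ))) F} {σ : ℚ} (hs : LocQ Q v h σ) :
    LocQ (QP Q) (padV v) (hpad h) (σ + 1) := by
  intro j1
  refine Fin.lastCases (fun hq => ?_) (fun j1 hq => ?_) j1
  · unfold QP at hq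
    rw [Fin.lastCases_last] at hq
    exact hq.elim
  unfold QP at hq
  rw [Fin.lastCases_castSucc] at hq
  obtain ⟨i, hi⟩ := hs j1 hq
  refine ⟨ee n κ (Sum.inl i), fun a ha hg hf1 hlev' => ?_⟩
  have hlev : lv (padV v) a = σ + 1 := hlev'
  obtain ⟨h1, h2, h3, h4⟩ := ray_pad hr v a ha hg
  rw [lv_pad hr v a ha hg, add_left_inj] at hlev
  have hfl : ∀ j, face (padV v) a j.castSucc ↔ face v (fun i => a (ee n κ (Sum.inl i))) j := by
    intro j
    unfold face
    have h5 := pair_l (K := ℕ) v j a
    simp only [Nat.cast_id] at h5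
    rw [h5, h2]
  rcases hi _ h1 (by rw [h2]; exact hg) ((hfl j1).1 hf1) hlev with ⟨hs1, hs2⟩ | ⟨hb1, j0, hb2, hb3, hb4, hb5⟩
  · refine Or.inl ⟨fun w hw hsum j => ?_, fun w hw hwf => ?_⟩
    · -- the last coefficient
      have hlast : w (Fin.last r) = 0 := by
        obtain ⟨b, hb⟩ : ∃ b : Fin 2, a (ee n κ (Sum.inr b)) ≠ 0 := by
          by_contra hcon
          push Not at hcon
          have h4 := hcon 0
          have h5 := hcon 1
          omega
        have h5 := hsum _ hb
        rw [Fin.sum_univ_castSucc] at h5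
        simpa only [padV_l, padV_last, Sum.elim_inr, Nat.cast_zero, mul_zero,
          Finset.sum_const_zero, zero_add, Nat.cast_one, mul_one] using h5
      refine Fin.lastCases hlast (fun j => ?_) j
      refine hs1 (fun j => w j.castSucc) (fun j hj => hw _ fun h => hj ((hfl j).1 h))
        (fun p hp => ?_) j
      have h5 := hsum _ hp
      rw [Fin.sum_univ_castSucc, hlast, zero_mul, add_zero] at h5
      simpa only [padV_l, Sum.elim_inl] using h5
    · obtain ⟨w0, h0, hw1, hw2⟩ := hpad_supp hw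
      obtain ⟨l, hl0, -, hl1, hl2⟩ := hs2 w0 h0 (by
        rw [h2, ← hwf, sum_ee, hw2, hw2]
        simp only [hw1, mul_zero, add_zero])
      refine ⟨Fin.snoc (α := fun _ => ℝ) l 0, fun j => ?_,
        fun j hj => absurd (Finset.mem_univ _) hj, ?_, fun i => ?_⟩
      · refine Fin.lastCases ?_ (fun j => ?_) j
        · rw [Fin.snoc_last]
        · rw [Fin.snoc_castSucc]
          exact hl0 j
      · rw [Fin.sum_univ_castSucc]
        simp only [Fin.snoc_castSucc, Fin.snoc_last, add_zero]
        exact hl1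
      · rw [Fin.sum_univ_castSucc]
        simp only [Fin.snoc_castSucc, Fin.snoc_last, zero_mul, add_zero]
        obtain ⟨p, rfl⟩ := (ee n κ).surjective i
        rcases p with p | p
        · simp only [padV_l, Sum.elim_inl]
          rw [hw1 p]
          exact hl2 p
        · simp only [padV_l, Sum.elim_inr]
          rw [hw2 p]
          simp
  · refine Or.inr ⟨hb1, j0.castSucc, (hfl j0).2 hb2, ?_, fun j => ?_, fun w hw hwf => ?_⟩
    · rw [padV_l]
      exact hb3
    · refine Fin.lastCases ?_ (fun j => ?_) j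
      · intro _ _
        rw [padV_last]
        rfl
      · intro hf hne
        rw [padV_l]
        exact hb4 j ((hfl j).1 hf) fun h => hne (by rw [h])
    · obtain ⟨w0, h0, hw1, hw2⟩ := hpad_supp hw
      rcases hb5 w0 h0 (by
        rw [h2, ← hwf, sum_ee, hw2, hw2]
        simp only [hw1, mul_zero, add_zero]) with h5 | h5
      · exact Or.inl (by rw [hw1, h5])
      · right
        intro x
        obtain ⟨p, rfl⟩ := (ee n κ).surjective x
        rcases p with p | p
        · rw [hw1, padV_l]
          exact h5 p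
        · rw [hw2, padV_l]
          rfl

end

end Pool.Agent.T6.H16.MR
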