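import Pool.Agent.T6.H16.MR.G2

set_option autoImplicit false

/-! Generic coefficients: the theorem. -/

namespace Pool.Agent.T6.H16.MR

open MvPolynomial
open Pool.Agent.H628R4.TP
open Pool.Agent.W425.ND (spa)
open Pool.Agent.W425.MM (NonB)
open Pool.Agent.W425.SV (NP)
open Pool.Agent.W426.SM (gord IsRay face)
open Pool.Agent.W803.SM (gord_le exists_gord)
open Pool.Agent.W428.MOT (EMeas LuMu InRat zetaE MKMu)
open Pool.Agent.T6.H16.ME (hyp shiftS)
open Pool.Agent.TH216.MF (ratR LocS)
open Pool.Agent.Y231.N4 (serM OrigM zetaE0)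
open Pool.Agent.Y229.RE (emb yv zv xv emb_l emb_r)

/-! ### A nonzero polynomial and its restrictions to lines -/

section Fib

theorem fib {F : Type} [Field F] {r : ℕ} (g : MvPolynomial (Fin (r + 1)) F) (hg : g ≠ 0) :
    ∃ g' : MvPolynomial (Fin r) F, g' ≠ 0 ∧ ∀ (k : Type) [Field k] [Algebra F k] [Infinite k]
      (c : Fin r → k), aeval c g' ≠ 0 →
      ∃ t : k, t ≠ 0 ∧ aeval (Fin.snoc (α := fun _ => k) c t) g ≠ 0 := by
  classical
  set φ : MvPolynomial (Fin (r + 1)) F →ₐ[F] Polynomial (MvPolynomial (Fin r) F) :=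
    aeval (Fin.snoc (α := fun _ => Polynomial (MvPolynomial (Fin r) F))
      (fun j => Polynomial.C (X j)) Polynomial.X) with hφ
  set ψ : Polynomial (MvPolynomial (Fin r) F) →+* MvPolynomial (Fin (r + 1)) F :=
    Polynomial.eval₂RingHom ((rename Fin.castSucc : MvPolynomial (Fin r) F →ₐ[F]
      MvPolynomial (Fin (r + 1)) F) : MvPolynomial (Fin r) F →+* MvPolynomial (Fin (r + 1)) F)
      (X (Fin.last r)) with hψ
  have h1 : ψ.comp (φ : MvPolynomial (Fin (r + 1)) F →+* _) = RingHom.id _ := by
    refine MvPolynomial.ringHom_ext (fun a => ?_) fun i => ?_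
    · rw [RingHom.comp_apply, RingHom.id_apply]
      show ψ (φ (C a)) = C a
      rw [← MvPolynomial.algebraMap_eq, AlgHom.commutes, Polynomial.algebraMap_apply,
        MvPolynomial.algebraMap_eq, hψ, Polynomial.coe_eval₂RingHom, Polynomial.eval₂_C]
      show rename _ (C a) = _
      rw [rename_C]
      rfl
    · rw [RingHom.comp_apply, RingHom.id_apply]
      show ψ (φ (X i)) = X i
      rw [hφ, aeval_X]
      refine Fin.lastCases ?_ (fun i => ?_) i
      · rw [Fin.snoc_last, hψ, Polynomial.coe_eval₂RingHom, Polynomial.eval₂_X]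
      · rw [Fin.snoc_castSucc, hψ, Polynomial.coe_eval₂RingHom, Polynomial.eval₂_C]
        show rename _ (X i) = _
        rw [rename_X]
  have hp : φ g ≠ 0 := by
    intro h0
    apply hg
    have h2 := congrFun (congrArg DFunLike.coe h1) g
    rw [RingHom.comp_apply, RingHom.id_apply] at h2
    rw [← h2]
    show ψ (φ g) = 0
    rw [h0, map_zero]
  refine ⟨(φ g).leadingCoeff, Polynomial.leadingCoeff_ne_zero.2 hp, fun k _ _ _ c hc => ?_⟩
  by_contra hcon
  push Not at hcon
  set ev : MvPolynomial (Fin r) F →+* k :=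
    ((aeval c : MvPolynomial (Fin r) F →ₐ[F] k) : MvPolynomial (Fin r) F →+* k) with hev
  have h2 : ∀ t : k, aeval (Fin.snoc (α := fun _ => k) c t) g =
      ((φ g).map ev).eval t := by
    intro t
    have h3 : ((aeval (Fin.snoc (α := fun _ => k) c t) : MvPolynomial (Fin (r + 1)) F →ₐ[F] k) :
        MvPolynomial (Fin (r + 1)) F →+* k) =
        ((Polynomial.evalRingHom t).comp (Polynomial.mapRingHom ev)).comp
          (φ : MvPolynomial (Fin (r + 1)) F →+* _) := by
      refine MvPolynomial.ringHom_ext (fun a => ?_) fun i => ?_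
      · rw [RingHom.comp_apply, RingHom.comp_apply]
        show aeval _ (C a) = Polynomial.eval t (Polynomial.map ev (φ (C a)))
        rw [← MvPolynomial.algebraMap_eq, AlgHom.commutes, AlgHom.commutes,
          Polynomial.algebraMap_apply, Polynomial.map_C, Polynomial.eval_C, hev]
        show _ = aeval c (algebraMap F (MvPolynomial (Fin r) F) a)
        rw [AlgHom.commutes]
      · rw [RingHom.comp_apply, RingHom.comp_apply]
        show aeval _ (X i) = Polynomial.eval t (Polynomial.map ev (φ (X i)))
        rw [hφ, aeval_X, aeval_X]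
        refine Fin.lastCases ?_ (fun i => ?_) i
        · rw [Fin.snoc_last, Fin.snoc_last, Polynomial.map_X, Polynomial.eval_X]
        · rw [Fin.snoc_castSucc, Fin.snoc_castSucc, Polynomial.map_C, Polynomial.eval_C, hev]
          show c i = aeval c (X i)
          rw [aeval_X]
    exact congrFun (congrArg DFunLike.coe h3) g
  have h3 : Polynomial.X * (φ g).map ev = 0 := by
    refine Polynomial.funext fun t => ?_
    rw [Polynomial.eval_mul, Polynomial.eval_X, Polynomial.eval_zero, ← h2]
    by_cases ht : t = 0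
    · rw [ht, zero_mul]
    · rw [hcon t ht, mul_zero]
  have h4 : (φ g).map ev = 0 := (mul_eq_zero.1 h3).resolve_left Polynomial.X_ne_zero
  have h5 := congrArg (fun p => Polynomial.coeff p (φ g).natDegree) h4
  simp only [Polynomial.coeff_map, Polynomial.coeff_zero] at h5
  exact hc h5

end Fib

/-! ### Scaling -/

section Scl

variable {k : Type} [Field k] {m n κ r : ℕ}

/-- multiplication of the variables with nonzero constants -/
noncomputable def scl (u : Fin m → k) (hu : ∀ i, u i ≠ 0) : PAut k m :=
  AlgEquiv.ofAlgHom (aeval fun i => C (u i) * X i) (aeval fun i => C (u i)⁻¹ * X i)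
    (MvPolynomial.algHom_ext fun i => by
      rw [AlgHom.comp_apply, aeval_X, map_mul, aeval_X, AlgHom.id_apply,
        ← MvPolynomial.algebraMap_eq, AlgHom.commutes, ← mul_assoc, ← map_mul,
        inv_mul_cancel₀ (hu i), map_one, one_mul])
    (MvPolynomial.algHom_ext fun i => by
      rw [AlgHom.comp_apply, aeval_X, map_mul, aeval_X, AlgHom.id_apply,
        ← MvPolynomial.algebraMap_eq, AlgHom.commutes, ← mul_assoc, ← map_mul,
        mul_inv_cancel₀ (hu i), map_one, one_mul])

theorem scl_X (u : Fin m → k) (hu : ∀ i, u i ≠ 0) (i : Fin m) :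
    scl u hu (X i) = C (u i) * X i := by
  show aeval _ (X i) = _
  rw [aeval_X]

theorem scl_rename {l : ℕ} (u : Fin m → k) (hu : ∀ i, u i ≠ 0) (e : Fin l → Fin m)
    (h1 : ∀ i, u (e i) = 1) (p : MvPolynomial (Fin l) k) :
    scl u hu (rename e p) = rename e p := by
  have h2 : ((scl u hu : MvPolynomial (Fin m) k →ₐ[k] MvPolynomial (Fin m) k).comp (rename e)) =
      rename e := by
    refine MvPolynomial.algHom_ext fun i => ?_
    rw [AlgHom.comp_apply, rename_X]
    show scl u hu (X (e i)) = _
    rw [scl_X, h1, map_one, one_mul]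
  exact congrFun (congrArg DFunLike.coe h2) p

theorem spa_pad' (v : Fin r → Fin (n + (κ + κ)) → ℕ) (c : Fin r → k) (t : k) :
    spa (padV v) (Fin.snoc (α := fun _ => k) c t) =
      rename (em n κ) (spa v c) + C t * (X (yv n (Fin.last κ)) * X (zv n (Fin.last κ))) := by
  unfold spa
  rw [Fin.sum_univ_castSucc, map_sum]
  congr 1
  · refine Finset.sum_congr rfl fun j _ => ?_
    rw [Fin.snoc_castSucc, map_mul, rename_C, map_prod]
    congr 1
    rw [← Equiv.prod_comp (ee n κ), Fintype.prod_sum_type]
    simp only [padV_l, Sum.elim_inl, Sum.elim_inr, pow_zero, Finset.prod_const_one, mul_one]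
    refine Finset.prod_congr rfl fun i _ => ?_
    rw [map_pow, rename_X, ee_l]
  · rw [Fin.snoc_last, ← Equiv.prod_comp (ee n κ), Fintype.prod_sum_type]
    simp only [padV_last, Sum.elim_inl, Sum.elim_inr, pow_zero, Finset.prod_const_one, one_mul,
      pow_one]
    rw [Fin.prod_univ_two, ee_0, ee_1]

/-- the automorphism with one more pair of variables, scaled -/
noncomputable def padS (θ : PAut k (n + (κ + κ))) (t : k) (ht : t ≠ 0) :
    PAut k (n + ((κ + 1) + (κ + 1))) :=
  (padA θ).trans (scl (fun i => if i = ee n κ (Sum.inr 0) then t else 1) fun i => by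
    split_ifs
    · exact ht
    · exact one_ne_zero)

theorem padS_hyp {F : Type} [Field F] [Algebra F k] {f : MvPolynomial (Fin n) k}
    {v : Fin r → Fin (n + (κ + κ)) → ℕ} {c : Fin r → k} {h : MvPolynomial (Fin (n + (κ + κ))) F}
    {θ : PAut k (n + (κ + κ))} (hθ : θ (hyp f κ) = spa v c + MvPolynomial.map (algebraMap F k) h)
    (t : k) (ht : t ≠ 0) :
    padS θ t ht (hyp f (κ + 1)) = spa (padV v) (Fin.snoc (α := fun _ => k) c t) +
      MvPolynomial.map (algebraMap F k) (hpad h) := by
  unfold padS
  rw [AlgEquiv.trans_apply, hyp_succ, map_add, padA_em, hθ, map_mul, ← ee_0, ← ee_1, padA_r,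
    padA_r, map_add, scl_rename, map_mul, scl_X, scl_X, if_pos rfl, if_neg, map_one, one_mul,
    spa_pad', map_add, ← ee_0, ← ee_1]
  · unfold hpad
    rw [map_rename]
    ring
  · intro h1
    have h2 := (ee n κ).injective h1
    have h3 := Sum.inr_injective h2
    exact absurd h3 (by decide)
  · intro i
    rw [if_neg]
    intro h1
    have h2 : ee n κ (Sum.inl i) = ee n κ (Sum.inr 0) := h1
    exact absurd ((ee n κ).injective h2) Sum.inl_ne_inr

theorem fix_padS {θ : PAut k (n + (κ + κ))} (h : Fix θ) (t : k) (ht : t ≠ 0) :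
    Fix (padS θ t ht) := by
  intro i
  have h1 : Fix (scl (fun i : Fin (n + ((κ + 1) + (κ + 1))) =>
      if i = ee n κ (Sum.inr 0) then t else 1) fun i => by
        split_ifs
        · exact ht
        · exact one_ne_zero) := by
    intro i
    rw [scl_X, map_mul, constantCoeff_X, mul_zero]
  unfold padS
  rw [AlgEquiv.trans_apply, h1.const]
  exact fix_pad h i

end Scl

end Pool.Agent.T6.H16.MR
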