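import Pool.Agent.T6.H16.MR.G3

set_option autoImplicit false

/-! Generic coefficients: the theorem. -/

namespace Pool.Agent.T6.H16.MR

open MvPolynomial
open Pool.Agent.H628R4.TP
open Pool.Agent.W425.ND (spa)
open Pool.Agent.W425.MM (NonB)
open Pool.Agent.W425.SV (NP)
open Pool.Agent.W426.SM (gord IsRay face)
open Pool.Agent.W803.SM (gord_le exists_gord)
open Pool.Agent.W428.MOT (EMeas LuMu InRat zetaE MKMu)
open Pool.Agent.T6.H16.ME (hyp shiftS)
open Pool.Agent.TH216.MF (ratR LocS)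
open Pool.Agent.Y231.N4 (serM OrigM zetaE0)
open Pool.Agent.Y229.RE (emb yv zv xv emb_l emb_r)

section

variable {F : Type} [Field F] {n κ r : ℕ}

/-- The condition on the facets. The candidate pole of `f` which belongs to `a` is
`κ - |a| / N_a`. -/
def HypT (loc : Prop) (κ : ℕ) {m : ℕ} (v : Fin r → Fin m → ℕ) (h : MvPolynomial (Fin m) F) :
    Prop :=
  (∀ a : Fin m → ℕ, 0 < gord v a → κ * gord v a < ∑ i, a i) ∧
  ∀ a : Fin m → ℕ, IsRay v a → 0 < gord v a → ∑ i, a i = (κ + 1) * gord v a ∨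
    (∃ a' : Fin m → ℕ, 0 < gord v a' ∧ NonB v loc a' ∧ lv v a = lv v a') ∨ LocS v h (lv v a)

theorem cast_lv {m : ℕ} (v : Fin r → Fin m → ℕ) (a : Fin m → ℕ) (l : ℕ) (hg : 0 < gord v a) :
    (((-((∑ i, a i : ℕ) : ℤ) + (l : ℤ) * (gord v a : ℤ) : ℤ)) : ℂ) / ((gord v a : ℤ) : ℂ) =
      ((l - lv v a : ℚ) : ℂ) := by
  unfold lv
  have h5 : ((gord v a : ℕ) : ℂ) ≠ 0 := by exact_mod_cast hg.ne'
  push_cast
  field_simp
  ring

theorem main_gen [Algebra F ℂ] (loc : Prop)
    (BF : ∀ m : ℕ, MvPolynomial (Fin m) ℂ → Polynomial ℂ → Prop)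
    (hcore : ∀ {m r : ℕ} (_ : 0 < r) (Q : Fin r → Prop) (v : Fin r → Fin m → ℕ),
      Function.Injective v →
      (∀ j, v j ≠ 0) → ∀ h : MvPolynomial (Fin m) F, (∀ w ∈ h.support, NP v w) → AdmQ Q v h →
      (∀ w ∈ h.support, ∀ j, ¬ ∀ x, w x = v j x) →
      ∃ g : MvPolynomial (Fin r) F, g ≠ 0 ∧ Core (BF m) loc Q v h g)
    (OKθ : ∀ (k : Type) [Field k] (m : ℕ), PAut k m → Prop)
    (hOK : ∀ (k : Type) [Field k] (n κ : ℕ) (θ : PAut k (n + (κ + κ))) (t : k) (ht : t ≠ 0),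
      OKθ k _ θ → OKθ k _ (padS θ t ht))
    (hr : 0 < r) (v : Fin r → Fin (n + (κ + κ)) → ℕ) (hv : Function.Injective v)
    (hv0 : ∀ j, v j ≠ 0) (h : MvPolynomial (Fin (n + (κ + κ))) F) (hh : ∀ w ∈ h.support, NP v w)
    (hvh : ∀ w ∈ h.support, ∀ j, ¬ ∀ x, w x = v j x) (hT : HypT loc κ v h) :
    ∃ g : MvPolynomial (Fin r) F, g ≠ 0 ∧ ∀ (k : Type) [Field k] [Algebra F k] [Algebra k ℂ]
      [IsScalarTower F k ℂ] (c : Fin r → k), aeval c g ≠ 0 → ∀ f : MvPolynomial (Fin n) k,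
      (∀ b, BF n (MvPolynomial.map (algebraMap k ℂ) f) b → b.eval (-1) = 0) →
      (∀ (κ' : ℕ) (θ : PAut k (n + (κ' + κ'))), OKθ k _ θ → ∀ b : Polynomial ℂ,
        BF n (MvPolynomial.map (algebraMap k ℂ) f) b →
        BF _ (MvPolynomial.map (algebraMap k ℂ) (θ (hyp f κ')))
          ((Polynomial.X + 1) * b.comp (Polynomial.X + Polynomial.C (κ' : ℂ)))) →
      ∀ θ : PAut k (n + (κ + κ)), OKθ k _ θ →
      θ (hyp f κ) = spa v c + MvPolynomial.map (algebraMap F k) h →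
      ∃ S : Finset (ℤ × ℤ),
        (∀ p ∈ S, p.1 < 0 ∧ 0 < p.2 ∧ ∀ b : Polynomial ℂ,
          BF n (MvPolynomial.map (algebraMap k ℂ) f) b → b.eval ((p.1 : ℂ) / p.2) = 0) ∧
        ∀ (R : Type) [CommRing R] (y : Rˣ) (M : EMeas f R), M.L = (y : R) →
          serM M y ∈ ratR y (S : Set (ℤ × ℤ)) := by
  classical
  obtain ⟨g0, hg0, hc0⟩ := hcore hr _ v hv hv0 h hh (admT hr v h) hvh
  obtain ⟨g1, hg1, hc1⟩ := hcore (Nat.succ_pos r) _ (padV v) (inj_pad hv) (ne_pad hv0) (hpad h)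
    (np_pad hh) (admT hr v h).pad (nvh_pad hvh)
  obtain ⟨g2, hg2, hc2⟩ := hcore (Nat.succ_pos (r + 1)) _ (padV (padV v)) (inj_pad (inj_pad hv))
    (ne_pad (ne_pad hv0)) (hpad (hpad h)) (np_pad (np_pad hh)) (admT hr v h).pad.pad
    (nvh_pad (nvh_pad hvh))
  obtain ⟨g2', hg2', ht2⟩ := fib g2 hg2
  obtain ⟨g1', hg1', ht1⟩ := fib (g1 * g2') (mul_ne_zero hg1 hg2')
  refine ⟨g0 * g1', mul_ne_zero hg0 hg1', fun k _ _ _ _ c hc f hneg1 htr θ hθO hθ => ?_⟩
  have hkc : CharZero k := RingHom.charZero (algebraMap k ℂ)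
  have hki : Infinite k := Infinite.of_injective _ (Nat.cast_injective (R := k))
  rw [map_mul] at hc
  obtain ⟨t1, ht10, h1⟩ := ht1 k c (right_ne_zero_of_mul hc)
  rw [map_mul] at h1
  obtain ⟨t2, ht20, h2⟩ := ht2 k _ (right_ne_zero_of_mul h1)
  have hroot0 := (hc0 k c (left_ne_zero_of_mul hc)).1
  obtain ⟨-, S1, hS1, hz1⟩ := hc1 k _ (left_ne_zero_of_mul h1)
  obtain ⟨-, S2, hS2, hz2⟩ := hc2 k _ h2
  have e1 := padS_hyp hθ t1 ht10
  have e2 := padS_hyp e1 t2 ht20
  have hO1 := hOK k _ _ θ t1 ht10 hθO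
  have hO2 := hOK k _ _ _ t2 ht20 hO1
  -- the roots at the level `κ`
  have hA : ∀ a : Fin (n + (κ + κ)) → ℕ, IsRay v a → 0 < gord v a →
      (∑ i, a i = (κ + 1) * gord v a ∨
        (∃ a' : Fin (n + (κ + κ)) → ℕ, 0 < gord v a' ∧ NonB v loc a' ∧ lv v a = lv v a')) →
      ∀ b, BF n (MvPolynomial.map (algebraMap k ℂ) f) b → b.eval ((κ - lv v a : ℚ) : ℂ) = 0 := by
    intro a _ hg hor b hb
    have hgq : (gord v a : ℚ) ≠ 0 := by exact_mod_cast hg.ne'
    have hlt : (κ : ℚ) < lv v a := by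
      unfold lv
      rw [lt_div_iff₀ (by exact_mod_cast hg)]
      exact_mod_cast hT.1 a hg
    rcases hor with h0 | ⟨a', hg', hn', he⟩
    · have h3 : lv v a = κ + 1 := by
        unfold lv
        rw [h0]
        push_cast
        field_simp
      rw [h3]
      have h4 := hneg1 b hb
      rw [← h4]
      congr 1
      push_cast
      ring
    · have h3 := htr κ θ hθO b hb
      rw [hθ] at h3
      have h4 := hroot0 _ h3 a' hg' hn'
      rw [← he, Polynomial.eval_mul, Polynomial.eval_comp] at h4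
      simp only [Polynomial.eval_add, Polynomial.eval_X, Polynomial.eval_C,
        Polynomial.eval_one] at h4
      by_cases h5 : lv v a = 1
      · have h6 : κ = 0 := by
          rw [h5] at hlt
          have : κ < 1 := by exact_mod_cast hlt
          omega
        rw [h5, h6]
        have h4 := hneg1 b hb
        rw [← h4]
        congr 1
        push_cast
        ring
      · rcases mul_eq_zero.1 h4 with h6 | h6
        · exfalso
          apply h5
          have h7 : ((-(lv v a) + 1 : ℚ) : ℂ) = 0 := by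
            push_cast
            push_cast at h6
            exact h6
          have h8 : (-(lv v a) + 1 : ℚ) = 0 := by exact_mod_cast h7
          linarith
        · rw [← h6]
          congr 1
          push_cast
          ring
  -- the roots at the higher levels
  have hB : ∀ {m' r' : ℕ} (κ' : ℕ) (v' : Fin r' → Fin m' → ℕ) (a : Fin m' → ℕ)
      (G : MvPolynomial (Fin m') ℂ), 1 < lv v' a →
      (∀ b : Polynomial ℂ, BF m' G b → b.eval (((-(lv v' a) : ℚ)) : ℂ) = 0) →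
      ∀ b : Polynomial ℂ, BF m' G ((Polynomial.X + 1) * b.comp (Polynomial.X + Polynomial.C (κ' : ℂ))) →
      b.eval ((κ' - lv v' a : ℚ) : ℂ) = 0 := by
    intro m' r' κ' v' a G h1lt hr' b hb
    have h4 := hr' _ hb
    rw [Polynomial.eval_mul, Polynomial.eval_comp] at h4
    simp only [Polynomial.eval_add, Polynomial.eval_X, Polynomial.eval_C,
      Polynomial.eval_one] at h4
    rcases mul_eq_zero.1 h4 with h6 | h6
    · exfalso
      have h7 : ((-(lv v' a) + 1 : ℚ) : ℂ) = 0 := by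
        push_cast
        push_cast at h6
        exact h6
      have h8 : (-(lv v' a) + 1 : ℚ) = 0 := by exact_mod_cast h7
      linarith
    · rw [← h6]
      congr 1
      push_cast
      ring
  have hlt1 : ∀ a : Fin (n + ((κ + 1) + (κ + 1))) → ℕ, 0 < gord (padV v) a →
      ((κ + 1 : ℕ) : ℚ) < lv (padV v) a := by
    intro a hg
    unfold lv
    rw [lt_div_iff₀ (by exact_mod_cast hg)]
    exact_mod_cast neg_pad hr v hT.1 a hg
  have hlt2 : ∀ a : Fin (n + ((κ + 1 + 1) + (κ + 1 + 1))) → ℕ, 0 < gord (padV (padV v)) a →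
      ((κ + 2 : ℕ) : ℚ) < lv (padV (padV v)) a := by
    intro a hg
    unfold lv
    rw [lt_div_iff₀ (by exact_mod_cast hg)]
    exact_mod_cast neg_pad (Nat.succ_pos r) (padV v) (neg_pad hr v hT.1) a hg
  have hR1 : ∀ p ∈ S1, p.1 + ((κ + 1 : ℕ) : ℤ) * p.2 < 0 ∧ 0 < p.2 ∧ ∀ b : Polynomial ℂ,
      BF n (MvPolynomial.map (algebraMap k ℂ) f) b →
        b.eval (((p.1 + ((κ + 1 : ℕ) : ℤ) * p.2 : ℤ) : ℂ) / p.2) = 0 := by
    intro p hp
    obtain ⟨a, ha, hg, rfl, hL⟩ := hS1 p hp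
    have h3 := neg_pad hr v hT.1 a hg
    refine ⟨?_, Int.natCast_pos.2 hg, fun b hb => ?_⟩
    · have h4 : (((κ + 1) * gord (padV v) a : ℕ) : ℤ) < ((∑ i, a i : ℕ) : ℤ) := by
        exact_mod_cast h3
      push_cast at h4 ⊢
      linarith
    · obtain ⟨q1, q2, -, -⟩ := ray_pad hr v a ha hg
      rw [cast_lv _ _ _ hg]
      have hlev := lv_pad hr v a ha hg
      rcases hT.2 _ q1 (by rw [q2]; exact hg) with h5 | h5 | h5
      · have h6 := hA _ q1 (by rw [q2]; exact hg) (Or.inl h5) b hb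
        rw [← h6, hlev]
        congr 1
        push_cast
        ring
      · have h6 := hA _ q1 (by rw [q2]; exact hg) (Or.inr h5) b hb
        rw [← h6, hlev]
        congr 1
        push_cast
        ring
      · have h5' : LocQ (fun _ => True) v h (lv v fun i => a (ee n κ (Sum.inl i))) :=
          fun j _ => h5 j
        have h6 := h5'.pad hr
        rw [← hlev] at h6
        refine hB (κ + 1) (padV v) a _ ?_ (hL h6) b ?_
        · refine lt_of_le_of_lt ?_ (hlt1 a hg)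
          push_cast
          linarith [(Nat.cast_nonneg κ : (0 : ℚ) ≤ κ)]
        · rw [← e1]
          exact htr (κ + 1) _ hO1 b hb
  have hR2 : ∀ p ∈ S2, p.1 + ((κ + 2 : ℕ) : ℤ) * p.2 < 0 ∧ 0 < p.2 ∧ ∀ b : Polynomial ℂ,
      BF n (MvPolynomial.map (algebraMap k ℂ) f) b →
        b.eval (((p.1 + ((κ + 2 : ℕ) : ℤ) * p.2 : ℤ) : ℂ) / p.2) = 0 := by
    intro p hp
    obtain ⟨a, ha, hg, rfl, hL⟩ := hS2 p hp
    have h3 := neg_pad (Nat.succ_pos r) (padV v) (neg_pad hr v hT.1) a hg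
    refine ⟨?_, Int.natCast_pos.2 hg, fun b hb => ?_⟩
    · have h4 : (((κ + 1 + 1) * gord (padV (padV v)) a : ℕ) : ℤ) < ((∑ i, a i : ℕ) : ℤ) := by
        exact_mod_cast h3
      push_cast at h4 ⊢
      linarith
    · obtain ⟨q1, q2, -, -⟩ := ray_pad (Nat.succ_pos r) (padV v) a ha hg
      have hg1 : 0 < gord (padV v) (fun i => a (ee n (κ + 1) (Sum.inl i))) := by
        rw [q2]
        exact hg
      obtain ⟨s1, s2, -, -⟩ := ray_pad hr v _ q1 hg1
      rw [cast_lv _ _ _ hg]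
      have hlev := lv_pad (Nat.succ_pos r) (padV v) a ha hg
      have hlev1 := lv_pad hr v _ q1 hg1
      rcases hT.2 _ s1 (by rw [s2]; exact hg1) with h5 | h5 | h5
      · have h6 := hA _ s1 (by rw [s2]; exact hg1) (Or.inl h5) b hb
        rw [← h6, hlev, hlev1]
        congr 1
        push_cast
        ring
      · have h6 := hA _ s1 (by rw [s2]; exact hg1) (Or.inr h5) b hb
        rw [← h6, hlev, hlev1]
        congr 1
        push_cast
        ring
      · have h5' : LocQ (fun _ => True) v h (lv v fun i => (fun i => a (ee n (κ + 1)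
            (Sum.inl i))) (ee n κ (Sum.inl i))) := fun j _ => h5 j
        have h6 := (h5'.pad hr).pad (Nat.succ_pos r)
        rw [← hlev1, ← hlev] at h6
        refine hB (κ + 2) (padV (padV v)) a _ ?_ (hL h6) b ?_
        · refine lt_of_le_of_lt ?_ (hlt2 a hg)
          push_cast
          linarith [(Nat.cast_nonneg κ : (0 : ℚ) ≤ κ)]
        · rw [← e2]
          exact htr (κ + 2) _ hO2 b hb
  refine ⟨insert (-1, 1) (S1.image (fun p => (p.1 + ((κ + 1 : ℕ) : ℤ) * p.2, p.2)) ∪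
    S2.image (fun p => (p.1 + ((κ + 2 : ℕ) : ℤ) * p.2, p.2))), fun p hp => ?_, ?_⟩
  · rcases Finset.mem_insert.1 hp with rfl | hp
    · refine ⟨by norm_num, by norm_num, fun b hb => ?_⟩
      have h3 := hneg1 b hb
      simpa using h3
    · rcases Finset.mem_union.1 hp with hp | hp
      · obtain ⟨q, hq, rfl⟩ := Finset.mem_image.1 hp
        exact hR1 q hq
      · obtain ⟨q, hq, rfl⟩ := Finset.mem_image.1 hp
        exact hR2 q hq
  · intro R _ y M hM
    have z1 := hz1 R y (MG M _ e1) hM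
    rw [ser_MG] at z1
    have z2 := hz2 R y (MG M _ e2) hM
    rw [ser_MG] at z2
    have h3 := mem_of_two M y hM κ (S1 := (S1 : Set (ℤ × ℤ))) (S2 := (S2 : Set (ℤ × ℤ)))
      (fun p hp => (hR1 p hp).2.1) (fun p hp => (hR2 p hp).2.1) z1 z2
    rw [ser_eq]
    convert h3 using 2
    rw [Finset.coe_insert, Finset.coe_union, Finset.coe_image, Finset.coe_image]
    rfl

end

end Pool.Agent.T6.H16.MR
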