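import Pool.Agent.T6.H16.MR.G4

set_option autoImplicit false

/-! Generic coefficients: global and local Bernstein-Sato polynomials. -/

namespace Pool.Agent.T6.H16.MR

open MvPolynomial
open Pool.Agent.H628R4.TP
open Pool.Agent.W425.ND (spa)
open Pool.Agent.W425.MM (NonB)
open Pool.Agent.W425.SV (NP)
open Pool.Agent.W426.SM (gord IsRay face)
open Pool.Agent.W428.MOT (EMeas LuMu InRat zetaE MKMu)
open Pool.Agent.T6.H16.ME (hyp shiftS)
open Pool.Agent.TH216.MF (ratR LocS)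
open Pool.Agent.Y231.N4 (serM OrigM zetaE0)

section

variable {F : Type} [Field F] [Algebra F ℂ] {n κ r : ℕ}

/-- **Global Bernstein-Sato polynomials.** -/
theorem gen_glo (hr : 0 < r) (v : Fin r → Fin (n + (κ + κ)) → ℕ) (hv : Function.Injective v)
    (hv0 : ∀ j, v j ≠ 0) (h : MvPolynomial (Fin (n + (κ + κ))) F) (hh : ∀ w ∈ h.support, NP v w)
    (hvh : ∀ w ∈ h.support, ∀ j, ¬ ∀ x, w x = v j x) (hT : HypT False κ v h) :
    ∃ g : MvPolynomial (Fin r) F, g ≠ 0 ∧ ∀ (k : Type) [Field k] [Algebra F k] [Algebra k ℂ]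
      [IsScalarTower F k ℂ] (c : Fin r → k), aeval c g ≠ 0 → ∀ f : MvPolynomial (Fin n) k,
      f.totalDegree ≠ 0 → ∀ θ : PAut k (n + (κ + κ)),
      θ (hyp f κ) = spa v c + MvPolynomial.map (algebraMap F k) h →
      ∃ S : Finset (ℤ × ℤ),
        (∀ p ∈ S, p.1 < 0 ∧ 0 < p.2 ∧ ∀ b : Polynomial ℂ,
          IsBFunction (MvPolynomial.map (algebraMap k ℂ) f) b → b.eval ((p.1 : ℂ) / p.2) = 0) ∧
        InRat (LuMu f) S (zetaE f) := by
  obtain ⟨g, hg, hz⟩ := main_gen (F := F) False (fun _ => IsBFunction)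
    (fun hr Q v hv hv0 h hh hQ hvh => core_glo hr Q v hv hv0 h hh hQ hvh) (fun _ _ _ _ => True)
    (fun _ _ _ _ _ _ _ _ => trivial) hr v hv hv0 h hh hvh hT
  refine ⟨g, hg, fun k _ _ _ _ c hc f hf θ hθ => ?_⟩
  have hkc : CharZero k := RingHom.charZero (algebraMap k ℂ)
  obtain ⟨S, hS, hzS⟩ := hz k c hc f
    (fun b hb => Pool.Agent.Y229.GL.root_neg_one _ (by rw [deg_map]; exact hf) b hb)
    (fun κ' θ' _ b hb => by
      have h3 := bf_global (κ := κ') hb (mapA θ')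
      rw [← map_hyp, mapA_map] at h3
      exact h3) θ trivial hθ
  refine ⟨S, hS, ?_⟩
  obtain ⟨M, hM, hs⟩ := Pool.Agent.Y231.N4.serM_zetaE f
  rw [← hs]
  exact hzS _ _ M hM

/-- **Local Bernstein-Sato polynomials at the origin.** -/
theorem gen_loc (hr : 0 < r) (v : Fin r → Fin (n + (κ + κ)) → ℕ) (hv : Function.Injective v)
    (hv0 : ∀ j, v j ≠ 0) (h : MvPolynomial (Fin (n + (κ + κ))) F) (hh : ∀ w ∈ h.support, NP v w)
    (hvh : ∀ w ∈ h.support, ∀ j, ¬ ∀ x, w x = v j x) (hT : HypT True κ v h) :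
    ∃ g : MvPolynomial (Fin r) F, g ≠ 0 ∧ ∀ (k : Type) [Field k] [Algebra F k] [Algebra k ℂ]
      [IsScalarTower F k ℂ] (c : Fin r → k), aeval c g ≠ 0 → ∀ f : MvPolynomial (Fin n) k,
      f ≠ 0 → constantCoeff f = 0 → ∀ θ : PAut k (n + (κ + κ)), Fix θ →
      θ (hyp f κ) = spa v c + MvPolynomial.map (algebraMap F k) h →
      ∃ S : Finset (ℤ × ℤ),
        (∀ p ∈ S, p.1 < 0 ∧ 0 < p.2 ∧ ∀ b : Polynomial ℂ,
          IsLocalBFunction (MvPolynomial.map (algebraMap k ℂ) f) b →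
            b.eval ((p.1 : ℂ) / p.2) = 0) ∧
        InRat (LuMu f) S (zetaE f) ∧
        InRat (LuMu (0 : MvPolynomial (Fin 0) k)) S (zetaE0 f) := by
  obtain ⟨g, hg, hz⟩ := main_gen (F := F) True (fun _ => IsLocalBFunction)
    (fun hr Q v hv hv0 h hh hQ hvh => core_loc hr Q v hv hv0 h hh hQ hvh) (fun _ _ _ θ => Fix θ)
    (fun _ _ _ _ _ t ht h0 => fix_padS h0 t ht) hr v hv hv0 h hh hvh hT
  refine ⟨g, hg, fun k _ _ _ _ c hc f hf0 hf θ h0 hθ => ?_⟩
  have hkc : CharZero k := RingHom.charZero (algebraMap k ℂ)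
  have hf0' : MvPolynomial.map (algebraMap k ℂ) f ≠ 0 :=
    (MvPolynomial.map_injective _ (algebraMap k ℂ).injective).ne_iff' (map_zero _) |>.2 hf0
  have hf' : constantCoeff (MvPolynomial.map (algebraMap k ℂ) f) = 0 := by
    rw [constantCoeff_map, hf, map_zero]
  obtain ⟨S, hS, hzS⟩ := hz k c hc f
    (fun b hb => (Pool.Agent.Y229.RE.unitEq_of_local hf0' hf' hb).1)
    (fun κ' θ' h0' b hb => by
      have h3 := (bf_local (κ := κ') hf0' hf' hb (mapA θ') (fix_map h0')).2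
      rw [← map_hyp, mapA_map] at h3
      exact h3) θ h0 hθ
  refine ⟨S, hS, ?_, ?_⟩
  · obtain ⟨M, hM, hs⟩ := Pool.Agent.Y231.N4.serM_zetaE f
    rw [← hs]
    exact hzS _ _ M hM
  · obtain ⟨M, hO, hM, hs⟩ := Pool.Agent.Y231.N4.serM_zetaE0 f
    rw [← hs]
    exact hzS _ _ M hM

end

end Pool.Agent.T6.H16.MR
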