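import Pool.Agent.T6.H16.MR.G5

set_option autoImplicit false

/-! Towers with generic coefficients. -/

namespace Pool.Agent.T6.H16.MR

open MvPolynomial
open Pool.Agent.H628R4.TP
open Pool.Agent.W425.ND (spa)
open Pool.Agent.W425.MM (NonB)
open Pool.Agent.W425.SV (NP)
open Pool.Agent.W426.SM (gord IsRay face)
open Pool.Agent.W428.MOT (EMeas LuMu InRat zetaE MKMu)
open Pool.Agent.T6.H16.ME (hyp shiftS)
open Pool.Agent.TH216.MF (ratR LocS)
open Pool.Agent.Y231.N4 (serM OrigM zetaE0)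
open Pool.Agent.Y229.RE (emb yv zv xv emb_l emb_r)

/-! ### Genericity on a torus -/

section Fib

theorem fibs {F : Type} [Field F] {r κ : ℕ} (g : MvPolynomial (Fin (r + κ)) F) (hg : g ≠ 0) :
    ∃ g' : MvPolynomial (Fin r) F, g' ≠ 0 ∧ ∀ (k : Type) [Field k] [Algebra F k] [Infinite k]
      (c : Fin r → k), aeval c g' ≠ 0 →
      ∃ t : Fin κ → k, (∀ i, t i ≠ 0) ∧ aeval (Fin.append c t) g ≠ 0 := by
  induction κ with
  | zero =>
    refine ⟨g, hg, fun k _ _ _ c hc => ⟨Fin.elim0, fun i => i.elim0, ?_⟩⟩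
    rw [Fin.append_elim0]
    exact hc
  | succ κ ih =>
    obtain ⟨g1, hg1, h1⟩ := fib (r := r + κ) g hg
    obtain ⟨g2, hg2, h2⟩ := ih g1 hg1
    refine ⟨g2, hg2, fun k _ _ _ c hc => ?_⟩
    obtain ⟨t, ht, h3⟩ := h2 k c hc
    obtain ⟨x, hx, h4⟩ := h1 k _ h3
    refine ⟨Fin.snoc (α := fun _ => k) t x, fun i => ?_, ?_⟩
    · refine Fin.lastCases ?_ (fun i => ?_) i
      · rw [Fin.snoc_last]
        exact hx
      · rw [Fin.snoc_castSucc]
        exact ht i
    · rw [Fin.append_snoc]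
      exact h4

/-- the factor of the coefficient of a monomial -/
def Tc {A : Type} [Ring A] {κ : ℕ} (t : Fin κ → A) (o : Option (Fin κ)) : A :=
  o.elim 1 (fun i => - t i)

theorem Tc_ne {k : Type} [Field k] {κ : ℕ} {t : Fin κ → k} (ht : ∀ i, t i ≠ 0)
    (o : Option (Fin κ)) : Tc t o ≠ 0 := by
  rcases o with _ | i
  · exact one_ne_zero
  · exact neg_ne_zero.2 (ht i)

theorem fibt {F : Type} [Field F] [Infinite F] {r κ : ℕ} (π : Fin r → Option (Fin κ))
    (g : MvPolynomial (Fin (r + κ)) F) (hg : g ≠ 0) :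
    ∃ g' : MvPolynomial (Fin r) F, g' ≠ 0 ∧ ∀ (k : Type) [Field k] [Algebra F k] [Infinite k]
      (c : Fin r → k), aeval c g' ≠ 0 →
      ∃ t : Fin κ → k, (∀ i, t i ≠ 0) ∧
        aeval (Fin.append (fun j => c j * Tc t (π j)) t) g ≠ 0 := by
  classical
  set σ : MvPolynomial (Fin (r + κ)) F →ₐ[F] MvPolynomial (Fin (r + κ)) F :=
    aeval (Fin.append (fun j => X (Fin.castAdd κ j) * Tc (fun i => X (Fin.natAdd r i)) (π j))
      (fun i => X (Fin.natAdd r i))) with hσ
  have hev : ∀ (k : Type) [Field k] [Algebra F k] (c : Fin r → k) (t : Fin κ → k),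
      aeval (Fin.append c t) (σ g) = aeval (Fin.append (fun j => c j * Tc t (π j)) t) g := by
    intro k _ _ c t
    have h1 : ((aeval (Fin.append c t) : MvPolynomial (Fin (r + κ)) F →ₐ[F] k).comp σ) =
        aeval (Fin.append (fun j => c j * Tc t (π j)) t) := by
      refine MvPolynomial.algHom_ext fun i => ?_
      rw [AlgHom.comp_apply, hσ, aeval_X, aeval_X]
      refine Fin.addCases (fun j => ?_) (fun i => ?_) i
      · rw [Fin.append_left, Fin.append_left, map_mul, aeval_X, Fin.append_left]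
        congr 1
        unfold Tc
        rcases π j with _ | i
        · simp
        · simp
      · rw [Fin.append_right, Fin.append_right, aeval_X, Fin.append_right]
    exact congrFun (congrArg DFunLike.coe h1) g
  have hne : σ g ≠ 0 := by
    intro h0
    obtain ⟨g1, hg1, h1⟩ := fibs g hg
    apply hg1
    refine MvPolynomial.funext fun c => ?_
    by_contra hcon
    rw [map_zero] at hcon
    obtain ⟨t, ht, h2⟩ := h1 F c (by
      rw [← MvPolynomial.coe_aeval_eq_eval] at hcon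
      exact hcon)
    apply h2
    have h3 := hev F (fun j => c j / Tc t (π j)) t
    rw [h0, map_zero] at h3
    rw [h3]
    congr 2
    congr 1
    funext j
    rw [div_mul_cancel₀ _ (Tc_ne ht _)]
  obtain ⟨g1, hg1, h1⟩ := fibs (σ g) hne
  refine ⟨g1, hg1, fun k _ _ _ c hc => ?_⟩
  obtain ⟨t, ht, h2⟩ := h1 k c hc
  refine ⟨t, ht, ?_⟩
  rwa [hev] at h2

end Fib

end Pool.Agent.T6.H16.MR
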