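import Pool.Agent.T6.H16.MR.G6

set_option autoImplicit false

/-! Towers with generic coefficients. -/

namespace Pool.Agent.T6.H16.MR

open MvPolynomial
open Pool.Agent.H628R4.TP
open Pool.Agent.W425.ND (spa)
open Pool.Agent.W425.MM (NonB)
open Pool.Agent.W425.SV (NP)
open Pool.Agent.W426.SM (gord IsRay face)
open Pool.Agent.W428.MOT (EMeas LuMu InRat zetaE MKMu)
open Pool.Agent.T6.H16.ME (hyp shiftS)
open Pool.Agent.TH216.MF (ratR LocS)
open Pool.Agent.Y231.N4 (serM OrigM zetaE0)
open Pool.Agent.Y229.RE (emb yv zv xv emb_l emb_r)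

section

variable {k : Type} [Field k] {n κ r : ℕ}

/-- the sum of the `c_j X ^ (W j)` with `π j = o` -/
noncomputable def part (π : Fin r → Option (Fin κ)) (W : Fin r → Fin (n + κ) → ℕ) (c : Fin r → k)
    (o : Option (Fin κ)) : MvPolynomial (Fin (n + κ)) k :=
  ∑ j, if π j = o then C (c j) * ∏ p, X p ^ W j p else 0

/-- the exponents of the monomials `x ^ w z ^ w'` of `Φ`, `y_i x ^ w z ^ w'` of `y_i q_i`, and
`y_i z_i` -/
def cayE (π : Fin r → Option (Fin κ)) (W : Fin r → Fin (n + κ) → ℕ) :
    Fin (r + κ) → Fin (n + (κ + κ)) → ℕ :=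
  Fin.append
    (fun j => Fin.append (fun i => W j (Fin.castAdd κ i))
      (Fin.append (fun i => if π j = some i then 1 else 0) (fun i => W j (Fin.natAdd n i))))
    (fun i => Fin.append (fun _ => 0) (Fin.append (Pi.single i 1) (Pi.single i 1)))

/-- the factors of the variables -/
def su (n : ℕ) (t : Fin κ → k) : Fin (n + (κ + κ)) → k :=
  Fin.append (fun _ => 1) (Fin.append t (fun _ => 1))

lemma su_ne {t : Fin κ → k} (ht : ∀ i, t i ≠ 0) (p) : su n t p ≠ 0 := by
  unfold su
  refine Fin.addCases (fun i => ?_) (fun i => ?_) p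
  · rw [Fin.append_left]
    exact one_ne_zero
  · rw [Fin.append_right]
    refine Fin.addCases (fun i => ?_) (fun i => ?_) i
    · rw [Fin.append_left]
      exact ht i
    · rw [Fin.append_right]
      exact one_ne_zero

lemma su_x (t : Fin κ → k) (i : Fin n) : su n t (xv κ i) = 1 := Fin.append_left _ _ i

lemma su_y (t : Fin κ → k) (i : Fin κ) : su n t (yv n i) = t i :=
  (Fin.append_right _ _ (Fin.castAdd κ i)).trans (Fin.append_left _ _ i)

lemma su_z (t : Fin κ → k) (i : Fin κ) : su n t (zv n i) = 1 :=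
  (Fin.append_right _ _ (Fin.natAdd κ i)).trans (Fin.append_right _ _ i)

lemma su_emb (t : Fin κ → k) (i : Fin (n + κ)) : su n t (emb i) = 1 := by
  refine Fin.addCases (fun i => ?_) (fun i => ?_) i
  · rw [emb_l, su_x]
  · rw [emb_r, su_z]

/-- products over the variables -/
lemma prod_all {M : Type} [CommMonoid M] (G : Fin (n + (κ + κ)) → M) :
    ∏ p, G p = (∏ i, G (xv κ i)) * ((∏ i, G (yv n i)) * ∏ i, G (zv n i)) := by
  rw [Fin.prod_univ_add, Fin.prod_univ_add]
  rfl

lemma prod_emb {M : Type} [CommMonoid M] (G : Fin (n + κ) → M) :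
    ∏ p, G p = (∏ i, G (Fin.castAdd κ i)) * ∏ i, G (Fin.natAdd n i) := Fin.prod_univ_add _

lemma cayE_x (π : Fin r → Option (Fin κ)) (W : Fin r → Fin (n + κ) → ℕ) (j : Fin r)
    (i : Fin n) : cayE π W (Fin.castAdd κ j) (xv κ i) = W j (Fin.castAdd κ i) := by
  unfold cayE
  rw [Fin.append_left]
  exact Fin.append_left _ _ i

lemma cayE_y (π : Fin r → Option (Fin κ)) (W : Fin r → Fin (n + κ) → ℕ) (j : Fin r)
    (i : Fin κ) : cayE π W (Fin.castAdd κ j) (yv n i) = if π j = some i then 1 else 0 := by
  unfold cayE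
  rw [Fin.append_left]
  exact (Fin.append_right _ _ (Fin.castAdd κ i)).trans (Fin.append_left _ _ i)

lemma cayE_z (π : Fin r → Option (Fin κ)) (W : Fin r → Fin (n + κ) → ℕ) (j : Fin r)
    (i : Fin κ) : cayE π W (Fin.castAdd κ j) (zv n i) = W j (Fin.natAdd n i) := by
  unfold cayE
  rw [Fin.append_left]
  exact (Fin.append_right _ _ (Fin.natAdd κ i)).trans (Fin.append_right _ _ i)

lemma cayE_x' (π : Fin r → Option (Fin κ)) (W : Fin r → Fin (n + κ) → ℕ) (l : Fin κ)
    (i : Fin n) : cayE π W (Fin.natAdd r l) (xv κ i) = 0 := by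
  unfold cayE
  rw [Fin.append_right]
  exact Fin.append_left _ _ i

lemma cayE_y' (π : Fin r → Option (Fin κ)) (W : Fin r → Fin (n + κ) → ℕ) (l : Fin κ)
    (i : Fin κ) : cayE π W (Fin.natAdd r l) (yv n i) = (Pi.single l 1 : Fin κ → ℕ) i := by
  unfold cayE
  rw [Fin.append_right]
  exact (Fin.append_right _ _ (Fin.castAdd κ i)).trans (Fin.append_left _ _ i)

lemma cayE_z' (π : Fin r → Option (Fin κ)) (W : Fin r → Fin (n + κ) → ℕ) (l : Fin κ)
    (i : Fin κ) : cayE π W (Fin.natAdd r l) (zv n i) = (Pi.single l 1 : Fin κ → ℕ) i := by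
  unfold cayE
  rw [Fin.append_right]
  exact (Fin.append_right _ _ (Fin.natAdd κ i)).trans (Fin.append_right _ _ i)

/-- the monomials -/
lemma mon_l (π : Fin r → Option (Fin κ)) (W : Fin r → Fin (n + κ) → ℕ) (j : Fin r) :
    (∏ p, (X p : MvPolynomial (Fin (n + (κ + κ))) k) ^ cayE π W (Fin.castAdd κ j) p) =
      (π j).elim 1 (fun i => X (yv n i)) * ∏ p, X (emb p) ^ W j p := by
  rw [prod_all, prod_emb]
  simp only [cayE_x, cayE_y, cayE_z, emb_l, emb_r]
  have h1 : (∏ i : Fin κ, (X (yv n i) : MvPolynomial (Fin (n + (κ + κ))) k) ^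
      (if π j = some i then 1 else 0)) = (π j).elim 1 (fun i => X (yv n i)) := by
    rcases h : π j with _ | i
    · simp
    · rw [Finset.prod_eq_single i]
      · simp
      · intro l _ hl
        rw [if_neg (fun h => hl (Option.some_injective _ h).symm), pow_zero]
      · intro h
        exact absurd (Finset.mem_univ _) h
  rw [h1]
  ring

lemma mon_r (π : Fin r → Option (Fin κ)) (W : Fin r → Fin (n + κ) → ℕ) (l : Fin κ) :
    (∏ p, (X p : MvPolynomial (Fin (n + (κ + κ))) k) ^ cayE π W (Fin.natAdd r l) p) =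
      X (yv n l) * X (zv n l) := by
  rw [prod_all]
  simp only [cayE_x', cayE_y', cayE_z', pow_zero, Finset.prod_const_one, one_mul]
  congr 1
  · rw [Finset.prod_eq_single l]
    · rw [Pi.single_eq_same, pow_one]
    · intro i _ hi
      rw [Pi.single_eq_of_ne hi, pow_zero]
    · intro h
      exact absurd (Finset.mem_univ _) h
  · rw [Finset.prod_eq_single l]
    · rw [Pi.single_eq_same, pow_one]
    · intro i _ hi
      rw [Pi.single_eq_of_ne hi, pow_zero]
    · intro h
      exact absurd (Finset.mem_univ _) h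

/-- **The Cayley polynomial of a tower, scaled.** -/
theorem scl_cay (π : Fin r → Option (Fin κ)) (W : Fin r → Fin (n + κ) → ℕ) (c : Fin r → k)
    (t : Fin κ → k) (ht : ∀ i, t i ≠ 0) (h0 : MvPolynomial (Fin (n + κ)) k) :
    scl (su n t) (su_ne ht) (cay (part π W c none + h0) fun i => part π W c (some i)) =
      spa (cayE π W) (Fin.append (fun j => c j * Tc t (π j)) t) + rename emb h0 := by
  have hren : ∀ p : MvPolynomial (Fin (n + κ)) k,
      scl (su n t) (su_ne ht) (rename emb p) = rename emb p :=
    fun p => scl_rename _ _ _ (su_emb t) p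
  have hpart : ∀ o, rename emb (part π W c o) = ∑ j, if π j = o then
      C (c j) * ∏ p, (X (emb p) : MvPolynomial (Fin (n + (κ + κ))) k) ^ W j p else 0 := by
    intro o
    unfold part
    rw [map_sum]
    refine Finset.sum_congr rfl fun j _ => ?_
    split_ifs
    · rw [map_mul, rename_C, map_prod]
      congr 1
      exact Finset.prod_congr rfl fun p _ => by rw [map_pow, rename_X]
    · exact map_zero _
  unfold cay
  rw [map_add, hren, map_sum, map_add (rename emb)]
  have h1 : ∀ i : Fin κ, scl (su n t) (su_ne ht) (X (yv n i) * (X (zv n i) -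
      rename emb (part π W c (some i)))) =
      C (t i) * (X (yv n i) * X (zv n i)) - ∑ j, if π j = some i then
        C (c j * t i) * (X (yv n i) * ∏ p, (X (emb p) : MvPolynomial (Fin (n + (κ + κ))) k) ^ W j p)
          else 0 := by
    intro i
    rw [map_mul, map_sub, hren, scl_X, scl_X, su_y, su_z, map_one, one_mul, hpart, mul_sub]
    congr 1
    · ring
    · rw [Finset.mul_sum]
      refine Finset.sum_congr rfl fun j _ => ?_
      split_ifs
      · rw [map_mul]
        ring
      · rw [mul_zero]
  rw [Finset.sum_congr rfl fun i _ => h1 i, Finset.sum_sub_distrib]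
  unfold spa
  rw [Fin.sum_univ_add]
  simp only [Fin.append_left, Fin.append_right, mon_l, mon_r]
  rw [hpart]
  have h2 : ∑ j, C (c j * Tc t (π j)) * ((π j).elim 1 (fun i => X (yv n i)) *
      ∏ p, (X (emb p) : MvPolynomial (Fin (n + (κ + κ))) k) ^ W j p) =
      (∑ j, if π j = none then
        C (c j) * ∏ p, (X (emb p) : MvPolynomial (Fin (n + (κ + κ))) k) ^ W j p else 0) -
      ∑ i, ∑ j, if π j = some i then
        C (c j * t i) * (X (yv n i) * ∏ p, (X (emb p) : MvPolynomial (Fin (n + (κ + κ))) k) ^ W j p)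
          else 0 := by
    rw [Finset.sum_comm, ← Finset.sum_sub_distrib]
    refine Finset.sum_congr rfl fun j _ => ?_
    rcases h : π j with _ | i
    · simp [Tc]
    · rw [if_neg (by simp), Finset.sum_eq_single i]
      · rw [if_pos rfl]
        simp only [Tc, Option.elim]
        rw [mul_neg, map_neg]
        ring
      · intro l _ hl
        rw [if_neg (fun h => hl (Option.some_injective _ h).symm)]
      · intro h
        exact absurd (Finset.mem_univ _) h
  rw [h2]
  ring

theorem tri_part {π : Fin r → Option (Fin κ)} {W : Fin r → Fin (n + κ) → ℕ}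
    (htri : ∀ j i l, π j = some i → i ≤ l → W j (Fin.natAdd n l) = 0) (c : Fin r → k) :
    Tri fun i => part π W c (some i) := by
  classical
  intro i l hl
  unfold part at hl
  have h1 := MvPolynomial.vars_sum_subset _ _ hl
  rw [Finset.mem_biUnion] at h1
  obtain ⟨j, -, h2⟩ := h1
  by_cases h : π j = some i
  · rw [if_pos h] at h2
    by_contra hcon
    rw [not_lt] at hcon
    have h0 := htri j i l h hcon
    have h3 := MvPolynomial.vars_mul _ _ h2
    rw [vars_C, Finset.empty_union] at h3
    have h4 := MvPolynomial.vars_prod _ h3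
    rw [Finset.mem_biUnion] at h4
    obtain ⟨p, -, h5⟩ := h4
    by_cases hp : p = Fin.natAdd n l
    · rw [hp, h0, pow_zero, vars_one] at h5
      exact absurd h5 (Finset.notMem_empty _)
    · have h6 := MvPolynomial.vars_pow _ _ h5
      rw [vars_X, Finset.mem_singleton] at h6
      exact hp h6.symm
  · rw [if_neg h, vars_0] at h2
    exact absurd h2 (Finset.notMem_empty _)

theorem cayE_inj {π : Fin r → Option (Fin κ)} {W : Fin r → Fin (n + κ) → ℕ}
    (hinj : ∀ j j', π j = π j' → W j = W j' → j = j')
    (htri : ∀ j i l, π j = some i → i ≤ l → W j (Fin.natAdd n l) = 0) :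
    Function.Injective (cayE π W) := by
  classical
  have hne : ∀ (j : Fin r) (l : Fin κ), cayE π W (Fin.castAdd κ j) ≠ cayE π W (Fin.natAdd r l) := by
    intro j l h
    have h1 := congrFun h (yv n l)
    rw [cayE_y, cayE_y', Pi.single_eq_same] at h1
    have h2 := congrFun h (zv n l)
    rw [cayE_z, cayE_z', Pi.single_eq_same] at h2
    by_cases h3 : π j = some l
    · rw [htri j l l h3 le_rfl] at h2
      exact absurd h2 zero_ne_one
    · rw [if_neg h3] at h1
      exact absurd h1 zero_ne_one
  intro a b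
  refine Fin.addCases (fun j => ?_) (fun l => ?_) a <;>
    refine Fin.addCases (fun j' => ?_) (fun l' => ?_) b
  · intro h
    have h1 : W j = W j' := by
      funext p
      refine Fin.addCases (fun i => ?_) (fun i => ?_) p
      · rw [← cayE_x π W j, h, cayE_x]
      · rw [← cayE_z π W j, h, cayE_z]
    have h2 : π j = π j' := by
      have h3 : ∀ i, (π j = some i ↔ π j' = some i) := by
        intro i
        have h4 := congrFun h (yv n i)
        rw [cayE_y, cayE_y] at h4
        by_cases h5 : π j = some i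
        · rw [if_pos h5] at h4
          refine ⟨fun _ => ?_, fun _ => h5⟩
          by_contra h6
          rw [if_neg h6] at h4
          exact one_ne_zero h4
        · rw [if_neg h5] at h4
          refine ⟨fun h6 => absurd h6 h5, fun h6 => ?_⟩
          rw [if_pos h6] at h4
          exact absurd h4.symm one_ne_zero
      exact Option.ext fun i => by
        simpa only [Option.mem_def] using h3 i
    rw [hinj j j' h2 h1]
  · exact fun h => absurd h (hne j l')
  · exact fun h => absurd h.symm (hne j' l)
  · intro h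
    have h1 := congrFun h (yv n l)
    rw [cayE_y', cayE_y', Pi.single_eq_same] at h1
    by_cases h2 : l = l'
    · rw [h2]
    · rw [Pi.single_eq_of_ne h2] at h1
      exact absurd h1 one_ne_zero

theorem cayE_ne {π : Fin r → Option (Fin κ)} {W : Fin r → Fin (n + κ) → ℕ}
    (h0 : ∀ j, π j = none → W j ≠ 0) (a : Fin (r + κ)) : cayE π W a ≠ 0 := by
  refine Fin.addCases (fun j => ?_) (fun l => ?_) a
  · intro h
    rcases h1 : π j with _ | i
    · apply h0 j h1
      funext p
      refine Fin.addCases (fun i => ?_) (fun i => ?_) p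
      · rw [← cayE_x π W j, h]
        rfl
      · rw [← cayE_z π W j, h]
        rfl
    · have h2 := congrFun h (yv n i)
      rw [cayE_y, if_pos h1] at h2
      exact absurd h2 one_ne_zero
  · intro h
    have h2 := congrFun h (yv n l)
    rw [cayE_y', Pi.single_eq_same] at h2
    exact absurd h2 one_ne_zero

end

end Pool.Agent.T6.H16.MR
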