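import Pool.Agent.T6.H16.MR.Pad
import Pool.Agent.T6.H16.MR.BF
import Pool.Agent.Y229.GL.Glo

set_option autoImplicit false

/-! The equivariant motivic monodromy conjecture for polynomials which are stably sparse. -/

namespace Pool.Agent.T6.H16.MR

open MvPolynomial
open Pool.Agent.H628R4.TP
open Pool.Agent.W428.MOT (EMeas LuMu InRat zetaE MKMu)
open Pool.Agent.W425.ND (spa)
open Pool.Agent.W426.SM (gord IsRay)
open Pool.Agent.T6.H16.ME (hyp shiftS)
open Pool.Agent.TH216.MF (ratR)
open Pool.Agent.Y231.N4 (serM)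

section

variable {k : Type} [Field k] [Algebra k ℂ] {n κ r m : ℕ}

/-- base change of an endomorphism -/
noncomputable def mapH (θ : MvPolynomial (Fin m) k →ₐ[k] MvPolynomial (Fin m) k) :
    MvPolynomial (Fin m) ℂ →ₐ[ℂ] MvPolynomial (Fin m) ℂ :=
  aeval fun i => MvPolynomial.map (algebraMap k ℂ) (θ (X i))

theorem mapH_map (θ : MvPolynomial (Fin m) k →ₐ[k] MvPolynomial (Fin m) k)
    (P : MvPolynomial (Fin m) k) : mapH θ (MvPolynomial.map (algebraMap k ℂ) P) =
      MvPolynomial.map (algebraMap k ℂ) (θ P) := by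
  have h : ((mapH θ : MvPolynomial (Fin m) ℂ →+* MvPolynomial (Fin m) ℂ).comp
      (MvPolynomial.map (algebraMap k ℂ))) = (MvPolynomial.map (algebraMap k ℂ)).comp
        (θ : MvPolynomial (Fin m) k →+* MvPolynomial (Fin m) k) := by
    refine MvPolynomial.ringHom_ext (fun a => ?_) fun i => ?_
    · rw [RingHom.comp_apply, RingHom.comp_apply, map_C]
      show mapH θ (C _) = MvPolynomial.map _ (θ (C a))
      rw [← MvPolynomial.algebraMap_eq, AlgHom.commutes, ← MvPolynomial.algebraMap_eq,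
        AlgHom.commutes, MvPolynomial.algebraMap_eq, MvPolynomial.algebraMap_eq, map_C]
    · rw [RingHom.comp_apply, RingHom.comp_apply, map_X]
      show mapH θ (X i) = MvPolynomial.map _ (θ (X i))
      unfold mapH
      rw [aeval_X]
  exact congrFun (congrArg DFunLike.coe h) P

theorem mapH_comp (θ θ' : MvPolynomial (Fin m) k →ₐ[k] MvPolynomial (Fin m) k)
    (h : ∀ p, θ (θ' p) = p) : (mapH θ).comp (mapH θ') = AlgHom.id ℂ _ := by
  refine MvPolynomial.algHom_ext fun i => ?_
  rw [AlgHom.comp_apply, AlgHom.id_apply]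
  have h1 : mapH θ' (X i) = MvPolynomial.map (algebraMap k ℂ) (θ' (X i)) := by
    unfold mapH
    rw [aeval_X]
  rw [h1, mapH_map, h, map_X]

/-- base change of an automorphism -/
noncomputable def mapA (θ : PAut k m) : PAut ℂ m :=
  AlgEquiv.ofAlgHom (mapH (θ : MvPolynomial (Fin m) k →ₐ[k] MvPolynomial (Fin m) k))
    (mapH (θ.symm : MvPolynomial (Fin m) k →ₐ[k] MvPolynomial (Fin m) k))
    (mapH_comp _ _ fun p => θ.apply_symm_apply p) (mapH_comp _ _ fun p => θ.symm_apply_apply p)

theorem mapA_map (θ : PAut k m) (P : MvPolynomial (Fin m) k) :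
    mapA θ (MvPolynomial.map (algebraMap k ℂ) P) = MvPolynomial.map (algebraMap k ℂ) (θ P) :=
  mapH_map _ P

theorem map_hyp (f : MvPolynomial (Fin n) k) (κ : ℕ) :
    MvPolynomial.map (algebraMap k ℂ) (hyp f κ) = hyp (MvPolynomial.map (algebraMap k ℂ) f) κ := by
  unfold hyp
  rw [map_add, map_rename, map_sum]
  congr 1
  exact Finset.sum_congr rfl fun i _ => by rw [map_mul, map_X, map_X]

theorem map_spa (v : Fin r → Fin m → ℕ) (c : Fin r → k) :
    MvPolynomial.map (algebraMap k ℂ) (spa v c) = spa v (fun j => algebraMap k ℂ (c j)) := by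
  unfold spa
  rw [map_sum]
  refine Finset.sum_congr rfl fun j _ => ?_
  rw [map_mul, map_C, map_prod]
  congr 1
  exact Finset.prod_congr rfl fun i _ => by rw [map_pow, map_X]

theorem deg_map (f : MvPolynomial (Fin n) k) :
    (MvPolynomial.map (algebraMap k ℂ) f).totalDegree = f.totalDegree := by
  unfold MvPolynomial.totalDegree
  rw [MvPolynomial.support_map_of_injective _ (algebraMap k ℂ).injective]

/-- one level -/
theorem level_one (f : MvPolynomial (Fin n) k) (hr : 2 ≤ r) {v : Fin r → Fin (n + (κ + κ)) → ℕ}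
    {c : Fin r → k} {θ : PAut k (n + (κ + κ))} (h : StSp f κ v c θ) :
    ∃ S : Finset (ℤ × ℤ),
      (∀ p ∈ S, p.1 + κ * p.2 < 0 ∧ 0 < p.2 ∧ ∀ b : Polynomial ℂ,
        IsBFunction (MvPolynomial.map (algebraMap k ℂ) f) b →
          b.eval (((p.1 + κ * p.2 : ℤ) : ℂ) / p.2) = 0) ∧
      ∀ (R : Type) [CommRing R] (y : Rˣ) (M : EMeas f R), M.L = (y : R) →
        (1 - PowerSeries.C ((y⁻¹ : Rˣ) : R) * PowerSeries.X) * serh M y κ ∈
          ratR y (S : Set (ℤ × ℤ)) := by
  obtain ⟨S, hS, hz⟩ := ind_glo hr v h.ind c h.ne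
  refine ⟨S, fun p hp => ?_, ?_⟩
  · obtain ⟨a, -, hg, rfl, hP⟩ := hS p hp
    have h1 := h.neg a hg
    refine ⟨?_, Int.natCast_pos.2 hg, fun b hb => ?_⟩
    · have h2 : ((κ * gord v a : ℕ) : ℤ) < ((∑ i, a i : ℕ) : ℤ) := by exact_mod_cast h1
      push_cast at h2 ⊢
      linarith
    · have h3 := bf_global (κ := κ) hb (mapA θ)
      rw [← map_hyp, mapA_map, h.eq, map_spa] at h3
      have h4 := hP _ h3
      rw [Polynomial.eval_comp, Polynomial.eval_add, Polynomial.eval_X, Polynomial.eval_C] at h4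
      rw [← h4]
      congr 1
      have h5 : ((gord v a : ℤ) : ℂ) ≠ 0 := by
        have : gord v a ≠ 0 := hg.ne'
        exact_mod_cast this
      push_cast at h5 ⊢
      field_simp
  · intro R _ y M hM
    have h1 := hz R y (MG M θ h.eq) hM
    rw [ser_MG] at h1
    exact h1

/-- **Stably sparse polynomials.** -/
theorem global (f : MvPolynomial (Fin n) k) (hf : f.totalDegree ≠ 0)
    {v : Fin r → Fin (n + (κ + κ)) → ℕ}
    {c : Fin r → k} {θ : PAut k (n + (κ + κ))} (h : StSp f κ v c θ) :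
    ∃ S : Finset (ℤ × ℤ),
      (∀ p ∈ S, p.1 < 0 ∧ 0 < p.2 ∧ ∀ b : Polynomial ℂ,
        IsBFunction (MvPolynomial.map (algebraMap k ℂ) f) b → b.eval ((p.1 : ℂ) / p.2) = 0) ∧
      ∀ (R : Type) [CommRing R] (y : Rˣ) (M : EMeas f R), M.L = (y : R) →
        serM M y ∈ ratR y (S : Set (ℤ × ℤ)) := by
  classical
  have hr : 0 < r := by
    by_contra hcon
    have h0 : r = 0 := by omega
    subst h0
    have h1 : θ (hyp f κ) = 0 := by
      rw [h.eq]
      unfold spa
      exact Finset.sum_empty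
    have h2 : hyp f κ = 0 := by
      have h3 := congrArg θ.symm h1
      rwa [θ.symm_apply_apply, map_zero] at h3
    have h3 := congrArg (aeval (Fin.addCases (motive := fun _ => MvPolynomial (Fin n) k)
      (fun i => X i) (fun _ => 0))) h2
    unfold hyp at h3
    rw [map_add, aeval_rename, map_sum, map_zero, Finset.sum_eq_zero, add_zero] at h3
    · have h4 : (Fin.addCases (motive := fun _ => MvPolynomial (Fin n) k)
          (fun i => X i) (fun _ => 0)) ∘ (Pool.Agent.Y229.RE.xv κ) = (X : Fin n → _) := by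
        funext i
        exact Fin.addCases_left (motive := fun _ => MvPolynomial (Fin n) k) i
      rw [h4, aeval_X_left_apply] at h3
      rw [h3] at hf
      exact hf totalDegree_zero
    · intro i _
      rw [map_mul, aeval_X]
      have h4 : Fin.addCases (motive := fun _ => MvPolynomial (Fin n) k)
          (fun i => X i) (fun _ => 0) (Pool.Agent.Y229.RE.yv n i) = 0 := by
        exact Fin.addCases_right (motive := fun _ => MvPolynomial (Fin n) k) (Fin.castAdd κ i)
      rw [h4, zero_mul]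
  have h1 := h.pad hr
  have h2 := h1.pad (by omega)
  obtain ⟨S1, hS1, hz1⟩ := level_one f (by omega) h1
  obtain ⟨S2, hS2, hz2⟩ := level_one f (by omega) h2
  refine ⟨insert (-1, 1) (S1.image (fun p => (p.1 + ((κ + 1 : ℕ) : ℤ) * p.2, p.2)) ∪
    S2.image (fun p => (p.1 + ((κ + 2 : ℕ) : ℤ) * p.2, p.2))), fun p hp => ?_, ?_⟩
  · rcases Finset.mem_insert.1 hp with rfl | hp
    · refine ⟨by norm_num, by norm_num, fun b hb => ?_⟩
      have h3 := Pool.Agent.Y229.GL.root_neg_one _ (by rw [deg_map]; exact hf) b hb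
      simpa using h3
    · rcases Finset.mem_union.1 hp with hp | hp
      · obtain ⟨q, hq, rfl⟩ := Finset.mem_image.1 hp
        exact hS1 q hq
      · obtain ⟨q, hq, rfl⟩ := Finset.mem_image.1 hp
        exact hS2 q hq
  · intro R _ y M hM
    have h3 := mem_of_two M y hM κ (S1 := (S1 : Set (ℤ × ℤ))) (S2 := (S2 : Set (ℤ × ℤ)))
      (fun p hp => (hS1 p hp).2.1) (fun p hp => (hS2 p hp).2.1) (hz1 R y M hM) (hz2 R y M hM)
    rw [ser_eq]
    convert h3 using 2
    rw [Finset.coe_insert, Finset.coe_union, Finset.coe_image, Finset.coe_image]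
    rfl

/-- **Stably sparse polynomials: the motivic zeta function.** -/
theorem global_zeta (f : MvPolynomial (Fin n) k) (hf : f.totalDegree ≠ 0)
    {v : Fin r → Fin (n + (κ + κ)) → ℕ}
    {c : Fin r → k} {θ : PAut k (n + (κ + κ))} (h : StSp f κ v c θ) :
    ∃ S : Finset (ℤ × ℤ),
      (∀ p ∈ S, p.1 < 0 ∧ 0 < p.2 ∧ ∀ b : Polynomial ℂ,
        IsBFunction (MvPolynomial.map (algebraMap k ℂ) f) b → b.eval ((p.1 : ℂ) / p.2) = 0) ∧
      InRat (LuMu f) S (zetaE f) := by
  have hkc : CharZero k := RingHom.charZero (algebraMap k ℂ)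
  obtain ⟨S, hS, hz⟩ := global f hf h
  refine ⟨S, hS, ?_⟩
  obtain ⟨M, hM, hs⟩ := Pool.Agent.Y231.N4.serM_zetaE f
  rw [← hs]
  exact hz _ _ M hM

end

end Pool.Agent.T6.H16.MR
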