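import Pool.Agent.T6.H16.MR.Tow
import Pool.Agent.TH216.LR.Lr7

set_option autoImplicit false

/-! The version at the origin. -/

namespace Pool.Agent.T6.H16.MR

section A

open MvPolynomial Pool.Agent.H628R4.TP Pool.Agent.W425.MM Pool.Agent.W425.GN
open Pool.Agent.W425.ND (spa)
open Pool.Agent.W426.SM (gord ford IsRay face)
open Pool.Agent.W425.SV (Kil1)
open Pool.Agent.W425.SM (Ind)
open Pool.Agent.TH216.MF (RelG KilU KRelJ RecJ nonD_of_ind ratR)
open Pool.Agent.W428.MOT (Pt Constr ratRing sp LuMu InRat zetaE EMeas JetE cbase jw jb)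
open Pool.Agent.Y231.N4
open Pool.Agent.T6.H16.ME (finNc')

variable {r N : ℕ}

/-- **Affinely independent exponents, at the origin: the series.** -/
theorem ind_orig {k : Type} [Field k] [Algebra k ℂ] (hr : 1 ≤ r) (v : Fin r → Fin N → ℕ)
    (hv : Ind v) (hv0 : ∀ j, v j ≠ 0) (c : Fin r → k) (hc : ∀ j, c j ≠ 0) :
    ∃ S : Finset (ℤ × ℤ),
      (∀ p ∈ S, ∃ a : Fin N → ℕ, IsRay v a ∧ 0 < gord v a ∧
        p = (-((∑ i, a i : ℕ) : ℤ), (gord v a : ℤ)) ∧
        ∀ P : Polynomial ℂ, IsLocalBFunction (spa v (fun j => algebraMap k ℂ (c j)))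
          ((Polynomial.X + 1) * P) → P.eval ((p.1 : ℂ) / p.2) = 0) ∧
      ∀ (R : Type) [CommRing R] (y : Rˣ) (M : EMeas (spa v c) R), M.L = (y : R) → OrigM M →
        (1 - PowerSeries.C ((y⁻¹ : Rˣ) : R) * PowerSeries.X) * serM M y ∈
          ratR y (S : Set (ℤ × ℤ)) := by
  classical
  have hr0 : 0 < r := by omega
  have hkc : CharZero k := RingHom.charZero (algebraMap k ℂ)
  set f : MvPolynomial (Fin N) ℂ := spa v (fun j => algebraMap k ℂ (c j)) with hf
  have hcC : ∀ j, algebraMap k ℂ (c j) ≠ 0 := fun j => (map_ne_zero _).2 (hc j)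
  have hnd : NonD v (fun j => algebraMap k ℂ (c j)) := nonD_of_ind hr0 v hv _ hcC
  have hA : ∀ P : Polynomial ℂ, IsLocalBFunction f ((Polynomial.X + 1) * P) →
      RelG v (Kil1 v) (KilU v fun j => -((Pool.Agent.TH216.LR.sD v Finset.univ j + 0 : ℕ) : ℤ))
        P := by
    intro P hP
    obtain ⟨P', h1, h2⟩ := Pool.Agent.TH216.LR.relL_of_local hr v hv hv0 _ hcC _ hP
    have h3 : (Polynomial.X + 1 : Polynomial ℂ) ≠ 0 := by
      intro h
      have := congrArg (Polynomial.eval 0) h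
      simp at this
    rw [mul_left_cancel₀ h3 h1]
    exact h2
  obtain ⟨S, hS, hz1⟩ := finNc' v hr0
    (fun σ => ∃ P, IsLocalBFunction f ((Polynomial.X + 1) * P) ∧ P.eval (-(σ : ℂ)) ≠ 0) (by
      rintro q hq e he T0 hT0 σ ⟨P, hP, hne⟩ hlog
      refine Pool.Agent.TH216.LR.recJ_loc hr0 q hq v P Finset.univ Finset.univ
        (Finset.Subset.refl _) 0 (hA P hP) e he T0 hT0 ?_
      have h4 : ((-Real.log ‖T0‖ / Real.log q : ℝ) : ℂ) = -(σ : ℂ) := by
        rw [neg_div, hlog]
        push_cast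
        rfl
      rw [h4]
      exact hne)
  have hsp : ∀ {K : Type} [Field K] (c' : Fin r → K), spa v c' = sp 0 v c' 1 := by
    intro K _ c'
    unfold sp spa
    simp
  refine ⟨S, fun p hp => ?_, ?_⟩
  · obtain ⟨a, ha, hg, hn, rfl⟩ := hS p hp
    refine ⟨a, ha, hg, rfl, fun P hP => ?_⟩
    by_contra hne
    apply hn
    refine ⟨P, hP, ?_⟩
    have e : -((((∑ i, a i : ℕ) : ℚ) / gord v a : ℚ) : ℂ) =
        ((-((∑ i, a i : ℕ) : ℤ) : ℤ) : ℂ) / ((gord v a : ℤ) : ℂ) := by
      push_cast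
      ring
    rw [e]
    exact hne
  · rw [hsp]
    intro R _ y M hML hO
    have hG : Pool.Agent.W425.MM.Mot.NonG v c :=
      nonG_of_nonD _ _ (nonD_ext (k := k) (L := AlgebraicClosure k) _ _ hnd)
    exact hz1 k c (fun u _ z h1 h2 => hG u z h1 h2) hc R y M hML hO

end A

section B

open MvPolynomial Pool.Agent.H628R4.TP Pool.Agent.W425.SG
open Pool.Agent.T6.H16.ME (hyp)

/-- a polynomial unit at the origin is a unit -/
theorem local_of_unitEq {M : ℕ} {F : MvPolynomial (Fin M) ℂ} {b : Polynomial ℂ}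
    (h : UnitEq True F b) : IsLocalBFunction F b := by
  classical
  obtain ⟨a, P, h1, -, hP⟩ := h
  have hu : IsUnit (a : MvPowerSeries (Fin M) ℂ) := by
    rw [MvPowerSeries.isUnit_iff_constantCoeff,
      ← MvPowerSeries.coeff_zero_eq_constantCoeff_apply, MvPolynomial.coeff_coe,
      ← MvPolynomial.constantCoeff_eq, h1]
    exact isUnit_one
  obtain ⟨w, hw⟩ := hu
  have e := P.support.equivFin
  refine ⟨P.support.card, fun i => (e.symm i : ℕ), fun _ => ((w⁻¹ : (MvPowerSeries (Fin M) ℂ)ˣ) :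
    MvPowerSeries (Fin M) ℂ), fun i => P (e.symm i), fun s => ?_⟩
  have h2 := congrArg (fun p : MvPolynomial (Fin M) ℂ => (p : MvPowerSeries (Fin M) ℂ)) (hP s)
  simp only [MvPolynomial.coe_mul, MvPolynomial.coe_C] at h2
  rw [← hw] at h2
  have h3 : ∀ i : Fin P.support.card, MvPowerSeries.C (((s : ℂ)) ^ ((e.symm i : P.support) : ℕ)) *
      (((w⁻¹ : (MvPowerSeries (Fin M) ℂ)ˣ) : MvPowerSeries (Fin M) ℂ) *
        (((P (e.symm i) : Module.End ℂ (MvPolynomial (Fin M) ℂ)) (F ^ (s + 1)) :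
          MvPolynomial (Fin M) ℂ) : MvPowerSeries (Fin M) ℂ)) =
      ((w⁻¹ : (MvPowerSeries (Fin M) ℂ)ˣ) : MvPowerSeries (Fin M) ℂ) *
      ((((s : ℂ) ^ ((e.symm i : P.support) : ℕ)) • (P (e.symm i) : Module.End ℂ
        (MvPolynomial (Fin M) ℂ)) (F ^ (s + 1)) : MvPolynomial (Fin M) ℂ) :
          MvPowerSeries (Fin M) ℂ) := by
    intro i
    rw [MvPolynomial.coe_smul, MvPowerSeries.smul_eq_C_mul]
    ring
  rw [Finset.sum_congr rfl fun i _ => h3 i, ← Finset.mul_sum]
  have h4 : ∑ i : Fin P.support.card, ((((s : ℂ) ^ ((e.symm i : P.support) : ℕ)) •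
      (P (e.symm i) : Module.End ℂ (MvPolynomial (Fin M) ℂ)) (F ^ (s + 1)) :
        MvPolynomial (Fin M) ℂ) : MvPowerSeries (Fin M) ℂ) =
      ((P.sum fun m Q => ((s : ℂ) ^ m) • (Q : Module.End ℂ (MvPolynomial (Fin M) ℂ))
        (F ^ (s + 1)) : MvPolynomial (Fin M) ℂ) : MvPowerSeries (Fin M) ℂ) := by
    rw [Equiv.sum_comp e.symm (fun m : P.support => ((((s : ℂ) ^ (m : ℕ)) •
      (P (m : ℕ) : Module.End ℂ (MvPolynomial (Fin M) ℂ)) (F ^ (s + 1)) :
        MvPolynomial (Fin M) ℂ) : MvPowerSeries (Fin M) ℂ)),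
      Finset.sum_coe_sort P.support (fun m => ((((s : ℂ) ^ (m : ℕ)) •
      (P (m : ℕ) : Module.End ℂ (MvPolynomial (Fin M) ℂ)) (F ^ (s + 1)) :
        MvPolynomial (Fin M) ℂ) : MvPowerSeries (Fin M) ℂ)), Finsupp.sum]
    rw [← MvPolynomial.coeToMvPowerSeries.ringHom_apply, map_sum]
    rfl
  rw [h4, ← h2]
  have h5 : ((w⁻¹ : (MvPowerSeries (Fin M) ℂ)ˣ) : MvPowerSeries (Fin M) ℂ) *
      (MvPowerSeries.C (b.eval (s : ℂ)) * (w : MvPowerSeries (Fin M) ℂ) *
        ((F ^ s : MvPolynomial (Fin M) ℂ) : MvPowerSeries (Fin M) ℂ)) =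
      (((w⁻¹ : (MvPowerSeries (Fin M) ℂ)ˣ) : MvPowerSeries (Fin M) ℂ) *
        (w : MvPowerSeries (Fin M) ℂ)) * (MvPowerSeries.C (b.eval (s : ℂ)) *
        ((F ^ s : MvPolynomial (Fin M) ℂ) : MvPowerSeries (Fin M) ℂ)) := by ring
  rw [h5, Units.inv_mul, one_mul]

/-- **The functional equation of `G` at the origin.** -/
theorem bf_local {n κ : ℕ} {f : MvPolynomial (Fin n) ℂ} (hf0 : f ≠ 0)
    (hf : constantCoeff f = 0) {b : Polynomial ℂ} (hb : IsLocalBFunction f b)
    (θ : MvPolynomial (Fin (n + (κ + κ))) ℂ ≃ₐ[ℂ] MvPolynomial (Fin (n + (κ + κ))) ℂ)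
    (h0 : ∀ i, constantCoeff (θ (X i)) = 0) :
    b.eval (-1) = 0 ∧ IsLocalBFunction (θ (hyp f κ))
      ((Polynomial.X + 1) * b.comp (Polynomial.X + Polynomial.C (κ : ℂ))) := by
  obtain ⟨h1, h2⟩ := Pool.Agent.Y229.RE.unitEq_of_local hf0 hf hb
  refine ⟨h1, local_of_unitEq (unitEq_auto θ True (fun _ => h0) ?_)⟩
  exact Pool.Agent.Y229.RE.unitEq_stab' True f b h2 κ

end B

section C

open MvPolynomial
open Pool.Agent.H628R4.TP
open Pool.Agent.W428.MOT
open Pool.Agent.W425.ND (spa)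
open Pool.Agent.W425.SM (Ind)
open Pool.Agent.W426.SM (gord IsRay)
open Pool.Agent.T6.H16.ME (hyp shiftS)
open Pool.Agent.TH216.MF (ratR)
open Pool.Agent.Y231.N4 (serM OrigM zetaE0)
open Pool.Agent.Y229.RE (emb yv zv xv emb_l emb_r)

variable {k : Type} [Field k] {n κ r m : ℕ}

/-- `θ` fixes the origin -/
def Fix (θ : PAut k m) : Prop := ∀ i, constantCoeff (θ (X i)) = 0

theorem Fix.const {θ : PAut k m} (h : Fix θ) (p : MvPolynomial (Fin m) k) :
    constantCoeff (θ p) = constantCoeff p := by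
  have h3 : ((constantCoeff : MvPolynomial (Fin m) k →+* k).comp
      (θ : MvPolynomial (Fin m) k →+* MvPolynomial (Fin m) k)) = constantCoeff := by
    refine MvPolynomial.ringHom_ext (fun c => ?_) fun i => ?_
    · have h4 : θ (C c) = C c := by
        rw [← MvPolynomial.algebraMap_eq, AlgEquiv.commutes]
      rw [RingHom.comp_apply]
      show constantCoeff (θ (C c)) = _
      rw [h4]
    · rw [RingHom.comp_apply, constantCoeff_X]
      exact h i
  exact congrFun (congrArg DFunLike.coe h3) p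

theorem Fix.symm {θ : PAut k m} (h : Fix θ) : Fix θ.symm := by
  intro i
  rw [← h.const, θ.apply_symm_apply, constantCoeff_X]

theorem aeval_zero_pt (p : MvPolynomial (Fin m) k) :
    aeval (0 : Pt k (Fin m)) p = algebraMap k _ (constantCoeff p) := by
  have h1 : (0 : Pt k (Fin m)) = fun _ => 0 := rfl
  rw [h1, aeval_zero']

theorem origM_MG {R : Type} [CommRing R] {f : MvPolynomial (Fin n) k} {M : EMeas f R}
    (hM : OrigM M) {G : MvPolynomial (Fin (n + (κ + κ))) k} (θ : PAut k (n + (κ + κ)))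
    (hG : θ (hyp f κ) = G) (h0 : Fix θ) : OrigM (MG M θ hG) := by
  intro ι _ S ρ d β hS hne
  refine hM _ _ _ _ _ (valid_gr (constr_Cs θ) (base_theta θ hG) hS) ?_
  rintro z ⟨h1, h2, h3⟩ h4
  apply hne _ h1
  set b := cbase β (fun i => z (Sum.inl i)) with hb
  have h5 : ∀ j, aeval b (θ (X j)) = 0 := by
    refine all3 (fun i => ?_) (fun i => (h2 i).1) (fun i => (h2 i).2)
    have h6 := congrFun h4 i
    have h7 : cbase (grB n ι) z i = z (Sum.inr i) := rfl
    rw [h7, h3 i] at h6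
    exact h6
  funext j
  have h6 := aeval_theta θ b (θ.symm (X j))
  rw [θ.apply_symm_apply, aeval_X] at h6
  rw [h6]
  have h7 : (fun j => aeval b (θ (X j))) = (0 : Pt k (Fin (n + (κ + κ)))) := funext h5
  rw [h7, aeval_zero_pt, h0.symm j, map_zero]
  rfl

theorem fix_pad {θ : PAut k (n + (κ + κ))} (h : Fix θ) : Fix (padA θ) := by
  intro i
  obtain ⟨p, rfl⟩ := (ee n κ).surjective i
  rcases p with p | j
  · have h1 : (X (ee n κ (Sum.inl p)) : MvPolynomial (Fin (n + ((κ + 1) + (κ + 1)))) k) =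
        rename (em n κ) (X p) := by rw [rename_X, ee_l]
    rw [h1, padA_em, constantCoeff_rename, h p]
  · rw [padA_r, constantCoeff_X]

theorem fix_map [Algebra k ℂ] {θ : PAut k m} (h : Fix θ) : Fix (mapA θ) := by
  intro i
  have h1 := mapA_map θ (X i)
  rw [map_X] at h1
  rw [h1, constantCoeff_map, h i, map_zero]

theorem const_spa (v : Fin r → Fin m → ℕ) (c : Fin r → k) (hv : Function.Injective v)
    (hc : ∀ j, c j ≠ 0) (h : constantCoeff (spa v c) = 0) (j : Fin r) : v j ≠ 0 := by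
  intro h0
  have h1 : constantCoeff (spa v c) = c j := by
    unfold spa
    rw [map_sum, Finset.sum_eq_single j]
    · rw [h0]
      simp
    · intro l _ hl
      rw [map_mul, map_prod]
      have h2 : ∃ i, v l i ≠ 0 := by
        by_contra hcon
        push Not at hcon
        apply hl
        apply hv
        rw [h0]
        exact funext hcon
      obtain ⟨i, hi⟩ := h2
      rw [Finset.prod_eq_zero (Finset.mem_univ i), mul_zero]
      rw [map_pow, constantCoeff_X, zero_pow hi]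
    · intro hj
      exact absurd (Finset.mem_univ _) hj
  rw [h1] at h
  exact hc j h

theorem const_hyp (f : MvPolynomial (Fin n) k) (κ : ℕ) :
    constantCoeff (hyp f κ) = constantCoeff f := by
  unfold hyp
  rw [map_add, constantCoeff_rename, map_sum, Finset.sum_eq_zero, add_zero]
  intro i _
  rw [map_mul, constantCoeff_X, zero_mul]

theorem ind_inj {v : Fin r → Fin m → ℕ} (hv : Ind v) : Function.Injective v := by
  intro i j h
  refine hv.injective ?_
  simp only [h]

/-- one level -/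
theorem level_loc [Algebra k ℂ] (f : MvPolynomial (Fin n) k) (hf0 : f ≠ 0)
    (hf : constantCoeff f = 0) (hr : 1 ≤ r)
    {v : Fin r → Fin (n + (κ + κ)) → ℕ}
    {c : Fin r → k} {θ : PAut k (n + (κ + κ))} (h : StSp f κ v c θ) (h0 : Fix θ) :
    ∃ S : Finset (ℤ × ℤ),
      (∀ p ∈ S, p.1 + κ * p.2 < 0 ∧ 0 < p.2 ∧ ∀ b : Polynomial ℂ,
        IsLocalBFunction (MvPolynomial.map (algebraMap k ℂ) f) b →
          b.eval (((p.1 + κ * p.2 : ℤ) : ℂ) / p.2) = 0) ∧
      ∀ (R : Type) [CommRing R] (y : Rˣ) (M : EMeas f R), M.L = (y : R) → OrigM M →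
        (1 - PowerSeries.C ((y⁻¹ : Rˣ) : R) * PowerSeries.X) * serh M y κ ∈
          ratR y (S : Set (ℤ × ℤ)) := by
  have hv0 : ∀ j, v j ≠ 0 := by
    refine const_spa v c (ind_inj h.ind) h.ne ?_
    rw [← h.eq, h0.const, const_hyp, hf]
  obtain ⟨S, hS, hz⟩ := ind_orig hr v h.ind hv0 c h.ne
  refine ⟨S, fun p hp => ?_, ?_⟩
  · obtain ⟨a, -, hg, rfl, hP⟩ := hS p hp
    have h1 := h.neg a hg
    refine ⟨?_, Int.natCast_pos.2 hg, fun b hb => ?_⟩
    · have h2 : ((κ * gord v a : ℕ) : ℤ) < ((∑ i, a i : ℕ) : ℤ) := by exact_mod_cast h1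
      push_cast at h2 ⊢
      linarith
    · have h3 := (bf_local (κ := κ) ((MvPolynomial.map_injective _
        (algebraMap k ℂ).injective).ne_iff' (map_zero _) |>.2 hf0)
        (by rw [constantCoeff_map, hf, map_zero]) hb (mapA θ) (fix_map h0)).2
      rw [← map_hyp, mapA_map, h.eq, map_spa] at h3
      have h4 := hP _ h3
      rw [Polynomial.eval_comp, Polynomial.eval_add, Polynomial.eval_X, Polynomial.eval_C] at h4
      rw [← h4]
      congr 1
      have h5 : ((gord v a : ℤ) : ℂ) ≠ 0 := by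
        have : gord v a ≠ 0 := hg.ne'
        exact_mod_cast this
      push_cast at h5 ⊢
      field_simp
  · intro R _ y M hM hO
    have h1 := hz R y (MG M θ h.eq) hM (origM_MG hO θ h.eq h0)
    rw [ser_MG] at h1
    exact h1

/-- `r > 0` -/
theorem StSp.pos {f : MvPolynomial (Fin n) k} (hf : f ≠ 0)
    {v : Fin r → Fin (n + (κ + κ)) → ℕ}
    {c : Fin r → k} {θ : PAut k (n + (κ + κ))} (h : StSp f κ v c θ) : 0 < r := by
  by_contra hcon
  have h0 : r = 0 := by omega
  subst h0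
  have h1 : θ (hyp f κ) = 0 := by
    rw [h.eq]
    unfold spa
    exact Finset.sum_empty
  have h2 : hyp f κ = 0 := by
    have h3 := congrArg θ.symm h1
    rwa [θ.symm_apply_apply, map_zero] at h3
  have h3 := congrArg (aeval (Fin.addCases (motive := fun _ => MvPolynomial (Fin n) k)
    (fun i => X i) (fun _ => 0))) h2
  unfold hyp at h3
  rw [map_add, aeval_rename, map_sum, map_zero, Finset.sum_eq_zero, add_zero] at h3
  · have h4 : (Fin.addCases (motive := fun _ => MvPolynomial (Fin n) k)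
        (fun i => X i) (fun _ => 0)) ∘ (Pool.Agent.Y229.RE.xv κ) = (X : Fin n → _) := by
      funext i
      exact Fin.addCases_left (motive := fun _ => MvPolynomial (Fin n) k) i
    rw [h4, aeval_X_left_apply] at h3
    exact hf h3
  · intro i _
    rw [map_mul, aeval_X]
    have h4 : Fin.addCases (motive := fun _ => MvPolynomial (Fin n) k)
        (fun i => X i) (fun _ => 0) (Pool.Agent.Y229.RE.yv n i) = 0 := by
      exact Fin.addCases_right (motive := fun _ => MvPolynomial (Fin n) k) (Fin.castAdd κ i)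
    rw [h4, zero_mul]

/-- **Stably sparse polynomials, at the origin.** -/
theorem local_zeta [Algebra k ℂ] (f : MvPolynomial (Fin n) k) (hf0 : f ≠ 0)
    (hf : constantCoeff f = 0)
    {v : Fin r → Fin (n + (κ + κ)) → ℕ}
    {c : Fin r → k} {θ : PAut k (n + (κ + κ))} (h : StSp f κ v c θ) (h0 : Fix θ) :
    ∃ S : Finset (ℤ × ℤ),
      (∀ p ∈ S, p.1 < 0 ∧ 0 < p.2 ∧ ∀ b : Polynomial ℂ,
        IsLocalBFunction (MvPolynomial.map (algebraMap k ℂ) f) b →
          b.eval ((p.1 : ℂ) / p.2) = 0) ∧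
      InRat (LuMu (0 : MvPolynomial (Fin 0) k)) S (zetaE0 f) := by
  classical
  have hkc : CharZero k := RingHom.charZero (algebraMap k ℂ)
  have hr : 0 < r := h.pos hf0
  have h1 := h.pad hr
  have h2 := h1.pad (by omega)
  obtain ⟨S1, hS1, hz1⟩ := level_loc f hf0 hf (by omega) h1 (fix_pad h0)
  obtain ⟨S2, hS2, hz2⟩ := level_loc f hf0 hf (by omega) h2 (fix_pad (fix_pad h0))
  refine ⟨insert (-1, 1) (S1.image (fun p => (p.1 + ((κ + 1 : ℕ) : ℤ) * p.2, p.2)) ∪
    S2.image (fun p => (p.1 + ((κ + 2 : ℕ) : ℤ) * p.2, p.2))), fun p hp => ?_, ?_⟩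
  · rcases Finset.mem_insert.1 hp with rfl | hp
    · refine ⟨by norm_num, by norm_num, fun b hb => ?_⟩
      have h3 := (Pool.Agent.Y229.RE.unitEq_of_local ((MvPolynomial.map_injective _
        (algebraMap k ℂ).injective).ne_iff' (map_zero _) |>.2 hf0)
        (by rw [constantCoeff_map, hf, map_zero]) hb).1
      simpa using h3
    · rcases Finset.mem_union.1 hp with hp | hp
      · obtain ⟨q, hq, rfl⟩ := Finset.mem_image.1 hp
        exact hS1 q hq
      · obtain ⟨q, hq, rfl⟩ := Finset.mem_image.1 hp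
        exact hS2 q hq
  · obtain ⟨M, hO, hM, hs⟩ := Pool.Agent.Y231.N4.serM_zetaE0 f
    rw [← hs]
    have h3 := mem_of_two M _ hM κ (S1 := (S1 : Set (ℤ × ℤ))) (S2 := (S2 : Set (ℤ × ℤ)))
      (fun p hp => (hS1 p hp).2.1) (fun p hp => (hS2 p hp).2.1) (hz1 _ _ M hM hO)
      (hz2 _ _ M hM hO)
    rw [ser_eq]
    unfold InRat
    have h4 : ((insert (-1, 1) (S1.image (fun p => (p.1 + ((κ + 1 : ℕ) : ℤ) * p.2, p.2)) ∪
        S2.image (fun p => (p.1 + ((κ + 2 : ℕ) : ℤ) * p.2, p.2))) : Finset (ℤ × ℤ)) :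
          Set (ℤ × ℤ)) = insert (-1, 1) (shiftS (κ + 1) (S1 : Set (ℤ × ℤ)) ∪
            shiftS (κ + 2) (S2 : Set (ℤ × ℤ))) := by
      rw [Finset.coe_insert, Finset.coe_union, Finset.coe_image, Finset.coe_image]
      rfl
    rw [h4]
    exact h3

/-! ### Towers -/

/-- the cofactors vanish at the origin -/
lemma cof_zero {N : ℕ} {q : Fin κ → MvPolynomial (Fin (N + κ)) k} (hq : Tri q)
    (hq0 : ∀ i, constantCoeff (q i) = 0) {Φ : MvPolynomial (Fin (N + κ)) k}
    (hlin : ∀ j : Fin κ, coeff (Finsupp.single (Fin.natAdd N j) 1) Φ = 0)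
    {f : MvPolynomial (Fin N) k} {c : Fin κ → MvPolynomial (Fin (N + κ)) k}
    (hc : Φ = rename (Fin.castAdd κ) f + ∑ i, c i * (X (Fin.natAdd N i) - q i)) (i : Fin κ) :
    constantCoeff (c i) = 0 := by
  classical
  have hcm : ∀ (p : MvPolynomial (Fin (N + κ)) k) (w : MvPolynomial (Fin (N + κ)) k) (j : Fin κ),
      constantCoeff w = 0 → coeff (Finsupp.single (Fin.natAdd N j) 1) (p * w) =
        constantCoeff p * coeff (Finsupp.single (Fin.natAdd N j) 1) w := by
    intro p w j hw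
    rw [constantCoeff_eq] at hw
    rw [coeff_mul, Finsupp.antidiagonal_single, Finset.sum_map]
    simp [Finset.Nat.antidiagonal_succ, hw, constantCoeff_eq]
  have hq1 : ∀ l j : Fin κ, l ≤ j → coeff (Finsupp.single (Fin.natAdd N j) 1) (q l) = 0 := by
    intro l j hlj
    by_contra hne
    have h1 : Finsupp.single (Fin.natAdd N j) 1 ∈ (q l).support := by
      rwa [mem_support_iff]
    have h2 : Fin.natAdd N j ∈ (q l).vars := by
      rw [mem_vars_iff_mem_support]
      exact ⟨_, h1, by simp⟩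
    exact absurd (hq l j h2) (not_lt.2 hlj)
  have key : ∀ j : Fin κ, constantCoeff (c j) + ∑ l ∈ Finset.Ioi j, constantCoeff (c l) *
      (- coeff (Finsupp.single (Fin.natAdd N j) 1) (q l)) = 0 := by
    intro j
    have h1 := congrArg (coeff (Finsupp.single (Fin.natAdd N j) 1)) hc
    rw [hlin j, coeff_add, coeff_sum] at h1
    have h2 : coeff (Finsupp.single (Fin.natAdd N j) 1) (rename (Fin.castAdd κ) f) = 0 := by
      refine coeff_rename_eq_zero _ _ _ fun u hu => ?_
      exfalso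
      have h3 := DFunLike.congr_fun hu (Fin.natAdd N j)
      rw [Finsupp.mapDomain_of_notMem_range, Finsupp.single_eq_same] at h3
      · exact zero_ne_one h3
      · rintro ⟨i, hi⟩
        have := congrArg Fin.val hi
        simp at this
        omega
    rw [h2, zero_add] at h1
    have h3 : ∀ l : Fin κ, coeff (Finsupp.single (Fin.natAdd N j) 1)
        (c l * (X (Fin.natAdd N l) - q l)) = constantCoeff (c l) *
          ((if l = j then 1 else 0) - coeff (Finsupp.single (Fin.natAdd N j) 1) (q l)) := by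
      intro l
      rw [hcm _ _ _ (by rw [map_sub, hq0, constantCoeff_X, sub_zero]), coeff_sub, coeff_X]
      congr 2
      by_cases hl : l = j
      · rw [hl, if_pos rfl, if_pos rfl]
      · rw [if_neg hl, if_neg]
        intro h
        have h4 := (Finsupp.single_left_inj one_ne_zero).1 h
        apply hl
        have := congrArg Fin.val h4
        simp at this
        exact Fin.ext this
    simp only [h3] at h1
    rw [← Finset.sum_filter_add_sum_filter_not Finset.univ (fun l => j < l)] at h1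
    have h4 : (Finset.univ.filter fun l => j < l) = Finset.Ioi j := by
      ext l
      simp
    have h5 : ∑ l ∈ Finset.univ.filter (fun l => ¬ j < l), constantCoeff (c l) *
        ((if l = j then 1 else 0) - coeff (Finsupp.single (Fin.natAdd N j) 1) (q l)) =
        constantCoeff (c j) := by
      rw [Finset.sum_eq_single j]
      · rw [if_pos rfl, hq1 j j le_rfl, sub_zero, mul_one]
      · intro l hl hlj
        rw [Finset.mem_filter] at hl
        rw [if_neg hlj, hq1 l j (not_lt.1 hl.2), sub_zero, mul_zero]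
      · intro h
        exact absurd (by simp) h
    rw [h4, h5] at h1
    rw [add_comm]
    refine Eq.trans ?_ h1.symm
    congr 1
    refine Finset.sum_congr rfl fun l hl => ?_
    rw [if_neg (ne_of_gt (Finset.mem_Ioi.1 hl)), zero_sub]
  -- downward induction
  have h6 : ∀ d : ℕ, ∀ j : Fin κ, κ - (j : ℕ) ≤ d → constantCoeff (c j) = 0 := by
    intro d
    induction d with
    | zero =>
      intro j hj
      have := j.2
      omega
    | succ d ih =>
      intro j hj
      have h7 := key j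
      rw [Finset.sum_eq_zero, add_zero] at h7
      · exact h7
      · intro l hl
        rw [Finset.mem_Ioi] at hl
        have hl' : (j : ℕ) < l := hl
        rw [ih l (by omega), zero_mul]
  exact h6 κ i (Nat.sub_le _ _)

lemma fix_thA {N : ℕ} {c q : Fin κ → MvPolynomial (Fin (N + κ)) k} (hq : Tri q)
    (hq0 : ∀ i, constantCoeff (q i) = 0) (hc0 : ∀ i, constantCoeff (c i) = 0) :
    Fix (thA (c := c) hq) := by
  refine all3 (fun i => ?_) (fun i => ?_) (fun i => ?_)
  · show constantCoeff (thH c q (X (xv κ i))) = 0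
    rw [thH_x, constantCoeff_X]
  · show constantCoeff (thH c q (X (yv N i))) = 0
    rw [thH_y, map_add, constantCoeff_X, constantCoeff_rename, hc0, add_zero]
  · show constantCoeff (thH c q (X (zv N i))) = 0
    rw [thH_z, map_sub, constantCoeff_X, constantCoeff_rename, hq0, sub_zero]

/-- **Towers are stably sparse, at the origin.** -/
theorem tow_loc {N : ℕ} {Φ : MvPolynomial (Fin (N + κ)) k}
    {q : Fin κ → MvPolynomial (Fin (N + κ)) k} (hq : Tri q)
    (hq0 : ∀ i, constantCoeff (q i) = 0)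
    (hlin : ∀ j : Fin κ, coeff (Finsupp.single (Fin.natAdd N j) 1) Φ = 0)
    {g : Fin κ → MvPolynomial (Fin N) k} (hg : ∀ i, g i = sb g (q i)) (hf : sb g Φ ≠ 0)
    {v : Fin r → Fin (N + (κ + κ)) → ℕ} {c : Fin r → k} (hv : Ind v) (hc : ∀ j, c j ≠ 0)
    (h : cay Φ q = spa v c) :
    ∃ θ : PAut k (N + (κ + κ)), StSp (sb g Φ) κ v c θ ∧ Fix θ := by
  obtain ⟨e, he⟩ := tow_cof hq hg Φ
  exact ⟨thA (c := e) hq, ⟨hv, hc, (thA_hyp hq he).trans h,
    fun a ha => tow_neg hq hg hf h a ha⟩, fix_thA hq hq0 (cof_zero hq hq0 hlin he)⟩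

end C

end Pool.Agent.T6.H16.MR
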