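import Pool.Agent.T6.H16.ME.T1
import Pool.Agent.TH216.MF.MotL

set_option autoImplicit false

/-! The equivariant motivic zeta function over `X_s` for sparse polynomials, with the denominator
`1 - 𝕃⁻¹ T` separated. -/

namespace Pool.Agent.T6.H16.MR

section B

open Pool.Agent.TH216.MF
open MvPolynomial
open Pool.Agent.W428.MOT Pool.Agent.W749.MT Pool.Agent.W749.ME Pool.Agent.W425.MM
open Pool.Agent.W425.MM.Mot
open Pool.Agent.W375.MG (Good GB0 GB1 constr_W constr_GB1 zetaG)
open Pool.Agent.TH216.MC (b0_empty b0_rel b1_rel pos_of_ray ex_classes ford_eq cser_zero eSumP HB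
  hb_ind)
open Pool.Agent.W426.SM (gord ford IsRay face)
open Pool.Agent.W63.MTFin (mapMeas geo_sum L_mul ev C_mem X_mem)
open Pool.Agent.Y231.N4 Pool.Agent.Y228.GN
open Pool.Agent.T6.H16.ME (inRat_J')

/-- Equivariant motivic zeta functions of a nondegenerate polynomial: only the rays which are not
bad. -/
theorem efin' {n r : ℕ} (m : Fin r → Fin n → ℕ) (hr0 : 0 < r) (Bad : ℚ → Prop)
    (hB : HB m Bad) :
    ∃ S : Finset (ℤ × ℤ),
      (∀ p ∈ S, ∃ a : Fin n → ℕ, IsRay m a ∧ 0 < gord m a ∧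
        ¬ Bad (((∑ i, a i : ℕ) : ℚ) / gord m a) ∧
        p = (-((∑ i, a i : ℕ) : ℤ), (gord m a : ℤ))) ∧
      ∀ (k : Type) [Field k] [CharZero k] (c : Fin r → k), Mot.NonG m c → (∀ j, c j ≠ 0) →
        ∀ (R : Type) [CommRing R] (y : Rˣ) (M : EMeas (sp 0 m c 1) R), M.L = (y : R) →
        (1 - PowerSeries.C ((y⁻¹ : Rˣ) : R) * PowerSeries.X) * serM M y ∈
          ratR y (S : Set (ℤ × ℤ)) := by
  classical
  choose l hl hG using fun J : Finset (Fin n) => formal hr0 m J Bad (hB J)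
  set S : Finset (ℤ × ℤ) := (Finset.univ.biUnion fun J : Finset (Fin n) =>
    (l J).toFinset.image fun a => (-((∑ i, a i : ℕ) : ℤ), (gord m a : ℤ))) with hS
  have hS2 : ∀ J, ∀ a ∈ l J, (-((∑ i, a i : ℕ) : ℤ), (gord m a : ℤ)) ∈ S :=
    fun J a ha => Finset.mem_biUnion.2 ⟨J, Finset.mem_univ _,
      Finset.mem_image.2 ⟨a, List.mem_toFinset.2 ha, rfl⟩⟩
  refine ⟨S, fun p hp => ?_, ?_⟩
  · obtain ⟨J, -, hp⟩ := Finset.mem_biUnion.1 hp
    obtain ⟨a, ha, rfl⟩ := Finset.mem_image.1 hp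
    obtain ⟨ha1, ha2, ha3⟩ := hl J a (List.mem_toFinset.1 ha)
    exact ⟨a, ha1, ha2, ha3, rfl⟩
  · intro k _ _ c hNon hc R _ y M hML
    have h5 : S_CP1 := Pool.Agent.W346.MTCp1.main
    have hFree : S_EFree := Pool.Agent.W230.ME.Free.main
    have hSub : S_ESub := Pool.Agent.W366.MESub.main
    have hTay : S_Tay := Pool.Agent.W417.MT.Tay.main
    have hTw : S_ETw := Pool.Agent.W578.ME.etw
    set Y : R := ((y⁻¹ : Rˣ) : R) with hY
    have hL : M.L * Y = 1 := by rw [hML, Units.mul_inv]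
    choose b0 b1 hb00 hb hrel using fun J : Finset (Fin n) =>
      ex_classes hTw hFree hSub hc hr0 M J
    have hsum := eSumP
      (Pool.Agent.W375.MT.EJet.main hFree) Pool.Agent.W375.MT.EShift.main
      (Pool.Agent.W375.MT.ECond.main Pool.Agent.W440.MT.ord)
      (EMot.eStB hFree hTay) (EMot.eStC hFree hSub hTay) 0 m c 1 M hNon hr0 one_pos Y hL b0 b1
      hb
    -- the series
    set C : Finset (Fin n) → Finset (Fin r) → PowerSeries R := fun J τ =>
      PowerSeries.map (evR y) (cser m J τ) with hCdef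
    have hCc : ∀ J τ N, PowerSeries.coeff N (C J τ) =
        Polynomial.eval₂ (Int.castRingHom R) Y (cp 0 m 1 J τ N N) := fun J τ N => by
      simp only [hCdef, cser]
      rw [PowerSeries.coeff_map, PowerSeries.coeff_mk]
      rfl
    set D : Finset (Fin n) → Finset (Fin r) → PowerSeries R := fun J τ =>
      PowerSeries.mk fun N => ∑ l ∈ Finset.Icc 1 N,
        if 1 * l ≤ N then Y ^ l * PowerSeries.coeff (N - 1 * l) (C J τ) else 0
      with hDdef
    have hD : ∀ J τ, D J τ = PowerSeries.C Y * PowerSeries.X * C J τ * geoR y (-1) 1 := by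
      intro J τ
      have h6 := geo_sum Y (fun N => PowerSeries.coeff N (C J τ)) 1 one_pos
      have h7 := geoR_mul y (-1) 1 one_pos
      rw [show (1 : ℤ).toNat = 1 from rfl, zpow_neg_one] at h7
      have h9 : PowerSeries.mk (fun N => PowerSeries.coeff N (C J τ)) = C J τ := by
        ext N
        rw [PowerSeries.coeff_mk]
      rw [h9] at h6
      have h10 : D J τ * ((1 - PowerSeries.C Y * PowerSeries.X ^ 1) * geoR y (-1) 1) =
          PowerSeries.C Y * PowerSeries.X ^ 1 * C J τ * geoR y (-1) 1 := by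
        rw [← h6, mul_assoc]
      rw [h7, mul_one, pow_one] at h10
      exact h10
    set F : PowerSeries R := ∑ J : Finset (Fin n), FR y m J (b0 J) (b1 J) with hF
    have hFmem : F * (1 - PowerSeries.C ((y⁻¹ : Rˣ) : R) * PowerSeries.X) ∈
        ratR y (S : Set (ℤ × ℤ)) := by
      rw [hF, Finset.sum_mul]
      refine (ratR y (S : Set (ℤ × ℤ))).sum_mem fun J _ => ?_
      refine inRat_J' y m J (l J) (fun a ha => ⟨(hl J a ha).2.1, hS2 J a ha⟩) (hG J)
        (b1 J ∅) (fun τ => ∃ u : Fin n → ℕ, Pool.Agent.W428.MOT.Adm J u ∧ τ ⊆ amin m u)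
        (fun τ τ' hs h => ?_) (fun τ h => cser_zero m J τ h) (b0 J) (b1 J) (hb00 J) rfl ?_ ?_
      · obtain ⟨u, hu1, hu2⟩ := h
        exact ⟨u, hu1, hs.trans hu2⟩
      · intro i hi j0 hj0 τ hτ hA
        rw [← hML]
        exact (hrel J i hi j0 hj0 τ hτ hA).1
      · intro i hi j0 hj0 τ hτ hA
        rw [← hML]
        exact (hrel J i hi j0 hj0 τ hτ hA).2
    have hz : serM M y = F - PowerSeries.C (PowerSeries.coeff 0 F) := by
      ext N
      by_cases hN : N = 0
      · subst hN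
        rw [serM, PowerSeries.coeff_mk, if_neg (lt_irrefl 0), map_sub, PowerSeries.coeff_C,
          if_pos rfl, sub_self]
      · have hN' : 0 < N := Nat.pos_of_ne_zero hN
        rw [serM, PowerSeries.coeff_mk, if_pos hN', map_sub, PowerSeries.coeff_C, if_neg hN,
          sub_zero]
        have h6 := hsum N hN'
        rw [← hY, h6, hF, map_sum]
        refine Finset.sum_congr rfl fun J _ => ?_
        unfold FR
        rw [map_sum]
        refine Finset.sum_congr rfl fun τ _ => ?_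
        change _ = PowerSeries.coeff N (PowerSeries.C ((y : R) ^ frc m J τ) *
          (PowerSeries.C (b0 J τ) * C J τ + PowerSeries.C (b1 J τ) *
            (PowerSeries.C Y * PowerSeries.X * C J τ * geoR y (-1) 1)))
        rw [← hD, ← hML, PowerSeries.coeff_C_mul, map_add, PowerSeries.coeff_C_mul,
          PowerSeries.coeff_C_mul, hCc, hDdef, PowerSeries.coeff_mk, Finset.mul_sum]
        congr 2
        refine Finset.sum_congr rfl fun i _ => ?_
        split_ifs with hi
        · rw [hCc, h5 0 m 1 J τ hr0 one_pos N (N - 1 * i) (Nat.sub_le _ _), mul_assoc]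
        · rw [mul_zero]
    have h6 : (1 - PowerSeries.C ((y⁻¹ : Rˣ) : R) * PowerSeries.X) * serM M y =
        F * (1 - PowerSeries.C ((y⁻¹ : Rˣ) : R) * PowerSeries.X) -
        PowerSeries.C (PowerSeries.coeff 0 F) *
          (1 - PowerSeries.C ((y⁻¹ : Rˣ) : R) * PowerSeries.X) := by
      rw [hz]
      ring
    rw [h6]
    exact (ratR y (S : Set (ℤ × ℤ))).sub_mem hFmem ((ratR y (S : Set (ℤ × ℤ))).mul_mem
      (CR_mem y _ _) ((ratR y (S : Set (ℤ × ℤ))).sub_mem (ratR y (S : Set (ℤ × ℤ))).one_mem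
        ((ratR y (S : Set (ℤ × ℤ))).mul_mem (CR_mem y _ _) (XR_mem y _))))

end B

section C

open MvPolynomial Pool.Agent.H628R4.TP Pool.Agent.W425.MM Pool.Agent.W425.GN
open Pool.Agent.W425.ND (spa)
open Pool.Agent.W426.SM (gord ford IsRay face)
open Pool.Agent.W425.SV (Kil1)
open Pool.Agent.W425.SM (Ind)
open Pool.Agent.TH216.MF (RelG KilU Spread KRelJ RecJ nonD_of_ind ratR relG_of_relM)
open Pool.Agent.TH216.MC (HB hb_ind)
open Pool.Agent.W428.MOT (Pt Constr ratRing sp LuMu InRat zetaE EMeas)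
open Pool.Agent.Y231.N4

variable {r N : ℕ}

/-- **Affinely independent exponents: the series.** -/
theorem ind_glo {k : Type} [Field k] [Algebra k ℂ] (hr : 2 ≤ r) (v : Fin r → Fin N → ℕ)
    (hv : Ind v) (c : Fin r → k) (hc : ∀ j, c j ≠ 0) :
    ∃ S : Finset (ℤ × ℤ),
      (∀ p ∈ S, ∃ a : Fin N → ℕ, IsRay v a ∧ 0 < gord v a ∧
        p = (-((∑ i, a i : ℕ) : ℤ), (gord v a : ℤ)) ∧
        ∀ P : Polynomial ℂ, IsBFunction (spa v (fun j => algebraMap k ℂ (c j)))
          ((Polynomial.X + 1) * P) → P.eval ((p.1 : ℂ) / p.2) = 0) ∧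
      ∀ (R : Type) [CommRing R] (y : Rˣ) (M : EMeas (spa v c) R), M.L = (y : R) →
        (1 - PowerSeries.C ((y⁻¹ : Rˣ) : R) * PowerSeries.X) * serM M y ∈
          ratR y (S : Set (ℤ × ℤ)) := by
  classical
  have hr0 : 0 < r := by omega
  have hkc : CharZero k := RingHom.charZero (algebraMap k ℂ)
  set f : MvPolynomial (Fin N) ℂ := spa v (fun j => algebraMap k ℂ (c j)) with hf
  have hcC : ∀ j, algebraMap k ℂ (c j) ≠ 0 := fun j => (map_ne_zero _).2 (hc j)
  have hnd : NonD v (fun j => algebraMap k ℂ (c j)) := nonD_of_ind hr0 v hv _ hcC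
  have hA : ∀ P : Polynomial ℂ, IsBFunction f ((Polynomial.X + 1) * P) →
      RelG v (Kil1 v) (Spread v) P := by
    intro P hP
    obtain ⟨P', h1, h2⟩ := Pool.Agent.W525.SM.taskA v _ _ hr hv hcC hP
    have h3 : (Polynomial.X + 1 : Polynomial ℂ) ≠ 0 := by
      intro h
      have := congrArg (Polynomial.eval 0) h
      simp at this
    rw [mul_left_cancel₀ h3 h1]
    exact relG_of_relM v P' h2
  have hB : HB v fun σ => ∃ P, IsBFunction f ((Polynomial.X + 1) * P) ∧
      P.eval (-(σ : ℂ)) ≠ 0 := by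
    rintro J q hq e he T0 hT0 σ ⟨P, hP, hne⟩ hlog
    exact hb_ind v P (hA P hP) J q hq e he T0 hT0 σ hne hlog
  obtain ⟨S, hS, hz⟩ := efin' v hr0 _ hB
  have hsp : ∀ {K : Type} [Field K] (c' : Fin r → K), spa v c' = sp 0 v c' 1 := by
    intro K _ c'
    unfold sp spa
    simp
  refine ⟨S, fun p hp => ?_, ?_⟩
  · obtain ⟨a, ha, hg, hn, rfl⟩ := hS p hp
    refine ⟨a, ha, hg, rfl, fun P hP => ?_⟩
    by_contra hne
    apply hn
    refine ⟨P, hP, ?_⟩
    have e : -((((∑ i, a i : ℕ) : ℚ) / gord v a : ℚ) : ℂ) =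
        ((-((∑ i, a i : ℕ) : ℤ) : ℤ) : ℂ) / ((gord v a : ℤ) : ℂ) := by
      push_cast
      ring
    rw [e]
    exact hne
  · rw [hsp]
    intro R _ y M hML
    exact hz k c (nonG_of_nonD _ _ (nonD_ext (k := k) (L := AlgebraicClosure k) _ _ hnd)) hc
      R y M hML

end C

end Pool.Agent.T6.H16.MR
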