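import Pool.Agent.T6.H16.MR.Tr
import Pool.Agent.T6.H16.MR.Sp

set_option autoImplicit false

/-! One more pair of variables. -/

namespace Pool.Agent.T6.H16.MR

open MvPolynomial
open Pool.Agent.W425.ND (spa)
open Pool.Agent.W425.SM (Ind)
open Pool.Agent.W426.SM (gord)
open Pool.Agent.W803.SM (gord_le exists_gord)
open Pool.Agent.Y229.RE (emb yv zv xv)
open Pool.Agent.T6.H16.ME (hyp)

section

variable {k : Type} [Field k] {n κ r : ℕ}

/-- Polynomial coordinates `θ` in which `f + ∑ y_i z_i` is the sparse polynomial with the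
exponents `v` and the coefficients `c`. -/
structure StSp (f : MvPolynomial (Fin n) k) (κ : ℕ) (v : Fin r → Fin (n + (κ + κ)) → ℕ)
    (c : Fin r → k) (θ : PAut k (n + (κ + κ))) : Prop where
  ind : Ind v
  ne : ∀ j, c j ≠ 0
  eq : θ (hyp f κ) = spa v c
  neg : ∀ a : Fin (n + (κ + κ)) → ℕ, 0 < gord v a → κ * gord v a < ∑ i, a i

/-- the old variables -/
def em (n κ : ℕ) (i : Fin (n + (κ + κ))) : Fin (n + ((κ + 1) + (κ + 1))) :=
  ⟨if (i : ℕ) < n + κ then i else i + 1, by split_ifs <;> omega⟩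

theorem em_val (i : Fin (n + (κ + κ))) : ((em n κ i : Fin (n + ((κ + 1) + (κ + 1)))) : ℕ) =
    if (i : ℕ) < n + κ then (i : ℕ) else i + 1 := rfl

theorem em_x (a : Fin n) : em n κ (xv κ a) = xv (κ + 1) a := by
  apply Fin.ext
  have h1 : ((xv κ a : Fin (n + (κ + κ))) : ℕ) = a := rfl
  have h2 : ((xv (κ + 1) a : Fin (n + ((κ + 1) + (κ + 1)))) : ℕ) = a := rfl
  rw [em_val, h1, h2]
  split_ifs <;> omega

theorem em_y (i : Fin κ) : em n κ (yv n i) = yv n i.castSucc := by
  apply Fin.ext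
  have h1 : ((yv n i : Fin (n + (κ + κ))) : ℕ) = n + i := rfl
  have h2 : ((yv n i.castSucc : Fin (n + ((κ + 1) + (κ + 1)))) : ℕ) = n + i := rfl
  rw [em_val, h1, h2]
  split_ifs <;> omega

theorem em_z (i : Fin κ) : em n κ (zv n i) = zv n i.castSucc := by
  apply Fin.ext
  have h1 : ((zv n i : Fin (n + (κ + κ))) : ℕ) = n + (κ + i) := rfl
  have h2 : ((zv n i.castSucc : Fin (n + ((κ + 1) + (κ + 1)))) : ℕ) = n + (κ + 1 + i) := rfl
  rw [em_val, h1, h2]
  split_ifs <;> omega

/-- the old and the new variables -/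
def ef (n κ : ℕ) : Fin (n + (κ + κ)) ⊕ Fin 2 → Fin (n + ((κ + 1) + (κ + 1))) :=
  Sum.elim (em n κ) (fun j => if j = 0 then yv n (Fin.last κ) else zv n (Fin.last κ))

theorem ef_bij (n κ : ℕ) : Function.Bijective (ef n κ) := by
  rw [Fintype.bijective_iff_injective_and_card]
  refine ⟨?_, by simp; omega⟩
  have hy : ((yv n (Fin.last κ) : Fin (n + ((κ + 1) + (κ + 1)))) : ℕ) = n + κ := rfl
  have hz : ((zv n (Fin.last κ) : Fin (n + ((κ + 1) + (κ + 1)))) : ℕ) = n + (κ + 1 + κ) := rfl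
  have hem : ∀ i : Fin (n + (κ + κ)), ((em n κ i : Fin (n + ((κ + 1) + (κ + 1)))) : ℕ) =
      if (i : ℕ) < n + κ then (i : ℕ) else i + 1 := fun i => rfl
  rintro (i | i) (j | j) h
  · have h1 := congrArg Fin.val (show em n κ i = em n κ j from h)
    rw [hem, hem] at h1
    congr 1
    apply Fin.ext
    split_ifs at h1 <;> omega
  · exfalso
    have h1 := congrArg Fin.val (show em n κ i = if j = 0 then yv n (Fin.last κ) else
      zv n (Fin.last κ) from h)
    have h2 := i.2
    rw [hem] at h1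
    by_cases hj : j = 0
    · rw [if_pos hj, hy] at h1
      split_ifs at h1 <;> omega
    · rw [if_neg hj, hz] at h1
      split_ifs at h1 <;> omega
  · exfalso
    have h1 := congrArg Fin.val (show (if i = 0 then yv n (Fin.last κ) else
      zv n (Fin.last κ)) = em n κ j from h)
    have h2 := j.2
    rw [hem] at h1
    by_cases hj : i = 0
    · rw [if_pos hj, hy] at h1
      split_ifs at h1 <;> omega
    · rw [if_neg hj, hz] at h1
      split_ifs at h1 <;> omega
  · have h1 := congrArg Fin.val (show (if i = 0 then yv n (Fin.last κ) else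
      zv n (Fin.last κ)) = if j = 0 then yv n (Fin.last κ) else zv n (Fin.last κ) from h)
    congr 1
    have h2 : ∀ i : Fin 2, i = 0 ∨ i = 1 := by decide
    rcases h2 i with rfl | rfl <;> rcases h2 j with rfl | rfl
    · rfl
    · rw [if_pos rfl, if_neg (by decide), hy, hz] at h1
      omega
    · rw [if_pos rfl, if_neg (by decide), hy, hz] at h1
      omega
    · rfl

/-- the variables -/
noncomputable def ee (n κ : ℕ) : Fin (n + (κ + κ)) ⊕ Fin 2 ≃ Fin (n + ((κ + 1) + (κ + 1))) :=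
  Equiv.ofBijective (ef n κ) (ef_bij n κ)

theorem ee_l (i : Fin (n + (κ + κ))) : ee n κ (Sum.inl i) = em n κ i := rfl
theorem ee_0 : ee n κ (Sum.inr 0) = yv n (Fin.last κ) := rfl
theorem ee_1 : ee n κ (Sum.inr 1) = zv n (Fin.last κ) := rfl

/-- the extension of an endomorphism -/
noncomputable def exH {σ τ : Type}
    (θ : MvPolynomial σ k →ₐ[k] MvPolynomial σ k) :
    MvPolynomial (σ ⊕ τ) k →ₐ[k] MvPolynomial (σ ⊕ τ) k :=
  aeval (Sum.elim (fun i => rename Sum.inl (θ (X i))) (fun j => X (Sum.inr j)))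

theorem exH_l {σ τ : Type} (θ : MvPolynomial σ k →ₐ[k] MvPolynomial σ k) (p : MvPolynomial σ k) :
    exH (τ := τ) θ (rename Sum.inl p) = rename Sum.inl (θ p) := by
  have h : (exH (τ := τ) θ).comp (rename Sum.inl) =
      (rename Sum.inl : MvPolynomial σ k →ₐ[k] MvPolynomial (σ ⊕ τ) k).comp θ := by
    refine MvPolynomial.algHom_ext fun i => ?_
    rw [AlgHom.comp_apply, AlgHom.comp_apply, rename_X]
    unfold exH
    rw [aeval_X]
    rfl
  exact congrFun (congrArg DFunLike.coe h) p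

theorem exH_r {σ τ : Type} (θ : MvPolynomial σ k →ₐ[k] MvPolynomial σ k) (j : τ) :
    exH θ (X (Sum.inr j)) = X (Sum.inr j) := by
  unfold exH
  rw [aeval_X]
  rfl

theorem exH_comp {σ τ : Type} (θ θ' : MvPolynomial σ k →ₐ[k] MvPolynomial σ k)
    (h : ∀ p, θ (θ' p) = p) : (exH (τ := τ) θ).comp (exH θ') = AlgHom.id k _ := by
  refine MvPolynomial.algHom_ext fun i => ?_
  rcases i with i | j
  · rw [AlgHom.comp_apply, AlgHom.id_apply]
    have h1 : (X (Sum.inl i) : MvPolynomial (σ ⊕ τ) k) = rename Sum.inl (X i) := by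
      rw [rename_X]
    rw [h1, exH_l, exH_l, h]
  · rw [AlgHom.comp_apply, AlgHom.id_apply, exH_r, exH_r]

/-- the extension of an automorphism -/
noncomputable def exA {σ τ : Type} (θ : MvPolynomial σ k ≃ₐ[k] MvPolynomial σ k) :
    MvPolynomial (σ ⊕ τ) k ≃ₐ[k] MvPolynomial (σ ⊕ τ) k :=
  AlgEquiv.ofAlgHom (exH (θ : MvPolynomial σ k →ₐ[k] MvPolynomial σ k))
    (exH (θ.symm : MvPolynomial σ k →ₐ[k] MvPolynomial σ k))
    (exH_comp _ _ fun p => θ.apply_symm_apply p) (exH_comp _ _ fun p => θ.symm_apply_apply p)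

/-- the automorphism in the new variables -/
noncomputable def padA (θ : PAut k (n + (κ + κ))) : PAut k (n + ((κ + 1) + (κ + 1))) :=
  ((renameEquiv k (ee n κ)).symm.trans (exA θ)).trans (renameEquiv k (ee n κ))

theorem padA_em (θ : PAut k (n + (κ + κ))) (p : MvPolynomial (Fin (n + (κ + κ))) k) :
    padA θ (rename (em n κ) p) = rename (em n κ) (θ p) := by
  have h1 : ∀ q : MvPolynomial (Fin (n + (κ + κ))) k,
      rename (em n κ) q = renameEquiv k (ee n κ) (rename Sum.inl q) := by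
    intro q
    rw [renameEquiv_apply, rename_rename]
    rfl
  unfold padA
  rw [h1, AlgEquiv.trans_apply, AlgEquiv.trans_apply, AlgEquiv.symm_apply_apply, h1]
  congr 1
  exact exH_l _ p

theorem padA_r (θ : PAut k (n + (κ + κ))) (j : Fin 2) :
    padA θ (X (ee n κ (Sum.inr j))) = X (ee n κ (Sum.inr j)) := by
  have h1 : (X (ee n κ (Sum.inr j)) : MvPolynomial (Fin (n + ((κ + 1) + (κ + 1)))) k) =
      renameEquiv k (ee n κ) (X (Sum.inr j)) := by
    rw [renameEquiv_apply, rename_X]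
  unfold padA
  rw [h1, AlgEquiv.trans_apply, AlgEquiv.trans_apply, AlgEquiv.symm_apply_apply]
  congr 1
  exact exH_r _ j

theorem hyp_succ (f : MvPolynomial (Fin n) k) (κ : ℕ) : hyp f (κ + 1) =
    rename (em n κ) (hyp f κ) + X (yv n (Fin.last κ)) * X (zv n (Fin.last κ)) := by
  unfold hyp
  rw [Fin.sum_univ_castSucc, map_add, rename_rename, map_sum,
    ← add_assoc (rename (xv (κ + 1)) f)]
  congr 2
  · congr 2
    funext a
    exact (em_x a).symm
  · refine Finset.sum_congr rfl fun i _ => ?_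
    rw [map_mul, rename_X, rename_X, em_y, em_z]

/-- the exponents -/
noncomputable def padV (v : Fin r → Fin (n + (κ + κ)) → ℕ) :
    Fin (r + 1) → Fin (n + ((κ + 1) + (κ + 1))) → ℕ :=
  Fin.snoc (α := fun _ => Fin (n + ((κ + 1) + (κ + 1))) → ℕ)
    (fun j p => Sum.elim (v j) (fun _ => 0) ((ee n κ).symm p))
    (fun p => Sum.elim (fun _ => 0) (fun _ => 1) ((ee n κ).symm p))

theorem padV_l (v : Fin r → Fin (n + (κ + κ)) → ℕ) (j : Fin r) (p : Fin (n + (κ + κ)) ⊕ Fin 2) :
    padV v j.castSucc (ee n κ p) = Sum.elim (v j) (fun _ => 0) p := by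
  unfold padV
  rw [Fin.snoc_castSucc, Equiv.symm_apply_apply]

theorem padV_last (v : Fin r → Fin (n + (κ + κ)) → ℕ) (p : Fin (n + (κ + κ)) ⊕ Fin 2) :
    padV v (Fin.last r) (ee n κ p) = Sum.elim (fun _ => 0) (fun _ => 1) p := by
  unfold padV
  rw [Fin.snoc_last, Equiv.symm_apply_apply]

theorem spa_pad (v : Fin r → Fin (n + (κ + κ)) → ℕ) (c : Fin r → k) :
    spa (padV v) (Fin.snoc (α := fun _ => k) c 1) =
      rename (em n κ) (spa v c) + X (yv n (Fin.last κ)) * X (zv n (Fin.last κ)) := by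
  unfold spa
  rw [Fin.sum_univ_castSucc, map_sum]
  congr 1
  · refine Finset.sum_congr rfl fun j _ => ?_
    rw [Fin.snoc_castSucc, map_mul, rename_C, map_prod]
    congr 1
    rw [← Equiv.prod_comp (ee n κ), Fintype.prod_sum_type]
    simp only [padV_l, Sum.elim_inl, Sum.elim_inr, pow_zero, Finset.prod_const_one, mul_one]
    refine Finset.prod_congr rfl fun i _ => ?_
    rw [map_pow, rename_X, ee_l]
  · rw [Fin.snoc_last, map_one, one_mul, ← Equiv.prod_comp (ee n κ), Fintype.prod_sum_type]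
    simp only [padV_last, Sum.elim_inl, Sum.elim_inr, pow_zero, Finset.prod_const_one, one_mul,
      pow_one]
    rw [Fin.prod_univ_two, ee_0, ee_1]

theorem ind_pad (v : Fin r → Fin (n + (κ + κ)) → ℕ) (hv : Ind v) : Ind (padV v) := by
  unfold Ind at hv ⊢
  rw [affineIndependent_iff] at hv ⊢
  intro s w hw hs j hj
  -- pass to all the indices
  set w' : Fin (r + 1) → ℚ := fun j => if j ∈ s then w j else 0 with hw'
  have h1 : ∑ j, w' j = 0 := by
    rw [← hw, hw']
    simp [Finset.sum_ite_mem]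
  have h2 : ∀ p : Fin (n + (κ + κ)) ⊕ Fin 2, ∑ j, w' j * (padV v j (ee n κ p) : ℚ) = 0 := by
    intro p
    have h3 := congrFun hs (ee n κ p)
    rw [Finset.sum_apply] at h3
    simp only [Pi.smul_apply, smul_eq_mul, Pi.zero_apply] at h3
    rw [← h3, hw']
    simp [ite_mul, Finset.sum_ite_mem]
  have h3 : w' (Fin.last r) = 0 := by
    have h4 := h2 (Sum.inr 0)
    rw [Fin.sum_univ_castSucc] at h4
    simpa only [padV_l, padV_last, Sum.elim_inr, Nat.cast_zero, mul_zero, Finset.sum_const_zero,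
      zero_add, Nat.cast_one, mul_one] using h4
  have h5 : ∀ j, w' j = 0 := by
    intro j
    refine Fin.lastCases h3 (fun j => ?_) j
    refine hv Finset.univ (fun j => w' j.castSucc) ?_ ?_ j (Finset.mem_univ _)
    · rw [Fin.sum_univ_castSucc, h3, add_zero] at h1
      exact h1
    · funext i
      rw [Finset.sum_apply]
      simp only [Pi.smul_apply, smul_eq_mul, Pi.zero_apply]
      have h4 := h2 (Sum.inl i)
      rw [Fin.sum_univ_castSucc, h3, zero_mul, add_zero] at h4
      simpa only [padV_l, Sum.elim_inl] using h4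
  have h6 := h5 j
  rw [hw'] at h6
  simpa only [hj, if_true] using h6

theorem neg_pad (hr : 0 < r) (v : Fin r → Fin (n + (κ + κ)) → ℕ)
    (hv : ∀ a : Fin (n + (κ + κ)) → ℕ, 0 < gord v a → κ * gord v a < ∑ i, a i)
    (a : Fin (n + ((κ + 1) + (κ + 1))) → ℕ) (ha : 0 < gord (padV v) a) :
    (κ + 1) * gord (padV v) a < ∑ i, a i := by
  set g := gord (padV v) a with hg
  set a0 : Fin (n + (κ + κ)) → ℕ := fun i => a (ee n κ (Sum.inl i)) with ha0
  have hsum : ∑ i, a i = ∑ i, a0 i + (a (ee n κ (Sum.inr 0)) + a (ee n κ (Sum.inr 1))) := by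
    rw [← Equiv.sum_comp (ee n κ), Fintype.sum_sum_type, Fin.sum_univ_two]
  have h1 : g ≤ gord v a0 := by
    obtain ⟨j, hj⟩ := exists_gord hr v a0
    rw [← hj]
    refine (gord_le (padV v) a j.castSucc).trans (le_of_eq ?_)
    rw [← Equiv.sum_comp (ee n κ), Fintype.sum_sum_type]
    simp only [padV_l, Sum.elim_inl, Sum.elim_inr, mul_zero, Finset.sum_const_zero, add_zero]
    rfl
  have h2 : g ≤ a (ee n κ (Sum.inr 0)) + a (ee n κ (Sum.inr 1)) := by
    refine (gord_le (padV v) a (Fin.last r)).trans (le_of_eq ?_)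
    rw [← Equiv.sum_comp (ee n κ), Fintype.sum_sum_type]
    simp only [padV_last, Sum.elim_inl, Sum.elim_inr, mul_zero, Finset.sum_const_zero, zero_add,
      mul_one]
    rw [Fin.sum_univ_two]
  have h3 := hv a0 (lt_of_lt_of_le ha h1)
  rw [hsum]
  have h4 : κ * g ≤ κ * gord v a0 := Nat.mul_le_mul_left _ h1
  rw [Nat.add_mul, Nat.one_mul]
  omega

/-- **One more pair of variables.** -/
theorem StSp.pad {f : MvPolynomial (Fin n) k} (hr : 0 < r) {v : Fin r → Fin (n + (κ + κ)) → ℕ}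
    {c : Fin r → k} {θ : PAut k (n + (κ + κ))} (h : StSp f κ v c θ) :
    StSp f (κ + 1) (padV v) (Fin.snoc (α := fun _ => k) c 1) (padA θ) := by
  refine ⟨ind_pad v h.ind, fun j => ?_, ?_, neg_pad hr v h.neg⟩
  · refine Fin.lastCases ?_ (fun j => ?_) j
    · rw [Fin.snoc_last]
      exact one_ne_zero
    · rw [Fin.snoc_castSucc]
      exact h.ne j
  · rw [hyp_succ, map_add, padA_em, h.eq, map_mul, ← ee_0, ← ee_1, padA_r, padA_r, spa_pad]
    rfl

end

end Pool.Agent.T6.H16.MR
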