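import Pool.Agent.T6.H16.MR.S2

set_option autoImplicit false

/-! Pullback of additive invariants along a map of the bases. -/

namespace Pool.Agent.T6.H16.MR

open MvPolynomial
open Pool.Agent.W428.MOT

section

variable {k : Type} [Field k] {R : Type} [CommRing R] {n m : ℕ} {F : MvPolynomial (Fin n) k}
  {G : MvPolynomial (Fin m) k} {ι κ : Type}

theorem isRF_comp {S : Set (Pt k κ)} {H : Pt k κ → AlgebraicClosure k} (hH : IsRF S H)
    {S' : Set (Pt k ι)} (φ : Pt k ι → Pt k κ) (hφ : ∀ i, IsPF (fun z => φ z i))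
    (hS : ∀ z ∈ S', φ z ∈ S) : IsRF S' (fun z => H (φ z)) := by
  obtain ⟨P, Q, h⟩ := hH
  obtain ⟨P', hP'⟩ := IsPF.comp (IsPF.poly P) φ hφ
  obtain ⟨Q', hQ'⟩ := IsPF.comp (IsPF.poly Q) φ hφ
  refine ⟨P', Q', fun z hz => ?_⟩
  rw [← hP' z, ← hQ' z]
  exact h _ (hS z hz)

/-- the part over `C`, with the new base map `Θ` as coordinates -/
def grS (C : Set (Pt k (Fin m))) (Θ : Fin n → MvPolynomial (Fin m) k) (S : Set (Pt k ι))
    (β : Fin m → Option ι) : Set (Pt k (ι ⊕ Fin n)) :=
  {z | (fun i => z (Sum.inl i)) ∈ S ∧ cbase β (fun i => z (Sum.inl i)) ∈ C ∧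
    ∀ j, z (Sum.inr j) = aeval (cbase β (fun i => z (Sum.inl i))) (Θ j)}

/-- the weights -/
def grW (n : ℕ) (ρ : ι → ℤ) : ι ⊕ Fin n → ℤ := Sum.elim ρ (fun _ => 0)

/-- the new base map -/
def grB (n : ℕ) (ι : Type) : Fin n → Option (ι ⊕ Fin n) := fun j => some (Sum.inr j)

theorem isPF_cbase {β : Fin m → Option ι} (i : Fin m) : IsPF (fun z : Pt k ι => cbase β z i) := by
  unfold cbase
  cases β i with
  | none => exact IsPF.zero
  | some j => exact IsPF.coord j

theorem cbase_dact {S : Set (Pt k ι)} {ρ : ι → ℤ} {d : ℕ} {β : Fin m → Option ι}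
    (h : Valid G S ρ d β) (l : AlgebraicClosure k) (z : Pt k ι) :
    cbase β (dact ρ l z) = cbase β z := by
  funext i
  simp only [cbase]
  cases hb : β i with
  | none => rfl
  | some j => simp only [Option.elim, dact, h.inv i j hb, zpow_zero, one_mul]

theorem dact_gr (n : ℕ) (ρ : ι → ℤ) (l : AlgebraicClosure k) (z : Pt k (ι ⊕ Fin n)) :
    dact (grW n ρ) l z = Sum.elim (dact ρ l (fun i => z (Sum.inl i)))
      (fun j => z (Sum.inr j)) := by
  funext i
  cases i with
  | inl i => rfl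
  | inr j =>
    show l ^ (0 : ℤ) * z (Sum.inr j) = z (Sum.inr j)
    rw [zpow_zero, one_mul]

theorem cbase_map (β : Fin m → Option ι) (z : Pt k (ι ⊕ κ)) :
    cbase (fun i => (β i).map Sum.inl) z = cbase β (fun i => z (Sum.inl i)) := by
  funext i
  simp only [cbase]
  cases β i <;> rfl

theorem valid_aff {S : Set (Pt k ι)} {ρ : ι → ℤ} {d : ℕ} {β : Fin m → Option ι}
    (h : Valid G S ρ d β) (ρ' : κ → ℤ) :
    Valid G {z : Pt k (ι ⊕ κ) | (fun i => z (Sum.inl i)) ∈ S} (Sum.elim ρ ρ') d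
        (fun i => (β i).map Sum.inl) := by
  refine ⟨h.constr.preimage (fun (z : Pt k (ι ⊕ κ)) i => z (Sum.inl i))
    fun i => IsPF.coord _, h.pos, fun l hl z hz => h.stable l hl _ hz, fun z hz => ?_, ?_⟩
  · rw [cbase_map]
    exact h.base _ hz
  · intro i j hij
    cases hb : β i with
    | none => rw [hb] at hij; cases hij
    | some j' =>
      rw [hb, Option.map_some, Option.some.injEq] at hij
      rw [← hij]
      exact h.inv i j' hb

variable {C : Set (Pt k (Fin m))} {Θ : Fin n → MvPolynomial (Fin m) k}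

theorem valid_gr (hC : Constr C)
    (hΘ : ∀ b ∈ C, aeval b G = 0 → aeval (fun i => aeval b (Θ i)) F = 0) {S : Set (Pt k ι)}
    {ρ : ι → ℤ} {d : ℕ} {β : Fin m → Option ι} [Finite ι] (h : Valid G S ρ d β) :
    Valid F (grS C Θ S β) (grW n ρ) d (grB n ι) := by
  refine ⟨?_, h.pos, ?_, ?_, ?_⟩
  · refine Constr.and (h.constr.preimage (fun (z : Pt k (ι ⊕ Fin n)) i => z (Sum.inl i))
      fun i => IsPF.coord _) (Constr.and (hC.preimage (fun (z : Pt k (ι ⊕ Fin n)) =>
        cbase β (fun i => z (Sum.inl i))) fun i => ?_) (Constr.all fun j => Constr.eq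
          (IsPF.coord _) ?_))
    · exact IsPF.comp (isPF_cbase i) (fun (z : Pt k (ι ⊕ Fin n)) i => z (Sum.inl i))
        fun i => IsPF.coord _
    · refine IsPF.comp (IsPF.poly (Θ j)) (fun (z : Pt k (ι ⊕ Fin n)) =>
        cbase β (fun i => z (Sum.inl i))) fun i => ?_
      exact IsPF.comp (isPF_cbase i) (fun (z : Pt k (ι ⊕ Fin n)) i => z (Sum.inl i))
        fun i => IsPF.coord _
  · rintro l hl z ⟨h1, h2, h3⟩
    rw [dact_gr]
    refine ⟨h.stable l hl _ h1, ?_, fun j => ?_⟩
    · show cbase β (dact ρ l (fun i => z (Sum.inl i))) ∈ C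
      rw [cbase_dact h]
      exact h2
    · show z (Sum.inr j) = aeval (cbase β (dact ρ l (fun i => z (Sum.inl i)))) (Θ j)
      rw [cbase_dact h]
      exact h3 j
  · rintro z ⟨h1, h2, h3⟩
    have h4 : cbase (grB n ι) z = fun i => aeval (cbase β (fun i => z (Sum.inl i))) (Θ i) := by
      funext j
      exact h3 j
    rw [h4]
    exact hΘ _ h2 (h.base _ h1)
  · intro i j hij
    unfold grB at hij
    rw [Option.some.injEq] at hij
    rw [← hij]
    rfl

/-- **pullback of an additive invariant** -/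
noncomputable def pullM (M : EMeas F R) (hC : Constr C)
    (hΘ : ∀ b ∈ C, aeval b G = 0 → aeval (fun i => aeval b (Θ i)) F = 0) : EMeas G R where
  χ ι _ S ρ d β := M.χ (ι ⊕ Fin n) (grS C Θ S β) (grW n ρ) d (grB n ι)
  L := M.L
  iso {ι κ} _ _ S T ρ ρ' d d' β β' h1 h2 φ ψ h3 h4 h5 h6 h7 h8 h9 h10 := by
    have hb : ∀ w ∈ T, cbase β (ψ w) = cbase β' w := by
      intro w hw
      rw [← h9 _ (h6 hw), h8 w hw]
    refine M.iso _ _ _ _ d d' _ _ (valid_gr hC hΘ h1) (valid_gr hC hΘ h2)
      (fun z => Sum.elim (φ (fun i => z (Sum.inl i))) (fun j => z (Sum.inr j)))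
      (fun z => Sum.elim (ψ (fun i => z (Sum.inl i))) (fun j => z (Sum.inr j))) ?_ ?_ ?_ ?_ ?_ ?_
      ?_ ?_
    · rintro (i | j)
      · exact isRF_comp (h3 i) (fun (z : Pt k (ι ⊕ Fin n)) i => z (Sum.inl i))
          (fun i => IsPF.coord _) fun z hz => hz.1
      · exact (IsPF.coord (Sum.inr j)).isRF _
    · rintro (i | j)
      · exact isRF_comp (h4 i) (fun (z : Pt k (κ ⊕ Fin n)) i => z (Sum.inl i))
          (fun i => IsPF.coord _) fun z hz => hz.1
      · exact (IsPF.coord (Sum.inr j)).isRF _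
    · rintro z ⟨g1, g2, g3⟩
      refine ⟨h5 g1, ?_, fun j => ?_⟩
      · show cbase β' (φ _) ∈ C
        rw [h9 _ g1]
        exact g2
      · show z (Sum.inr j) = aeval (cbase β' (φ _)) (Θ j)
        rw [h9 _ g1]
        exact g3 j
    · rintro z ⟨g1, g2, g3⟩
      refine ⟨h6 g1, ?_, fun j => ?_⟩
      · show cbase β (ψ _) ∈ C
        rw [hb _ g1]
        exact g2
      · show z (Sum.inr j) = aeval (cbase β (ψ _)) (Θ j)
        rw [hb _ g1]
        exact g3 j
    · rintro z ⟨g1, _⟩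
      funext i
      cases i with
      | inl i => exact congrFun (h7 _ g1) i
      | inr j => rfl
    · rintro z ⟨g1, _⟩
      funext i
      cases i with
      | inl i => exact congrFun (h8 _ g1) i
      | inr j => rfl
    · intro z _
      rfl
    · rintro l hl z ⟨g1, _⟩
      rw [dact_gr, dact_gr]
      funext i
      cases i with
      | inl i => exact congrFun (h10 l hl _ g1) i
      | inr j => rfl
  add {ι} _ S T ρ d β h1 h2 h3 := by
    have e : grS C Θ (S ∪ T) β = grS C Θ S β ∪ grS C Θ T β := by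
      ext z
      constructor
      · rintro ⟨g1 | g1, g2⟩
        · exact Or.inl ⟨g1, g2⟩
        · exact Or.inr ⟨g1, g2⟩
      · rintro (⟨g1, g2⟩ | ⟨g1, g2⟩)
        · exact ⟨Or.inl g1, g2⟩
        · exact ⟨Or.inr g1, g2⟩
    rw [e]
    refine M.add _ _ _ d _ (valid_gr hC hΘ h1) (valid_gr hC hΘ h2) ?_
    rw [Set.disjoint_left]
    rintro z ⟨g1, _⟩ ⟨g2, _⟩
    exact Set.disjoint_left.1 h3 g1 g2
  aff {ι κ} _ _ S ρ ρ' d β h := by
    have h0 := valid_gr hC hΘ h
    have h1 := M.aff (κ := κ) (grS C Θ S β) (grW n ρ) ρ' d (grB n ι) h0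
    rw [← h1]
    have hS1 := valid_aff (κ := κ) h ρ'
    have hS2 := valid_aff (κ := κ) h0 ρ'
    have e2 : ∀ z : Pt k ((ι ⊕ κ) ⊕ Fin n),
        cbase (fun i => Option.map Sum.inl (β i)) (fun i => z (Sum.inl i)) =
          cbase β (fun i => z (Sum.inl (Sum.inl i))) := by
      intro z
      funext i
      simp only [cbase]
      cases β i <;> rfl
    refine M.iso _ _ _ _ d d _ _ (valid_gr hC hΘ hS1) hS2
      (fun z => Sum.elim (Sum.elim (fun i => z (Sum.inl (Sum.inl i))) (fun j => z (Sum.inr j)))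
        (fun i => z (Sum.inl (Sum.inr i))))
      (fun z => Sum.elim (Sum.elim (fun i => z (Sum.inl (Sum.inl i))) (fun j => z (Sum.inr j)))
        (fun i => z (Sum.inl (Sum.inr i)))) ?_ ?_ ?_ ?_ ?_ ?_ ?_ ?_
    · refine regularOn_poly (fun p => ?_) _
      rcases p with (i | j) | i
      · exact IsPF.coord _
      · exact IsPF.coord _
      · exact IsPF.coord _
    · refine regularOn_poly (fun p => ?_) _
      rcases p with (i | j) | i
      · exact IsPF.coord _
      · exact IsPF.coord _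
      · exact IsPF.coord _
    · rintro z ⟨g1, g2, g3⟩
      rw [e2] at g2
      refine ⟨g1, g2, fun j => ?_⟩
      have g4 := g3 j
      rw [e2] at g4
      exact g4
    · rintro z ⟨g1, g2, g3⟩
      refine ⟨g1, ?_, fun j => ?_⟩
      · rw [e2]
        exact g2
      · rw [e2]
        exact g3 j
    · intro z _
      funext p
      rcases p with (i | j) | i <;> rfl
    · intro z _
      funext p
      rcases p with (i | j) | i <;> rfl
    · intro z _
      rfl
    · intro l _ z _
      rw [dact_gr]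
      funext p
      rcases p with (i | j) | i
      · rfl
      · show z (Sum.inr j) = (l ^ d) ^ (0 : ℤ) * z (Sum.inr j)
        rw [zpow_zero, one_mul]
      · rfl

end

end Pool.Agent.T6.H16.MR
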