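import Pool.Agent.T6.H16.MR.El
import Pool.Agent.T6.H16.ME.Q4

set_option autoImplicit false

/-! The classes over `{f = 0}` of the jets of `f + ∑ y_i z_i`. -/

namespace Pool.Agent.T6.H16.MR

open MvPolynomial
open Pool.Agent.W428.MOT
open Pool.Agent.Y229.RE (emb yv zv xv)
open Pool.Agent.W375.MT (echi_empty echi_biUnion)
open Pool.Agent.T6.H16.ME (coeff_dact delta_pow xr cases3 xv_lt yv_ge zv_ge xv_of_lt ex0 isPF_ex0
  ex0_xv ex0_ge xr_ex0)

variable {k : Type} [Field k] {R : Type} [CommRing R] {n κ N : ℕ}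

/-- the `N`-jets on which the coefficients of `f` up to `j` are those of `t ^ N` -/
def Jc (f : MvPolynomial (Fin n) k) (N j : ℕ) : Set (Pt k (Fin n × Fin (N + 1))) :=
  {z | ∀ l ≤ j, PowerSeries.coeff l (aeval (arc z) f) = if l = N then 1 else 0}

theorem constr_Jc (f : MvPolynomial (Fin n) k) (N j : ℕ) : Constr (Jc f N j) := by
  refine Constr.allLe j fun l _ => ?_
  refine Constr.eq (IsPA.aeval (fun i z => arc z i) (fun i => isPA_arc i) f l) ?_
  split_ifs
  · exact IsPF.one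
  · exact IsPF.zero

theorem coeff0 {N : ℕ} (z : Pt k (Fin n × Fin (N + 1))) (g : MvPolynomial (Fin n) k) :
    PowerSeries.coeff 0 (aeval (arc z) g) = aeval (cbase (jb n N) z) g := by
  induction g using MvPolynomial.induction_on with
  | C a =>
    rw [algHom_C, algHom_C, PowerSeries.algebraMap_apply, PowerSeries.coeff_zero_C]
  | add p q hp hq => rw [map_add, map_add, map_add, hp, hq]
  | mul_X p i hp =>
    have e1 : aeval (arc z) (p * X i) = aeval (arc z) p * arc z i := by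
      rw [map_mul, aeval_X]
    have e2 : aeval (cbase (jb n N) z) (p * X i) =
        aeval (cbase (jb n N) z) p *
          cbase (jb n N) z i := by
      rw [map_mul, aeval_X]
    rw [e1, e2, ← hp]
    simp only [PowerSeries.coeff_zero_eq_constantCoeff_apply, map_mul]
    congr 1

theorem base_Jc (f : MvPolynomial (Fin n) k) {N j : ℕ} (hN : 0 < N)
    {z : Pt k (Fin n × Fin (N + 1))} (hz : z ∈ Jc f N j) : aeval (cbase (jb n N) z) f = 0 := by
  rw [← coeff0, hz 0 (Nat.zero_le _), if_neg (by omega)]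

theorem inv_jb (n N : ℕ) (i : Fin n) (j : Fin n × Fin (N + 1)) (h : jb n N i = some j) :
    jw n N j = 0 := by
  unfold jb at h
  rw [Option.some.injEq] at h
  rw [← h]
  rfl

theorem valid_Jc (f : MvPolynomial (Fin n) k) (N j : ℕ) (hN : 0 < N) :
    Valid f (Jc f N j) (jw n N) N (jb n N) := by
  refine ⟨constr_Jc f N j, hN, ?_, fun z hz => base_Jc f hN hz, inv_jb n N⟩
  rintro x hx z h2 l hl
  rw [coeff_dact, h2 l hl, delta_pow hx]

/-- the base map: the origin of the `x`-part -/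
def bx (n κ N : ℕ) : Fin n → Option (Fin (n + (κ + κ)) × Fin (N + 1)) := fun i => some (xv κ i, 0)

theorem cbase_bx (z : Pt k (Fin (n + (κ + κ)) × Fin (N + 1))) :
    cbase (bx n κ N) z = cbase (jb n N) (xr z) := rfl

theorem inv_bx (n κ N : ℕ) (i : Fin n) (j : Fin (n + (κ + κ)) × Fin (N + 1))
    (h : bx n κ N i = some j) : jw _ N j = 0 := by
  unfold bx at h
  rw [Option.some.injEq] at h
  rw [← h]
  rfl

theorem bx_ne (i : Fin n) (p : Fin (n + (κ + κ)) × Fin (N + 1)) (hp : n ≤ (p.1 : ℕ)) :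
    bx n κ N i ≠ some p := by
  intro h
  unfold bx at h
  rw [Option.some.injEq] at h
  rw [← h] at hp
  exact absurd hp (not_le.2 (xv_lt i))

/-- **cylinders** -/
theorem cyl {f : MvPolynomial (Fin n) k} (M : EMeas f R) (T : Set (Pt k (Fin n × Fin (N + 1))))
    (hT : Valid f T (jw n N) N (jb n N))
    (F0 F1 : Finset (Fin (n + (κ + κ)) × Fin (N + 1))) (hd : Disjoint F0 F1)
    (h0 : ∀ p ∈ F0, n ≤ (p.1 : ℕ)) (h1 : ∀ p ∈ F1, n ≤ (p.1 : ℕ)) :
    M.χ _ {z : Pt k (Fin (n + (κ + κ)) × Fin (N + 1)) | (xr z ∈ T ∧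
      ∀ p : Fin (n + (κ + κ)) × Fin (N + 1), n ≤ (p.1 : ℕ) → p ∉ F0 → p ∉ F1 → z p = 0) ∧
        ∀ p ∈ F0, z p ≠ 0} (jw _ N) N (bx n κ N) =
      M.χ _ T (jw n N) N (jb n N) * (M.L - 1) ^ F0.card * M.L ^ F1.card := by
  classical
  have hnx : ∀ p : Fin n × Fin (N + 1), ((xv κ p.1, p.2) :
      Fin (n + (κ + κ)) × Fin (N + 1)) ∉ F0 ∪ F1 := by
    intro p h
    have h2 : ((xv κ p.1 : Fin (n + (κ + κ))) : ℕ) < n := xv_lt p.1
    rcases Finset.mem_union.1 h with h | h
    · exact absurd (h0 _ h) (not_le.2 h2)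
    · exact absurd (h1 _ h) (not_le.2 h2)
  set S : Set (Pt k (Fin (n + (κ + κ)) × Fin (N + 1))) := {z | xr z ∈ T ∧
      ∀ p : Fin (n + (κ + κ)) × Fin (N + 1), n ≤ (p.1 : ℕ) → p ∉ F0 → p ∉ F1 → z p = 0} with hS
  have hSc : Constr S := by
    refine Constr.and (hT.constr.preimage (fun z => xr z) fun p => IsPF.coord _)
      (Constr.all fun p => Constr.imp' fun _ => Constr.imp' fun _ => Constr.imp' fun _ => ?_)
    exact Constr.eqz (IsPF.coord _)
  have hxr : ∀ (x : AlgebraicClosure k) (z : Pt k (Fin (n + (κ + κ)) × Fin (N + 1))),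
      xr (dact (jw _ N) x z) = dact (jw n N) x (xr z) := fun x z => rfl
  have hSV : Valid f S (jw _ N) N (bx n κ N) := by
    refine ⟨hSc, hT.pos, ?_, fun z hz => ?_, inv_bx n κ N⟩
    swap
    · rw [cbase_bx]
      exact hT.base _ hz.1
    rintro x hx z ⟨g1, g2⟩
    refine ⟨?_, fun p g3 g4 g5 => ?_⟩
    · rw [hxr]
      exact hT.stable x hx _ g1
    · show x ^ jw _ N p * z p = 0
      rw [g2 p g3 g4 g5, mul_zero]
  have hFree : S_EFree := Pool.Agent.W230.ME.Free.main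
  have e1 := hFree M S (jw _ N) N (bx n κ N) F0 F1 (fun _ => 0) hd hSV (fun i j hij =>
    ⟨fun hj => bx_ne i j (h0 j hj) hij, fun hj => bx_ne i j (h1 j hj) hij⟩) (by
    rintro z w hzw ⟨g1, g2⟩
    refine ⟨?_, fun p g3 g4 g5 => ?_⟩
    · have : xr w = xr z := by
        funext p
        exact hzw _ (fun h => hnx p (Finset.mem_union_left _ h))
          (fun h => hnx p (Finset.mem_union_right _ h))
      rw [this]
      exact g1
    · rw [hzw p g4 g5]
      exact g2 p g3 g4 g5)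
  have e2 : {z : Pt k (Fin (n + (κ + κ)) × Fin (N + 1)) | (xr z ∈ T ∧
      ∀ p : Fin (n + (κ + κ)) × Fin (N + 1), n ≤ (p.1 : ℕ) → p ∉ F0 → p ∉ F1 → z p = 0) ∧
        ∀ p ∈ F0, z p ≠ 0} = S ∩ {z | ∀ i ∈ F0, z i ≠ 0} := rfl
  rw [e2, e1]
  congr 2
  -- the last isomorphism
  have hxr' : ∀ (x : AlgebraicClosure k) (z : Pt k (Fin (n + (κ + κ)) × Fin (N + 1))),
      xr (dact (fun i => if i ∈ F0 ∪ F1 then 0 else jw _ N i) x z) =
        dact (jw n N) x (xr z) := by
    intro x z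
    funext p
    unfold xr dact
    beta_reduce
    rw [if_neg (hnx p)]
    rfl
  have hval : Valid f (S ∩ {z | ∀ i ∈ F0 ∪ F1, z i = algebraMap k _ ((fun _ => 0 : _ → k) i)})
      (fun i => if i ∈ F0 ∪ F1 then 0 else jw _ N i) N (bx n κ N) := by
    refine ⟨hSc.inter (Constr.ballFinset _ fun p _ => ?_), hT.pos, ?_,
      fun z hz => ?_, fun i j hij => by
        simp only [inv_bx n κ N i j hij, ite_self]⟩
    rotate_left 2
    · rw [cbase_bx]
      exact hT.base _ hz.1.1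
    · exact Constr.eq (IsPF.coord _) (IsPF.const _)
    · rintro x hx z ⟨⟨g1, g2⟩, g6⟩
      refine ⟨⟨?_, fun p g3 g4 g5 => ?_⟩, fun p hp => ?_⟩
      · rw [hxr']
        exact hT.stable x hx _ g1
      · show x ^ _ * z p = 0
        rw [g2 p g3 g4 g5, mul_zero]
      · have h2 := g6 p hp
        show x ^ _ * z p = _
        rw [h2, map_zero, mul_zero]
  have hall : ∀ z ∈ (S ∩ {z | ∀ i ∈ F0 ∪ F1, z i = algebraMap k _ ((fun _ => 0 : _ → k) i)}),
      ∀ p : Fin (n + (κ + κ)) × Fin (N + 1), n ≤ (p.1 : ℕ) → z p = 0 := by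
    rintro z ⟨⟨g1, g2⟩, g6⟩ p g3
    by_cases h : p ∈ F0 ∪ F1
    · rw [g6 p h, map_zero]
    · rw [Finset.mem_union, not_or] at h
      exact g2 p g3 h.1 h.2
  refine isoR M hval hT (fun z => xr z) (fun z => ex0 z)
    (regularOn_poly (fun p => IsPF.coord _) _) (regularOn_poly (fun p => isPF_ex0 p) _)
    (fun z hz => hz.1.1) ?_ ?_ ?_ (fun _ _ => rfl) ?_
  · intro z hz
    refine ⟨⟨?_, fun p g3 _ _ => ex0_ge z p g3⟩, fun p hp => ?_⟩
    · rw [xr_ex0]
      exact hz
    · have h3 : n ≤ (p.1 : ℕ) := (Finset.mem_union.1 hp).elim (h0 p) (h1 p)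
      rw [map_zero]
      exact ex0_ge z p h3
  · rintro z hz
    funext p
    obtain ⟨i, l⟩ := p
    rcases Nat.lt_or_ge (i : ℕ) n with h | h
    · rw [xv_of_lt i h]
      exact ex0_xv _ _ _
    · show ex0 (xr z) (i, l) = _
      rw [ex0_ge _ _ h]
      exact (hall z hz (i, l) h).symm
  · intro z _
    exact xr_ex0 z
  · intro x _ z _
    exact hxr' x z

end Pool.Agent.T6.H16.MR
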