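import Pool.Agent.T6.H16.MR.Q3

set_option autoImplicit false

/-! The classes of the jets of `f + ∑ y_i z_i` over `{f = 0}`: the sum. -/

namespace Pool.Agent.T6.H16.MR

open MvPolynomial
open Pool.Agent.W428.MOT
open Pool.Agent.Y229.RE (emb yv zv xv)
open Pool.Agent.W375.MT (echi_empty echi_biUnion)
open Pool.Agent.T6.H16.ME (Dst constr_Dst dact_ne dact_zero stable_Dst
  ne_zero_of_pow hyp coeff_arc' dst_disj geom_fin)

variable {k : Type} [Field k] {R : Type} [CommRing R] {n κ N : ℕ}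

/-- the decomposition of the jets -/
theorem jet_union (f : MvPolynomial (Fin n) k) (κ N : ℕ) :
    Jh f κ N = (Jh f κ N ∩ {z | ∀ i l, z (yv n i, l) = 0}) ∪
      ⋃ q ∈ (Finset.univ.filter fun q : Fin (N + 1) × Fin κ => 0 < (q.1 : ℕ)),
        Jh f κ N ∩ Dst q.1 q.2 := by
  classical
  ext z
  simp only [Set.mem_union, Set.mem_inter_iff, Set.mem_iUnion, Finset.mem_filter,
    Finset.mem_univ, true_and, exists_prop, Set.mem_ofPred_eq]
  constructor
  · intro hz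
    by_cases h0 : ∀ i l, z (yv n i, l) = 0
    · exact Or.inl ⟨hz, h0⟩
    · right
      push Not at h0
      obtain ⟨i1, l1, h1⟩ := h0
      have hex : ∃ l : ℕ, ∃ (h : l < N + 1) (i : Fin κ), z (yv n i, ⟨l, h⟩) ≠ 0 :=
        ⟨l1, l1.2, i1, h1⟩
      obtain ⟨hl, hi⟩ := Nat.find_spec hex
      have hmin : ∀ i (l : Fin (N + 1)), (l : ℕ) < Nat.find hex → z (yv n i, l) = 0 := by
        intro i l hl'
        by_contra hne
        exact Nat.find_min hex hl' ⟨l.2, i, hne⟩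
      set j : Fin (N + 1) := ⟨Nat.find hex, hl⟩ with hj
      have hex2 : ∃ i : ℕ, ∃ h : i < κ, z (yv n ⟨i, h⟩, j) ≠ 0 := by
        obtain ⟨i, hi⟩ := hi
        exact ⟨i, i.2, hi⟩
      obtain ⟨hi1, hi2⟩ := Nat.find_spec hex2
      refine ⟨(j, ⟨Nat.find hex2, hi1⟩), ?_, hz, hmin, fun i hi' => ?_, hi2⟩
      · by_contra h0
        have h3 : j = 0 := Fin.ext (by simpa using h0)
        exact hi2 ((congrArg (fun q => z (yv n ⟨Nat.find hex2, hi1⟩, q)) h3).trans (hz.1 _).1)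
      · by_contra hne
        exact Nat.find_min hex2 hi' ⟨i.2, hne⟩
  · rintro (h | ⟨q, -, h, -⟩)
    · exact h.1
    · exact h

/-- **The class of the jets of `f + ∑ y_i z_i`.** -/
theorem hyp_sum {f : MvPolynomial (Fin n) k} (M : EMeas f R) (κ : ℕ) (hN : 0 < N) :
    M.χ _ (Jh f κ N) (jw _ N) N (bx n κ N) =
      M.χ _ (Jc f N N) (jw n N) N (jb n N) * M.L ^ (κ * N) +
      ∑ j ∈ Finset.Icc 1 N, M.χ _ (Jc f N j) (jw n N) N (jb n N) * (M.L ^ κ - 1) *
        M.L ^ (κ * (N - j) + ((κ - 1) * N + j)) := by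
  classical
  have hV := valid_Jh f κ N hN
  have hDV : ∀ q : Fin (N + 1) × Fin κ, Valid f (Jh f κ N ∩ Dst q.1 q.2)
      (jw _ N) N (bx n κ N) := fun q =>
    sub_mk hV (hV.constr.inter (constr_Dst _ _)) Set.inter_subset_left fun x hx z hz =>
      ⟨hV.stable x hx z hz.1, stable_Dst _ _ (ne_zero_of_pow hN hx) hz.2⟩
  obtain ⟨e1, e2⟩ := echi_biUnion M hV
    (Finset.univ.filter fun q : Fin (N + 1) × Fin κ => 0 < (q.1 : ℕ))
    (fun q => Jh f κ N ∩ Dst q.1 q.2) (fun q _ => hDV q) (fun q _ q' _ h =>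
      (dst_disj (by simpa using h)).mono Set.inter_subset_right Set.inter_subset_right)
  have h0V : Valid f (Jh f κ N ∩ {z | ∀ i l, z (yv n i, l) = 0})
      (jw _ N) N (bx n κ N) :=
    sub_mk hV (hV.constr.inter (Constr.all fun i => Constr.all fun l => Constr.eqz (IsPF.coord _)))
      Set.inter_subset_left fun x hx z hz => ⟨hV.stable x hx z hz.1, fun i l => dact_zero (hz.2 i l)⟩
  have hdis : Disjoint (Jh f κ N ∩ {z | ∀ i l, z (yv n i, l) = 0})
      (⋃ q ∈ (Finset.univ.filter fun q : Fin (N + 1) × Fin κ => 0 < (q.1 : ℕ)),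
        Jh f κ N ∩ Dst q.1 q.2) := by
    rw [Set.disjoint_left]
    rintro z ⟨-, h1⟩ h2
    simp only [Set.mem_iUnion] at h2
    obtain ⟨q, -, -, h3⟩ := h2
    exact h3.2.2 (h1 _ _)
  conv_lhs => rw [jet_union f κ N]
  rw [M.add _ _ _ _ _ h0V e2 hdis, e1, stratum0 M hN]
  congr 1
  have h1 : ∀ q ∈ (Finset.univ.filter fun q : Fin (N + 1) × Fin κ => 0 < (q.1 : ℕ)),
      M.χ _ (Jh f κ N ∩ Dst q.1 q.2) (jw _ N) N (bx n κ N) =
      M.χ _ (Jc f N q.1) (jw n N) N (jb n N) * (M.L - 1) *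
        M.L ^ (κ * (N - q.1) + (κ - 1 - q.2) + ((κ - 1) * N + q.1)) := fun q hq =>
    stratum M hN q.1 (Finset.mem_filter.1 hq).2 q.2
  rw [Finset.sum_congr rfl h1, Finset.sum_filter, Fintype.sum_prod_type]
  have h2 : ∀ j : Fin (N + 1), (∑ i : Fin κ, if 0 < (j : ℕ) then
      M.χ _ (Jc f N j) (jw n N) N (jb n N) * (M.L - 1) *
        M.L ^ (κ * (N - j) + (κ - 1 - i) + ((κ - 1) * N + j)) else 0) =
      if 0 < (j : ℕ) then M.χ _ (Jc f N j) (jw n N) N (jb n N) * (M.L ^ κ - 1) *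
        M.L ^ (κ * (N - j) + ((κ - 1) * N + j)) else 0 := by
    intro j
    split_ifs with h
    · rw [← geom_fin M.L κ, Finset.mul_sum, Finset.sum_mul]
      refine Finset.sum_congr rfl fun i _ => ?_
      rw [show κ * (N - (j : ℕ)) + (κ - 1 - (i : ℕ)) + ((κ - 1) * N + (j : ℕ)) =
        (κ - 1 - (i : ℕ)) + (κ * (N - (j : ℕ)) + ((κ - 1) * N + (j : ℕ))) by ring, pow_add]
      ring
    · exact Finset.sum_const_zero
  simp only [h2]
  rw [Fin.sum_univ_eq_sum_range (fun j => if 0 < j then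
      M.χ _ (Jc f N j) (jw n N) N (jb n N) * (M.L ^ κ - 1) *
        M.L ^ (κ * (N - j) + ((κ - 1) * N + j)) else 0) (N + 1), ← Finset.sum_filter]
  refine Finset.sum_congr ?_ fun _ _ => rfl
  ext j
  simp only [Finset.mem_filter, Finset.mem_range, Finset.mem_Icc]
  omega

end Pool.Agent.T6.H16.MR
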