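import Pool.Agent.T6.H16.MR.Q4
import Pool.Agent.T6.H16.ME.S2

set_option autoImplicit false

/-! The equivariant motivic zeta functions of `f` and of `f + ∑ y_i z_i`, over `{f = 0}`. -/

namespace Pool.Agent.T6.H16.MR

open MvPolynomial
open Pool.Agent.W428.MOT
open Pool.Agent.Y229.RE (emb yv zv xv)
open Pool.Agent.TH216.MF (ratR geoR_mul geoR_mem XR_mem CR_mem)
open Pool.Agent.T6.H16.ME (hyp coeff_arc' coeff_dact delta_pow dact_zero rsj exj rsj_exj coeff_rsj)

variable {k : Type} [Field k] {R : Type} [CommRing R] {n κ N : ℕ}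

/-- the `j`-jets with origin `0` on which `f` vanishes mod `t ^ (j + 1)` -/
def Jz (f : MvPolynomial (Fin n) k) (j : ℕ) : Set (Pt k (Fin n × Fin (j + 1))) :=
  {z | ∀ l ≤ j, PowerSeries.coeff l (aeval (arc z) f) = 0}

theorem constr_Jz (f : MvPolynomial (Fin n) k) (j : ℕ) : Constr (Jz f j) := by
  refine Constr.allLe j fun l _ => ?_
  exact Constr.eqz (IsPA.aeval (fun i z => arc z i) (fun i => isPA_arc i) f l)

theorem gm_Jz (f : MvPolynomial (Fin n) k) (j : ℕ) (s : AlgebraicClosure k)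
    (z : Pt k (Fin n × Fin (j + 1))) (hz : z ∈ Jz f j) : dact (jw n j) s z ∈ Jz f j :=
  fun l hl => by rw [coeff_dact, hz l hl, mul_zero]

theorem base_Jz (f : MvPolynomial (Fin n) k) (j : ℕ) (z : Pt k (Fin n × Fin (j + 1)))
    (hz : z ∈ Jz f j) : aeval (cbase (jb n j) z) f = 0 := by
  rw [← coeff0]
  exact hz 0 (Nat.zero_le _)

/-- **The conditions up to `j < N`: change of level and of group.** -/
theorem level {f : MvPolynomial (Fin n) k} (M : EMeas f R) (j : ℕ) (hj : j < N) :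
    M.χ _ (Jc f N j) (jw n N) N (jb n N) =
      M.χ _ (Jz f j) (jw n j) 1 (jb n j) * M.L ^ (n * (N - j)) := by
  classical
  have hN : 0 < N := by omega
  set F1 : Finset (Fin n × Fin (N + 1)) := Finset.univ ×ˢ Finset.Ioi ⟨j, by omega⟩ with hF1
  have hcard : F1.card = n * (N - j) := by
    rw [hF1, Finset.card_product, Fin.card_Ioi, Finset.card_univ, Fintype.card_fin]
    simp
  have hmem : ∀ p, p ∈ F1 ↔ j < (p.2 : ℕ) := by
    intro p
    rw [hF1, Finset.mem_product, Finset.mem_Ioi]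
    exact ⟨fun h => h.2, fun h => ⟨Finset.mem_univ _, h⟩⟩
  have hFree : S_EFree := Pool.Agent.W230.ME.Free.main
  have e1 := hFree M (Jc f N j) (jw n N) N (jb n N) ∅ F1 (fun _ => 0)
    (Finset.disjoint_empty_left _) (valid_Jc f N j hN) (fun i p hp => by
      unfold jb at hp
      rw [Option.some.injEq] at hp
      rw [← hp]
      refine ⟨by simp, ?_⟩
      rw [hmem]
      simp) (by
    intro z w hzw g2 l hl
    rw [← g2 l hl]
    refine Pool.Agent.W375.MT.coeff_aeval_congr f j _ _ (fun i q hq => ?_) l hl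
    rw [coeff_arc' _ _ _ (by omega), coeff_arc' _ _ _ (by omega)]
    exact hzw _ (by simp) (by rw [hmem]; simp only; omega))
  simp only [Finset.notMem_empty, false_implies, implies_true, Set.ofPred_true, Set.inter_univ,
    Finset.empty_union, map_zero, Finset.card_empty, pow_zero, mul_one, hcard] at e1
  rw [e1]
  congr 1
  rw [gm M (Jz f j) (jw n j) (jb n j) (constr_Jz f j) (fun s _ z hz => gm_Jz f j s z hz)
    (base_Jz f j) (inv_jb n j) 1 N one_pos hN]
  have hle : j ≤ N := hj.le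
  have hVz : Valid f (Jz f j) (jw n j) N (jb n j) :=
    ⟨constr_Jz f j, hN, fun x _ z hz => gm_Jz f j x z hz, base_Jz f j, inv_jb n j⟩
  refine isoR M ⟨(constr_Jc f N j).inter (Constr.ballFinset _ fun p _ =>
    Constr.eqz (IsPF.coord _)), hN, ?_, fun z hz => base_Jc f hN hz.1, fun i p hp => by
      simp only [inv_jb n N i p hp, ite_self]⟩ hVz (rsj j hle) (exj j N)
    (regularOn_poly (fun p => IsPF.coord _) _) (regularOn_poly (fun p => ?_) _) ?_ ?_ ?_ ?_ ?_ ?_
  · rintro x hx z ⟨g1, g2⟩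
    have hρ : dact (fun i => if i ∈ F1 then 0 else jw n N i) x z = dact (jw n N) x z := by
      funext p
      unfold dact
      by_cases hp : p ∈ F1
      · rw [show z p = 0 from g2 p hp, mul_zero, mul_zero]
      · beta_reduce
        rw [if_neg hp]
    rw [hρ]
    exact ⟨(valid_Jc f N j hN).stable x hx z g1, fun p hp => dact_zero (g2 p hp)⟩
  · unfold exj
    split_ifs with h
    · exact IsPF.coord _
    · exact IsPF.zero
  · rintro z ⟨g2, _⟩ l hl
    rw [coeff_rsj j hle f z l hl, g2 l hl, if_neg (by omega)]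
  · intro z g2
    refine ⟨fun l hl => ?_, fun p hp => ?_⟩
    · rw [← coeff_rsj j hle f _ l hl, rsj_exj, g2 l hl, if_neg (by omega)]
    · show exj j N z p = 0
      unfold exj
      rw [dif_neg]
      have := (hmem p).1 hp
      omega
  · rintro z ⟨_, g2⟩
    funext p
    show exj j N (rsj j hle z) p = z p
    unfold exj rsj
    split_ifs with h
    · rfl
    · exact (g2 p ((hmem p).2 (by omega))).symm
  · intro z _
    exact rsj_exj j hle z
  · intro z _
    rfl
  · rintro x _ z ⟨_, g2⟩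
    funext p
    unfold rsj dact
    beta_reduce
    rw [if_neg]
    · rfl
    · rw [hmem]
      simp only
      have := p.2.2
      omega

/-! ### The series -/

/-- the coefficients -/
noncomputable def af {f : MvPolynomial (Fin n) k} (M : EMeas f R) (y : Rˣ) (N : ℕ) : R :=
  M.χ _ (Jc f N N) (jw n N) N (jb n N) * ((y⁻¹ : Rˣ) : R) ^ (n * N)

/-- the coefficients for `f + ∑ y_i z_i` -/
noncomputable def ah {f : MvPolynomial (Fin n) k} (M : EMeas f R) (y : Rˣ) (κ N : ℕ) : R :=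
  M.χ _ (Jh f κ N) (jw _ N) N (bx n κ N) * ((y⁻¹ : Rˣ) : R) ^ ((n + (κ + κ)) * N)

/-- the coefficients of the naive series -/
noncomputable def bf {f : MvPolynomial (Fin n) k} (M : EMeas f R) (y : Rˣ) (j : ℕ) : R :=
  M.χ _ (Jz f j) (jw n j) 1 (jb n j) * ((y⁻¹ : Rˣ) : R) ^ (n * j)

theorem af_hyp {f : MvPolynomial (Fin n) k} (M : EMeas f R) (y : Rˣ) (hy : M.L = y) (κ : ℕ)
    (hN : 0 < N) : (y : R) ^ (κ * N) * ((y⁻¹ : Rˣ) : R) ^ κ * ah M y κ N =
      af M y N + ((y : R) ^ κ - 1) * ((y⁻¹ : Rˣ) : R) *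
        ∑ j ∈ Finset.Icc 1 (N - 1), bf M y j * ((y : R) ^ (κ - 1)) ^ (N - 1 - j) := by
  set Y : R := ((y⁻¹ : Rˣ) : R) with hY
  have hyY : ∀ m : ℕ, (y : R) ^ m * Y ^ m = 1 := by
    intro m
    rw [← mul_pow, hY, Units.mul_inv, one_pow]
  unfold af ah
  rw [hyp_sum M κ hN, hy]
  rcases Nat.eq_zero_or_pos κ with rfl | hκ
  · simp only [pow_zero, sub_self, mul_zero, zero_mul, Finset.sum_const_zero, add_zero, one_mul,
      mul_one]
  obtain ⟨c, rfl⟩ : ∃ c, κ = c + 1 := ⟨κ - 1, by omega⟩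
  obtain ⟨N', rfl⟩ : ∃ N', N = N' + 1 := ⟨N - 1, by omega⟩
  rw [Finset.sum_Icc_succ_top (by omega)]
  have h1 : ∀ j ∈ Finset.Icc 1 N',
      M.χ _ (Jc f (N' + 1) j) (jw n (N' + 1)) (N' + 1) (jb n (N' + 1)) * ((y : R) ^ (c + 1) - 1) *
        (y : R) ^ ((c + 1) * (N' + 1 - j) + ((c + 1 - 1) * (N' + 1) + j)) *
        ((y : R) ^ ((c + 1) * (N' + 1)) * Y ^ (c + 1) *
          Y ^ ((n + ((c + 1) + (c + 1))) * (N' + 1))) =
      ((y : R) ^ (c + 1) - 1) * Y * (bf M y j * ((y : R) ^ c) ^ (N' - j)) := by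
    intro j hj
    rw [Finset.mem_Icc] at hj
    rw [level M j (by omega), hy]
    unfold bf
    rw [← hY]
    obtain ⟨e, rfl⟩ : ∃ e, N' = j + e := ⟨N' - j, by omega⟩
    have e1 : j + e + 1 - j = e + 1 := by omega
    have e2 : j + e - j = e := by omega
    rw [e1, e2, Nat.add_sub_cancel]
    have h2 : (y : R) ^ (n * (e + 1)) * (y : R) ^ ((c + 1) * (e + 1) + (c * (j + e + 1) + j)) *
        ((y : R) ^ ((c + 1) * (j + e + 1)) * Y ^ (c + 1) *
          Y ^ ((n + ((c + 1) + (c + 1))) * (j + e + 1))) =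
        Y * (Y ^ (n * j) * ((y : R) ^ c) ^ e) := by
      have h3 : (y : R) ^ (n * (e + 1)) * (y : R) ^ ((c + 1) * (e + 1) + (c * (j + e + 1) + j)) *
          ((y : R) ^ ((c + 1) * (j + e + 1)) * Y ^ (c + 1) *
          Y ^ ((n + ((c + 1) + (c + 1))) * (j + e + 1))) =
          ((y : R) ^ (n * (e + 1) + ((c + 1) * (e + 1) + (c * (j + e + 1) + j)) +
            (c + 1) * (j + e + 1) - c * e) *
          Y ^ (n * (e + 1) + ((c + 1) * (e + 1) + (c * (j + e + 1) + j)) +
            (c + 1) * (j + e + 1) - c * e)) * (Y * (Y ^ (n * j) * ((y : R) ^ c) ^ e)) := by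
        have h4 : c * e ≤ n * (e + 1) + ((c + 1) * (e + 1) + (c * (j + e + 1) + j)) +
            (c + 1) * (j + e + 1) := by nlinarith
        obtain ⟨s, hs⟩ := Nat.exists_eq_add_of_le h4
        rw [hs, Nat.add_sub_cancel_left]
        have h5 : (c + 1) + (n + ((c + 1) + (c + 1))) * (j + e + 1) = s + (1 + n * j) := by
          have h6 : c * e + s = n * (e + 1) + ((c + 1) * (e + 1) + (c * (j + e + 1) + j)) +
            (c + 1) * (j + e + 1) := hs.symm
          nlinarith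
        calc _ = ((y : R) ^ (n * (e + 1) + ((c + 1) * (e + 1) + (c * (j + e + 1) + j)) +
              (c + 1) * (j + e + 1))) *
              Y ^ ((c + 1) + (n + ((c + 1) + (c + 1))) * (j + e + 1)) := by ring
          _ = _ := by
              rw [hs, h5]
              ring
      rw [h3, hyY, one_mul]
    linear_combination (M.χ _ (Jz f j) (jw n j) 1 (jb n j) * ((y : R) ^ (c + 1) - 1)) * h2
  have h2 : (∑ j ∈ Finset.Icc 1 N',
      M.χ _ (Jc f (N' + 1) j) (jw n (N' + 1)) (N' + 1) (jb n (N' + 1)) * ((y : R) ^ (c + 1) - 1) *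
        (y : R) ^ ((c + 1) * (N' + 1 - j) + ((c + 1 - 1) * (N' + 1) + j))) *
        ((y : R) ^ ((c + 1) * (N' + 1)) * Y ^ (c + 1) *
          Y ^ ((n + ((c + 1) + (c + 1))) * (N' + 1))) =
      ((y : R) ^ (c + 1) - 1) * Y *
        ∑ j ∈ Finset.Icc 1 N', bf M y j * ((y : R) ^ c) ^ (N' - j) := by
    rw [Finset.sum_mul, Finset.mul_sum]
    exact Finset.sum_congr rfl h1
  simp only [Nat.add_sub_cancel] at h2 ⊢
  rw [← h2]
  have h3 := hyY ((c + 1) * (N' + 1))
  have h4 := hyY (c + 1)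
  have e3 : N' + 1 - (N' + 1) = 0 := Nat.sub_self _
  rw [e3, mul_zero, zero_add]
  have e4 : c * (N' + 1) + (N' + 1) = (c + 1) * (N' + 1) := by ring
  rw [e4]
  have e5 : (n + (c + 1 + (c + 1))) * (N' + 1) =
      n * (N' + 1) + ((c + 1) * (N' + 1) + (c + 1) * (N' + 1)) := by ring
  rw [e5, pow_add, pow_add]
  set P := (y : R) ^ ((c + 1) * (N' + 1)) with hP
  set Q := Y ^ ((c + 1) * (N' + 1)) with hQ
  set a := (y : R) ^ (c + 1) with ha
  set b := Y ^ (c + 1) with hb
  set x := M.χ _ (Jc f (N' + 1) (N' + 1)) (jw n (N' + 1)) (N' + 1) (jb n (N' + 1)) with hx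
  set w := Y ^ (n * (N' + 1)) with hw
  linear_combination (x * w * b + x * w * (a - 1) * b) * (P * Q + 1) * h3 + x * w * h4

end Pool.Agent.T6.H16.MR
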