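import Pool.Agent.T6.H16.MR.S1
import Pool.Agent.Y231.N4.E1

set_option autoImplicit false

/-! The zeta function of `f` from those of `f + ∑ y_i z_i` for two numbers of pairs `y_i, z_i`,
over `{f = 0}`. -/

namespace Pool.Agent.T6.H16.MR

open MvPolynomial
open Pool.Agent.W428.MOT
open Pool.Agent.TH216.MF (ratR geoR_mul geoR_mem XR_mem CR_mem)
open Pool.Agent.T6.H16.ME (sg sg_mul sg_succ sg_succ' shiftS rescale_mem rescale_C rescale_X'
  ratR_mono)

variable {k : Type} [Field k] {R : Type} [CommRing R] {n κ N : ℕ} {f : MvPolynomial (Fin n) k}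

/-- the series -/
noncomputable def ser (M : EMeas f R) (y : Rˣ) :
    PowerSeries R := PowerSeries.mk fun N => if 0 < N then af M y N else 0

theorem ser_eq (M : EMeas f R) (y : Rˣ) : Pool.Agent.Y231.N4.serM M y = ser M y := rfl

/-- the series of `f + ∑ y_i z_i` -/
noncomputable def serh (M : EMeas f R) (y : Rˣ) (κ : ℕ) :
    PowerSeries R := PowerSeries.mk fun N => if 0 < N then ah M y κ N else 0

/-- the normalised series of `f + ∑ y_i z_i` -/
noncomputable def Ak (M : EMeas f R) (y : Rˣ) (κ : ℕ) :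
    PowerSeries R :=
  PowerSeries.C (((y⁻¹ : Rˣ) : R) ^ κ) * PowerSeries.rescale ((y : R) ^ κ) (serh M y κ)

/-- the naive series -/
noncomputable def Bs (M : EMeas f R) (y : Rˣ) :
    PowerSeries R := PowerSeries.mk fun N => if 0 < N then bf M y N else 0

noncomputable def Ds (M : EMeas f R) (y : Rˣ) (m : ℕ) :
    PowerSeries R := PowerSeries.mk fun N =>
  ∑ j ∈ Finset.Icc 1 (N - 1), bf M y j * ((y : R) ^ m) ^ (N - 1 - j)

theorem ds_mul (M : EMeas f R) (y : Rˣ) (m : ℕ) :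
    Ds M y m * (1 - PowerSeries.C ((y : R) ^ m) * PowerSeries.X) = Bs M y * PowerSeries.X := by
  have e : Ds M y m * (1 - PowerSeries.C ((y : R) ^ m) * PowerSeries.X) =
      Ds M y m - PowerSeries.C ((y : R) ^ m) * (Ds M y m * PowerSeries.X) := by ring
  rw [e]
  ext N
  rw [map_sub, PowerSeries.coeff_C_mul]
  rcases N with _ | N
  · rw [PowerSeries.coeff_zero_mul_X, PowerSeries.coeff_zero_mul_X, mul_zero, sub_zero]
    unfold Ds
    rw [PowerSeries.coeff_mk]
    simp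
  · rw [PowerSeries.coeff_succ_mul_X, PowerSeries.coeff_succ_mul_X]
    unfold Ds Bs
    rw [PowerSeries.coeff_mk, PowerSeries.coeff_mk, PowerSeries.coeff_mk]
    rcases N with _ | N
    · simp
    · rw [if_pos (Nat.succ_pos _), Nat.add_sub_cancel, Nat.add_sub_cancel,
        Finset.sum_Icc_succ_top (by omega), Nat.sub_self, pow_zero, mul_one, Finset.mul_sum]
      have h1 : ∑ j ∈ Finset.Icc 1 N, bf M y j * ((y : R) ^ m) ^ (N + 1 - j) =
          ∑ j ∈ Finset.Icc 1 N, (y : R) ^ m * (bf M y j * ((y : R) ^ m) ^ (N - j)) := by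
        refine Finset.sum_congr rfl fun j hj => ?_
        rw [Finset.mem_Icc] at hj
        have h2 : N + 1 - j = (N - j) + 1 := by omega
        rw [h2, pow_succ]
        ring
      rw [h1]
      ring

theorem ak_eq (M : EMeas f R) (y : Rˣ) (hy : M.L = y) (m : ℕ) :
    Ak M y (m + 1) = ser M y + PowerSeries.C (((y : R) ^ (m + 1) - 1) *
      ((y⁻¹ : Rˣ) : R)) * Ds M y m := by
  ext N
  unfold Ak
  rw [PowerSeries.coeff_C_mul, PowerSeries.coeff_rescale, map_add, PowerSeries.coeff_C_mul]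
  unfold ser serh Ds
  rw [PowerSeries.coeff_mk, PowerSeries.coeff_mk, PowerSeries.coeff_mk]
  by_cases hN : 0 < N
  · rw [if_pos hN, if_pos hN]
    have h1 := af_hyp M y hy (m + 1) hN
    rw [Nat.add_sub_cancel] at h1
    rw [← h1]
    ring
  · have hN0 : N = 0 := by omega
    subst hN0
    simp

/-- the first form -/
theorem ak_mul (M : EMeas f R) (y : Rˣ) (hy : M.L = y) (m : ℕ) :
    (1 - PowerSeries.C ((y : R) ^ m) * PowerSeries.X) * Ak M y (m + 1) =
      (1 - PowerSeries.C ((y : R) ^ m) * PowerSeries.X) * ser M y +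
        PowerSeries.C (sg y (m + 1)) * (PowerSeries.C (((y : R) - 1) * ((y⁻¹ : Rˣ) : R)) *
          (Bs M y * PowerSeries.X)) := by
  rw [ak_eq M y hy m, ← ds_mul M y m, ← sg_mul, map_mul, map_mul, map_mul]
  ring

/-- **Elimination of the naive series.** -/
theorem elimA (M : EMeas f R) (y : Rˣ) (hy : M.L = y) (m : ℕ) :
    ser M y * (PowerSeries.C ((y : R) ^ (m + 1)) *
      (1 - PowerSeries.C ((y⁻¹ : Rˣ) : R) * PowerSeries.X)) =
      PowerSeries.C (sg y (m + 2)) * ((1 - PowerSeries.C ((y : R) ^ m) * PowerSeries.X) *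
        Ak M y (m + 1)) -
      PowerSeries.C (sg y (m + 1)) * ((1 - PowerSeries.C ((y : R) ^ (m + 1)) * PowerSeries.X) *
        Ak M y (m + 2)) := by
  have h1 := ak_mul M y hy m
  have h2 := ak_mul M y hy (m + 1)
  rw [h1, h2]
  have h3 : PowerSeries.C (sg y (m + 2)) = PowerSeries.C (sg y (m + 1)) +
      PowerSeries.C ((y : R) ^ (m + 1)) := by rw [← map_add, ← sg_succ]
  have h4 : PowerSeries.C (sg y (m + 2)) * PowerSeries.C ((y : R) ^ m) =
      PowerSeries.C (sg y (m + 1)) * PowerSeries.C ((y : R) ^ (m + 1)) +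
        PowerSeries.C ((y : R) ^ m) := by
    rw [← map_mul, ← map_mul, ← map_add]
    congr 1
    rw [sg_succ' y (m + 1)]
    ring
  have h5 : PowerSeries.C ((y : R) ^ (m + 1)) * PowerSeries.C ((y⁻¹ : Rˣ) : R) =
      PowerSeries.C ((y : R) ^ m) := by
    rw [← map_mul, pow_succ, mul_assoc, Units.mul_inv, mul_one]
  linear_combination (-(ser M y * PowerSeries.X)) * h5 - ser M y * h3 +
    (ser M y * PowerSeries.X) * h4

theorem ak_mem (M : EMeas f R) (y : Rˣ) (m : ℕ)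
    {S : Set (ℤ × ℤ)} (hS : ∀ p ∈ S, 0 < p.2)
    (h : (1 - PowerSeries.C ((y⁻¹ : Rˣ) : R) * PowerSeries.X) * serh M y (m + 1) ∈
      ratR y S) :
    (1 - PowerSeries.C ((y : R) ^ m) * PowerSeries.X) * Ak M y (m + 1) ∈
      ratR y (shiftS (m + 1) S) := by
  have h1 := rescale_mem y (m + 1) hS h
  rw [map_mul, map_sub, map_one, map_mul, rescale_C, rescale_X'] at h1
  have h2 : PowerSeries.C ((y⁻¹ : Rˣ) : R) * (PowerSeries.C ((y : R) ^ (m + 1)) *
      PowerSeries.X) = PowerSeries.C ((y : R) ^ m) * PowerSeries.X := by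
    rw [← mul_assoc, ← map_mul, pow_succ', ← mul_assoc, Units.inv_mul, one_mul]
  rw [h2] at h1
  have h3 := (ratR y (shiftS (m + 1) S)).mul_mem
    (CR_mem y (shiftS (m + 1) S) (((y⁻¹ : Rˣ) : R) ^ (m + 1))) h1
  unfold Ak
  convert h3 using 1
  ring

/-- **The zeta function of `f`.** -/
theorem mem_of_two (M : EMeas f R) (y : Rˣ) (hy : M.L = y)
    (m : ℕ) {S1 S2 : Set (ℤ × ℤ)} (hS1 : ∀ p ∈ S1, 0 < p.2) (hS2 : ∀ p ∈ S2, 0 < p.2)
    (h1 : (1 - PowerSeries.C ((y⁻¹ : Rˣ) : R) * PowerSeries.X) * serh M y (m + 1) ∈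
      ratR y S1)
    (h2 : (1 - PowerSeries.C ((y⁻¹ : Rˣ) : R) * PowerSeries.X) * serh M y (m + 2) ∈
      ratR y S2) :
    ser M y ∈ ratR y (insert (-1, 1) (shiftS (m + 1) S1 ∪ shiftS (m + 2) S2)) := by
  set T : Set (ℤ × ℤ) := insert (-1, 1) (shiftS (m + 1) S1 ∪ shiftS (m + 2) S2) with hT
  have g1 := ratR_mono y (T := T) (fun p hp => Or.inr (Or.inl hp)) (ak_mem M y m hS1 h1)
  have g2 := ratR_mono y (T := T) (fun p hp => Or.inr (Or.inr hp)) (ak_mem M y (m + 1) hS2 h2)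
  have g3 : ser M y * (PowerSeries.C ((y : R) ^ (m + 1)) *
      (1 - PowerSeries.C ((y⁻¹ : Rˣ) : R) * PowerSeries.X)) ∈ ratR y T := by
    rw [elimA M y hy m]
    exact (ratR y T).sub_mem ((ratR y T).mul_mem (CR_mem y _ _) g1)
      ((ratR y T).mul_mem (CR_mem y _ _) g2)
  have g4 := geoR_mul y (-1) 1 one_pos
  rw [show (1 : ℤ).toNat = 1 from rfl, zpow_neg_one, pow_one] at g4
  have g5 := (ratR y T).mul_mem (CR_mem y T (((y⁻¹ : Rˣ) : R) ^ (m + 1)))
    ((ratR y T).mul_mem g3 (geoR_mem y (S := T) (p := ((-1 : ℤ), (1 : ℤ)))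
      (Set.mem_insert _ _)))
  have g6 : PowerSeries.C (((y⁻¹ : Rˣ) : R) ^ (m + 1)) * PowerSeries.C ((y : R) ^ (m + 1)) = 1 := by
    rw [← map_mul, ← mul_pow, Units.inv_mul, one_pow, map_one]
  convert g5 using 1
  linear_combination (-(ser M y)) * g6 - (PowerSeries.C (((y⁻¹ : Rˣ) : R) ^ (m + 1)) *
    PowerSeries.C ((y : R) ^ (m + 1)) * ser M y) * g4

end Pool.Agent.T6.H16.MR
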