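import Pool.Agent.T6.H16.MR.Glob

set_option autoImplicit false

/-! Towers of compositions are stably sparse. -/

namespace Pool.Agent.T6.H16.MR

open MvPolynomial
open Pool.Agent.Y229.RE (emb yv zv xv emb_l emb_r)
open Pool.Agent.T6.H16.ME (hyp)
open Pool.Agent.W425.ND (spa)
open Pool.Agent.W425.SM (Ind)
open Pool.Agent.W426.SM (gord)
open Pool.Agent.W803.SM (gord_le exists_gord)

/-! ### Surjective endomorphisms -/

theorem inj_of_surj {A : Type} [CommRing A] [IsNoetherianRing A] (φ : A →+* A)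
    (h : Function.Surjective φ) : Function.Injective φ := by
  have hs : ∀ n : ℕ, Function.Surjective (φ^[n]) := fun n => h.iterate n
  let K : ℕ →o Ideal A :=
    { toFun := fun n => RingHom.ker (φ ^ n)
      monotone' := by
        refine monotone_nat_of_le_succ fun n x hx => ?_
        rw [RingHom.mem_ker] at hx ⊢
        rw [pow_succ']
        show φ ((φ ^ n) x) = 0
        rw [hx, map_zero] }
  obtain ⟨n, hn⟩ := monotone_stabilizes_iff_noetherian.2 (inferInstance : IsNoetherian A A) K
  rw [injective_iff_map_eq_zero]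
  intro x hx
  have hp : ∀ (m : ℕ) (y : A), (φ ^ m) y = φ^[m] y := by
    intro m
    induction m with
    | zero => intro y; rfl
    | succ m ih =>
      intro y
      rw [pow_succ, Function.iterate_succ_apply]
      show (φ ^ m) (φ y) = _
      rw [ih]
  obtain ⟨y, hy⟩ := hs n x
  have h1 : y ∈ K (n + 1) := by
    show y ∈ RingHom.ker (φ ^ (n + 1))
    rw [RingHom.mem_ker, hp, Function.iterate_succ_apply', hy, hx]
  rw [← hn (n + 1) (Nat.le_succ n)] at h1
  have h2 : (φ ^ n) y = 0 := h1
  rw [hp, hy] at h2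
  exact h2

section

variable {k : Type} [Field k] {N κ r : ℕ}

/-- `q_i` involves only the variables `x` and `z_j` with `j < i`. -/
def Tri (q : Fin κ → MvPolynomial (Fin (N + κ)) k) : Prop :=
  ∀ i j : Fin κ, Fin.natAdd N j ∈ (q i).vars → j < i

/-- substitution of `g` for `z` -/
noncomputable def sb (g : Fin κ → MvPolynomial (Fin N) k) :
    MvPolynomial (Fin (N + κ)) k →ₐ[k] MvPolynomial (Fin N) k :=
  aeval (Fin.append X g)

/-- `Φ(x, z) + ∑ y_i (z_i - q_i(x, z))` -/
noncomputable def cay (Φ : MvPolynomial (Fin (N + κ)) k)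
    (q : Fin κ → MvPolynomial (Fin (N + κ)) k) : MvPolynomial (Fin (N + (κ + κ))) k :=
  rename emb Φ + ∑ i : Fin κ, X (yv N i) * (X (zv N i) - rename emb (q i))

noncomputable def psi (g : Fin κ → MvPolynomial (Fin N) k) :
    MvPolynomial (Fin (N + κ)) k →ₐ[k] MvPolynomial (Fin (N + κ)) k :=
  (rename (Fin.castAdd κ)).comp (sb g)

lemma psi_x (g : Fin κ → MvPolynomial (Fin N) k) (i : Fin N) :
    psi g (X (Fin.castAdd κ i)) = X (Fin.castAdd κ i) := by
  unfold psi sb
  rw [AlgHom.comp_apply, aeval_X, Fin.append_left, rename_X]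

lemma psi_z (g : Fin κ → MvPolynomial (Fin N) k) (i : Fin κ) :
    psi g (X (Fin.natAdd N i)) = rename (Fin.castAdd κ) (g i) := by
  unfold psi sb
  rw [AlgHom.comp_apply, aeval_X, Fin.append_right]

lemma mem_of_vars {g : Fin κ → MvPolynomial (Fin N) k} {J : Ideal (MvPolynomial (Fin (N + κ)) k)}
    {P : MvPolynomial (Fin (N + κ)) k}
    (h : ∀ i : Fin κ, Fin.natAdd N i ∈ P.vars →
      X (Fin.natAdd N i) - psi g (X (Fin.natAdd N i)) ∈ J) :
    P - psi g P ∈ J := by
  rw [← Ideal.Quotient.eq]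
  refine MvPolynomial.hom_congr_vars (f₁ := Ideal.Quotient.mk J)
    (f₂ := (Ideal.Quotient.mk J).comp (psi g : MvPolynomial (Fin (N + κ)) k →+* _))
    (p₁ := P) (p₂ := P) ?_ ?_ rfl
  · ext c
    simp only [RingHom.comp_apply, RingHom.coe_coe]
    rw [← MvPolynomial.algebraMap_eq, AlgHom.commutes]
  · intro i hi _
    simp only [RingHom.comp_apply, RingHom.coe_coe]
    rw [Ideal.Quotient.eq]
    revert hi
    refine Fin.addCases (fun i hi => ?_) (fun i hi => ?_) i
    · rw [psi_x, sub_self]
      exact J.zero_mem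
    · exact h i hi

lemma tow_mem {q : Fin κ → MvPolynomial (Fin (N + κ)) k} (hq : Tri q)
    {g : Fin κ → MvPolynomial (Fin N) k} (hg : ∀ i, g i = sb g (q i)) (i : Fin κ) :
    X (Fin.natAdd N i) - psi g (X (Fin.natAdd N i)) ∈
      Ideal.span (Set.range fun i : Fin κ => (X (Fin.natAdd N i) - q i)) := by
  induction i using Fin.strong_induction_on with
  | _ i ih =>
    have h1 : q i - psi g (q i) ∈
        Ideal.span (Set.range fun i : Fin κ => (X (Fin.natAdd N i) - q i)) :=
      mem_of_vars fun j hj => ih j (hq i j hj)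
    have h2 : psi g (X (Fin.natAdd N i)) = psi g (q i) := by
      rw [psi_z]
      conv_lhs => rw [hg i]
      rfl
    rw [h2]
    have h3 : (X (Fin.natAdd N i) : MvPolynomial (Fin (N + κ)) k) - psi g (q i) =
        (X (Fin.natAdd N i) - q i) + (q i - psi g (q i)) := by ring
    rw [h3]
    exact Ideal.add_mem _ (Ideal.subset_span ⟨i, rfl⟩) h1

/-- the cofactors -/
lemma tow_cof {q : Fin κ → MvPolynomial (Fin (N + κ)) k} (hq : Tri q)
    {g : Fin κ → MvPolynomial (Fin N) k} (hg : ∀ i, g i = sb g (q i))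
    (Φ : MvPolynomial (Fin (N + κ)) k) :
    ∃ c : Fin κ → MvPolynomial (Fin (N + κ)) k, Φ = rename (Fin.castAdd κ) (sb g Φ) +
      ∑ i, c i * (X (Fin.natAdd N i) - q i) := by
  have h1 : Φ - psi g Φ ∈ Ideal.span (Set.range fun i : Fin κ => (X (Fin.natAdd N i) - q i)) :=
    mem_of_vars fun j _ => tow_mem hq hg j
  obtain ⟨c, hc⟩ := Ideal.mem_span_range_iff_exists_fun.1 h1
  refine ⟨c, ?_⟩
  rw [hc]
  show Φ = psi g Φ + (Φ - psi g Φ)
  ring

/-! ### The automorphism -/

/-- `x ↦ x`, `y_i ↦ y_i + c_i`, `z_i ↦ z_i - q_i` -/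
noncomputable def thH (c q : Fin κ → MvPolynomial (Fin (N + κ)) k) :
    MvPolynomial (Fin (N + (κ + κ))) k →ₐ[k] MvPolynomial (Fin (N + (κ + κ))) k :=
  aeval (Fin.append (fun i => X (xv κ i)) (Fin.append (fun i => X (yv N i) + rename emb (c i))
    (fun i => X (zv N i) - rename emb (q i))))

lemma thH_x (c q : Fin κ → MvPolynomial (Fin (N + κ)) k) (i : Fin N) :
    thH c q (X (xv κ i)) = X (xv κ i) := by
  unfold thH
  rw [aeval_X]
  exact Fin.append_left _ _ i

lemma thH_y (c q : Fin κ → MvPolynomial (Fin (N + κ)) k) (i : Fin κ) :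
    thH c q (X (yv N i)) = X (yv N i) + rename emb (c i) := by
  unfold thH
  rw [aeval_X]
  refine (Fin.append_right _ _ (Fin.castAdd κ i)).trans ?_
  exact Fin.append_left _ _ i

lemma thH_z (c q : Fin κ → MvPolynomial (Fin (N + κ)) k) (i : Fin κ) :
    thH c q (X (zv N i)) = X (zv N i) - rename emb (q i) := by
  unfold thH
  rw [aeval_X]
  refine (Fin.append_right _ _ (Fin.natAdd κ i)).trans ?_
  exact Fin.append_right _ _ i

/-- the range contains the polynomials in variables of the range -/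
lemma range_vars {c q : Fin κ → MvPolynomial (Fin (N + κ)) k} {P : MvPolynomial (Fin (N + κ)) k}
    (h : ∀ j : Fin κ, Fin.natAdd N j ∈ P.vars → X (zv N j) ∈ (thH c q).range) :
    rename emb P ∈ (thH c q).range := by
  have h1 : P ∈ Algebra.adjoin k (X '' (↑P.vars : Set (Fin (N + κ)))) := mem_supported_vars P
  have h2 : Algebra.adjoin k (X '' (↑P.vars : Set (Fin (N + κ)))) ≤
      (thH c q).range.comap (rename emb) := by
    refine Algebra.adjoin_le ?_
    rintro _ ⟨v, hv, rfl⟩
    show rename emb (X v) ∈ (thH c q).range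
    rw [rename_X]
    revert hv
    refine Fin.addCases (fun i _ => ?_) (fun j hv => ?_) v
    · rw [emb_l]
      exact ⟨X (xv κ i), thH_x c q i⟩
    · rw [emb_r]
      exact h j hv
  exact h2 h1

lemma range_z {c q : Fin κ → MvPolynomial (Fin (N + κ)) k} (hq : Tri q) (i : Fin κ) :
    X (zv N i) ∈ (thH c q).range := by
  induction i using Fin.strong_induction_on with
  | _ i ih =>
    have h1 : rename emb (q i) ∈ (thH c q).range := range_vars fun j hj => ih j (hq i j hj)
    have h2 : (X (zv N i) : MvPolynomial (Fin (N + (κ + κ))) k) =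
        thH c q (X (zv N i)) + rename emb (q i) := by
      rw [thH_z]
      ring
    rw [h2]
    exact Subalgebra.add_mem _ ⟨_, rfl⟩ h1

lemma thH_surj {c q : Fin κ → MvPolynomial (Fin (N + κ)) k} (hq : Tri q) :
    Function.Surjective (thH c q) := by
  have h1 : (thH c q).range = ⊤ := by
    rw [eq_top_iff, ← MvPolynomial.adjoin_range_X]
    refine Algebra.adjoin_le ?_
    rintro _ ⟨v, rfl⟩
    refine Fin.addCases (fun i => ?_) (fun l => ?_) v
    · exact ⟨X (xv κ i), thH_x c q i⟩
    · refine Fin.addCases (fun i => ?_) (fun i => ?_) l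
      · have h2 : (X (yv N i) : MvPolynomial (Fin (N + (κ + κ))) k) =
            thH c q (X (yv N i)) - rename emb (c i) := by
          rw [thH_y]
          ring
        show X (yv N i) ∈ (thH c q).range
        rw [h2]
        exact Subalgebra.sub_mem _ ⟨_, rfl⟩ (range_vars fun j _ => range_z hq j)
      · exact range_z hq i
  intro p
  have h2 : p ∈ (thH c q).range := by
    rw [h1]
    exact Algebra.mem_top
  exact h2

/-- the automorphism -/
noncomputable def thA {c q : Fin κ → MvPolynomial (Fin (N + κ)) k} (hq : Tri q) :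
    PAut k (N + (κ + κ)) :=
  AlgEquiv.ofBijective (thH c q) ⟨inj_of_surj (thH c q : MvPolynomial (Fin (N + (κ + κ))) k →+* _)
    (thH_surj hq), thH_surj hq⟩

lemma thA_hyp {c q : Fin κ → MvPolynomial (Fin (N + κ)) k} (hq : Tri q)
    {g : Fin κ → MvPolynomial (Fin N) k} {Φ : MvPolynomial (Fin (N + κ)) k}
    (hc : Φ = rename (Fin.castAdd κ) (sb g Φ) + ∑ i, c i * (X (Fin.natAdd N i) - q i)) :
    thA (c := c) hq (hyp (sb g Φ) κ) = cay Φ q := by
  show thH c q (hyp (sb g Φ) κ) = cay Φ q
  unfold hyp cay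
  rw [map_add, map_sum]
  have h1 : thH c q (rename (xv κ) (sb g Φ)) = rename (xv κ) (sb g Φ) := by
    have h2 : (thH c q).comp (rename (xv κ)) = rename (xv κ) := by
      refine MvPolynomial.algHom_ext fun i => ?_
      rw [AlgHom.comp_apply, rename_X, thH_x]
    exact congrFun (congrArg DFunLike.coe h2) _
  have h3 : ∀ p : MvPolynomial (Fin N) k, rename emb (rename (Fin.castAdd κ) p) =
      rename (xv κ) p := by
    intro p
    rw [rename_rename]
    congr 1
    congr 1
    funext i
    exact emb_l i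
  have h4 : rename emb Φ = rename (xv κ) (sb g Φ) +
      ∑ i, rename emb (c i) * (X (zv N i) - rename emb (q i)) := by
    conv_lhs => rw [hc]
    rw [map_add, h3, map_sum]
    congr 1
    refine Finset.sum_congr rfl fun i _ => ?_
    rw [map_mul, map_sub, rename_X, emb_r]
  rw [h1, h4, add_assoc, ← Finset.sum_add_distrib]
  congr 1
  refine Finset.sum_congr rfl fun i _ => ?_
  rw [map_mul, thH_y, thH_z]
  ring

/-! ### The inequality -/

/-- substitutions -/
lemma dvd_spa {n : ℕ} {A : Type} [CommRing A] [Algebra k A] (v : Fin r → Fin n → ℕ) (c : Fin r → k)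
    (a : Fin n → ℕ) (U : Fin n → Polynomial A)
    (hU : ∀ p, (Polynomial.X : Polynomial A) ^ a p ∣ U p) :
    (Polynomial.X : Polynomial A) ^ gord v a ∣ aeval U (spa v c) := by
  unfold spa
  rw [map_sum]
  refine Finset.dvd_sum fun j _ => ?_
  rw [map_mul, map_prod]
  refine Dvd.dvd.mul_left ?_ _
  refine (pow_dvd_pow _ (gord_le v a j)).trans ?_
  rw [← Finset.prod_pow_eq_pow_sum]
  refine Finset.prod_dvd_prod_of_dvd _ _ fun i _ => ?_
  rw [map_pow, aeval_X, pow_mul]
  exact pow_dvd_pow_of_dvd (hU i) _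

lemma aeval_cay {A : Type} [CommRing A] [Algebra k A] (Φ : MvPolynomial (Fin (N + κ)) k)
    (q : Fin κ → MvPolynomial (Fin (N + κ)) k) (U : Fin (N + (κ + κ)) → A) :
    aeval U (cay Φ q) = aeval (fun i => U (emb i)) Φ +
      ∑ i, U (yv N i) * (U (zv N i) - aeval (fun i => U (emb i)) (q i)) := by
  unfold cay
  rw [map_add, map_sum, aeval_rename]
  congr 1
  refine Finset.sum_congr rfl fun i _ => ?_
  rw [map_mul, map_sub, aeval_X, aeval_X, aeval_rename]
  rfl

lemma aeval_vars {A : Type} [CommRing A] [Algebra k A] {m : ℕ} (P : MvPolynomial (Fin m) k)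
    (U V : Fin m → A) (h : ∀ i ∈ P.vars, U i = V i) : aeval U P = aeval V P := by
  refine MvPolynomial.hom_congr_vars
    (f₁ := (aeval U : MvPolynomial (Fin m) k →ₐ[k] A).toRingHom)
    (f₂ := (aeval V : MvPolynomial (Fin m) k →ₐ[k] A).toRingHom) (p₁ := P) (p₂ := P) ?_ ?_ rfl
  · ext c
    simp
  · intro i hi _
    simp only [AlgHom.toRingHom_eq_coe, RingHom.coe_coe, aeval_X]
    exact h i hi

/-- points with coordinates `x, y, z` -/
def mk3 {A : Type} (x : Fin N → A) (y z : Fin κ → A) : Fin (N + (κ + κ)) → A :=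
  Fin.append x (Fin.append y z)

lemma mk3_x {A : Type} (x : Fin N → A) (y z : Fin κ → A) (i : Fin N) :
    mk3 x y z (xv κ i) = x i := Fin.append_left _ _ i

lemma mk3_y {A : Type} (x : Fin N → A) (y z : Fin κ → A) (i : Fin κ) :
    mk3 x y z (yv N i) = y i :=
  (Fin.append_right _ _ (Fin.castAdd κ i)).trans (Fin.append_left _ _ i)

lemma mk3_z {A : Type} (x : Fin N → A) (y z : Fin κ → A) (i : Fin κ) :
    mk3 x y z (zv N i) = z i :=
  (Fin.append_right _ _ (Fin.natAdd κ i)).trans (Fin.append_right _ _ i)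

lemma mk3_emb {A : Type} (x : Fin N → A) (y z : Fin κ → A) :
    (fun i => mk3 x y z (emb i)) = Fin.append x z := by
  funext i
  refine Fin.addCases (fun i => ?_) (fun i => ?_) i
  · rw [emb_l, mk3_x, Fin.append_left]
  · rw [emb_r, mk3_z, Fin.append_right]

lemma all3 {Q : Fin (N + (κ + κ)) → Prop} (h1 : ∀ i : Fin N, Q (xv κ i))
    (h2 : ∀ i : Fin κ, Q (yv N i)) (h3 : ∀ i : Fin κ, Q (zv N i)) : ∀ p, Q p := by
  intro p
  refine Fin.addCases (fun i => h1 i) (fun l => ?_) p
  exact Fin.addCases (fun i => h2 i) (fun i => h3 i) l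

/-- divisibility of the coefficient of `y_i` -/
lemma dvd_cay {A : Type} [CommRing A] [Algebra k A] (Φ : MvPolynomial (Fin (N + κ)) k)
    (q : Fin κ → MvPolynomial (Fin (N + κ)) k) (v : Fin r → Fin (N + (κ + κ)) → ℕ) (c : Fin r → k)
    (h : cay Φ q = spa v c) (a : Fin (N + (κ + κ)) → ℕ) (x : Fin N → Polynomial A)
    (z : Fin κ → Polynomial A) (hx : ∀ i, (Polynomial.X : Polynomial A) ^ a (xv κ i) ∣ x i)
    (hz : ∀ i, (Polynomial.X : Polynomial A) ^ a (zv N i) ∣ z i) :
    (Polynomial.X : Polynomial A) ^ gord v a ∣ aeval (Fin.append x z) Φ ∧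
    ∀ i, (Polynomial.X : Polynomial A) ^ gord v a ∣ (Polynomial.X : Polynomial A) ^ a (yv N i) *
      (z i - aeval (Fin.append x z) (q i)) := by
  have key : ∀ y : Fin κ → Polynomial A, (∀ i, (Polynomial.X : Polynomial A) ^ a (yv N i) ∣ y i) →
      (Polynomial.X : Polynomial A) ^ gord v a ∣ aeval (Fin.append x z) Φ +
        ∑ i, y i * (z i - aeval (Fin.append x z) (q i)) := by
    intro y hy
    have h1 := dvd_spa v c a (mk3 x y z) (all3 (fun i => by rw [mk3_x]; exact hx i)
      (fun i => by rw [mk3_y]; exact hy i) (fun i => by rw [mk3_z]; exact hz i))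
    rw [← h, aeval_cay, mk3_emb] at h1
    simpa only [mk3_y, mk3_z] using h1
  have h0 : (Polynomial.X : Polynomial A) ^ gord v a ∣ aeval (Fin.append x z) Φ := by
    have h1 := key (fun _ => 0) (fun i => dvd_zero _)
    simpa using h1
  refine ⟨h0, fun i => ?_⟩
  have h1 := key (fun j => if j = i then (Polynomial.X : Polynomial A) ^ a (yv N i) else 0)
    (fun j => by
      split_ifs with hj
      · rw [hj]
      · exact dvd_zero _)
  rw [Finset.sum_eq_single i (fun j _ hj => by rw [if_neg hj, zero_mul])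
    (fun h => absurd (Finset.mem_univ _) h), if_pos rfl] at h1
  exact (dvd_add_right h0).1 h1

/-- the pairs `y_i, z_i` -/
lemma le_pair {Φ : MvPolynomial (Fin (N + κ)) k}
    {q : Fin κ → MvPolynomial (Fin (N + κ)) k} (hq : Tri q) {v : Fin r → Fin (N + (κ + κ)) → ℕ}
    {c : Fin r → k} (h : cay Φ q = spa v c) (a : Fin (N + (κ + κ)) → ℕ) (i : Fin κ) :
    gord v a ≤ a (yv N i) + a (zv N i) := by
  have h1 := (dvd_cay (A := k) Φ q v c h a (fun _ => 0)
    (fun j => if j = i then Polynomial.X ^ a (zv N i) else 0) (fun _ => dvd_zero _) (fun j => by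
      split_ifs with hj
      · rw [hj]
      · exact dvd_zero _)).2 i
  have h2 := (dvd_cay (A := k) Φ q v c h a (fun _ => 0)
    (fun _ => 0) (fun _ => dvd_zero _) (fun j => dvd_zero _)).2 i
  have h3 : aeval (Fin.append (fun _ => (0 : Polynomial k))
      (fun j : Fin κ => if j = i then Polynomial.X ^ a (zv N i) else 0)) (q i) =
      aeval (Fin.append (fun _ => (0 : Polynomial k)) (fun _ => 0)) (q i) := by
    refine aeval_vars _ _ _ fun l hl => ?_
    revert hl
    refine Fin.addCases (fun l hl => ?_) (fun l hl => ?_) l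
    · rw [Fin.append_left, Fin.append_left]
    · rw [Fin.append_right, Fin.append_right, if_neg (ne_of_lt (hq i l hl))]
  rw [if_pos rfl, h3] at h1
  have h4 := dvd_sub h1 h2
  have h5 : (Polynomial.X : Polynomial k) ^ a (yv N i) * (Polynomial.X ^ a (zv N i) -
      aeval (Fin.append (fun _ => (0 : Polynomial k)) (fun _ => 0)) (q i)) -
      Polynomial.X ^ a (yv N i) * (0 -
        aeval (Fin.append (fun _ => (0 : Polynomial k)) (fun _ => 0)) (q i)) =
      Polynomial.X ^ (a (yv N i) + a (zv N i)) := by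
    rw [pow_add]
    ring
  rw [h5] at h4
  by_contra hcon
  rw [not_le] at hcon
  rw [Polynomial.X_pow_dvd_iff] at h4
  have h6 := h4 _ hcon
  rw [Polynomial.coeff_X_pow_self] at h6
  exact one_ne_zero h6

/-- the strict inequality -/
lemma tow_neg {Φ : MvPolynomial (Fin (N + κ)) k}
    {q : Fin κ → MvPolynomial (Fin (N + κ)) k} (hq : Tri q)
    {g : Fin κ → MvPolynomial (Fin N) k} (hg : ∀ i, g i = sb g (q i)) (hf : sb g Φ ≠ 0)
    {v : Fin r → Fin (N + (κ + κ)) → ℕ}
    {c : Fin r → k} (h : cay Φ q = spa v c) (a : Fin (N + (κ + κ)) → ℕ) (ha : 0 < gord v a) :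
    κ * gord v a < ∑ i, a i := by
  have hsum : ∑ i, a i = ∑ i, a (xv κ i) + ∑ i, (a (yv N i) + a (zv N i)) := by
    rw [Fin.sum_univ_add, Fin.sum_univ_add, Finset.sum_add_distrib]
    rfl
  have hle : κ * gord v a ≤ ∑ i, (a (yv N i) + a (zv N i)) := by
    have h1 := Finset.sum_le_sum (s := (Finset.univ : Finset (Fin κ)))
      (f := fun _ => gord v a) (g := fun i => a (yv N i) + a (zv N i))
      (fun i _ => le_pair hq h a i)
    simpa using h1
  by_contra hcon
  rw [not_lt, hsum] at hcon
  have hx : ∀ i, a (xv κ i) = 0 := by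
    intro i
    have h1 : ∑ i, a (xv κ i) = 0 := by omega
    exact Finset.sum_eq_zero_iff.1 h1 i (Finset.mem_univ _)
  have hyz : ∀ i, a (yv N i) + a (zv N i) = gord v a := by
    have h1 : ∑ i : Fin κ, gord v a = ∑ i, (a (yv N i) + a (zv N i)) := by
      have h2 : ∑ _i : Fin κ, gord v a = κ * gord v a := by simp
      omega
    intro i
    exact ((Finset.sum_eq_sum_iff_of_le fun i _ => le_pair hq h a i).1 h1 i
      (Finset.mem_univ _)).symm
  -- the substitution
  set x : Fin N → Polynomial (MvPolynomial (Fin N) k) := fun i => Polynomial.C (X i) with hxd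
  set z : Fin κ → Polynomial (MvPolynomial (Fin N) k) :=
    fun i => Polynomial.X ^ a (zv N i) * Polynomial.C (g i) with hzd
  obtain ⟨h1, h2⟩ := dvd_cay (A := MvPolynomial (Fin N) k) Φ q v c h a x z
    (fun i => by rw [hx i, pow_zero]; exact one_dvd _) (fun i => dvd_mul_right _ _)
  have hC : ∀ P : MvPolynomial (Fin (N + κ)) k,
      aeval (Fin.append x (fun i => Polynomial.C (g i))) P = Polynomial.C (sb g P) := by
    intro P
    have h3 : (aeval (Fin.append x (fun i => Polynomial.C (g i))) :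
        MvPolynomial (Fin (N + κ)) k →ₐ[k] Polynomial (MvPolynomial (Fin N) k)) =
        (Polynomial.CAlgHom (R := k) (A := MvPolynomial (Fin N) k)).comp (sb g) := by
      refine MvPolynomial.algHom_ext fun i => ?_
      rw [aeval_X, AlgHom.comp_apply]
      unfold sb
      rw [aeval_X]
      refine Fin.addCases (fun i => ?_) (fun i => ?_) i
      · rw [Fin.append_left, Fin.append_left]
        rfl
      · rw [Fin.append_right, Fin.append_right]
        rfl
    exact congrFun (congrArg DFunLike.coe h3) P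
  have hz0 : ∀ i, g i ≠ 0 → a (zv N i) = 0 := by
    intro i
    induction i using Fin.strong_induction_on with
    | _ i ih =>
      intro hgi
      by_contra hne
      have h3 : aeval (Fin.append x z) (q i) = Polynomial.C (g i) := by
        conv_rhs => rw [hg i]
        rw [← hC]
        refine aeval_vars _ _ _ fun l hl => ?_
        revert hl
        refine Fin.addCases (fun l hl => ?_) (fun l hl => ?_) l
        · rw [Fin.append_left, Fin.append_left]
        · rw [Fin.append_right, Fin.append_right]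
          simp only [hzd]
          by_cases hgl : g l = 0
          · rw [hgl, map_zero, mul_zero]
          · rw [ih l (hq i l hl) hgl, pow_zero, one_mul]
      have h4 := h2 i
      rw [h3, Polynomial.X_pow_dvd_iff] at h4
      have h5 := h4 (a (yv N i)) (by have := hyz i; omega)
      have h6 := Polynomial.coeff_X_pow_mul (z i - Polynomial.C (g i)) (a (yv N i)) 0
      rw [zero_add] at h6
      rw [h6, Polynomial.coeff_sub, Polynomial.coeff_C_zero] at h5
      simp only [hzd] at h5
      rw [Polynomial.coeff_X_pow_mul', if_neg (by omega), zero_sub, neg_eq_zero] at h5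
      exact hgi h5
  have h3 : aeval (Fin.append x z) Φ = Polynomial.C (sb g Φ) := by
    rw [← hC]
    congr 2
    congr 1
    funext i
    simp only [hzd]
    by_cases hgl : g i = 0
    · rw [hgl, map_zero, mul_zero]
    · rw [hz0 i hgl, pow_zero, one_mul]
  rw [h3, Polynomial.X_pow_dvd_iff] at h1
  have h4 := h1 0 ha
  rw [Polynomial.coeff_C_zero] at h4
  exact hf h4

/-- **Towers are stably sparse.** -/
theorem tow_stsp {Φ : MvPolynomial (Fin (N + κ)) k}
    {q : Fin κ → MvPolynomial (Fin (N + κ)) k} (hq : Tri q)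
    {g : Fin κ → MvPolynomial (Fin N) k} (hg : ∀ i, g i = sb g (q i)) (hf : sb g Φ ≠ 0)
    {v : Fin r → Fin (N + (κ + κ)) → ℕ} {c : Fin r → k} (hv : Ind v) (hc : ∀ j, c j ≠ 0)
    (h : cay Φ q = spa v c) : ∃ θ : PAut k (N + (κ + κ)), StSp (sb g Φ) κ v c θ := by
  obtain ⟨e, he⟩ := tow_cof hq hg Φ
  exact ⟨thA (c := e) hq, hv, hc, (thA_hyp hq he).trans h, fun a ha => tow_neg hq hg hf h a ha⟩

end

end Pool.Agent.T6.H16.MR
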