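import Pool.Agent.T6.H16.MR.Pull
import Pool.Agent.T6.H16.ME.Au

set_option autoImplicit false

/-! The series of `f + ∑ y_i z_i` in other polynomial coordinates. -/

namespace Pool.Agent.T6.H16.MR

open MvPolynomial
open Pool.Agent.W428.MOT
open Pool.Agent.Y229.RE (emb yv zv xv)
open Pool.Agent.T6.H16.ME (hyp tr coeff_tr tr_tr tr_dact coeff_arc')
open Pool.Agent.TH216.MF (ratR)

section

variable {k : Type} [Field k] {R : Type} [CommRing R] {n κ N : ℕ}

/-- polynomial coordinate changes -/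
abbrev PAut (k : Type) [Field k] (m : ℕ) : Type :=
  MvPolynomial (Fin m) k ≃ₐ[k] MvPolynomial (Fin m) k

/-- the points with `y = z = 0` in the new coordinates -/
def Cs (θ : PAut k (n + (κ + κ))) : Set (Pt k (Fin (n + (κ + κ)))) :=
  {b | ∀ i : Fin κ, aeval b (θ (X (yv n i))) = 0 ∧ aeval b (θ (X (zv n i))) = 0}

/-- the `x`-part in the new coordinates -/
noncomputable def Ts (θ : PAut k (n + (κ + κ))) : Fin n → MvPolynomial (Fin (n + (κ + κ))) k :=
  fun i => θ (X (xv κ i))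

theorem constr_Cs (θ : PAut k (n + (κ + κ))) : Constr (Cs θ) :=
  Constr.all fun _ => Constr.and (Constr.eqz (IsPF.poly _)) (Constr.eqz (IsPF.poly _))

theorem aeval_theta (θ : PAut k (n + (κ + κ))) (b : Pt k (Fin (n + (κ + κ))))
    (P : MvPolynomial (Fin (n + (κ + κ))) k) :
    aeval b (θ P) = aeval (fun j => aeval b (θ (X j))) P := by
  have h2 : (((aeval b : MvPolynomial (Fin (n + (κ + κ))) k →ₐ[k] AlgebraicClosure k).comp
      (θ : MvPolynomial (Fin (n + (κ + κ))) k →ₐ[k] MvPolynomial (Fin (n + (κ + κ))) k))) =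
        aeval (fun j => aeval b (θ (X j))) := by
    refine MvPolynomial.algHom_ext fun i => ?_
    rw [aeval_X]
    rfl
  rw [← h2]
  rfl

theorem base_theta {f : MvPolynomial (Fin n) k} {G : MvPolynomial (Fin (n + (κ + κ))) k}
    (θ : PAut k (n + (κ + κ))) (hG : θ (hyp f κ) = G) :
    ∀ b ∈ Cs θ, aeval b G = 0 → aeval (fun i => aeval b (Ts θ i)) f = 0 := by
  intro b hb h0
  rw [← hG, aeval_theta] at h0
  unfold hyp at h0
  rw [map_add, aeval_rename, map_sum, Finset.sum_eq_zero, add_zero] at h0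
  · exact h0
  · intro i _
    rw [map_mul, aeval_X, (hb i).1, zero_mul]

/-- the invariant of `G` -/
noncomputable def MG {f : MvPolynomial (Fin n) k} (M : EMeas f R)
    {G : MvPolynomial (Fin (n + (κ + κ))) k} (θ : PAut k (n + (κ + κ)))
    (hG : θ (hyp f κ) = G) : EMeas G R :=
  pullM M (constr_Cs θ) (base_theta θ hG)

theorem jet_class {f : MvPolynomial (Fin n) k} (M : EMeas f R)
    {G : MvPolynomial (Fin (n + (κ + κ))) k} (θ : PAut k (n + (κ + κ)))
    (hG : θ (hyp f κ) = G) (hN : 0 < N) :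
    (MG M θ hG).χ _ (JetE G N) (jw _ N) N (jb _ N) =
      M.χ _ (Jh f κ N) (jw _ N) N (bx n κ N) := by
  set θa : MvPolynomial (Fin (n + (κ + κ))) k →ₐ[k] MvPolynomial (Fin (n + (κ + κ))) k :=
    (θ : MvPolynomial (Fin (n + (κ + κ))) k →ₐ[k] MvPolynomial (Fin (n + (κ + κ))) k) with ha
  set θb : MvPolynomial (Fin (n + (κ + κ))) k →ₐ[k] MvPolynomial (Fin (n + (κ + κ))) k :=
    (θ.symm : MvPolynomial (Fin (n + (κ + κ))) k →ₐ[k] MvPolynomial (Fin (n + (κ + κ))) k) with hb
  have hab : ∀ P, θa (θb P) = P := fun P => θ.apply_symm_apply P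
  have hba : ∀ P, θb (θa P) = P := fun P => θ.symm_apply_apply P
  have hθ : ∀ P, θ P = θa P := fun P => rfl
  have hGa : θa (hyp f κ) = G := hG
  have hGb : θb G = hyp f κ := by rw [← hGa, hba]
  -- values at the origin
  have hz : ∀ (w : Pt k (Fin (n + (κ + κ)) × Fin (N + 1))) (j : Fin (n + (κ + κ))),
      aeval (cbase (jb _ N) w) (θ (X j)) = tr θa w (j, 0) := by
    intro w j
    rw [← coeff0]
    rfl
  have hw : ∀ (w : Pt k (Fin (n + (κ + κ)) × Fin (N + 1))) (j : Fin (n + (κ + κ))),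
      aeval (cbase (jb _ N) (tr θb w)) (θ (X j)) = w (j, 0) := by
    intro w j
    rw [hz, tr_tr θb θa fun i => hba (X i)]
  refine (isoR M (valid_Jh f κ N hN) (valid_gr (constr_Cs θ) (base_theta θ hG) (jetValid G N hN))
    (fun w => Sum.elim (tr θb w) (fun j => w (xv κ j, 0)))
    (fun z => tr θa (fun i => z (Sum.inl i))) ?_ ?_ ?_ ?_ ?_ ?_ ?_ ?_).symm
  · refine regularOn_poly (fun p => ?_) _
    rcases p with p | j
    · exact IsPA.aeval (fun i z => arc z i) (fun i => isPA_arc i) (θb (X p.1)) p.2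
    · exact IsPF.coord _
  · refine regularOn_poly (fun p => ?_) _
    have h1 : IsPF (fun w : Pt k (Fin (n + (κ + κ)) × Fin (N + 1)) => tr θa w p) :=
      IsPA.aeval (fun i z => arc z i) (fun i => isPA_arc i) (θa (X p.1)) p.2
    exact IsPF.comp h1 (fun (z : Pt k ((Fin (n + (κ + κ)) × Fin (N + 1)) ⊕ Fin n)) i =>
      z (Sum.inl i)) fun i => IsPF.coord _
  · rintro w ⟨h1, h2⟩
    refine ⟨fun l hl => ?_, fun i => ⟨?_, ?_⟩, fun j => ?_⟩
    · show PowerSeries.coeff l (aeval (arc (tr θb w)) G) = _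
      rw [coeff_tr θb G w l hl, hGb]
      exact h2 l hl
    · show aeval (cbase (jb _ N) (tr θb w)) (θ (X (yv n i))) = 0
      rw [hw]
      exact (h1 i).1
    · show aeval (cbase (jb _ N) (tr θb w)) (θ (X (zv n i))) = 0
      rw [hw]
      exact (h1 i).2
    · show w (xv κ j, 0) = aeval (cbase (jb _ N) (tr θb w)) (θ (X (xv κ j)))
      rw [hw]
  · rintro z ⟨h1, h2, h3⟩
    refine ⟨fun i => ⟨?_, ?_⟩, fun l hl => ?_⟩
    · show tr θa (fun i => z (Sum.inl i)) (yv n i, 0) = 0
      rw [← hz]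
      exact (h2 i).1
    · show tr θa (fun i => z (Sum.inl i)) (zv n i, 0) = 0
      rw [← hz]
      exact (h2 i).2
    · rw [coeff_tr θa _ _ l hl, hGa]
      exact h1 l hl
  · intro w _
    exact tr_tr θb θa (fun i => hba (X i)) w
  · rintro z ⟨h1, h2, h3⟩
    funext p
    rcases p with p | j
    · exact congrFun (tr_tr θa θb (fun i => hab (X i)) (fun i => z (Sum.inl i))) p
    · show tr θa (fun i => z (Sum.inl i)) (xv κ j, 0) = z (Sum.inr j)
      rw [← hz]
      exact (h3 j).symm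
  · intro w _
    rfl
  · intro x _ w _
    rw [dact_gr]
    funext p
    rcases p with p | j
    · exact congrFun (tr_dact θb x w) p
    · show x ^ (jw _ N (xv κ j, (0 : Fin (N + 1)))) * w (xv κ j, 0) = w (xv κ j, 0)
      have h1 : jw (n + (κ + κ)) N (xv κ j, (0 : Fin (N + 1))) = 0 := rfl
      rw [h1, zpow_zero, one_mul]

/-- **The series of `G`.** -/
theorem ser_MG {f : MvPolynomial (Fin n) k} (M : EMeas f R) (y : Rˣ)
    {G : MvPolynomial (Fin (n + (κ + κ))) k} (θ : PAut k (n + (κ + κ)))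
    (hG : θ (hyp f κ) = G) : Pool.Agent.Y231.N4.serM (MG M θ hG) y = serh M y κ := by
  ext N
  unfold Pool.Agent.Y231.N4.serM serh ah
  rw [PowerSeries.coeff_mk, PowerSeries.coeff_mk]
  split_ifs with hN
  · rw [jet_class M θ hG hN]
  · rfl

end

end Pool.Agent.T6.H16.MR
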